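import Pool.Agent.W808.KY.Stm
import Pool.Agent.W808.KZ.T_ADJ

/-!
# Parity: two adjacent sectors have adjacent touching points at the boundary of the box
-/

set_option autoImplicit false

namespace Pool.Agent.W808.KY
open H974 H906.Cyl
open Pool.Agent.H160R2.ML (nm)
open Pool.Agent.W801.OU

namespace TADJ
open Pool.Agent.W808.KZ.TADJ

/-- the square is not removed and not the forced square at the tip -/
def okk (k : ℤ) (q : ℤ × ℤ) : Prop :=
  ¬ (q.2 < 0 ∧ q.1 = -1) ∧ ¬ (q.2 = -1 ∧ 0 ≤ q.1 ∧ q.1 < k)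

/-- the sides of the hole -/
def tipk (k : ℤ) (h : HE) : Prop :=
  (h.2 = 0 ∧ h.1.2 = 0 ∧ -1 ≤ h.1.1 ∧ h.1.1 < k) ∨ (h.2 = 2 ∧ h.1.2 = -1 ∧ h.1.1 = k) ∨
    (h.2 = 1 ∧ h.1.2 = -2 ∧ 0 ≤ h.1.1 ∧ h.1.1 < k) ∨ (h.2 = 3 ∧ h.1.2 = -1 ∧ h.1.1 = -2)

theorem okk_ok {k : ℤ} {q : ℤ × ℤ} (h : okk k q) : ok q := h.1

theorem tip0 {k s d : ℤ} : tipk k ((s, d), 0) ↔ d = 0 ∧ -1 ≤ s ∧ s < k := by
  unfold tipk; simp

theorem tip1 {k s d : ℤ} : tipk k ((s, d), 1) ↔ d = -2 ∧ 0 ≤ s ∧ s < k := by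
  unfold tipk; simp

theorem tip2 {k s d : ℤ} : tipk k ((s, d), 2) ↔ d = -1 ∧ s = k := by
  unfold tipk; simp

theorem tip3 {k s d : ℤ} : tipk k ((s, d), 3) ↔ d = -1 ∧ s = -2 := by
  unfold tipk; simp

theorem nb_ok' {k : ℤ} (k1 : 1 ≤ k) {h : HE} (hk : okk k h.1) (ht : ¬ tipk k h) :
    okk k (nb h).1 := by
  obtain ⟨⟨s, d⟩, j⟩ := h
  revert j
  refine fin4 _ ?_ ?_ ?_ ?_
  · intro hk ht
    rw [tip0] at ht
    simp only [okk, nb] at *
    omega
  · intro hk ht
    rw [tip1] at ht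
    simp only [okk, nb] at *
    omega
  · intro hk ht
    rw [tip2] at ht
    simp only [okk, nb] at *
    split_ifs with h1
    · exact ⟨fun h => absurd h.2 (by norm_num), fun h => absurd h.2.1 (by norm_num)⟩
    · simp only; omega
  · intro hk ht
    rw [tip3] at ht
    simp only [okk, nb] at *
    split_ifs with h1
    · refine ⟨fun h => absurd h.2 (by norm_num), fun h => ht ⟨h.1, h1.2⟩⟩
    · simp only; omega

theorem nb_tip' {k : ℤ} (k1 : 1 ≤ k) {h : HE} (hk : okk k h.1) : ¬ tipk k (nb h) := by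
  obtain ⟨⟨s, d⟩, j⟩ := h
  revert j
  refine fin4 _ ?_ ?_ ?_ ?_
  · intro hk
    simp only [nb]
    rw [tip1]
    simp only [okk] at hk
    omega
  · intro hk
    simp only [nb]
    rw [tip0]
    simp only [okk] at hk
    omega
  · intro hk
    simp only [okk] at hk
    simp only [nb]
    split_ifs with h1
    · rw [tip3]; omega
    · rw [tip3]; omega
  · intro hk
    simp only [okk] at hk
    simp only [nb]
    split_ifs with h1
    · rw [tip2]; omega
    · rw [tip2]; omega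

theorem nb_P' {k : ℤ} (k1 : 1 ≤ k) {h : HE} (hk : okk k h.1) (ht : ¬ tipk k h) :
    P1 (nb h) = P1 h ∧ P2 (nb h) = P2 h := by
  obtain ⟨⟨s, d⟩, j⟩ := h
  revert j
  refine fin4 _ ?_ ?_ ?_ ?_
  · intro hk ht
    rw [tip0] at ht
    simp only [okk, nb, P1, P2] at *
    constructor
    · apply co_congr (by ring)
      split_ifs <;> omega
    · apply co_congr (by ring)
      split_ifs <;> omega
  · intro hk ht
    rw [tip1] at ht
    simp only [okk, nb, P1, P2] at *
    constructor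
    · apply co_congr (by ring)
      split_ifs <;> omega
    · apply co_congr (by ring)
      split_ifs <;> omega
  · intro hk ht
    simp only [okk] at hk
    by_cases h1 : d < 0 ∧ s = 0
    · obtain ⟨h1, rfl⟩ := h1
      simp [nb, h1, P1, P2, co]
    · simp only [nb, if_neg h1, P1, P2, sub_add_cancel, and_self]
  · intro hk ht
    simp only [okk] at hk
    by_cases h1 : d < 0 ∧ s = -2
    · obtain ⟨h1, rfl⟩ := h1
      simp [nb, h1, P1, P2, co]
    · simp only [nb, if_neg h1, P1, P2, and_self]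

/-- squares near the tip are in the box -/
theorem box_mem {R k : ℕ} (k1 : 1 ≤ k) (hR : 2 * k + 2 ≤ R) {s d : ℤ} (h1 : -2 ≤ s) (h2 : s ≤ k)
    (h3 : -2 ≤ d) (h4 : d ≤ 0) : edz s d ∈ bxz (R : ℤ) := by
  unfold edz bxz
  split_ifs with h
  · simp only [Set.mem_ofPred_eq, src_mk, tgt_true, nm]
    refine ⟨max_le (abs_le.2 ⟨?_, ?_⟩) (abs_le.2 ⟨?_, ?_⟩),
      max_le (abs_le.2 ⟨?_, ?_⟩) (abs_le.2 ⟨?_, ?_⟩)⟩ <;> omega
  · simp only [Set.mem_ofPred_eq, src_mk, tgt_false, nm]
    refine ⟨max_le (abs_le.2 ⟨?_, ?_⟩) (abs_le.2 ⟨?_, ?_⟩),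
      max_le (abs_le.2 ⟨?_, ?_⟩) (abs_le.2 ⟨?_, ?_⟩)⟩ <;> omega

theorem mem_H0 {k : ℕ} {s d : ℤ} (h : okk k (s, d)) : edz s d ∈ H0 k := by
  unfold H0
  simp only [Set.mem_ofPred_eq, edz_s, edz_d]
  simp only [okk] at h
  omega

/-- the sides of the hole in cyclic order -/
def ts (k c : ℕ) : HE :=
  if c ≤ k then (((c : ℤ) - 1, 0), 0) else if c = k + 1 then (((k : ℤ), -1), 2)
  else if c ≤ 2 * k + 1 then ((2 * (k : ℤ) + 1 - c, -2), 1) else ((-2, -1), 3)

theorem ts_inj {k c c' : ℕ} (hc : c < 2 * k + 3) (hc' : c' < 2 * k + 3) (h : ts k c = ts k c') :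
    c = c' := by
  unfold ts at h
  split_ifs at h <;> simp only [Prod.mk.injEq] at h <;> omega

theorem ts_tip {k c : ℕ} (k1 : 1 ≤ k) (hc : c < 2 * k + 3) : tipk k (ts k c) := by
  unfold ts
  split_ifs
  · rw [tip0]; omega
  · rw [tip2]; omega
  · rw [tip1]; omega
  · rw [tip3]; omega

theorem tip_ts {k : ℕ} {h : HE} (ht : tipk k h) : ∃ c < 2 * k + 3, ts k c = h := by
  obtain ⟨⟨s, d⟩, j⟩ := h
  revert j
  refine fin4 _ ?_ ?_ ?_ ?_
  · intro ht
    rw [tip0] at ht
    refine ⟨(s + 1).toNat, by omega, ?_⟩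
    unfold ts
    rw [if_pos (by omega)]
    simp only [Prod.mk.injEq, and_true]
    omega
  · intro ht
    rw [tip1] at ht
    refine ⟨(2 * (k : ℤ) + 1 - s).toNat, by omega, ?_⟩
    unfold ts
    rw [if_neg (by omega), if_neg (by omega), if_pos (by omega)]
    simp only [Prod.mk.injEq, and_true]
    omega
  · intro ht
    rw [tip2] at ht
    refine ⟨k + 1, by omega, ?_⟩
    unfold ts
    rw [if_neg (by omega), if_pos rfl]
    simp only [Prod.mk.injEq, and_true]
    omega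
  · intro ht
    rw [tip3] at ht
    refine ⟨2 * k + 2, by omega, ?_⟩
    unfold ts
    rw [if_neg (by omega), if_neg (by omega), if_neg (by omega)]
    simp only [Prod.mk.injEq, and_true]
    omega

theorem ts_ok {k c : ℕ} : okk k (ts k c).1 := by
  unfold ts
  split_ifs
  · exact ⟨fun h => absurd h.1 (by norm_num), fun h => absurd h.1 (by norm_num)⟩
  · refine ⟨fun h => ?_, fun h => ?_⟩
    · have := h.2; simp only at this; omega
    · have := h.2.2; simp only at this; omega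
  · refine ⟨fun h => ?_, fun h => absurd h.1 (by norm_num)⟩
    have := h.2; simp only at this; omega
  · exact ⟨fun h => absurd h.2 (by norm_num), fun h => absurd h.2.1 (by norm_num)⟩

theorem ts_box {R k c : ℕ} (k1 : 1 ≤ k) (hR : 2 * k + 2 ≤ R) (hc : c < 2 * k + 3) :
    edz (ts k c).1.1 (ts k c).1.2 ∈ bxz (R : ℤ) := by
  unfold ts
  split_ifs
  · exact box_mem k1 hR (by simp only; omega) (by simp only; omega) (by simp only; omega)
      (by simp only; omega)
  · exact box_mem k1 hR (by simp only; omega) (by simp only; omega) (by simp only; omega)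
      (by simp only; omega)
  · exact box_mem k1 hR (by simp only; omega) (by simp only; omega) (by simp only; omega)
      (by simp only; omega)
  · exact box_mem k1 hR (by simp only; omega) (by simp only; omega) (by simp only; omega)
      (by simp only; omega)

theorem act_symm {A D : ℤ × ℤ → Prop} {x y : ℤ × ℤ} : act A D x y ↔ act A D y x := by
  unfold act; tauto

theorem scy1 {k c : ℕ} (h : c ≤ k + 1) : scy 0 k 0 c = ((c : ℤ) - 1, 0) := by
  unfold scy
  rw [if_pos h]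
  simp

theorem scy2 {k c : ℕ} (h : k + 1 < c) : scy 0 k 0 c = (2 * (k : ℤ) + 2 - c, -1) := by
  unfold scy
  rw [if_neg (by omega)]
  simp

/-- the first `2 k + 1` sides of the hole join consecutive sectors -/
theorem side {k c : ℕ} (k1 : 1 ≤ k) (hc : c < 2 * k + 1) (A D : ℤ × ℤ → Prop) :
    act A D (P1 (ts k c)) (P2 (ts k c)) ↔ act A D (scy 0 k 0 c) (scy 0 k 0 (c + 1)) := by
  by_cases h1 : c ≤ k
  · have e : ts k c = (((c : ℤ) - 1, 0), 0) := by unfold ts; rw [if_pos h1]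
    rw [e, scy1 (by omega), scy1 (by omega)]
    have e1 : P1 (((c : ℤ) - 1, 0), 0) = ((c : ℤ) - 1, 0) := by simp [P1, co]
    have e2 : P2 (((c : ℤ) - 1, 0), 0) = (((c + 1 : ℕ) : ℤ) - 1, 0) := by simp [P2, co]
    rw [e1, e2]
  by_cases h2 : c = k + 1
  · have e : ts k c = (((k : ℤ), -1), 2) := by unfold ts; rw [if_neg h1, if_pos h2]
    rw [e, scy1 (by omega), scy2 (by omega), act_symm]
    have k0 : (k : ℤ) ≠ 0 := by omega
    have e1 : P1 (((k : ℤ), -1), 2) = (2 * (k : ℤ) + 2 - ((c + 1 : ℕ) : ℤ), -1) := by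
      simp only [P1, co, k0, and_false, if_false, Prod.mk.injEq, and_true]
      omega
    have e2 : P2 (((k : ℤ), -1), 2) = ((c : ℤ) - 1, 0) := by
      simp only [P2, co, k0, and_false, if_false, Prod.mk.injEq]
      omega
    rw [e1, e2]
  · have e : ts k c = ((2 * (k : ℤ) + 1 - c, -2), 1) := by
      unfold ts; rw [if_neg h1, if_neg h2, if_pos (by omega)]
    rw [e, scy2 (by omega), scy2 (by omega), act_symm]
    have k0 : ¬ (2 * (k : ℤ) + 1 - c = 0) := by omega
    have k2 : ¬ (2 * (k : ℤ) + 1 - c + 1 = 0) := by omega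
    have e1 : P1 ((2 * (k : ℤ) + 1 - c, -2), 1) = (2 * (k : ℤ) + 2 - ((c + 1 : ℕ) : ℤ), -1) := by
      simp only [P1, co, k0, and_false, if_false, Prod.mk.injEq]
      omega
    have e2 : P2 ((2 * (k : ℤ) + 1 - c, -2), 1) = (2 * (k : ℤ) + 2 - c, -1) := by
      simp only [P2, co, k2, and_false, if_false, Prod.mk.injEq]
      omega
    rw [e1, e2]

/-- the square `(0, -1)` links `(-1, 0)` and `(1, -1)` -/
theorem forced {R k : ℕ} (k1 : 1 ≤ k) (hR : 2 * k + 2 ≤ R) (G : Set Edg) :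
    RB k R G (-1, 0) (1, -1) := by
  have h1 : edz 0 (-1) ∈ bxz (R : ℤ) := box_mem k1 hR (by norm_num) (by omega) (by norm_num)
    (by norm_num)
  have h2 : edz 0 (-1) ∈ H0 k := by
    unfold H0
    simp only [Set.mem_ofPred_eq, edz_s, edz_d]
    rintro ⟨_, h, _⟩
    omega
  have h3 : edz 0 (-1) ∈ E0 := by
    unfold E0
    simp only [Set.mem_ofPred_eq, edz_s, edz_d]
    exact ⟨trivial, trivial⟩
  have h4 : edz 0 (-1) ∉ zp {0} := by
    rw [mem_zp, not_not]
    unfold ok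
    simp
  obtain ⟨_, h5⟩ := diag 0 (-1) 1 (by decide)
  have e1 : co (-1) 0 (-1 + 1) = (-1, 0) := by decide
  have e2 : co (-1) (0 + 1) (-1) = (1, -1) := by decide
  rw [e1, e2, sub_self] at h5
  exact .rel _ _ ⟨_, ⟨h1, h2⟩, h4, Or.inl ⟨Or.inr h3, h5⟩⟩

theorem succ_mod {m c : ℕ} (hc : c < m) : (c + 1) % m = if c + 1 = m then 0 else c + 1 := by
  split_ifs with h
  · rw [h, Nat.mod_self]
  · exact Nat.mod_eq_of_lt (by omega)

theorem main (R k : ℕ) (G : Set Edg) (k1 : 1 ≤ k) (hR : 2 * k + 2 ≤ R)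
    (hn : ∀ c d : ℕ, c < 2 * k + 1 → d < 2 * k + 1 → c ≠ d →
      ¬ RB k R G (scy 0 k 0 c) (scy 0 k 0 d))
    (c d : ℕ) (hc : c < 2 * k + 1) (hd : d = (c + 1) % (2 * k + 1)) :
    ∃ (x y : ℤ × ℤ) (e e' : Edg), e ∉ bxz R ∧ e' ∈ bxz R ∧
    RB k R G (scy 0 k 0 c) x ∧ RB k R G (scy 0 k 0 d) y ∧ Two e x y ∧ Two e' x y := by
  classical
  by_contra hcon
  have hk1 : (1 : ℤ) ≤ k := by exact_mod_cast k1
  set A : ℤ × ℤ → Prop := RB k R G (scy 0 k 0 c) with hA
  set D : ℤ × ℤ → Prop := RB k R G (scy 0 k 0 d) with hD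
  set Q : Finset (ℤ × ℤ) := (Finset.Icc (-(2 * (R : ℤ) + 1)) (2 * R + 1) ×ˢ
    Finset.Icc (-(2 * (R : ℤ) + 1)) (2 * R + 1)).filter
      (fun q => edz q.1 q.2 ∈ bxz (R : ℤ) ∧ okk k q) with hQ
  have memQ : ∀ q : ℤ × ℤ, q ∈ Q ↔ edz q.1 q.2 ∈ bxz (R : ℤ) ∧ okk k q := by
    intro q
    rw [hQ, Finset.mem_filter, Finset.mem_product, Finset.mem_Icc, Finset.mem_Icc]
    constructor
    · exact fun h => h.2
    · intro h
      have := mem_box_bd h.1
      exact ⟨by omega, h⟩
  -- the sum over all the sides vanishes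
  have hsum : ∑ h ∈ Q ×ˢ (Finset.univ : Finset (Fin 4)), ind A D h = 0 := by
    rw [Finset.sum_product]
    apply Finset.sum_eq_zero
    rintro ⟨s, t⟩ hq
    rw [memQ] at hq
    apply sum4
    rcases link (bxz (R : ℤ) ∩ H0 k) (G ∪ E0) s t ⟨hq.1, mem_H0 hq.2⟩ (okk_ok hq.2) with h | h
    · left
      exact ⟨⟨fun h' => h'.trans _ _ _ (.rel _ _ h), fun h' => h'.trans _ _ _ (.symm _ _ (.rel _ _ h))⟩,
        ⟨fun h' => h'.trans _ _ _ (.rel _ _ h), fun h' => h'.trans _ _ _ (.symm _ _ (.rel _ _ h))⟩⟩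
    · right
      exact ⟨⟨fun h' => h'.trans _ _ _ (.rel _ _ h), fun h' => h'.trans _ _ _ (.symm _ _ (.rel _ _ h))⟩,
        ⟨fun h' => h'.trans _ _ _ (.rel _ _ h), fun h' => h'.trans _ _ _ (.symm _ _ (.rel _ _ h))⟩⟩
  -- split
  rw [← Finset.sum_filter_add_sum_filter_not _ (fun h => tipk k h)] at hsum
  -- the sides which are not at the tip
  have h2 : ∑ h ∈ (Q ×ˢ (Finset.univ : Finset (Fin 4))).filter (fun h => ¬ tipk k h),
      ind A D h = 0 := by
    have h3 : ∑ h ∈ (Q ×ˢ (Finset.univ : Finset (Fin 4))).filter (fun h => ¬ tipk k h),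
        ind A D h =
        ∑ h ∈ ((Q ×ˢ (Finset.univ : Finset (Fin 4))).filter (fun h => ¬ tipk k h)).filter
          (fun h => act A D (P1 h) (P2 h)), (1 : ZMod 2) := by
      rw [Finset.sum_filter (fun h => act A D (P1 h) (P2 h))]
      apply Finset.sum_congr rfl
      intro h _
      unfold Pool.Agent.W808.KZ.TADJ.ind iv
      rfl
    rw [h3]
    have hmem : ∀ h : HE, h ∈ ((Q ×ˢ (Finset.univ : Finset (Fin 4))).filter
          (fun h => ¬ tipk k h)).filter (fun h => act A D (P1 h) (P2 h)) ↔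
          (edz h.1.1 h.1.2 ∈ bxz (R : ℤ) ∧ okk k h.1) ∧ ¬ tipk k h ∧
            act A D (P1 h) (P2 h) := by
      intro h
      rw [Finset.mem_filter, Finset.mem_filter, Finset.mem_product, memQ]
      simp only [Finset.mem_univ, and_true]
      tauto
    apply Finset.sum_involution (fun h _ => nb h)
    · intro a ha; decide
    · intro a ha _; exact nb_ne a
    · intro h hh
      rw [hmem] at hh ⊢
      obtain ⟨⟨h4, h5⟩, h6, h7⟩ := hh
      have h8 := nb_ok' hk1 h5 h6
      obtain ⟨h9, h10⟩ := nb_P' hk1 h5 h6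
      refine ⟨⟨?_, h8⟩, nb_tip' hk1 h5, ?_⟩
      · by_contra hout
        apply hcon
        have hT := two_P (okk_ok h5)
        have hT' := two_P (okk_ok h8)
        rw [h9, h10] at hT'
        rcases h7 with ⟨h7, h7'⟩ | ⟨h7, h7'⟩
        · exact ⟨_, _, _, _, hout, h4, h7, h7', hT', hT⟩
        · exact ⟨_, _, _, _, hout, h4, h7, h7', hT'.symm, hT.symm⟩
      · rw [h9, h10]; exact h7
    · intro h hh
      rw [hmem] at hh
      exact nb_nb (okk_ok hh.1.2)
  rw [h2, add_zero] at hsum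
  -- the hole
  have h4 : (Q ×ˢ (Finset.univ : Finset (Fin 4))).filter (fun h => tipk k h) =
      (Finset.range (2 * k + 3)).image (ts k) := by
    ext h
    rw [Finset.mem_filter, Finset.mem_product, memQ, Finset.mem_image]
    simp only [Finset.mem_univ, and_true, Finset.mem_range]
    constructor
    · exact fun h => tip_ts h.2
    · rintro ⟨i, hi, rfl⟩
      exact ⟨⟨ts_box k1 hR hi, ts_ok⟩, ts_tip k1 hi⟩
  rw [h4, Finset.sum_image (fun i hi j hj hij => ts_inj (Finset.mem_range.1 hi)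
    (Finset.mem_range.1 hj) hij), Finset.sum_range_succ, Finset.sum_range_succ] at hsum
  -- values at the sectors
  have hm : 3 ≤ 2 * k + 1 := by omega
  have hd' : d < 2 * k + 1 := by rw [hd]; exact Nat.mod_lt _ (by omega)
  have hd'' := hd
  rw [succ_mod hc] at hd''
  have e0 : scy 0 k 0 0 = (-1, 0) := by rw [scy1 (by omega)]; simp
  have e1 : scy 0 k 0 (2 * k + 1) = (1, -1) := by
    rw [scy2 (by omega)]
    simp only [Prod.mk.injEq, and_true]
    push_cast
    ring
  have hf := forced k1 hR G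
  have hAf : A (1, -1) ↔ A (-1, 0) :=
    ⟨fun h' => h'.trans _ _ _ (.symm _ _ hf), fun h' => h'.trans _ _ _ hf⟩
  have hDf : D (1, -1) ↔ D (-1, 0) :=
    ⟨fun h' => h'.trans _ _ _ (.symm _ _ hf), fun h' => h'.trans _ _ _ hf⟩
  have hAv : ∀ i : ℕ, i < 2 * k + 1 → (A (scy 0 k 0 i) ↔ i = c) := by
    intro i hi
    constructor
    · intro h
      by_contra hne
      exact hn c i hc hi (fun h => hne h.symm) h
    · rintro rfl; exact .refl _
  have hDv : ∀ i : ℕ, i < 2 * k + 1 → (D (scy 0 k 0 i) ↔ i = d) := by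
    intro i hi
    constructor
    · intro h
      by_contra hne
      exact hn d i hd' hi (fun h => hne h.symm) h
    · rintro rfl; exact .refl _
  have hAs : ∀ i : ℕ, i < 2 * k + 1 → (A (scy 0 k 0 (i + 1)) ↔ (i + 1) % (2 * k + 1) = c) := by
    intro i hi
    rw [succ_mod hi]
    split_ifs with h
    · rw [h, e1, hAf, ← e0]
      exact hAv 0 (by omega)
    · exact hAv (i + 1) (by omega)
  have hDs : ∀ i : ℕ, i < 2 * k + 1 → (D (scy 0 k 0 (i + 1)) ↔ (i + 1) % (2 * k + 1) = d) := by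
    intro i hi
    rw [succ_mod hi]
    split_ifs with h
    · rw [h, e1, hDf, ← e0]
      exact hDv 0 (by omega)
    · exact hDv (i + 1) (by omega)
  have hone : ∑ i ∈ Finset.range (2 * k + 1), ind A D (ts k i) = 1 := by
    have h5 : ∀ i ∈ Finset.range (2 * k + 1), ind A D (ts k i) = if i = c then 1 else 0 := by
      intro i hi
      rw [Finset.mem_range] at hi
      unfold Pool.Agent.W808.KZ.TADJ.ind
      rw [iv_congr (side k1 hi A D)]
      have h6 : act A D (scy 0 k 0 i) (scy 0 k 0 (i + 1)) ↔ i = c := by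
        unfold act
        rw [hAv i hi, hDv i hi, hAs i hi, hDs i hi, succ_mod hi]
        split_ifs at hd'' ⊢ <;> omega
      rw [iv_congr h6]
      unfold iv
      split_ifs <;> rfl
    rw [Finset.sum_congr rfl h5, Finset.sum_ite_eq', if_pos (Finset.mem_range.2 hc)]
  have hlast : ind A D (ts k (2 * k + 1)) = ind A D (ts k (2 * k + 2)) := by
    have t1 : ts k (2 * k + 1) = ((0, -2), 1) := by
      unfold ts
      rw [if_neg (by omega), if_neg (by omega), if_pos (by omega)]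
      simp
    have t2 : ts k (2 * k + 2) = ((-2, -1), 3) := by
      unfold ts
      rw [if_neg (by omega), if_neg (by omega), if_neg (by omega)]
    rw [t1, t2]
    unfold Pool.Agent.W808.KZ.TADJ.ind
    apply iv_congr
    have p1 : P1 ((0, -2), 1) = (-1, -1) := by decide
    have p2 : P2 ((0, -2), 1) = (1, -1) := by decide
    have p3 : P1 ((-2, -1), 3) = (-1, -1) := by decide
    have p4 : P2 ((-2, -1), 3) = (-1, 0) := by decide
    rw [p1, p2, p3, p4]
    unfold act
    rw [hAf, hDf]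
  rw [hone, hlast, add_assoc] at hsum
  generalize ind A D (ts k (2 * k + 2)) = a at hsum
  revert a
  decide

end TADJ

theorem t_ADJ : S_ADJ := by
  intro R k G k1 hR hn c d hc hd
  exact TADJ.main R k G k1 hR hn c d hc hd

end Pool.Agent.W808.KY
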