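import Pool.Agent.W808.KY.Stm2
import Pool.Agent.W658.KZ.Coc

/-!
# The cocycle lemma and the non-adjacency lemma (`2 k + 1` legs)
(adapted from `Pool.Agent.W658.KZ.Coc`)
-/

set_option autoImplicit false

namespace Pool.Agent.W808.KY
open H974 H906.Cyl
open Pool.Agent.W801.OU (zp nrm Dg LZ RZ Cor bxz Zn)

namespace TCOC

open Pool.Agent.W658.KZ.TCOC (edz_s edz_d mem_Zn ps ps_succ ps_zero lf nrm_neg nrm_neg' zmod2_cases)

theorem md {n : ℕ} {q m : ℤ} (h0 : 0 ≤ m) (h1 : m < 2 * n) :
    (2 * n * q + m) % (2 * n : ℕ) = m := by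
  have h : (2 : ℤ) * n * q + m = m + ((2 * n : ℕ) : ℤ) * q := by push_cast; ring
  rw [h, Int.add_mul_emod_self_left]
  exact Int.emod_eq_of_lt h0 (by push_cast; exact h1)

theorem dec {n : ℕ} (hn : 0 < n) (s : ℤ) : ∃ q m : ℤ, s = 2 * n * q + m ∧ 0 ≤ m ∧ m < 2 * n := by
  have h2 : (0 : ℤ) < 2 * n := by exact_mod_cast (by omega : 0 < 2 * n)
  exact ⟨s / (2 * n), s % (2 * n), (Int.mul_ediv_add_emod s (2 * n)).symm,
    Int.emod_nonneg _ h2.ne', Int.emod_lt_of_pos _ h2⟩

theorem Zn_iff {n : ℕ} {q m : ℤ} (h0 : 0 ≤ m) (h1 : m < 2 * n) : 2 * n * q + m ∈ Zn n ↔ m = 0 := by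
  show (2 * n * q + m) % (2 * n : ℕ) = 0 ↔ m = 0
  rw [md h0 h1]

/-- one diagonal of each square is a link -/
theorem diag {n k : ℕ} {G : Set Edg} {e : Edg} (he : e ∉ zp (Zn n)) (hH : e ∈ Hn n k)
    (hE : e ∉ En n) :
    RY n k G (nrm (Zn n) (dco e) (e.1 + e.2.1) (dco e))
      (nrm (Zn n) (dco e) (e.1 + e.2.1 + 1) (dco e + 1)) ∨
    RY n k G (nrm (Zn n) (dco e) (e.1 + e.2.1) (dco e + 1))
      (nrm (Zn n) (dco e) (e.1 + e.2.1 + 1) (dco e)) := by
  by_cases hG : e ∈ G
  · rcases Int.emod_two_eq_zero_or_one (e.1 + e.2.1 + dco e) with h | h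
    · exact Or.inl (Relation.EqvGen.rel _ _ ⟨e, hH, he, Or.inl ⟨Or.inl hG, Dg.rise h⟩⟩)
    · exact Or.inr (Relation.EqvGen.rel _ _ ⟨e, hH, he, Or.inl ⟨Or.inl hG, Dg.fall (by omega)⟩⟩)
  · have hG' : e ∉ G ∪ En n := fun h => h.elim hG hE
    rcases Int.emod_two_eq_zero_or_one (e.1 + e.2.1 + dco e) with h | h
    · exact Or.inr (Relation.EqvGen.rel _ _ ⟨e, hH, he, Or.inr ⟨hG', Dg.fall (by omega)⟩⟩)
    · exact Or.inl (Relation.EqvGen.rel _ _ ⟨e, hH, he, Or.inr ⟨hG', Dg.rise h⟩⟩)

noncomputable def lam (Rel : ℤ × ℤ → ℤ × ℤ → Prop) (x y : ℤ × ℤ) : ZMod 2 := b2 (Rel x y)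

open Classical in
/-- the vertical increments; zero across the holes -/
noncomputable def vl (n k : ℕ) (Rel : ℤ × ℤ → ℤ × ℤ → Prop) (j i : ℤ) : ZMod 2 :=
  if i = -1 ∧ 1 ≤ j % (2 * n : ℕ) ∧ j % (2 * n : ℕ) < k then 0 else lam Rel (j, i) (j, i + 1)

noncomputable def pot (n k : ℕ) (Rel : ℤ × ℤ → ℤ × ℤ → Prop) (x : ℤ × ℤ) : ZMod 2 :=
  ps (fun i => lam Rel (i, 0) (i + 1, 0)) x.1 + ps (fun i => vl n k Rel x.1 i) x.2

section
variable {n k : ℕ} {G : Set Edg} {Rel : ℤ × ℤ → ℤ × ℤ → Prop}

theorem pot_v (j t : ℤ) : pot n k Rel (j, t + 1) = pot n k Rel (j, t) + vl n k Rel j t := by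
  unfold pot
  simp only
  rw [ps_succ]
  ring

theorem pot_h0 (j : ℤ) :
    pot n k Rel (j + 1, 0) = pot n k Rel (j, 0) + lam Rel (j, 0) (j + 1, 0) := by
  unfold pot
  simp only
  rw [ps_succ, ps_zero, ps_zero]
  ring

theorem vl_ne {j i : ℤ} (h : i ≠ -1) : vl n k Rel j i = lam Rel (j, i) (j, i + 1) := by
  unfold vl
  rw [if_neg (fun h' => h h'.1)]

theorem vl_ge {q m : ℤ} (h0 : 0 ≤ m) (h1 : m < 2 * n) (hm : m < 1 ∨ (k : ℤ) ≤ m) (i : ℤ) :
    vl n k Rel (2 * n * q + m) i = lam Rel (2 * n * q + m, i) (2 * n * q + m, i + 1) := by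
  unfold vl
  rw [if_neg]
  rw [md h0 h1]
  omega

theorem lam_symm (hs : ∀ x y, Rel x y → Rel y x) (x y : ℤ × ℤ) : lam Rel x y = lam Rel y x :=
  b2_congr ⟨hs x y, hs y x⟩

theorem lam_inv (hi : ∀ x x' y, RY n k G x x' → Rel x y → Rel x' y) {x x' : ℤ × ℤ}
    (h : RY n k G x x') (y : ℤ × ℤ) : lam Rel x y = lam Rel x' y :=
  b2_congr ⟨hi x x' y h, hi x' x y (Relation.EqvGen.symm _ _ h)⟩

/-- the sum over the four sides of a square -/
theorem square (hs : ∀ x y, Rel x y → Rel y x) (hi : ∀ x x' y, RY n k G x x' → Rel x y → Rel x' y)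
    {A B C' E : ℤ × ℤ} (h : RY n k G A E ∨ RY n k G C' B) :
    lam Rel A B + lam Rel B E + lam Rel C' E + lam Rel A C' = 0 := by
  rcases h with h | h
  · rw [lam_symm hs B E, ← lam_inv hi h B, lam_symm hs C' E, ← lam_inv hi h C']
    have h1 := zmod2_add_self (lam Rel A B)
    have h2 := zmod2_add_self (lam Rel A C')
    linear_combination h1 + h2
  · rw [lam_symm hs A C', lam_inv hi h A, lam_inv hi h E, lam_symm hs B A]
    have h1 := zmod2_add_self (lam Rel A B)
    have h2 := zmod2_add_self (lam Rel B E)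
    linear_combination h1 + h2

/-- rows `t ≥ 0` -/
theorem pot_up (hs : ∀ x y, Rel x y → Rel y x)
    (hi : ∀ x x' y, RY n k G x x' → Rel x y → Rel x' y) (d : ℕ) :
    ∀ s : ℤ, pot n k Rel (s, (d : ℤ)) + pot n k Rel (s + 1, (d : ℤ)) =
      lam Rel (s, (d : ℤ)) (s + 1, (d : ℤ)) := by
  induction d with
  | zero =>
    intro s
    simp only [Nat.cast_zero]
    rw [pot_h0]
    have := zmod2_add_self (pot n k Rel (s, 0))
    linear_combination this
  | succ d ih =>
    intro s
    have h0 : edz s d ∉ zp (Zn n) := by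
      rintro ⟨h, _⟩
      rw [edz_d] at h
      omega
    have hH : edz s d ∈ Hn n k := by
      rintro ⟨h, _⟩
      rw [edz_d] at h
      omega
    have hE : edz s d ∉ En n := by
      rintro ⟨h, _⟩
      rw [edz_d] at h
      omega
    have h1 := diag (G := G) h0 hH hE
    rw [edz_s, edz_d] at h1
    have hn : ∀ j t : ℤ, nrm (Zn n) (d : ℤ) j t = (j, t) := by
      intro j t
      unfold nrm
      rw [if_neg (by omega)]
    simp only [hn] at h1
    have h2 := square hs hi h1
    push_cast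
    rw [pot_v, pot_v, vl_ne (by omega), vl_ne (by omega)]
    have h3 := ih s
    have h4 := zmod2_add_self (lam Rel (s, (d : ℤ)) (s + 1, (d : ℤ)))
    have h5 := zmod2_add_self (lam Rel (s, (d : ℤ) + 1) (s + 1, (d : ℤ) + 1))
    linear_combination h3 + h2 - h5

/-! the sectors -/

theorem sec_top (ht : ∀ (s : ℤ) (c : ℕ), c < 2 * k + 1 →
      ¬ Rel (scy n k s c) (scy n k s ((c + 1) % (2 * k + 1)))) (hk : 1 ≤ k) (q i : ℤ)
    (h0 : -1 ≤ i) (h1 : i < k) : lam Rel (2 * n * q + i, 0) (2 * n * q + i + 1, 0) = 0 := by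
  have h := ht q (i + 1).toNat (by omega)
  have e1 : scy n k q (i + 1).toNat = (2 * n * q + i, 0) := by
    unfold scy
    rw [if_pos (by omega)]
    refine Prod.ext ?_ rfl
    simp only
    rw [Int.toNat_of_nonneg (by omega)]
    ring
  have e2 : scy n k q (((i + 1).toNat + 1) % (2 * k + 1)) = (2 * n * q + i + 1, 0) := by
    rw [Nat.mod_eq_of_lt (by omega)]
    unfold scy
    rw [if_pos (by omega)]
    refine Prod.ext ?_ rfl
    simp only
    push_cast
    rw [Int.toNat_of_nonneg (by omega)]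
    ring
  rw [e1, e2] at h
  exact b2_not_of h

theorem sec_side (ht : ∀ (s : ℤ) (c : ℕ), c < 2 * k + 1 →
      ¬ Rel (scy n k s c) (scy n k s ((c + 1) % (2 * k + 1)))) (hk : 2 ≤ k) (q : ℤ) :
    lam Rel (2 * n * q + k, 0) (2 * n * q + k, -1) = 0 := by
  have h := ht q (k + 1) (by omega)
  have e1 : scy n k q (k + 1) = (2 * n * q + k, 0) := by
    unfold scy
    rw [if_pos le_rfl]
    refine Prod.ext ?_ rfl
    simp only
    push_cast
    ring
  have e2 : scy n k q ((k + 1 + 1) % (2 * k + 1)) = (2 * n * q + k, -1) := by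
    rw [Nat.mod_eq_of_lt (by omega)]
    unfold scy
    rw [if_neg (by omega)]
    refine Prod.ext ?_ rfl
    simp only
    push_cast
    ring
  rw [e1, e2] at h
  exact b2_not_of h

theorem sec_bot (ht : ∀ (s : ℤ) (c : ℕ), c < 2 * k + 1 →
      ¬ Rel (scy n k s c) (scy n k s ((c + 1) % (2 * k + 1)))) (q i : ℤ)
    (h0 : 2 ≤ i) (h1 : i < k) : lam Rel (2 * n * q + i + 1, -1) (2 * n * q + i, -1) = 0 := by
  have h := ht q (2 * k + 1 - i.toNat) (by omega)
  have e1 : scy n k q (2 * k + 1 - i.toNat) = (2 * n * q + i + 1, -1) := by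
    unfold scy
    rw [if_neg (by omega)]
    refine Prod.ext ?_ rfl
    simp only
    have : ((2 * k + 1 - i.toNat : ℕ) : ℤ) = 2 * k + 1 - i := by omega
    rw [this]
    ring
  have e2 : scy n k q ((2 * k + 1 - i.toNat + 1) % (2 * k + 1)) = (2 * n * q + i, -1) := by
    rw [Nat.mod_eq_of_lt (by omega)]
    unfold scy
    rw [if_neg (by omega)]
    refine Prod.ext ?_ rfl
    simp only
    have : ((2 * k + 1 - i.toNat + 1 : ℕ) : ℤ) = 2 * k + 2 - i := by omega
    rw [this]
    ring
  rw [e1, e2] at h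
  exact b2_not_of h

/-- the link of the forced square -/
theorem forced (hn : 1 ≤ n) (q : ℤ) : RY n k G (2 * n * q - 1, 0) (2 * n * q + 1, -1) := by
  have hZ : (2 : ℤ) * n * q ∈ Zn n := mem_Zn.2 ⟨q, rfl⟩
  have hZ1 : (2 : ℤ) * n * q + 1 ∉ Zn n := by
    rw [Zn_iff (by norm_num) (by omega)]
    norm_num
  have hmod : (2 * (n : ℤ) * q) % (2 * n : ℕ) = 0 := hZ
  have h0 : edz (2 * n * q) (-1) ∉ zp (Zn n) := by
    rintro ⟨_, h⟩
    rw [edz_s] at h
    exact hZ1 h
  have hH : edz (2 * n * q) (-1) ∈ Hn n k := by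
    rintro ⟨_, h, _⟩
    rw [edz_s, hmod] at h
    omega
  have hE : edz (2 * n * q) (-1) ∈ En n := by
    refine ⟨edz_d _ _, ?_⟩
    rw [edz_s]
    exact hmod
  have hpar : ((edz (2 * n * q) (-1)).1 + (edz (2 * n * q) (-1)).2.1 +
      dco (edz (2 * n * q) (-1))) % 2 = 1 - 0 := by
    rw [edz_s, edz_d]
    have : (2 : ℤ) * n * q + -1 = 2 * (n * q) + -1 := by ring
    rw [this]
    omega
  have h1 : LZ (Zn n) (Hn n k) (G ∪ En n) _ _ :=
    ⟨edz (2 * n * q) (-1), hH, h0, Or.inl ⟨Or.inr hE, Dg.fall hpar⟩⟩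
  rw [edz_s, edz_d, nrm_neg (by norm_num), nrm_neg' hZ1] at h1
  unfold lf at h1
  rw [if_pos hZ, neg_add_cancel] at h1
  exact Relation.EqvGen.rel _ _ h1

/-- the increments across the hole -/
theorem vl0 (hs : ∀ x y, Rel x y → Rel y x)
    (hi : ∀ x x' y, RY n k G x x' → Rel x y → Rel x' y)
    (ht : ∀ (s : ℤ) (c : ℕ), c < 2 * k + 1 →
      ¬ Rel (scy n k s c) (scy n k s ((c + 1) % (2 * k + 1)))) (hk : 1 ≤ k)
    (hkn : 2 * k + 2 ≤ n) (q i : ℤ) (h0 : 1 ≤ i) (h1 : i ≤ k) :
    vl n k Rel (2 * n * q + i) (-1) = 0 := by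
  rcases lt_or_eq_of_le h1 with h | h
  · unfold vl
    rw [if_pos]
    rw [md (by omega) (by omega)]
    exact ⟨rfl, h0, h⟩
  · rw [vl_ge (by omega) (by omega) (Or.inr h.ge), neg_add_cancel, lam_symm hs]
    rcases Nat.lt_or_ge k 2 with h2 | h2
    · have hk1 : k = 1 := by omega
      subst hk1
      have hi1 : i = 1 := by rw [h]; rfl
      rw [hi1, lam_symm hs, ← lam_inv hi (forced (by omega) q), lam_symm hs]
      have h3 := ht q 2 (by norm_num)
      have e1 : scy n 1 q 2 = (2 * n * q + 1, 0) := by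
        unfold scy
        rw [if_pos (by norm_num)]
        refine Prod.ext ?_ rfl
        simp only
        push_cast
        ring
      have e2 : scy n 1 q ((2 + 1) % (2 * 1 + 1)) = (2 * n * q - 1, 0) := by
        unfold scy
        rw [if_pos (by norm_num)]
        refine Prod.ext ?_ rfl
        simp only
        push_cast
        norm_num
      rw [e1, e2] at h3
      exact b2_not_of h3
    · rw [h]
      exact sec_side ht h2 q

theorem pot_lf {s t : ℤ} (ht : t ≠ -1) : pot n k Rel (lf n s (t + 1)) = pot n k Rel (lf n s t) +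
    lam Rel (lf n s t) (lf n s (t + 1)) := by
  unfold lf
  split_ifs
  · rw [pot_v, vl_ne ht]
  · rw [pot_v, vl_ne ht]

/-- the row `-1` -/
theorem pot_m1 (hs : ∀ x y, Rel x y → Rel y x)
    (hi : ∀ x x' y, RY n k G x x' → Rel x y → Rel x' y)
    (ht : ∀ (s : ℤ) (c : ℕ), c < 2 * k + 1 →
      ¬ Rel (scy n k s c) (scy n k s ((c + 1) % (2 * k + 1)))) (hk : 1 ≤ k)
    (hkn : 2 * k + 2 ≤ n) (s : ℤ) (hs1 : s + 1 ∉ Zn n) :
    pot n k Rel (lf n s (-1)) + pot n k Rel (s + 1, -1) = lam Rel (lf n s (-1)) (s + 1, -1) := by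
  obtain ⟨q, m, rfl, hm0, hm1⟩ := dec (by omega : 0 < n) s
  rcases lt_or_ge m 1 with h | h
  · -- the forced square
    have hm : m = 0 := by omega
    subst hm
    simp only [add_zero] at hs1 ⊢
    unfold lf
    rw [if_pos (mem_Zn.2 ⟨q, rfl⟩)]
    have k1 := pot_v (n := n) (k := k) (Rel := Rel) (2 * n * q - 1) (-1)
    have e1 : (2 : ℤ) * n * q - 1 = 2 * n * (q - 1) + (2 * n - 1) := by ring
    have k2 : vl n k Rel (2 * n * q - 1) (-1) =
        lam Rel (2 * n * q - 1, -1) (2 * n * q - 1, -1 + 1) := by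
      rw [e1]
      exact vl_ge (by omega) (by omega) (Or.inr (by omega)) (-1)
    have k3 := pot_v (n := n) (k := k) (Rel := Rel) (2 * n * q + 1) (-1)
    rw [vl0 hs hi ht hk hkn q 1 le_rfl (by omega)] at k3
    rw [k2] at k1
    rw [neg_add_cancel] at k1 k3
    have k4 := pot_h0 (n := n) (k := k) (Rel := Rel) (2 * n * q)
    have k5 := pot_h0 (n := n) (k := k) (Rel := Rel) (2 * n * q - 1)
    have s1 := sec_top ht hk q 0 (by norm_num) (by omega)
    have s2 := sec_top ht hk q (-1) le_rfl (by omega)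
    rw [add_zero] at s1
    have e3 : (2 : ℤ) * n * q + -1 = 2 * n * q - 1 := by ring
    rw [e3] at s2
    rw [sub_add_cancel] at k5 s2
    rw [s1] at k4
    rw [s2] at k5
    have k6 : lam Rel (2 * n * q - 1, -1) (2 * n * q - 1, 0) =
        lam Rel (2 * n * q - 1, -1) (2 * n * q + 1, -1) := by
      rw [lam_symm hs, lam_inv hi (forced (by omega) q), lam_symm hs]
    rw [k6] at k1
    have h7 := zmod2_add_self (pot n k Rel (2 * n * q - 1, -1))
    linear_combination h7 - k3 + k4 + k5 + k1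
  · have hnZ : 2 * n * q + m ∉ Zn n := by
      rw [Zn_iff hm0 hm1]
      omega
    have elf : ∀ t : ℤ, lf n (2 * n * q + m) t = (2 * n * q + m, t) := by
      intro t
      unfold lf
      rw [if_neg hnZ]
    rcases lt_or_ge m k with h2 | h2
    · rw [elf]
      have k1 := pot_v (n := n) (k := k) (Rel := Rel) (2 * n * q + m) (-1)
      have k2 := pot_v (n := n) (k := k) (Rel := Rel) (2 * n * q + m + 1) (-1)
      rw [vl0 hs hi ht hk hkn q m h h2.le] at k1
      have e1 : (2 : ℤ) * n * q + m + 1 = 2 * n * q + (m + 1) := by ring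
      have k3 := vl0 hs hi ht hk hkn q (m + 1) (by omega) (by omega)
      rw [← e1] at k3
      rw [k3] at k2
      rw [neg_add_cancel] at k1 k2
      have k4 := pot_h0 (n := n) (k := k) (Rel := Rel) (2 * n * q + m)
      rw [sec_top ht hk q m (by omega) h2] at k4
      have k5 : lam Rel (2 * n * q + m, -1) (2 * n * q + m + 1, -1) = 0 := by
        rcases lt_or_ge m 2 with h3 | h3
        · have hm : m = 1 := by omega
          subst hm
          have h4 := ht q (2 * k) (by omega)
          have e3 : scy n k q (2 * k) = (2 * n * q + 1 + 1, -1) := by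
            unfold scy
            rw [if_neg (by omega)]
            refine Prod.ext ?_ rfl
            simp only
            push_cast
            ring
          have e4 : scy n k q ((2 * k + 1) % (2 * k + 1)) = (2 * n * q - 1, 0) := by
            rw [Nat.mod_self]
            unfold scy
            rw [if_pos (by omega)]
            refine Prod.ext ?_ rfl
            simp only
            push_cast
            ring
          rw [e3, e4] at h4
          rw [← lam_inv hi (forced (by omega) q), lam_symm hs]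
          exact b2_not_of h4
        · rw [lam_symm hs]
          exact sec_bot ht q m h3 h2
      rw [k5]
      have h7 := zmod2_add_self (pot n k Rel (2 * n * q + m, 0))
      linear_combination h7 - k1 - k2 + k4
    · have h0 : edz (2 * n * q + m) (-1) ∉ zp (Zn n) := by
        rintro ⟨_, h⟩
        rw [edz_s] at h
        exact hs1 h
      have hH : edz (2 * n * q + m) (-1) ∈ Hn n k := by
        rintro ⟨_, _, h⟩
        rw [edz_s, md hm0 hm1] at h
        omega
      have hE : edz (2 * n * q + m) (-1) ∉ En n := by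
        rintro ⟨_, h⟩
        rw [edz_s, md hm0 hm1] at h
        omega
      have h1 := diag (G := G) h0 hH hE
      rw [edz_s, edz_d, nrm_neg (by norm_num) (2 * n * q + m), nrm_neg (by norm_num) (2 * n * q + m),
        nrm_neg' hs1, nrm_neg' hs1, neg_add_cancel, elf, elf] at h1
      have h3 := square hs hi h1
      rw [elf]
      have hm2 : m + 1 < 2 * n := by
        by_contra hcon
        apply hs1
        refine mem_Zn.2 ⟨q + 1, ?_⟩
        have : m = 2 * n - 1 := by omega
        rw [this]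
        ring
      have k1 := pot_v (n := n) (k := k) (Rel := Rel) (2 * n * q + m) (-1)
      have k2 := pot_v (n := n) (k := k) (Rel := Rel) (2 * n * q + m + 1) (-1)
      rw [vl_ge hm0 hm1 (Or.inr h2)] at k1
      have e1 : (2 : ℤ) * n * q + m + 1 = 2 * n * q + (m + 1) := by ring
      have k3 := vl_ge (n := n) (k := k) (Rel := Rel) (q := q) (m := m + 1) (by omega) hm2
        (Or.inr (by omega)) (-1)
      rw [← e1] at k3
      rw [k3] at k2
      rw [neg_add_cancel] at k1 k2
      have k4 := pot_h0 (n := n) (k := k) (Rel := Rel) (2 * n * q + m)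
      have h7 := zmod2_add_self (pot n k Rel (2 * n * q + m, -1))
      have h8 := zmod2_add_self (pot n k Rel (2 * n * q + m, 0))
      have h9 := zmod2_add_self (lam Rel (2 * n * q + m, -1) (2 * n * q + m, 0))
      have h10 := zmod2_add_self (lam Rel (2 * n * q + m + 1, -1) (2 * n * q + m + 1, 0))
      have h11 := zmod2_add_self (lam Rel (2 * n * q + m, -1) (2 * n * q + m + 1, -1))
      linear_combination h8 - k1 - k2 + k4 + h3 - h11 - h9 - h10

/-- rows `t < 0` -/
theorem pot_dn (hs : ∀ x y, Rel x y → Rel y x)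
    (hi : ∀ x x' y, RY n k G x x' → Rel x y → Rel x' y)
    (ht : ∀ (s : ℤ) (c : ℕ), c < 2 * k + 1 →
      ¬ Rel (scy n k s c) (scy n k s ((c + 1) % (2 * k + 1)))) (hk : 1 ≤ k)
    (hkn : 2 * k + 2 ≤ n) (d : ℕ) :
    ∀ s : ℤ, s + 1 ∉ Zn n → pot n k Rel (lf n s (-1 - (d : ℤ))) + pot n k Rel (s + 1, -1 - (d : ℤ)) =
      lam Rel (lf n s (-1 - (d : ℤ))) (s + 1, -1 - (d : ℤ)) := by
  induction d with
  | zero =>
    intro s hs1
    simp only [Nat.cast_zero, sub_zero]
    exact pot_m1 hs hi ht hk hkn s hs1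
  | succ d ih =>
    intro s hs1
    push_cast
    set t : ℤ := -1 - ((d : ℤ) + 1) with htd
    have e1 : -1 - (d : ℤ) = t + 1 := by rw [htd]; ring
    rw [e1] at ih
    have hneg : t < 0 := by omega
    have hne : t ≠ -1 := by omega
    have h0 : edz s t ∉ zp (Zn n) := by
      rintro ⟨_, h⟩
      rw [edz_s] at h
      exact hs1 h
    have hH : edz s t ∈ Hn n k := by
      rintro ⟨h, _⟩
      rw [edz_d] at h
      omega
    have hE : edz s t ∉ En n := by
      rintro ⟨h, _⟩
      rw [edz_d] at h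
      omega
    have h1 := diag (G := G) h0 hH hE
    rw [edz_s, edz_d] at h1
    rw [nrm_neg hneg s, nrm_neg hneg s, nrm_neg' hs1, nrm_neg' hs1] at h1
    have h2 := square hs hi h1
    have h3 := ih s hs1
    rw [pot_lf hne, pot_v, vl_ne hne] at h3
    have h4 := zmod2_add_self (lam Rel (lf n s (t + 1)) (s + 1, t + 1))
    have h5 := zmod2_add_self (lam Rel (lf n s t) (s + 1, t))
    have h6 := zmod2_add_self (lam Rel (lf n s t) (lf n s (t + 1)))
    have h7 := zmod2_add_self (lam Rel (s + 1, t) (s + 1, t + 1))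
    linear_combination h3 + h2 - h5 - h6 - h7

/-- the sides -/
theorem pot_side (hs : ∀ x y, Rel x y → Rel y x)
    (hi : ∀ x x' y, RY n k G x x' → Rel x y → Rel x' y)
    (ht : ∀ (s : ℤ) (c : ℕ), c < 2 * k + 1 →
      ¬ Rel (scy n k s c) (scy n k s ((c + 1) % (2 * k + 1)))) (hk : 1 ≤ k)
    (hkn : 2 * k + 2 ≤ n) {x y : ℤ × ℤ} (h : Sidy n k x y) :
    pot n k Rel x + pot n k Rel y = lam Rel x y := by
  -- squares of the row `-1`
  have geo : ∀ e : Edg, e ∉ zp (Zn n) → e ∈ Hn n k → e ∉ En n → dco e = -1 →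
      ∃ q m : ℤ, e.1 + e.2.1 = 2 * n * q + m ∧ (k : ℤ) ≤ m ∧ m + 1 < 2 * n := by
    intro e he hH hE hd
    obtain ⟨q, m, h1, h2, h3⟩ := dec (by omega : 0 < n) (e.1 + e.2.1)
    refine ⟨q, m, h1, ?_, ?_⟩
    · by_contra hcon
      rcases lt_or_ge m 1 with h4 | h4
      · apply hE
        refine ⟨hd, ?_⟩
        rw [h1, md h2 h3]
        omega
      · apply hH
        refine ⟨hd, ?_, ?_⟩
        · rw [h1, md h2 h3]
          exact h4
        · rw [h1, md h2 h3]
          omega
    · by_contra hcon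
      apply he
      refine ⟨by omega, mem_Zn.2 ⟨q + 1, ?_⟩⟩
      have : m = 2 * n - 1 := by omega
      rw [h1, this]
      ring
  have hor : ∀ (s d t : ℤ), ¬ (d < 0 ∧ s + 1 ∈ Zn n) → (t = d ∨ t = d + 1) →
      (d = -1 → s ∉ Zn n ∨ t = d) →
      pot n k Rel (nrm (Zn n) d s t) + pot n k Rel (nrm (Zn n) d (s + 1) t) =
        lam Rel (nrm (Zn n) d s t) (nrm (Zn n) d (s + 1) t) := by
    intro s d t hd htd hex
    rcases lt_or_ge d 0 with h | h
    · have h1 : s + 1 ∉ Zn n := fun h' => hd ⟨h, h'⟩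
      rcases lt_or_ge t 0 with h3 | h3
      · rw [nrm_neg h, nrm_neg' h1]
        have h2 := pot_dn hs hi ht hk hkn (-1 - t).toNat s h1
        have e1 : -1 - (((-1 - t).toNat : ℕ) : ℤ) = t := by omega
        rw [e1] at h2
        exact h2
      · have hd1 : d = -1 := by omega
        have ht0 : t = 0 := by omega
        have hsZ : s ∉ Zn n := by
          rcases hex hd1 with h4 | h4
          · exact h4
          · omega
        rw [nrm_neg' hsZ, nrm_neg' h1, ht0, pot_h0]
        have := zmod2_add_self (pot n k Rel (s, 0))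
        linear_combination this
    · have hn : ∀ j : ℤ, nrm (Zn n) d j t = (j, t) := by
        intro j
        unfold nrm
        rw [if_neg (by omega)]
      rw [hn, hn]
      have h2 := pot_up hs hi t.toNat s
      have e1 : ((t.toNat : ℕ) : ℤ) = t := by omega
      rw [e1] at h2
      exact h2
  have ver0 : ∀ j d : ℤ, vl n k Rel j d = lam Rel (j, d) (j, d + 1) →
      pot n k Rel (j, d) + pot n k Rel (j, d + 1) = lam Rel (j, d) (j, d + 1) := by
    intro j d h
    rw [pot_v, h]
    have := zmod2_add_self (pot n k Rel (j, d))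
    linear_combination this
  cases h with
  | bot e he hH hE => exact hor _ _ _ he (Or.inl rfl) (fun _ => Or.inr rfl)
  | top e he hH hE =>
    refine hor _ _ _ he (Or.inr rfl) (fun hd => Or.inl fun hZ => hE ⟨hd, hZ⟩)
  | lft e he hH hE =>
    unfold nrm
    split_ifs with h
    · refine ver0 _ _ (vl_ne fun hd => hE ⟨hd, h.2⟩)
    · refine ver0 _ _ ?_
      by_cases hd : dco e = -1
      · obtain ⟨q, m, h1, h2, h3⟩ := geo e he hH hE hd
        rw [h1]
        exact vl_ge (by omega) (by omega) (Or.inr h2) _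
      · exact vl_ne hd
  | rgt e he hH hE =>
    unfold nrm
    split_ifs with h
    · exact absurd h he
    · refine ver0 _ _ ?_
      by_cases hd : dco e = -1
      · obtain ⟨q, m, h1, h2, h3⟩ := geo e he hH hE hd
        rw [h1, add_assoc]
        exact vl_ge (by omega) h3 (Or.inr (by omega)) _
      · exact vl_ne hd

end

end TCOC

open TCOC in
open Pool.Agent.W658.KZ.TCOC (edz_s edz_d mem_Zn ps ps_succ ps_zero lf nrm_neg nrm_neg' zmod2_cases) in
/-- **the cocycle lemma** -/
theorem t_COC : S_COC := by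
  intro n k G Rel hk hkn hs hi ht
  have key : ∀ x y, Sidy n k x y → pot n k Rel x + pot n k Rel y = lam Rel x y :=
    fun x y h => pot_side hs hi ht hk hkn h
  have link : ∀ x y, RY n k G x y → pot n k Rel x = pot n k Rel y := by
    intro x y h
    induction h with
    | refl x => rfl
    | symm x y _ ih => exact ih.symm
    | trans x y z _ _ ih1 ih2 => exact ih1.trans ih2
    | rel x y h =>
      have hxy : RY n k G x y := Relation.EqvGen.rel _ _ h
      obtain ⟨e, hH, he, h1⟩ := h
      by_cases hE : e ∈ En n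
      · -- the forced square
        have hD : Dg (Zn n) 0 e x y := by
          rcases h1 with h1 | h1
          · exact h1.2
          · exact absurd (Or.inr hE) h1.1
        obtain ⟨q, hq⟩ := mem_Zn.1 (show e.1 + e.2.1 ∈ Zn n from hE.2)
        have hd : dco e = -1 := hE.1
        have hZ1 : e.1 + e.2.1 + 1 ∉ Zn n := fun h => he ⟨by omega, h⟩
        have hZ : e.1 + e.2.1 ∈ Zn n := hE.2
        cases hD with
        | rise h =>
          exfalso
          rw [hq, hd] at h
          have : (2 : ℤ) * n * q + -1 = 2 * (n * q) + -1 := by ring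
          rw [this] at h
          omega
        | fall h =>
          rw [hd, nrm_neg (by norm_num), nrm_neg' hZ1, neg_add_cancel]
          unfold lf
          rw [if_pos hZ, hq]
          have k3 := pot_v (n := n) (k := k) (Rel := Rel) (2 * n * q + 1) (-1)
          rw [vl0 hs hi ht hk hkn q 1 le_rfl (by omega), neg_add_cancel, add_zero] at k3
          have k4 := pot_h0 (n := n) (k := k) (Rel := Rel) (2 * n * q)
          have k5 := pot_h0 (n := n) (k := k) (Rel := Rel) (2 * n * q - 1)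
          have s1 := sec_top ht hk q 0 (by norm_num) (by omega)
          have s2 := sec_top ht hk q (-1) le_rfl (by omega)
          rw [add_zero] at s1
          have e3 : (2 : ℤ) * n * q + -1 = 2 * n * q - 1 := by ring
          rw [e3] at s2
          rw [sub_add_cancel] at k5 s2
          rw [s1] at k4
          rw [s2] at k5
          rw [← k3, k4, k5, add_zero, add_zero]
      · have hD : ∃ c : ℤ, Dg (Zn n) c e x y := by
          rcases h1 with h1 | h1
          · exact ⟨0, h1.2⟩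
          · exact ⟨1, h1.2⟩
        obtain ⟨c, hD⟩ := hD
        cases hD with
        | rise _ =>
          have k1 := key _ _ (Sidy.bot e he hH hE)
          have k2 := key _ _ (Sidy.rgt e he hH hE)
          rw [lam_inv hi hxy, lam_symm hs] at k1
          linear_combination k1 - k2
        | fall _ =>
          have k1 := key _ _ (Sidy.lft e he hH hE)
          have k2 := key _ _ (Sidy.bot e he hH hE)
          rw [lam_symm hs, lam_inv hi hxy, lam_symm hs] at k1
          linear_combination k1 - k2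
  refine ⟨fun x => pot n k Rel x = 0, ?_, ?_⟩
  · intro x y h
    show pot n k Rel x = 0 ↔ pot n k Rel y = 0
    rw [link x y h]
  · intro x y h
    have h1 := key x y h
    show Rel x y ↔ ¬ (pot n k Rel x = 0 ↔ pot n k Rel y = 0)
    by_cases hR : Rel x y
    · have h2 : lam Rel x y = 1 := b2_of hR
      rw [h2] at h1
      refine ⟨fun _ => ?_, fun _ => hR⟩
      intro h3
      rcases zmod2_cases (pot n k Rel x) with h4 | h4
      · have h5 := h3.1 h4
        rw [h4, h5] at h1
        exact absurd h1 (by decide)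
      · rcases zmod2_cases (pot n k Rel y) with h5 | h5
        · have h6 := h3.2 h5
          rw [h6] at h4
          exact absurd h4 (by decide)
        · rw [h4, h5] at h1
          exact absurd h1 (by decide)
    · have h2 : lam Rel x y = 0 := b2_not_of hR
      rw [h2] at h1
      refine ⟨fun h => absurd h hR, fun h => ?_⟩
      exfalso
      apply h
      have h3 : pot n k Rel x = pot n k Rel y := by
        have := zmod2_add_self (pot n k Rel y)
        linear_combination h1 - this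
      rw [h3]

namespace TCOC
open Pool.Agent.W808.KZ.Per

theorem mod_te {n : ℕ} (q : ℤ) (e : Edg) :
    ((te n q e).1 + (te n q e).2.1) % (2 * n : ℕ) = (e.1 + e.2.1) % (2 * n : ℕ) := by
  rw [sum_te]
  have h : e.1 + e.2.1 + 2 * (n : ℤ) * q = e.1 + e.2.1 + ((2 * n : ℕ) : ℤ) * q := by push_cast; ring
  rw [h, Int.add_mul_emod_self_left]

theorem Hn_te {n k : ℕ} (q : ℤ) (e : Edg) : te n q e ∈ Hn n k ↔ e ∈ Hn n k := by
  show ¬ (dco (te n q e) = -1 ∧ 1 ≤ ((te n q e).1 + (te n q e).2.1) % (2 * n : ℕ) ∧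
    ((te n q e).1 + (te n q e).2.1) % (2 * n : ℕ) < k) ↔ ¬ (dco e = -1 ∧
    1 ≤ (e.1 + e.2.1) % (2 * n : ℕ) ∧ (e.1 + e.2.1) % (2 * n : ℕ) < k)
  rw [dco_te, mod_te]

theorem En_te {n : ℕ} (q : ℤ) (e : Edg) : te n q e ∈ En n ↔ e ∈ En n := by
  show (dco (te n q e) = -1 ∧ ((te n q e).1 + (te n q e).2.1) % (2 * n : ℕ) = 0) ↔
    (dco e = -1 ∧ (e.1 + e.2.1) % (2 * n : ℕ) = 0)
  rw [dco_te, mod_te]

/-- connections -/
theorem RY_tp {n k : ℕ} (hn : 0 < n) (F : Finset Edg) {x y : ℤ × ℤ} (q : ℤ)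
    (h : RY n k (per n F) x y) : RY n k (per n F) (tp n q x) (tp n q y) :=
  RZ_tp (fun q e => Hn_te q e) (fun q e => or_congr (per_te hn F q e) (En_te q e)) q h

theorem tp_scy (n k : ℕ) (q s : ℤ) (c : ℕ) : tp n q (scy n k s c) = scy n k (s + q) c := by
  unfold tp scy
  split_ifs
  · exact Prod.ext (by simp only; ring) rfl
  · exact Prod.ext (by simp only; ring) rfl

end TCOC

open TCOC in
open Pool.Agent.W808.KZ.Per in
/-- **adjacent points are in different clusters** -/
theorem t_NA : S_COC → S_NA := by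
  intro hCOC n k F hk hkn hG x y hxy h
  obtain ⟨φ, h1, h2⟩ := hCOC n k (per n F)
    (fun a b => RY n k (per n F) x a ∧ RY n k (per n F) x b) hk hkn
    (fun a b h => ⟨h.2, h.1⟩)
    (fun a a' b h h' => ⟨Relation.EqvGen.trans _ _ _ h'.1 h, h'.2⟩)
    (by
      rintro s c hc ⟨h3, h4⟩
      have h5 : RY n k (per n F) (scy n k s c) (scy n k s ((c + 1) % (2 * k + 1))) :=
        Relation.EqvGen.trans _ _ _ (Relation.EqvGen.symm _ _ h3) h4
      have h6 := RY_tp (by omega : 0 < n) F (-s) h5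
      rw [tp_scy, tp_scy, add_neg_cancel] at h6
      refine (hG c hc).1 ((c + 1) % (2 * k + 1)) (Nat.mod_lt _ (by omega)) ?_ h6
      intro heq
      rcases Nat.lt_or_ge (c + 1) (2 * k + 1) with h7 | h7
      · rw [Nat.mod_eq_of_lt h7] at heq
        omega
      · have h8 : c + 1 = 2 * k + 1 := by omega
        rw [h8, Nat.mod_self] at heq
        omega)
  exact (h2 x y hxy).1 ⟨Relation.EqvGen.refl _, h⟩ (h1 x y h)

end Pool.Agent.W808.KY
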