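import Pool.Agent.W808.KY.T_MON
import Pool.Agent.W808.KZ.T_DEC

/-!
# DEC: the leg event implies the arm event in a smaller box (dislocated plane, `2 k + 1` legs)
-/

set_option autoImplicit false

namespace Pool.Agent.W808.KY
open H974 H906.Cyl
open Pool.Agent.H160R2.ML (nm)
open Pool.Agent.W801.OU (zp nrm Dg LZ RZ Cor bxz Zn)
open Pool.Agent.H160R2.MU.TMON (nm_le_iff nm_tgt_le nm_src_le mem_box box_mono)
open Pool.Agent.W808.KZ.TMON (bxz_sub_box bxz_mono LZ_mono RZ_mono LZ_congr RZ_congr RZ_inv LZ_cor)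
open Pool.Agent.W808.KZ.TDEC (mem_Zn_iff nrm_eq zp_iff Dg_iff Cor_iff nrm_fst Dg_fst Cor_fst bxz_bd
  near)

namespace TDEC

/-- in a part of the box the two geometries agree -/
theorem LZ_eq {n R : ℕ} (hR : 1 ≤ R) (hn : 4 * R ≤ n) {B G : Set Edg} (hB : B ⊆ bxz (R : ℤ)) :
    LZ {0} B G = LZ (Zn n) B G := by
  funext x y
  apply propext
  unfold Pool.Agent.W801.OU.LZ
  refine exists_congr fun e => ?_
  constructor
  · rintro ⟨he, h1, h2⟩
    have h3 := bxz_bd (hB he)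
    refine ⟨he, fun h4 => h1 ((zp_iff (by omega) (by omega)).1 h4), ?_⟩
    rwa [Dg_iff (by omega) (by omega), Dg_iff (by omega) (by omega)]
  · rintro ⟨he, h1, h2⟩
    have h3 := bxz_bd (hB he)
    refine ⟨he, fun h4 => h1 ((zp_iff (by omega) (by omega)).2 h4), ?_⟩
    rwa [Dg_iff (by omega) (by omega), Dg_iff (by omega) (by omega)] at h2

theorem RZ_eq {n R : ℕ} (hR : 1 ≤ R) (hn : 4 * R ≤ n) {B G : Set Edg} (hB : B ⊆ bxz (R : ℤ)) :
    RZ {0} B G = RZ (Zn n) B G := by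
  unfold Pool.Agent.W801.OU.RZ
  rw [LZ_eq hR hn hB]

/-- residues near the tip -/
theorem emod_near {n R : ℕ} {s : ℤ} (hn : 4 * R ≤ n) (hR : 1 ≤ R) (h1 : -(2 * R : ℤ) ≤ s)
    (h2 : s ≤ 2 * R) :
    (0 ≤ s ∧ s % ((2 * n : ℕ) : ℤ) = s) ∨ (s < 0 ∧ s % ((2 * n : ℕ) : ℤ) = s + 2 * n) := by
  rcases lt_or_ge s 0 with h | h
  · right
    refine ⟨h, ?_⟩
    rw [← Int.add_emod_right, Int.emod_eq_of_lt] <;> push_cast <;> omega
  · left
    refine ⟨h, ?_⟩
    apply Int.emod_eq_of_lt h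
    push_cast
    omega

theorem Hn_iff {n R k : ℕ} {e : Edg} (hR : 2 * k + 2 ≤ R) (hn : 4 * R ≤ n)
    (he : e ∈ bxz (R : ℤ)) : e ∈ H0 k ↔ e ∈ Hn n k := by
  have h3 := bxz_bd he
  simp only [H0, Hn, Set.mem_ofPred_eq]
  rcases emod_near (s := e.1 + e.2.1) hn (by omega) (by omega) (by omega) with h | h <;>
    rw [h.2] <;> omega

theorem En_iff {n R : ℕ} {e : Edg} (hR : 1 ≤ R) (hn : 4 * R ≤ n)
    (he : e ∈ bxz (R : ℤ)) : e ∈ E0 ↔ e ∈ En n := by
  have h3 := bxz_bd he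
  simp only [E0, En, Set.mem_ofPred_eq]
  rcases emod_near (s := e.1 + e.2.1) hn (by omega) (by omega) (by omega) with h | h <;>
    rw [h.2] <;> omega

/-- the connection in the box of the plane is the one of the box of the cylinder -/
theorem RB_eq {n R k : ℕ} (hR : 2 * k + 2 ≤ R) (hn : 4 * R ≤ n) {G : Set Edg} :
    RB k (R : ℤ) G = RZ (Zn n) (bxz (R : ℤ) ∩ Hn n k) (G ∪ En n) := by
  unfold RB
  have h1 : bxz (R : ℤ) ∩ H0 k = bxz (R : ℤ) ∩ Hn n k := by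
    ext e
    exact and_congr_right fun he => Hn_iff hR hn he
  rw [h1, RZ_eq (n := n) (by omega) hn Set.inter_subset_left]
  apply RZ_congr
  intro e he
  exact or_congr Iff.rfl (En_iff (by omega) hn he.1)

theorem scy0 (n k c : ℕ) : scy 0 k 0 c = scy n k 0 c := by
  simp [scy]

theorem scy_fst (n k : ℕ) (s : ℤ) (c : ℕ) (hc : c < 2 * k + 1) :
    2 * (n : ℤ) * s - 1 ≤ (scy n k s c).1 ∧ (scy n k s c).1 ≤ 2 * n * s + (k + 1) := by
  unfold scy
  split_ifs with h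
  · exact ⟨by simp only; omega, by simp only; omega⟩
  · exact ⟨by simp only; omega, by simp only; omega⟩

end TDEC

open TDEC in
theorem t_DEC : S_DEC := by
  intro n M k R hk hR hn hM B F hB hF hBF hG
  have h1 : ∀ e ∈ bxz (R : ℤ), (e ∈ per n F ↔ e ∈ per n B) := fun e he =>
    (hBF e (bxz_sub_box he)).symm
  have h2 : RB k (R : ℤ) (per n F) = RZ (Zn n) (bxz (R : ℤ) ∩ Hn n k) (per n B ∪ En n) := by
    rw [TMON.RB_congr h1, RB_eq hR hn]
  refine ⟨fun c d hc hd hcd hcon => ?_, fun c hc => ?_⟩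
  · rw [h2, scy0 n k c, scy0 n k d] at hcon
    exact (hG c hc).1 d hd (Ne.symm hcd) (RZ_mono Set.inter_subset_right hcon)
  · obtain ⟨s, hs, d, hd, hr⟩ := (hG c hc).2
    by_contra hno
    rw [h2, scy0 n k c] at hno
    have hs0 : |(scy n k 0 c).1| ≤ 2 * R + 1 := by
      have := scy_fst n k 0 c hc
      rw [mul_zero] at this
      exact abs_le.2 ⟨by omega, by omega⟩
    have hnear : ∀ x, RZ (Zn n) (bxz (R : ℤ) ∩ Hn n k) (per n B ∪ En n) (scy n k 0 c) x →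
        |x.1| ≤ 2 * R + 1 := fun x hx => near (RZ_mono Set.inter_subset_left hx) hs0
    have h3 : ∀ x, RZ (Zn n) (bxz (R : ℤ) ∩ Hn n k) (per n B ∪ En n) (scy n k 0 c) x →
        ∀ e ∈ Hn n k, e ∉ bxz (R : ℤ) ∩ Hn n k → ¬ (Cor (Zn n) 0 e x ∨ Cor (Zn n) 1 e x) := by
      intro x hx e heH he hcor
      have he' : e ∉ bxz (R : ℤ) := fun h => he ⟨h, heH⟩
      have h4 := abs_le.1 (hnear x hx)
      have h5 : e.1 + e.2.1 - 1 ≤ x.1 ∧ x.1 ≤ e.1 + e.2.1 + 1 := by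
        rcases hcor with h | h <;> exact Cor_fst h
      rw [Cor_iff (by omega) (by omega), Cor_iff (by omega) (by omega)] at hcor
      exact hno ⟨x, hx, e, he', hcor⟩
    have h6 := TMON.exit h3 hr
    have h7 := abs_le.1 (hnear _ h6)
    have h8 := scy_fst n k s d hd
    rcases lt_or_gt_of_ne hs with h9 | h9
    · have : (2 * n : ℤ) * s ≤ 2 * n * (-1) :=
        mul_le_mul_of_nonneg_left (by omega) (by positivity)
      omega
    · have : (2 * n : ℤ) * 1 ≤ 2 * n * s :=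
        mul_le_mul_of_nonneg_left (by omega) (by positivity)
      omega

end Pool.Agent.W808.KY
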