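import Pool.Agent.W808.KY.Stm
import Pool.Agent.W808.KZ.T_DET
import Pool.Agent.W808.KU.T_DET

/-!
Task DET of project KY: landing implies the leg event (by helper215).
-/

set_option autoImplicit false

namespace Pool.Agent.W808.KY
open H974 H906.Cyl
open H12S (Dir hbE segD rimE H4 Crs Nr sqE)
open Pool.Agent.H160R2.ML (nm)
open Pool.Agent.H160R2.MU (Cel csq cpos prd shf BxS Bxs EP inSq PC Bad Cc)
open Pool.Agent.W808.HU (PTr labC)
open Pool.Agent.W801.OU (zp nrm Dg LZ RZ Cor bxz Zn)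
open Pool.Agent.W808.KU (AdmS TubeS CrrS)
open Pool.Agent.W808.KZ (vp fp nrp BZ mrg)
open Pool.Agent.H160R2.MU.TDET (she shv dco_she src_she tgt_she red_she red_eq red_of_mem csq_out
  nm_le box_sq sq_near inSq_shift sqE_inSq sqE_shift shf_shf Bxs_shift EP_shift EP_shift_iff box_EP
  shv_sub)
open Pool.Agent.W808.KZ.TDET (shp vp_shv Zn_shift nrm_shift col_she Dg_shift zp_shift Zn_small
  nrm_small Dg_small Dg_vp)
open Pool.Agent.W808.KU.TDET (Crr_shift lab_inj partner)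

namespace TDET

/-! ### translations -/

theorem vp_inj {v w : Vtx} (h : vp v = vp w) : v = w := by
  simp only [vp, Prod.mk.injEq] at h
  exact Prod.ext (by omega) (by omega)

theorem shp_shp (n : ℕ) (s t : ℤ) (x : ℤ × ℤ) : shp n s (shp n t x) = shp n (s + t) x := by
  simp only [shp, Prod.mk.injEq, and_true]; ring

theorem shp_zero (n : ℕ) (x : ℤ × ℤ) : shp n 0 x = x := by
  simp [shp]

theorem shp_neg (n : ℕ) (s : ℤ) (x : ℤ × ℤ) : shp n s (shp n (-s) x) = x := by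
  rw [shp_shp, add_neg_cancel, shp_zero]

theorem shp_neg' (n : ℕ) (s : ℤ) (x : ℤ × ℤ) : shp n (-s) (shp n s x) = x := by
  rw [shp_shp, neg_add_cancel, shp_zero]

theorem she_she (n : ℕ) (s t : ℤ) (e : Edg) : she n s (she n t e) = she n (s + t) e := by
  simp only [she, Prod.mk.injEq, and_true]; constructor <;> ring

theorem she_zero (n : ℕ) (e : Edg) : she n 0 e = e := by
  obtain ⟨x, y, b⟩ := e
  simp [she]

theorem she_neg (n : ℕ) (s : ℤ) (e : Edg) : she n s (she n (-s) e) = e := by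
  rw [she_she, add_neg_cancel, she_zero]

theorem she_neg' (n : ℕ) (s : ℤ) (e : Edg) : she n (-s) (she n s e) = e := by
  rw [she_she, neg_add_cancel, she_zero]

theorem scy_shp (n k : ℕ) (s : ℤ) (i : ℕ) : scy n k s i = shp n s (scy 0 k 0 i) := by
  unfold scy shp
  split_ifs
  · simp only [Prod.mk.injEq, and_true]
    push_cast
    ring
  · simp only [Prod.mk.injEq, and_true]
    push_cast
    ring

/-! ### corners -/

theorem Dg_inv {Z : Set ℤ} {q : ℤ} {e : Edg} {x y : ℤ × ℤ} (h : Dg Z q e x y ∨ Dg Z q e y x) :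
    ∃ j t : ℤ, x = nrm Z (dco e) j t ∧ (j = e.1 + e.2.1 ∨ j = e.1 + e.2.1 + 1) ∧
      (t = dco e ∨ t = dco e + 1) ∧ (j + t) % 2 = q := by
  rcases h with h | h
  · cases h with
    | rise hp => exact ⟨_, _, rfl, Or.inl rfl, Or.inl rfl, hp⟩
    | fall hp => exact ⟨_, _, rfl, Or.inl rfl, Or.inr rfl, by omega⟩
  · cases h with
    | rise hp => exact ⟨_, _, rfl, Or.inr rfl, Or.inr rfl, by omega⟩
    | fall hp => exact ⟨_, _, rfl, Or.inr rfl, Or.inl rfl, by omega⟩

theorem nrm_inv (Z : Set ℤ) (d j t : ℤ) :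
    nrm Z d j t = (j, t) ∨ (d < 0 ∧ j ∈ Z ∧ nrm Z d j t = (j - 1, t)) := by
  unfold nrm
  by_cases h : d < 0 ∧ j ∈ Z
  · rw [if_pos h]; exact Or.inr ⟨h.1, h.2, rfl⟩
  · rw [if_neg h]; exact Or.inl rfl

theorem vtx_cor {Z : Set ℤ} {q : ℤ} {e : Edg} {w : Vtx} {y : ℤ × ℤ}
    (h : Dg Z q e (vp w) y ∨ Dg Z q e y (vp w)) (hz : w.1 + w.2 + 1 ∈ Z → 0 < w.1 - w.2) :
    q = 0 ∧ (w = src e ∨ w = tgt e) := by
  obtain ⟨j, t, h1, h2, h3, h4⟩ := Dg_inv h
  rcases nrm_inv Z (dco e) j t with h5 | ⟨h5, h6, h7⟩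
  · rw [h5] at h1
    simp only [vp, Prod.mk.injEq] at h1
    obtain ⟨a1, a2⟩ := h1
    have hq : q = 0 := by omega
    refine ⟨hq, ?_⟩
    subst hq
    obtain ⟨x, y', _ | _⟩ := e
    · simp only [dco, Bool.false_eq_true, if_false] at h2 h3
      rw [src_mk, tgt_false]
      rcases h2 with h2 | h2 <;> rcases h3 with h3 | h3
      · exfalso; omega
      · left; exact Prod.ext (by simp only; omega) (by simp only; omega)
      · right; exact Prod.ext (by simp only; omega) (by simp only; omega)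
      · exfalso; omega
    · simp only [dco, if_true] at h2 h3
      rw [src_mk, tgt_true]
      rcases h2 with h2 | h2 <;> rcases h3 with h3 | h3
      · left; exact Prod.ext (by simp only; omega) (by simp only; omega)
      · exfalso; omega
      · exfalso; omega
      · right; exact Prod.ext (by simp only; omega) (by simp only; omega)
  · rw [h7] at h1
    simp only [vp, Prod.mk.injEq] at h1
    obtain ⟨a1, a2⟩ := h1
    have a3 : w.1 + w.2 + 1 = j := by omega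
    have a4 := hz (by rw [a3]; exact h6)
    exfalso
    omega

theorem Dg_vp_inv {Z : Set ℤ} {e : Edg} {x y : ℤ × ℤ} (h1 : ¬ (dco e < 0 ∧ e.1 + e.2.1 ∈ Z))
    (h2 : ¬ (dco e < 0 ∧ e.1 + e.2.1 + 1 ∈ Z)) (h : Dg Z 0 e x y) :
    x = vp (src e) ∧ y = vp (tgt e) := by
  cases h with
  | rise hp =>
    unfold nrm
    rw [if_neg h1, if_neg h2]
    obtain ⟨a, b, _ | _⟩ := e
    · simp only [dco, Bool.false_eq_true, if_false] at hp
      omega
    · simp only [vp, src_mk, tgt_true, dco, if_true, Prod.mk.injEq, true_and, and_true]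
      omega
  | fall hp =>
    unfold nrm
    rw [if_neg h1, if_neg h2]
    obtain ⟨a, b, _ | _⟩ := e
    · simp only [vp, src_mk, tgt_false, dco, Bool.false_eq_true, if_false, Prod.mk.injEq,
        true_and, and_true]
      omega
    · simp only [dco, if_true] at hp
      omega

/-- the reverse of `Dg_small` -/
theorem Dg_small' {n : ℕ} {c : ℤ} {e : Edg} {x y : ℤ × ℤ} (h1 : -(2 * (n : ℤ)) < e.1 + e.2.1)
    (h2 : e.1 + e.2.1 + 1 < 2 * n) (h : Dg (Zn n) c e x y) : Dg {0} c e x y := by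
  cases h with
  | rise hp =>
    have := Dg.rise (Z := {0}) (c := c) (e := e) hp
    rw [← nrm_small (n := n) (by omega) (by omega), ← nrm_small (n := n) (by omega) (by omega)]
      at this
    exact this
  | fall hp =>
    have := Dg.fall (Z := {0}) (c := c) (e := e) hp
    rw [← nrm_small (n := n) (by omega) (by omega), ← nrm_small (n := n) (by omega) (by omega)]
      at this
    exact this

/-- corners of the squares of the box -/
def Cb (R : ℤ) (x : ℤ × ℤ) : Prop :=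
  ∃ e ∈ bxz R, ∃ (q : ℤ) (y : ℤ × ℤ), Dg {0} q e x y ∨ Dg {0} q e y x

theorem RB_cb {k : ℕ} {R : ℤ} {G : Set Edg} {x y : ℤ × ℤ} (h : RB k R G x y) :
    x = y ∨ (Cb R x ∧ Cb R y) := by
  unfold RB RZ at h
  induction h with
  | rel x y h =>
    obtain ⟨e, he, -, h⟩ := h
    rcases h with ⟨-, h⟩ | ⟨-, h⟩
    · exact Or.inr ⟨⟨e, he.1, 0, y, Or.inl h⟩, ⟨e, he.1, 0, x, Or.inr h⟩⟩
    · exact Or.inr ⟨⟨e, he.1, 1, y, Or.inl h⟩, ⟨e, he.1, 1, x, Or.inr h⟩⟩
  | refl x => exact Or.inl rfl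
  | symm x y _ ih =>
    rcases ih with ih | ih
    · exact Or.inl ih.symm
    · exact Or.inr ⟨ih.2, ih.1⟩
  | trans x y z _ _ ih1 ih2 =>
    rcases ih1 with ih1 | ih1
    · rw [ih1]; exact ih2
    · rcases ih2 with ih2 | ih2
      · rw [← ih2]; exact Or.inr ih1
      · exact Or.inr ⟨ih1.1, ih2.2⟩

theorem bxz_bd {R : ℤ} {e : Edg} (h : e ∈ bxz R) :
    (-R ≤ e.1 ∧ e.1 ≤ R) ∧ (-R ≤ e.2.1 ∧ e.2.1 ≤ R) := by
  have h5 := h.1
  rw [nm_le] at h5
  exact h5

theorem cb_bd {R : ℤ} {x : ℤ × ℤ} (h : Cb R x) : |x.1| ≤ 2 * R + 1 := by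
  obtain ⟨e, he, q, y, h⟩ := h
  obtain ⟨j, t, h1, h2, h3, h4⟩ := Dg_inv h
  obtain ⟨⟨b1, b2⟩, b3, b4⟩ := bxz_bd he
  rw [abs_le]
  rcases nrm_inv {0} (dco e) j t with h7 | ⟨-, -, h7⟩
  · rw [h7] at h1
    rw [h1]
    simp only
    constructor <;> omega
  · rw [h7] at h1
    rw [h1]
    simp only
    constructor <;> omega

/-! ### the data -/

/-- the data -/
structure D (N r k : ℕ) (c : Fin k → Cel) (n M : ℕ) (F : Finset Edg) : Prop where
  h1 : KU.S_k1
  h2 : KU.S_k2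
  h3 : KU.S_k3
  h4 : KU.S_k4
  h5 : KU.S_k5
  hk : 2 ≤ k
  hN : k + 16 ≤ N
  hr : 2 * k + 4 ≤ r
  hc : AdmS N k c
  hn : n = prd N k * r
  hM : M = 4 * n
  hF : F ⊆ CE n M
  sep : ∀ a (v : Vtx), atC N r (c a) v → ∀ b (w : Vtx), b ≠ a → atC N r (c b) w →
    ¬ RB k (N * r : ℕ) (per n F) (vp w) (vp v)
  out : ∀ a (v : Vtx), atC N r (c a) v → ∀ (x : ℤ × ℤ) (e : Edg), e ∉ bxz (N * r : ℕ) →
    Cor {0} 1 e x → ¬ RB k (N * r : ℕ) (per n F) x (vp v)

variable {N r k : ℕ} {c : Fin k → Cel} {n M : ℕ} {F : Finset Edg}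

theorem D.hN4 (d : D N r k c n M F) : k + 4 ≤ N := by
  have := d.hN
  omega

theorem D.hnr (d : D N r k c n M F) : (n : ℤ) = 4 * ((N * r : ℕ) : ℤ) + 16 * (k * r) := by
  rw [d.hn]; unfold prd; push_cast; ring

theorem D.R0 (d : D N r k c n M F) : 36 * (k : ℤ) + 72 ≤ ((N * r : ℕ) : ℤ) := by
  have h1 := d.hN
  have h2 := d.hr
  have h3 := d.hk
  have : 18 * (2 * k + 4) ≤ N * r := Nat.mul_le_mul (by omega) h2
  have h4 : ((18 * (2 * k + 4) : ℕ) : ℤ) ≤ ((N * r : ℕ) : ℤ) := by exact_mod_cast this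
  push_cast at h4 ⊢
  linarith

theorem D.n4 (d : D N r k c n M F) : 4 * ((N * r : ℕ) : ℤ) ≤ n := by
  rw [d.hnr]
  have : (0 : ℤ) ≤ 16 * (k * r) := by positivity
  linarith

theorem D.n0 (d : D N r k c n M F) : 0 < n := by
  have h1 := d.n4
  have h2 := d.R0
  omega

theorem Bper : ∀ z ∈ Bxs N k, ∀ s, shf N k s z ∈ Bxs N k := fun _ h s => Bxs_shift s h

theorem Tper : ∀ z ∈ CrrS N k c, ∀ s, shf N k s z ∈ CrrS N k c := fun _ h s => Crr_shift s h

theorem mem_FA {e : Edg} : e ∈ FA N r k c n M F ↔ e ∈ CE n M ∧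
    ((e ∈ EB N r k ∧ e ∈ F) ∨ (e ∉ EB N r k ∧ e ∈ ET N r k c)) := by
  classical
  unfold FA
  simp only [Finset.mem_filter]

/-- the edges of the periodic configuration -/
theorem D.mem (d : D N r k c n M F) {e : Edg} : e ∈ per n (FA N r k c n M F) ↔
    red n e ∈ CE n M ∧ ((e ∈ EB N r k ∧ e ∈ per n F) ∨ (e ∉ EB N r k ∧ e ∈ ET N r k c)) := by
  show red n e ∈ FA N r k c n M F ↔ _
  rw [mem_FA]
  have h3 := red_eq n e
  set q := -((e.1 + e.2.1) / (2 * (n : ℤ)))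
  have h4 : e ∈ per n F ↔ red n e ∈ F := Iff.rfl
  rw [h4]
  rw [show (red n e ∈ EB N r k ↔ e ∈ EB N r k) by
    rw [h3]; exact EP_shift_iff d.hn Bper _, show (red n e ∈ ET N r k c ↔ e ∈ ET N r k c) by
    rw [h3]; exact EP_shift_iff d.hn Tper _]

/-- in a box -/
theorem D.mem_box (d : D N r k c n M F) {e : Edg} (he : e ∈ EB N r k) :
    e ∈ per n (FA N r k c n M F) ↔ e ∈ per n F := by
  rw [d.mem]
  constructor
  · rintro ⟨-, ⟨-, h⟩ | ⟨h, -⟩⟩
    · exact h
    · exact absurd he h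
  · intro h
    exact ⟨d.hF h, Or.inl ⟨he, h⟩⟩

theorem D.bxz_EB (d : D N r k c n M F) {e : Edg} (he : e ∈ bxz (N * r : ℕ)) (s : ℤ) :
    she n s e ∈ EB N r k := by
  have h1 := d.hN
  have h2 := d.hr
  exact EP_shift d.hn Bper s (box_EP (by omega) (by omega) he.1 he.2)

/-- a square of a box -/
theorem D.EB_bxz (d : D N r k c n M F) {e : Edg} (he : e ∈ EB N r k) :
    ∃ s : ℤ, she n (-s) e ∈ bxz (N * r : ℕ) := by
  obtain ⟨z, ⟨s, hz⟩, hez⟩ := he
  obtain ⟨h1, h2⟩ := sqE_inSq hez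
  have hbox : ∀ u : Vtx, inSq r z u → nm (u.1 - s * n, u.2 - s * n) ≤ (N * r : ℕ) := by
    intro u hu
    rw [← inSq_shift d.hn z u s] at hu
    have hz' : -(N : ℤ) ≤ (shf N k s z).1 ∧ (shf N k s z).1 < N ∧
      -(N : ℤ) ≤ (shf N k s z).2 ∧ (shf N k s z).2 < N := hz
    generalize shf N k s z = b at hu hz'
    obtain ⟨a1, a2, a3, a4⟩ := hu
    rw [nm_le]
    have hr' : (0 : ℤ) < r := by have := d.hr; omega
    push_cast
    simp only at a1 a2 a3 a4 ⊢
    refine ⟨⟨?_, ?_⟩, ?_, ?_⟩ <;> nlinarith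
  refine ⟨s, ?_, ?_⟩
  · rw [src_she]
    have : shv n (-s) (src e) = ((src e).1 - s * n, (src e).2 - s * n) := by
      simp only [shv, Prod.mk.injEq]; constructor <;> ring
    rw [this]
    exact hbox _ h1
  · rw [tgt_she]
    have : shv n (-s) (tgt e) = ((tgt e).1 - s * n, (tgt e).2 - s * n) := by
      simp only [shv, Prod.mk.injEq]; constructor <;> ring
    rw [this]
    exact hbox _ h2

/-- the links of a box -/
theorem D.lnk (d : D N r k c n M F) (s : ℤ) {e : Edg} (he : e ∈ bxz (N * r : ℕ)) :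
    (she n s e ∈ per n (FA N r k c n M F) ∪ En n ↔ e ∈ per n F ∪ E0) ∧
    (she n s e ∈ Hn n k ↔ e ∈ H0 k) ∧ (she n s e ∈ zp (Zn n) ↔ e ∈ zp {0}) ∧
    (∀ (q : ℤ) (x y : ℤ × ℤ), Dg (Zn n) q (she n s e) (shp n s x) (shp n s y) ↔ Dg {0} q e x y) := by
  obtain ⟨⟨b1, b2⟩, b3, b4⟩ := bxz_bd he
  have hR := d.R0
  have hn4 := d.n4
  have hn0 := d.n0
  have c1 : -(2 * (n : ℤ)) < e.1 + e.2.1 := by omega
  have c2 : e.1 + e.2.1 + 1 < 2 * n := by omega
  have hmod : ((she n s e).1 + (she n s e).2.1) % ((2 * n : ℕ) : ℤ) =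
      (e.1 + e.2.1) % ((2 * n : ℕ) : ℤ) := by
    rw [col_she]
    have : e.1 + e.2.1 + 2 * n * s = e.1 + e.2.1 + ((2 * n : ℕ) : ℤ) * s := by push_cast; ring
    rw [this, Int.add_mul_emod_self_left]
  have hval : (0 ≤ e.1 + e.2.1 ∧ (e.1 + e.2.1) % ((2 * n : ℕ) : ℤ) = e.1 + e.2.1) ∨
      (e.1 + e.2.1 < 0 ∧ (e.1 + e.2.1) % ((2 * n : ℕ) : ℤ) = e.1 + e.2.1 + 2 * n) := by
    rcases le_or_gt 0 (e.1 + e.2.1) with h | h
    · left
      exact ⟨h, Int.emod_eq_of_lt h (by push_cast; omega)⟩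
    · right
      refine ⟨h, ?_⟩
      rw [← Int.add_emod_right, Int.emod_eq_of_lt (by push_cast; omega) (by push_cast; omega)]
      push_cast
      ring
  refine ⟨?_, ?_, ?_, ?_⟩
  · have e1 : she n s e ∈ per n (FA N r k c n M F) ↔ e ∈ per n F := by
      rw [d.mem_box (d.bxz_EB he s)]
      show red n _ ∈ F ↔ red n _ ∈ F
      rw [red_she hn0]
    have e2 : she n s e ∈ En n ↔ e ∈ E0 := by
      show dco (she n s e) = -1 ∧ ((she n s e).1 + (she n s e).2.1) % ((2 * n : ℕ) : ℤ) = 0 ↔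
        dco e = -1 ∧ e.1 + e.2.1 = 0
      rw [dco_she, hmod]
      rcases hval with ⟨v1, v2⟩ | ⟨v1, v2⟩
      · rw [v2]
      · rw [v2]
        constructor
        · rintro ⟨_, h⟩; exfalso; omega
        · rintro ⟨_, h⟩; exfalso; omega
    rw [Set.mem_union, Set.mem_union, e1, e2]
  · show ¬ (dco (she n s e) = -1 ∧ 1 ≤ ((she n s e).1 + (she n s e).2.1) % ((2 * n : ℕ) : ℤ) ∧
        ((she n s e).1 + (she n s e).2.1) % ((2 * n : ℕ) : ℤ) < k) ↔
      ¬ (dco e = -1 ∧ 1 ≤ e.1 + e.2.1 ∧ e.1 + e.2.1 < k)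
    rw [dco_she, hmod]
    rcases hval with ⟨v1, v2⟩ | ⟨v1, v2⟩
    · rw [v2]
    · rw [v2]
      constructor
      · rintro - ⟨_, h, _⟩; omega
      · rintro - ⟨_, _, h⟩; omega
  · rw [zp_shift]
    show dco e < 0 ∧ e.1 + e.2.1 + 1 ∈ Zn n ↔ dco e < 0 ∧ e.1 + e.2.1 + 1 ∈ ({0} : Set ℤ)
    rw [Zn_small (by omega) (by omega)]
  · intro q x y
    constructor
    · intro h
      have h1 := Dg_shift (-s) h
      rw [she_neg', shp_neg', shp_neg'] at h1
      exact Dg_small' c1 c2 h1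
    · intro h
      exact Dg_shift s (Dg_small c1 c2 h)

/-- connections of the box -/
theorem D.box (d : D N r k c n M F) (s : ℤ) {x y : ℤ × ℤ}
    (h : RB k (N * r : ℕ) (per n F) x y) :
    RY n k (per n (FA N r k c n M F)) (shp n s x) (shp n s y) := by
  unfold RB RZ at h
  induction h with
  | rel x y h =>
    refine Relation.EqvGen.rel _ _ ?_
    obtain ⟨e, he, hz, h⟩ := h
    obtain ⟨l1, l2, l3, l4⟩ := d.lnk s he.1
    refine ⟨she n s e, l2.2 he.2, fun h => hz (l3.1 h), ?_⟩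
    rw [l1, l4, l4]
    exact h
  | refl x => exact Relation.EqvGen.refl _
  | symm x y _ ih => exact Relation.EqvGen.symm _ _ ih
  | trans x y z _ _ ih1 ih2 => exact Relation.EqvGen.trans _ _ _ ih1 ih2

/-- near the columns of the tips the tubes are on the positive side -/
theorem D.tube_far (d : D N r k c n M F) {z : ℤ × ℤ} {v : Vtx} (hz : z ∈ CrrS N k c)
    (hv : inSq r z v) (q : ℤ) (h1 : -(2 * k + 2 : ℤ) ≤ v.1 + v.2 - 2 * n * q)
    (h2 : v.1 + v.2 - 2 * n * q ≤ 2 * k + 2) : 2 ≤ v.1 - v.2 := by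
  rw [← inSq_shift d.hn z _ q] at hv
  have hx := d.h5 N k c d.hk d.hN4 d.hc z hz q
  generalize shf N k q z = w at hv hx
  obtain ⟨a1, a2, a3, a4⟩ := hv
  simp only at a1 a2 a3 a4
  have m : 2 * (n : ℤ) * q = 2 * (q * n) := by ring
  rw [m] at h1 h2
  have hr : 2 * (k : ℤ) + 4 ≤ r := by have := d.hr; exact_mod_cast this
  have hN : (k : ℤ) + 16 ≤ N := by have := d.hN; exact_mod_cast this
  have hk : (2 : ℤ) ≤ k := by have := d.hk; exact_mod_cast this
  rcases hx with hx | hx | hx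
  · have : (r : ℤ) * 16 ≤ r * w.1 - r * w.2 := by nlinarith
    omega
  · have : (r : ℤ) * w.1 + r * w.2 ≤ -(6 * r) := by nlinarith
    omega
  · have : (5 : ℤ) * r ≤ (r : ℤ) * w.1 + r * w.2 := by nlinarith
    omega

theorem D.tube_Zn (d : D N r k c n M F) {z : ℤ × ℤ} {v : Vtx} (hz : z ∈ CrrS N k c)
    (hv : inSq r z v) {i : ℤ} (hi : 0 ≤ i) (hi' : i ≤ 1) (h : v.1 + v.2 + i ∈ Zn n) :
    2 ≤ v.1 - v.2 := by
  have hc' : (v.1 + v.2 + i) % ((2 * n : ℕ) : ℤ) = 0 := h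
  have m2 := Int.mul_ediv_add_emod (v.1 + v.2 + i) ((2 * n : ℕ) : ℤ)
  rw [hc', add_zero] at m2
  have m3 : 2 * (n : ℤ) * ((v.1 + v.2 + i) / ((2 * n : ℕ) : ℤ)) = v.1 + v.2 + i := by
    rw [← m2]; push_cast
    rw [Int.mul_ediv_cancel_left _ (by have := d.n0; positivity)]
  have hk : (2 : ℤ) ≤ k := by have := d.hk; exact_mod_cast this
  exact d.tube_far hz hv ((v.1 + v.2 + i) / ((2 * n : ℕ) : ℤ)) (by rw [m3]; linarith)
    (by rw [m3]; linarith)

/-- a tube square is not on a zipper -/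
theorem D.tube_zip (d : D N r k c n M F) {z : ℤ × ℤ} {e : Edg} (hz : z ∈ CrrS N k c)
    (hez : e ∈ sqE r z) : ¬ (dco e < 0 ∧ e.1 + e.2.1 ∈ Zn n) ∧
      ¬ (dco e < 0 ∧ e.1 + e.2.1 + 1 ∈ Zn n) := by
  obtain ⟨q1, q2⟩ := sqE_inSq hez
  constructor
  · rintro ⟨h1, h2⟩
    have := d.tube_Zn hz q1 (i := 0) le_rfl zero_le_one (by rw [add_zero]; exact h2)
    obtain ⟨x, y, _ | _⟩ := e
    · simp only [src_mk, dco, Bool.false_eq_true, if_false] at h1 this; omega
    · simp only [src_mk, dco, if_true] at h1 this; omega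
  · rintro ⟨h1, h2⟩
    have := d.tube_Zn hz q1 (i := 1) zero_le_one le_rfl h2
    obtain ⟨x, y, _ | _⟩ := e
    · simp only [src_mk, dco, Bool.false_eq_true, if_false] at h1 this; omega
    · simp only [src_mk, dco, if_true] at h1 this; omega

/-- a tube square is not a hole -/
theorem D.tube_Hn (d : D N r k c n M F) {z : ℤ × ℤ} {e : Edg} (hz : z ∈ CrrS N k c)
    (hez : e ∈ sqE r z) : e ∈ Hn n k := by
  show ¬ (dco e = -1 ∧ 1 ≤ (e.1 + e.2.1) % ((2 * n : ℕ) : ℤ) ∧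
    (e.1 + e.2.1) % ((2 * n : ℕ) : ℤ) < k)
  rintro ⟨h1, h2, h3⟩
  obtain ⟨q1, -⟩ := sqE_inSq hez
  have m2 := Int.mul_ediv_add_emod (e.1 + e.2.1) ((2 * n : ℕ) : ℤ)
  have m3 : ((2 * n : ℕ) : ℤ) = 2 * n := by push_cast; ring
  have m4 : 2 * (n : ℤ) * ((e.1 + e.2.1) / ((2 * n : ℕ) : ℤ)) +
      (e.1 + e.2.1) % ((2 * n : ℕ) : ℤ) = e.1 + e.2.1 := by
    rw [← m3]; exact m2
  have hs : (src e).1 + (src e).2 = e.1 + e.2.1 := rfl
  have := d.tube_far hz q1 ((e.1 + e.2.1) / ((2 * n : ℕ) : ℤ))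
    (by rw [hs]; linarith) (by rw [hs]; linarith)
  obtain ⟨x, y, _ | _⟩ := e
  · simp only [src_mk, dco, Bool.false_eq_true, if_false] at h1 this; omega
  · simp only [src_mk, dco, if_true] at h1 this; omega

/-- extent of the tubes -/
theorem D.ext (d : D N r k c n M F) {z : ℤ × ℤ} {e : Edg} (hz : z ∈ CrrS N k c)
    (hez : e ∈ sqE r z) : -(M : ℤ) ≤ dco e ∧ dco e < M := by
  have hx := (d.h4 N k c d.hk d.hN4 d.hc _ rfl).2.2.2 z (Or.inr hz)
  rw [abs_le] at hx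
  obtain ⟨x1, x2⟩ := hx
  obtain ⟨h1, h2⟩ := sqE_inSq hez
  have hr' : (2 : ℤ) ≤ r := by have := d.hr; omega
  have hp : (n : ℤ) = prd N k * r := by rw [d.hn]; push_cast; ring
  have hN' : (n : ℤ) = 4 * (N * r) + 16 * (k * r) := by
    have := d.hnr; push_cast at this; exact this
  have b2 : (r : ℤ) * z.1 - r * z.2 ≤ n + 4 * (N * r) := by
    rw [hp]; nlinarith
  have b1 : -((n : ℤ) + 4 * (N * r)) ≤ (r : ℤ) * z.1 - r * z.2 := by
    rw [hp]; nlinarith
  have hk' : (0 : ℤ) ≤ k * r := by positivity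
  have hN4 : (4 : ℤ) ≤ N := by have := d.hN; omega
  have b3 : (4 : ℤ) * r ≤ N * r := by nlinarith
  have hM := d.hM
  obtain ⟨a1, a2, a3, a4⟩ := h1
  obtain ⟨x, y, _ | _⟩ := e
  · simp only [src_mk, dco, Bool.false_eq_true, if_false] at *; omega
  · simp only [src_mk, dco, if_true] at *; omega

theorem D.tube_mem (d : D N r k c n M F) {z : ℤ × ℤ} {e : Edg} (hz : z ∈ CrrS N k c)
    (hez : e ∈ sqE r z) (heB : e ∉ EB N r k) : e ∈ per n (FA N r k c n M F) := by
  have hdc := d.ext hz hez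
  rw [d.mem]
  exact ⟨red_mem d.n0 hdc.1 hdc.2, Or.inr ⟨heB, z, hz, hez⟩⟩

/-- connections of the tubes -/
theorem D.tube (d : D N r k c n M F) {L : ℕ × ℤ} {u v : Vtx}
    (h : Reach (EP r (TubeS N k c L) \ EP r (Bxs N k)) u v) :
    RY n k (per n (FA N r k c n M F)) (vp u) (vp v) := by
  induction h with
  | refl => exact Relation.EqvGen.refl _
  | tail _ hs ih =>
    refine Relation.EqvGen.trans _ _ _ ih ?_
    obtain ⟨e, ⟨⟨z, hz, hez⟩, heB⟩, he⟩ := hs
    have hzC : z ∈ CrrS N k c := ⟨L, hz⟩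
    obtain ⟨k1, k2⟩ := d.tube_zip hzC hez
    have hl : LZ (Zn n) (Hn n k) (per n (FA N r k c n M F) ∪ En n) (vp (src e)) (vp (tgt e)) :=
      ⟨e, d.tube_Hn hzC hez, k2, Or.inl ⟨Or.inl (d.tube_mem hzC hez heB), Dg_vp k1 k2⟩⟩
    rcases he with ⟨h1, h2⟩ | ⟨h1, h2⟩
    · rw [← h1, ← h2]; exact Relation.EqvGen.rel _ _ hl
    · rw [← h1, ← h2]; exact Relation.EqvGen.symm _ _ (Relation.EqvGen.rel _ _ hl)

/-- a vertex of a tube in a box is in a cell -/
theorem D.cell (d : D N r k c n M F) {L : ℕ × ℤ} {z : ℤ × ℤ} {v : Vtx} {s : ℤ}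
    (hz : z ∈ TubeS N k c L) (hv : inSq r z v) (h : nm (v.1 - s * n, v.2 - s * n) ≤ (N * r : ℕ)) :
    ∃ a : Fin k, labC k a s = L ∧ atC N r (c a) (v.1 - s * n, v.2 - s * n) := by
  have hN := d.hN
  have hr := d.hr
  obtain ⟨b, hb, hbv⟩ := box_sq (by omega) (by omega) h
  have hb' : b = shf N k s (shf N k (-s) b) := by rw [shf_shf]; simp [shf]
  have hbv' : inSq r (shf N k (-s) b) v := by
    rw [← inSq_shift d.hn _ _ s, ← hb']; exact hbv
  obtain ⟨h1, h2⟩ := sq_near (by omega) hv hbv'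
  have hbs : shf N k (-s) b ∈ BxS N k s := by
    show _ ∧ _
    rw [← hb']
    exact hb
  obtain ⟨a, ha, haz⟩ := d.h2 N k c d.hk d.hN4 d.hc L s z _ hz hbs h1 h2
  have h3 : inSq r (csq N (c a)) (v.1 - s * n, v.2 - s * n) := by
    rw [← haz, inSq_shift d.hn]; exact hv
  exact ⟨a, ha, h3, le_antisymm h (csq_out h3)⟩

/-! ### points near a box -/

/-- near the box `s` -/
def Nrs (N r k : ℕ) (c : Fin k → Cel) (n : ℕ) (s : ℤ) (x : ℤ × ℤ) : Prop :=
  |x.1 - 2 * n * s| ≤ 2 * ((N * r : ℕ) : ℤ) + 1 ∧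
  ∀ z ∈ CrrS N k c, ∀ w : Vtx, inSq r z w → x = vp w →
    nm (w.1 - s * n, w.2 - s * n) ≤ (N * r : ℕ)

theorem sub_shv (n : ℕ) (s : ℤ) (w : Vtx) : (w.1 - s * n, w.2 - s * n) = shv n (-s) w := by
  simp only [shv, Prod.mk.injEq]; constructor <;> ring

theorem D.near_cb (d : D N r k c n M F) {s : ℤ} {x : ℤ × ℤ}
    (h : Cb (N * r : ℕ) (shp n (-s) x)) : Nrs N r k c n s x := by
  constructor
  · have := cb_bd h
    simp only [shp] at this
    rw [show x.1 - 2 * n * s = x.1 + 2 * n * (-s) by ring]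
    exact this
  · intro z hz w hw hx
    obtain ⟨e, he, q, y, h⟩ := h
    rw [hx, ← vp_shv] at h
    have hfar : (shv n (-s) w).1 + (shv n (-s) w).2 + 1 ∈ ({0} : Set ℤ) →
        0 < (shv n (-s) w).1 - (shv n (-s) w).2 := by
      intro h0
      have h0' : (shv n (-s) w).1 + (shv n (-s) w).2 + 1 = 0 := h0
      simp only [shv] at h0' ⊢
      have hk : (2 : ℤ) ≤ k := by have := d.hk; exact_mod_cast this
      have := d.tube_far hz hw s (by linarith) (by linarith)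
      linarith
    rw [sub_shv]
    obtain ⟨-, h5 | h5⟩ := vtx_cor h hfar
    · rw [h5]; exact he.1
    · rw [h5]; exact he.2

theorem D.near_RB (d : D N r k c n M F) {s : ℤ} {x : ℤ × ℤ} {b : Fin k} {v : Vtx}
    (hv : atC N r (c b) v) (h : RB k (N * r : ℕ) (per n F) (shp n (-s) x) (vp v)) :
    Nrs N r k c n s x := by
  rcases RB_cb h with h | h
  · have hv2 := hv.2
    constructor
    · have h1 : x.1 + 2 * n * (-s) = v.1 + v.2 := by
        have := congrArg Prod.fst h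
        simpa only [shp, vp] using this
      rw [show x.1 - 2 * n * s = x.1 + 2 * n * (-s) by ring, h1]
      have h3 := nm_le.1 (le_of_eq hv2)
      rw [abs_le]
      omega
    · intro z hz w hw hx
      rw [hx, ← vp_shv] at h
      rw [sub_shv, vp_inj h]
      exact le_of_eq hv2
  · exact d.near_cb h.1

theorem D.uniq (d : D N r k c n M F) {s s' a : ℤ} (h : |a - 2 * n * s| ≤ 2 * ((N * r : ℕ) : ℤ) + 1)
    (h' : |a - 2 * n * s'| ≤ 2 * ((N * r : ℕ) : ℤ) + 1) : s = s' := by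
  have h4 := d.n4
  have h5 := d.R0
  rw [abs_le] at h h'
  by_contra hne
  have hn : (0 : ℤ) < n := by have := d.n0; omega
  rcases lt_or_gt_of_ne hne with h7 | h7
  · have h8 : 2 * (n : ℤ) * (s' - s) ≥ 2 * n := by nlinarith
    rw [mul_sub] at h8
    omega
  · have h8 : 2 * (n : ℤ) * (s - s') ≥ 2 * n := by nlinarith
    rw [mul_sub] at h8
    omega

/-! ### the invariant -/

/-- points attached to the tube `L` -/
def TT (N r k : ℕ) (c : Fin k → Cel) (n : ℕ) (F : Finset Edg) (L : ℕ × ℤ) (x : ℤ × ℤ) : Prop :=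
  (∃ z ∈ TubeS N k c L, ∃ w : Vtx, inSq r z w ∧ x = vp w) ∨
  (∃ (s : ℤ) (b : Fin k) (v : Vtx), labC k b s = L ∧ atC N r (c b) v ∧
    RB k (N * r : ℕ) (per n F) (shp n (-s) x) (vp v))

/-- every member near a box is attached through a cell -/
theorem D.inner (d : D N r k c n M F) {L : ℕ × ℤ} {x : ℤ × ℤ} {s : ℤ}
    (h : TT N r k c n F L x) (hs : Nrs N r k c n s x) :
    ∃ (b : Fin k) (v : Vtx), labC k b s = L ∧ atC N r (c b) v ∧
      RB k (N * r : ℕ) (per n F) (shp n (-s) x) (vp v) := by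
  rcases h with ⟨z, hz, w, hw, hx⟩ | ⟨s', b, v, h1, h2, h3⟩
  · obtain ⟨a, ha, h1⟩ := d.cell hz hw (hs.2 z ⟨L, hz⟩ w hw hx)
    refine ⟨a, _, ha, h1, ?_⟩
    rw [hx, ← vp_shv, sub_shv]
    exact Relation.EqvGen.refl _
  · have h4 := (d.near_RB h2 h3).1
    have := d.uniq hs.1 h4
    subst this
    exact ⟨b, v, h1, h2, h3⟩

/-- members in a closed square of a tube -/
theorem D.tube_lab (d : D N r k c n M F) {L L' : ℕ × ℤ} {z : ℤ × ℤ} {w : Vtx}
    (h : TT N r k c n F L (vp w)) (hz : z ∈ TubeS N k c L') (hw : inSq r z w) : L = L' := by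
  have hr := d.hr
  rcases h with ⟨z', hz', w', hw', hx⟩ | ⟨s, b, v, h1, h2, h3⟩
  · have := vp_inj hx
    subst this
    obtain ⟨e1, e2⟩ := sq_near (by omega) hw' hw
    exact d.h1 N k c d.hk d.hN4 d.hc L L' z' z hz' hz e1 e2
  · have h4 := (d.near_RB h2 h3).2 z ⟨L', hz⟩ w hw rfl
    obtain ⟨a, ha, e1⟩ := d.cell hz hw h4
    by_cases hab : b = a
    · rw [← h1, ← ha, hab]
    · exfalso
      rw [← vp_shv, ← sub_shv] at h3
      exact d.sep a _ e1 b v hab h2 (Relation.EqvGen.symm _ _ h3)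

/-- the members are not in class `1` of the closed region -/
theorem D.noXE (d : D N r k c n M F) {L : ℕ × ℤ} {x : ℤ × ℤ} (h : TT N r k c n F L x) :
    ¬ XE N r k c n x := by
  rintro ⟨e, heB, heT, hez, y, hy⟩
  rcases h with ⟨z, hz, w, hw, hx⟩ | ⟨s, b, v, h1, h2, h3⟩
  · rw [hx] at hy
    have h5 := (vtx_cor hy (fun h => by
      have := d.tube_Zn ⟨L, hz⟩ hw (i := 1) zero_le_one le_rfl h
      omega)).1
    exact one_ne_zero h5
  · have hn := d.near_RB h2 h3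
    have he' : she n (-s) e ∉ bxz (N * r : ℕ) := by
      intro h
      have h6 := d.bxz_EB h s
      rw [she_neg] at h6
      exact heB h6
    -- the column of the square
    obtain ⟨j, t, g1, g2, g3, g4⟩ := Dg_inv hy
    have hn4 := d.n4
    have hR := d.R0
    have hcol : -(2 * (n : ℤ)) < (she n (-s) e).1 + (she n (-s) e).2.1 ∧
        (she n (-s) e).1 + (she n (-s) e).2.1 + 1 < 2 * n := by
      rw [col_she]
      have g5 := hn.1
      rw [abs_le] at g5
      have g6 : 2 * (n : ℤ) * (-s) = -(2 * n * s) := by ring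
      rw [g6]
      rcases nrm_inv (Zn n) (dco e) j t with g7 | ⟨-, -, g7⟩
      · rw [g7] at g1
        have g8 : x.1 = j := congrArg Prod.fst g1
        omega
      · rw [g7] at g1
        have g8 : x.1 = j - 1 := congrArg Prod.fst g1
        omega
    refine d.out b v h2 _ _ he' ⟨?_, shp n (-s) y, ?_⟩ h3
    · rintro ⟨k1, k2⟩
      have k3 : she n (-s) e ∈ zp (Zn n) :=
        ⟨k1, (Zn_small (by omega) (by omega)).2 k2⟩
      rw [zp_shift] at k3
      exact hez k3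
    · rcases hy with hy | hy
      · exact Or.inl (Dg_small' hcol.1 hcol.2 (Dg_shift (-s) hy))
      · exact Or.inr (Dg_small' hcol.1 hcol.2 (Dg_shift (-s) hy))

/-- the open squares next to the holes are in the boxes -/
theorem D.En_EB (d : D N r k c n M F) {e : Edg} (he : e ∈ En n) : e ∈ EB N r k := by
  obtain ⟨h1, h2⟩ := he
  have m2 := Int.mul_ediv_add_emod (e.1 + e.2.1) ((2 * n : ℕ) : ℤ)
  have h2' : (e.1 + e.2.1) % ((2 * n : ℕ) : ℤ) = 0 := h2
  rw [h2', add_zero] at m2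
  set q := (e.1 + e.2.1) / ((2 * n : ℕ) : ℤ) with hq
  have m3 : ((2 * n : ℕ) : ℤ) = 2 * n := by push_cast; ring
  rw [m3] at m2
  have hcol : (she n (-q) e).1 + (she n (-q) e).2.1 = 0 := by
    rw [col_she]
    linarith
  have hdc : dco (she n (-q) e) = -1 := by rw [dco_she]; exact h1
  have hR := d.R0
  have hb : she n (-q) e ∈ bxz (N * r : ℕ) := by
    generalize she n (-q) e = f at hcol hdc
    obtain ⟨x, y, _ | _⟩ := f
    · simp only [dco, Bool.false_eq_true, if_false] at hdc hcol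
      constructor
      · rw [nm_le, src_mk]; simp only; omega
      · rw [nm_le, tgt_false]; simp only; omega
    · simp only [dco, if_true] at hdc hcol
      omega
  have := d.bxz_EB hb q
  rwa [she_neg] at this

/-- one direction of the invariance along a link -/
theorem D.step (d : D N r k c n M F) {L : ℕ × ℤ} {e : Edg} {q : ℤ} {x y : ℤ × ℤ}
    (hH : e ∈ Hn n k) (hz : e ∉ zp (Zn n))
    (hq : (e ∈ per n (FA N r k c n M F) ∪ En n ∧ q = 0) ∨
      (e ∉ per n (FA N r k c n M F) ∪ En n ∧ q = 1))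
    (hxy : Dg (Zn n) q e x y ∨ Dg (Zn n) q e y x) (h : TT N r k c n F L x) :
    TT N r k c n F L y := by
  by_cases heB : e ∈ EB N r k
  · obtain ⟨s, he'⟩ := d.EB_bxz heB
    obtain ⟨l1, l2, l3, l4⟩ := d.lnk s he'
    rw [she_neg] at l1 l2 l3 l4
    have l5 : ∀ x y : ℤ × ℤ, Dg (Zn n) q e x y ↔ Dg {0} q (she n (-s) e) (shp n (-s) x)
        (shp n (-s) y) := by
      intro x y
      have := l4 q (shp n (-s) x) (shp n (-s) y)
      rw [shp_neg, shp_neg] at this
      exact this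
    rw [l5, l5] at hxy
    have hcb : Cb (N * r : ℕ) (shp n (-s) x) := ⟨_, he', q, _, hxy⟩
    obtain ⟨b, v, hb, hv, hR⟩ := d.inner h (d.near_cb hcb)
    refine Or.inr ⟨s, b, v, hb, hv, ?_⟩
    refine Relation.EqvGen.trans _ _ _ ?_ hR
    have key : ∀ x' y' : ℤ × ℤ, Dg {0} q (she n (-s) e) x' y' →
        LZ {0} (bxz (N * r : ℕ) ∩ H0 k) (per n F ∪ E0) x' y' := by
      intro x' y' hd
      refine ⟨she n (-s) e, ⟨he', l2.1 hH⟩, fun h => hz (l3.2 h), ?_⟩
      rcases hq with ⟨hq, rfl⟩ | ⟨hq, rfl⟩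
      · exact Or.inl ⟨l1.1 hq, hd⟩
      · exact Or.inr ⟨fun h => hq (l1.2 h), hd⟩
    rcases hxy with hd | hd
    · exact Relation.EqvGen.symm _ _ (Relation.EqvGen.rel _ _ (key _ _ hd))
    · exact Relation.EqvGen.rel _ _ (key _ _ hd)
  · by_cases heT : e ∈ ET N r k c
    · obtain ⟨z, ⟨L', hz'⟩, hez⟩ := heT
      have hzC : z ∈ CrrS N k c := ⟨L', hz'⟩
      have hmem := d.tube_mem hzC hez heB
      have hq0 : q = 0 := by
        rcases hq with ⟨-, hq⟩ | ⟨hq, -⟩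
        · exact hq
        · exact absurd (Or.inl hmem) hq
      subst hq0
      obtain ⟨k1, k2⟩ := d.tube_zip hzC hez
      obtain ⟨i1, i2⟩ := sqE_inSq hez
      rcases hxy with hd | hd
      · obtain ⟨e1, e2⟩ := Dg_vp_inv k1 k2 hd
        rw [e1] at h
        have := d.tube_lab h hz' i1
        subst this
        exact Or.inl ⟨z, hz', _, i2, e2⟩
      · obtain ⟨e1, e2⟩ := Dg_vp_inv k1 k2 hd
        rw [e2] at h
        have := d.tube_lab h hz' i2
        subst this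
        exact Or.inl ⟨z, hz', _, i1, e1⟩
    · exfalso
      have hn : e ∉ per n (FA N r k c n M F) ∪ En n := by
        rintro (h | h)
        · rw [d.mem] at h
          rcases h with ⟨-, ⟨h, -⟩ | ⟨-, h⟩⟩
          · exact heB h
          · exact heT h
        · exact heB (d.En_EB h)
      have hq1 : q = 1 := by
        rcases hq with ⟨hq, -⟩ | ⟨-, hq⟩
        · exact absurd hq hn
        · exact hq
      subst hq1
      exact d.noXE h ⟨e, heB, heT, hz, y, hxy⟩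

/-- the invariant is invariant -/
theorem D.inv (d : D N r k c n M F) (L : ℕ × ℤ) {x y : ℤ × ℤ}
    (h : RY n k (per n (FA N r k c n M F)) x y) : TT N r k c n F L x ↔ TT N r k c n F L y := by
  unfold RY RZ at h
  induction h with
  | rel x y h =>
    obtain ⟨e, he, hz, h⟩ := h
    rcases h with ⟨h1, h2⟩ | ⟨h1, h2⟩
    · exact ⟨d.step he hz (Or.inl ⟨h1, rfl⟩) (Or.inl h2), d.step he hz (Or.inl ⟨h1, rfl⟩) (Or.inr h2)⟩
    · exact ⟨d.step he hz (Or.inr ⟨h1, rfl⟩) (Or.inl h2), d.step he hz (Or.inr ⟨h1, rfl⟩) (Or.inr h2)⟩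
  | refl x => exact Iff.rfl
  | symm x y _ ih => exact ih.symm
  | trans x y z _ _ ih1 ih2 => exact ih1.trans ih2

/-- the sectors of the tip `0` are near the box `0` -/
theorem D.near_sec (d : D N r k c n M F) {i : ℕ} (hi : i < 2 * k + 1) :
    Nrs N r k c n 0 (scy n k 0 i) := by
  have hR := d.R0
  unfold scy
  split_ifs with h
  · constructor
    · simp only [mul_zero, sub_zero, zero_add]
      rw [abs_le]
      omega
    · intro z _ w _ hw
      simp only [vp, Prod.mk.injEq] at hw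
      obtain ⟨a1, a2⟩ := hw
      rw [nm_le]
      simp only [zero_mul, sub_zero, mul_zero, zero_add] at a1 ⊢
      omega
  · constructor
    · simp only [mul_zero, sub_zero, zero_add]
      rw [abs_le]
      omega
    · intro z _ w _ hw
      simp only [vp, Prod.mk.injEq] at hw
      obtain ⟨a1, a2⟩ := hw
      rw [nm_le]
      simp only [zero_mul, sub_zero, mul_zero, zero_add] at a1 ⊢
      omega

end TDET

open TDET

theorem t_DET : S_W2 → KU.S_k1 → KU.S_k2 → KU.S_k3 → KU.S_k4 → KU.S_k5 → S_DET := by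
  classical
  intro gW g1 g2 g3 g4 g5 N r k c hk hN hr hc n M hn hM F hF hL
  obtain ⟨π, hinj, hlt, hnad, hland, hL2⟩ := hL
  have d : D N r k c n M F :=
    { h1 := g1, h2 := g2, h3 := g3, h4 := g4, h5 := g5, hk := hk, hN := hN, hr := hr,
      hc := hc, hn := hn, hM := hM, hF := hF
      sep := fun a v hv b w hb hw => (hL2 a v hv).2.1 b w hb hw
      out := fun a v hv x e he hx => (hL2 a v hv).2.2 x e he hx }
  have hn4 := d.n4
  have hR := d.R0
  set GA : Set Edg := per n (FA N r k c n M F) with hGA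
  have hFA : FA N r k c n M F ⊆ CE n M := fun e he => (mem_FA.1 he).1
  -- membership of the sectors
  have hTT : ∀ a : Fin k, TT N r k c n F (labC k a 0) (scy n k 0 (π a)) := by
    intro a
    obtain ⟨v, hv, h⟩ := hland a
    refine Or.inr ⟨0, a, v, rfl, hv, ?_⟩
    rw [scy_shp n k 0, neg_zero, shp_shp, add_zero, shp_zero]
    exact h
  -- the set of the sectors
  set S : Finset ℕ := Finset.univ.image π with hS
  have hSm : ∀ i ∈ S, ∃ a, π a = i := by
    intro i hi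
    rw [hS, Finset.mem_image] at hi
    obtain ⟨a, -, ha⟩ := hi
    exact ⟨a, ha⟩
  have hNAd : NAd k S := by
    refine ⟨?_, ?_, ?_⟩
    · rw [hS, Finset.card_image_of_injective _ hinj, Finset.card_univ, Fintype.card_fin]
    · intro i hi
      obtain ⟨a, rfl⟩ := hSm i hi
      exact hlt a
    · intro i hi hi'
      obtain ⟨a, rfl⟩ := hSm i hi
      obtain ⟨b, hb⟩ := hSm _ hi'
      exact hnad a b hb.symm
  have hSep : ∀ i ∈ S, Sep n k GA i := by
    intro i hi j hj hji h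
    obtain ⟨a, rfl⟩ := hSm i hi
    have h1 := (d.inv (labC k a 0) h).1 (hTT a)
    obtain ⟨b, v, hb, hv, h2⟩ := d.inner h1 (d.near_sec hj)
    have := lab_inj hb
    subst this
    rw [scy_shp n k 0, neg_zero, shp_shp, add_zero, shp_zero] at h2
    exact (hL2 b v hv).1 j hj hji h2
  have hOut : ∀ i ∈ S, Outy n k GA i := by
    intro i hi
    obtain ⟨a, rfl⟩ := hSm i hi
    obtain ⟨s, hs, b, hab⟩ := partner a
    refine ⟨s, hs, π b, hlt b, ?_⟩
    obtain ⟨v, hv, h8⟩ := hland a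
    obtain ⟨w, hw, k8⟩ := hland b
    have t8 := d.box 0 h8
    have t9 := d.box s k8
    rw [← scy_shp, ← vp_shv] at t8 t9
    refine Relation.EqvGen.trans _ _ _ t8 ?_
    refine Relation.EqvGen.trans _ _ _ ?_ (Relation.EqvGen.symm _ _ t9)
    have hz1 : shf N k 0 (shf N k 0 (csq N (c a))) = csq N (c a) := by
      rw [shf_shf]; simp [shf]
    have hz2 : shf N k s (shf N k (-s) (csq N (c b))) = csq N (c b) := by
      rw [shf_shf]; simp [shf]
    obtain ⟨g31, g32⟩ := g3 N k c hk d.hN4 hc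
    have t1 := g32 a 0 _ hz1
    have t2 := g32 b s _ hz2
    rw [hab] at t2
    refine d.tube (g31 r (labC k a 0) _ _ _ _ (by omega) t1 t2 ?_ ?_)
    · rw [← inSq_shift hn _ _ 0, hz1, shv_sub]; exact hv.1
    · rw [← inSq_shift hn _ _ s, hz2, shv_sub]; exact hw.1
  refine ⟨?_, S, hNAd, ?_⟩
  · refine gW n M k (by omega) ?_ (FA N r k c n M F) hFA S hNAd fun i hi => ⟨hOut i hi, hSep i hi⟩
    omega
  · intro i hi x hx h
    obtain ⟨a, rfl⟩ := hSm i hi
    exact d.noXE ((d.inv (labC k a 0) h).1 (hTT a)) hx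

end Pool.Agent.W808.KY
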