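import Pool.Agent.W808.KY.T_MON
import Pool.Agent.H160R2.MU.T_DETP

/-!
# Task DETP: transport of the landing event to the cylinder (dislocated plane, `2 k + 1` legs)
-/

set_option autoImplicit false

namespace Pool.Agent.W808.KY
open H974 H906.Cyl
open Pool.Agent.H160R2.ML (nm)
open Pool.Agent.H160R2.MU (Cel csq cpos prd shf BxS Bxs EP inSq PC Bad Cc)
open Pool.Agent.W801.OU (zp nrm Dg LZ RZ Cor bxz Zn)

namespace TDETP

theorem LandY_congr {N r k : ℕ} {c : Fin k → Cel} {G G' : Set Edg}
    (h : ∀ e ∈ bxz (N * r : ℕ), (e ∈ G ↔ e ∈ G')) : LandY N r k c G ↔ LandY N r k c G' := by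
  unfold LandY
  rw [TMON.RB_congr h]

end TDETP

theorem t_DETP : S_DET → S_DETP := by
  intro hD N r k c hk hN hr hc n M hn hM
  have hpos : 0 < N * r := Nat.mul_pos (by omega) (by omega)
  have hn' : n = 4 * (N * r) + 16 * (k * r) := by rw [hn, prd]; ring
  have hR := Pr_red (n := n) (q := 1/2) (S := CE n M) (B := boxE (N * r))
    (by unfold boxE; exact red_inj_x (by omega))
    (by unfold boxE; exact image_red_sub (by omega) (by omega) (by omega))
    (fun F => LandY N r k c (↑F : Set Edg))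
  rw [← hR]
  unfold PC
  apply Pr_mono (okq (q := 1/2) (by norm_num) (by norm_num))
  intro F hF hL
  apply hD N r k c hk hN hr hc n M hn hM F hF
  refine (TDETP.LandY_congr ?_).1 hL
  intro e he
  rw [Finset.mem_coe, Finset.mem_filter]
  exact ⟨fun h => h.2, fun h => ⟨Pool.Agent.H160R2.MU.TDETP.mem_box he.1 he.2, h⟩⟩

end Pool.Agent.W808.KY
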