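import Pool.Agent.W808.KY.Per
import Pool.Agent.W808.KZ.T_EXA

/-!
# Step A: stability of the explored set, `2 k + 1` legs (helper959, after helper239)
-/

set_option autoImplicit false

namespace Pool.Agent.W808.KY
open H974 H906.Cyl
open H12S (Dir hbE segD rimE H4 Crs Nr sqE)
open Pool.Agent.H160R2.ML (nm)
open Pool.Agent.H160R2.MU (Cel csq cpos prd shf BxS Bxs EP inSq PC Bad Cc)
open Pool.Agent.W808.HU (PTr labC)
open Pool.Agent.W801.OU (zp nrm Dg LZ RZ Cor bxz Zn)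
open Pool.Agent.W808.KU (AdmS TubeS CrrS)
open Pool.Agent.W808.KZ (vp fp nrp BZ mrg)
open Pool.Agent.W808.KZ.Per (te tp)
open Pool.Agent.W808.KZ.TEXA (mem_mrg eqv_agree LZ_congr cor01)

namespace TEXA1

open Relation PerY

theorem mem_FA {N r k : ℕ} {c : Fin k → Cel} {n M : ℕ} {F : Finset Edg} {e : Edg} :
    e ∈ FA N r k c n M F ↔ e ∈ CE n M ∧ ((e ∈ EB N r k ∧ e ∈ F) ∨
      (e ∉ EB N r k ∧ e ∈ ET N r k c)) := by
  classical
  simp only [FA, Finset.mem_filter]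

theorem mem_ExA1 {N r k : ℕ} {c : Fin k → Cel} {n M : ℕ} {F : Finset Edg} {e : Edg} :
    e ∈ ExA1 N r k c n M F ↔ e ∈ CE n M ∧ e ∈ EB N r k ∧
      ∃ x, KA1 N r k c n M F x ∧ (Cor (Zn n) 0 e x ∨ Cor (Zn n) 1 e x) := by
  classical
  simp only [ExA1, Finset.mem_filter]

variable {N r k : ℕ} {c : Fin k → Cel} {n M : ℕ}

theorem KA1_tp (h4 : KU.S_k4) (hk : 2 ≤ k) (hN : k + 4 ≤ N) (hC : AdmS N k c)
    (hn : n = prd N k * r) (hn0 : 0 < n) (F : Finset Edg) (q : ℤ) {x : ℤ × ℤ}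
    (h : KA1 N r k c n M F x) : KA1 N r k c n M F (tp n q x) := by
  obtain ⟨y, h1, h2⟩ := h
  exact ⟨tp n q y, XE_tp h4 hk hN hC hn q h1, RY_tp hn0 _ q h2⟩

theorem touch_ExA1 (h4 : KU.S_k4) (hk : 2 ≤ k) (hN : k + 4 ≤ N) (hC : AdmS N k c)
    (hn : n = prd N k * r) (hn0 : 0 < n) {F : Finset Edg} {e : Edg} (he : red n e ∈ CE n M)
    (hb : red n e ∈ EB N r k) {x : ℤ × ℤ} (hx : KA1 N r k c n M F x)
    (hc : Cor (Zn n) 0 e x ∨ Cor (Zn n) 1 e x) : red n e ∈ ExA1 N r k c n M F := by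
  rw [mem_ExA1]
  refine ⟨he, hb, tp n (-((e.1 + e.2.1) / (2 * n))) x, KA1_tp h4 hk hN hC hn hn0 F _ hx, ?_⟩
  rw [KZ.Per.red_eq_te]
  exact hc.imp (KZ.Per.Cor_te1 _) (KZ.Per.Cor_te1 _)

theorem per_FA1_iff (h4 : KU.S_k4) (hk : 2 ≤ k) (hN : k + 4 ≤ N) (hC : AdmS N k c)
    (hn : n = prd N k * r) (hn0 : 0 < n) (F G : Finset Edg) {e : Edg} {x : ℤ × ℤ}
    (hx : KA1 N r k c n M F x) (hc : Cor (Zn n) 0 e x ∨ Cor (Zn n) 1 e x) :
    e ∈ per n (FA N r k c n M F) ↔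
      e ∈ per n (FA N r k c n M (mrg (ExA1 N r k c n M F) F G)) := by
  show red n e ∈ FA N r k c n M F ↔ red n e ∈ FA N r k c n M (mrg (ExA1 N r k c n M F) F G)
  rw [mem_FA, mem_FA, mem_mrg]
  by_cases h1 : red n e ∈ CE n M
  · by_cases h2 : red n e ∈ EB N r k
    · have := touch_ExA1 h4 hk hN hC hn hn0 h1 h2 hx hc
      tauto
    · tauto
  · tauto

theorem KA1_congr (h4 : KU.S_k4) (hk : 2 ≤ k) (hN : k + 4 ≤ N) (hC : AdmS N k c)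
    (hn : n = prd N k * r) (hn0 : 0 < n) (F G : Finset Edg) {y x : ℤ × ℤ}
    (hy : KA1 N r k c n M F y) :
    RY n k (per n (FA N r k c n M F)) y x ↔
      RY n k (per n (FA N r k c n M (mrg (ExA1 N r k c n M F) F G))) y x := by
  refine eqv_agree (S := KA1 N r k c n M F) ?_ ?_ hy
  · intro a b hab
    constructor
    · rintro ⟨z, h1, h2⟩
      exact ⟨z, h1, EqvGen.trans _ _ _ h2 (EqvGen.rel _ _ hab)⟩
    · rintro ⟨z, h1, h2⟩
      exact ⟨z, h1, EqvGen.trans _ _ _ h2 (EqvGen.symm _ _ (EqvGen.rel _ _ hab))⟩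
  · intro a b hab
    refine LZ_congr fun e _ h => or_congr ?_ Iff.rfl
    obtain ⟨d, hd, ha, hb⟩ := h
    rcases hab with h | h
    · exact per_FA1_iff h4 hk hN hC hn hn0 F G h (cor01 hd ha)
    · exact per_FA1_iff h4 hk hN hC hn hn0 F G h (cor01 hd hb)

theorem KA1_eq (h4 : KU.S_k4) (hk : 2 ≤ k) (hN : k + 4 ≤ N) (hC : AdmS N k c)
    (hn : n = prd N k * r) (hn0 : 0 < n) (F G : Finset Edg) :
    KA1 N r k c n M (mrg (ExA1 N r k c n M F) F G) = KA1 N r k c n M F := by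
  funext x
  refine propext ⟨?_, ?_⟩
  · rintro ⟨y, h1, h2⟩
    exact ⟨y, h1, (KA1_congr h4 hk hN hC hn hn0 F G ⟨y, h1, EqvGen.refl _⟩).2 h2⟩
  · rintro ⟨y, h1, h2⟩
    exact ⟨y, h1, (KA1_congr h4 hk hN hC hn hn0 F G ⟨y, h1, EqvGen.refl _⟩).1 h2⟩

theorem n_pos (hN : k + 16 ≤ N) (hr : 2 ≤ r) (hn : n = prd N k * r) : 0 < n := by
  rw [hn]
  apply Nat.mul_pos _ (by omega)
  unfold prd
  omega

end TEXA1

theorem t_EXA1 : KU.S_k4 → S_EXA1 := by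
  intro h4 N r k c hk hN hr hC n M hn hM F G hF hG
  have hn0 := TEXA1.n_pos hN (by omega) hn
  have hN4 : k + 4 ≤ N := by omega
  refine ⟨?_, ?_, ?_⟩
  · ext e
    rw [TEXA1.mem_ExA1, TEXA1.mem_ExA1, TEXA1.KA1_eq h4 hk hN4 hC hn hn0 F G]
  · intro x
    rw [TEXA1.KA1_eq h4 hk hN4 hC hn hn0 F G]
  · intro x y hx
    exact (TEXA1.KA1_congr h4 hk hN4 hC hn hn0 F G hx).symm

end Pool.Agent.W808.KY
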