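import Pool.Agent.W808.KY.T_EXA1
import Pool.Agent.W239.KZR.EXB1

/-!
# Step B: stability of the explored set, `2 k + 1` legs (helper959, after helper239)
-/

set_option autoImplicit false

namespace Pool.Agent.W808.KY
open H974 H906.Cyl
open H12S (Dir hbE segD rimE H4 Crs Nr sqE)
open Pool.Agent.H160R2.ML (nm)
open Pool.Agent.H160R2.MU (Cel csq cpos prd shf BxS Bxs EP inSq PC Bad Cc)
open Pool.Agent.W808.HU (PTr labC)
open Pool.Agent.W801.OU (zp nrm Dg LZ RZ Cor bxz Zn)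
open Pool.Agent.W808.KU (AdmS TubeS CrrS)
open Pool.Agent.W808.KZ (vp fp nrp BZ mrg)
open Pool.Agent.W808.KZ.Per (te tp)
open Pool.Agent.W808.KZ.TEXA (mem_mrg eqv_agree LZ_congr cor01)
open Pool.Agent.W239.KZR (tv src_te tgt_te Exi_te1 Reach_tv)
open Pool.Agent.W658.KZ (Exi)

namespace TEXB1

open Relation PerY

theorem mem_FB {N r k : ℕ} {c : Fin k → Cel} {n M : ℕ} {F : Finset Edg} {e : Edg} :
    e ∈ FB N r k c n M F ↔ e ∈ CE n M ∧ ((e ∈ EB N r k ∨ e ∈ ET N r k c) ∧ e ∈ F) := by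
  classical
  simp only [FB, Finset.mem_filter]

theorem mem_ExB1 {S : Finset ℕ} {N r k ρ : ℕ} {c : Fin k → Cel} {n M : ℕ} {F : Finset Edg}
    {e : Edg} :
    e ∈ ExB1 S N r k ρ c n M F ↔ e ∈ CE n M ∧ (e ∈ EB N r k ∨ e ∈ ET N r k c) ∧
    ((∃ x, KB1 S N r k c n M F x ∧ (Cor (Zn n) 0 e x ∨ Cor (Zn n) 1 e x)) ∨
      (e ∈ Yb N r k ρ c n ∧ (KL N r k ρ c n F (src e) ∨ KL N r k ρ c n F (tgt e)))) := by
  classical
  simp only [ExB1, Finset.mem_filter]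

variable {S : Finset ℕ} {N r k ρ : ℕ} {c : Fin k → Cel} {n M : ℕ}

theorem NrD_te1 (h4 : KU.S_k4) (hk : 2 ≤ k) (hN : k + 4 ≤ N) (hC : AdmS N k c)
    (hn : n = prd N k * r) (q : ℤ) {e : Edg} (h : NrD N r k ρ c e) :
    NrD N r k ρ c (te n q e) := by
  obtain ⟨e', h1, h2, h5, h6⟩ := h
  obtain ⟨h1', h2'⟩ := (nEU_te h4 hk hN hC hn q e').2 ⟨h1, h2⟩
  refine ⟨te n q e', h1', h2', ?_, ?_⟩
  · have : (te n q e).1 - (te n q e').1 = e.1 - e'.1 := by unfold te; ring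
    rw [this]; exact h5
  · have : (te n q e).2.1 - (te n q e').2.1 = e.2.1 - e'.2.1 := by unfold te; ring
    rw [this]; exact h6

theorem Yb_te1 (h4 : KU.S_k4) (hk : 2 ≤ k) (hN : k + 4 ≤ N) (hC : AdmS N k c)
    (hn : n = prd N k * r) (q : ℤ) {e : Edg} (h : e ∈ Yb N r k ρ c n) :
    te n q e ∈ Yb N r k ρ c n := by
  obtain ⟨h1, h2, h5⟩ := h
  refine ⟨(EU_te h4 hk hN hC hn q e).2 h1, NrD_te1 h4 hk hN hC hn q h2, fun h => h5 ?_⟩
  have := Exi_te1 (-q) h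
  rwa [KZ.Per.te_te, neg_add_cancel, KZ.Per.te_zero] at this

theorem Yb_te (h4 : KU.S_k4) (hk : 2 ≤ k) (hN : k + 4 ≤ N) (hC : AdmS N k c)
    (hn : n = prd N k * r) (q : ℤ) {e : Edg} :
    te n q e ∈ Yb N r k ρ c n ↔ e ∈ Yb N r k ρ c n := by
  refine ⟨fun h => ?_, Yb_te1 h4 hk hN hC hn q⟩
  have := Yb_te1 h4 hk hN hC hn (-q) h
  rwa [KZ.Per.te_te, neg_add_cancel, KZ.Per.te_zero] at this

theorem KL_tv (h4 : KU.S_k4) (hk : 2 ≤ k) (hN : k + 4 ≤ N) (hC : AdmS N k c)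
    (hn : n = prd N k * r) (hn0 : 0 < n) (F : Finset Edg) (q : ℤ) {v : Vtx}
    (h : KL N r k ρ c n F v) : KL N r k ρ c n F (tv n q v) := by
  obtain ⟨w, e, h1, h2, h5, h6⟩ := h
  refine ⟨tv n q w, te n q e, (EU_te h4 hk hN hC hn q e).2 h1,
    fun h => h2 ((Yb_te h4 hk hN hC hn q).1 h), ?_, ?_⟩
  · rw [src_te, tgt_te]
    rcases h5 with h5 | h5
    · left; rw [h5]
    · right; rw [h5]
  · refine Reach_tv ?_ q h6
    rintro q e ⟨ha, hb⟩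
    exact ⟨(KZ.Per.per_te hn0 F q e).2 ha, Yb_te1 h4 hk hN hC hn q hb⟩

theorem KB1_tp (hn0 : 0 < n) (F : Finset Edg) (q : ℤ)
    {x : ℤ × ℤ} (h : KB1 S N r k c n M F x) : KB1 S N r k c n M F (tp n q x) := by
  obtain ⟨s, i, hi, h⟩ := h
  refine ⟨s + q, i, hi, ?_⟩
  rw [← tp_scy]
  exact RY_tp hn0 _ q h

theorem touch_B1 (ρ : ℕ) (hn0 : 0 < n) {F : Finset Edg} {e : Edg} (he : red n e ∈ CE n M)
    (hb : red n e ∈ EB N r k ∨ red n e ∈ ET N r k c) {x : ℤ × ℤ}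
    (hx : KB1 S N r k c n M F x)
    (hc : Cor (Zn n) 0 e x ∨ Cor (Zn n) 1 e x) : red n e ∈ ExB1 S N r k ρ c n M F := by
  rw [mem_ExB1]
  refine ⟨he, hb, Or.inl ⟨tp n (-((e.1 + e.2.1) / (2 * n))) x, KB1_tp hn0 F _ hx, ?_⟩⟩
  rw [KZ.Per.red_eq_te]
  exact hc.imp (KZ.Per.Cor_te1 _) (KZ.Per.Cor_te1 _)

theorem per_FB1_iff (hn0 : 0 < n) (F G : Finset Edg) {e : Edg} {x : ℤ × ℤ}
    (hx : KB1 S N r k c n M F x) (hc : Cor (Zn n) 0 e x ∨ Cor (Zn n) 1 e x) :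
    e ∈ per n (FB N r k c n M F) ↔
      e ∈ per n (FB N r k c n M (mrg (ExB1 S N r k ρ c n M F) F G)) := by
  show red n e ∈ FB N r k c n M F ↔
    red n e ∈ FB N r k c n M (mrg (ExB1 S N r k ρ c n M F) F G)
  rw [mem_FB, mem_FB, mem_mrg]
  by_cases h1 : red n e ∈ CE n M
  · by_cases h2 : red n e ∈ EB N r k ∨ red n e ∈ ET N r k c
    · have := touch_B1 ρ hn0 h1 h2 hx hc
      tauto
    · tauto
  · tauto

theorem KB1_congr (ρ : ℕ) (hn0 : 0 < n) (F G : Finset Edg) {y x : ℤ × ℤ}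
    (hy : KB1 S N r k c n M F y) :
    RY n k (per n (FB N r k c n M F)) y x ↔
      RY n k (per n (FB N r k c n M (mrg (ExB1 S N r k ρ c n M F) F G))) y x := by
  refine eqv_agree (S := KB1 S N r k c n M F) ?_ ?_ hy
  · intro a b hab
    constructor
    · rintro ⟨s, i, hi, h2⟩
      exact ⟨s, i, hi, EqvGen.trans _ _ _ h2 (EqvGen.rel _ _ hab)⟩
    · rintro ⟨s, i, hi, h2⟩
      exact ⟨s, i, hi, EqvGen.trans _ _ _ h2 (EqvGen.symm _ _ (EqvGen.rel _ _ hab))⟩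
  · intro a b hab
    refine LZ_congr fun e _ h => or_congr ?_ Iff.rfl
    obtain ⟨d, hd, ha, hb⟩ := h
    rcases hab with h | h
    · exact per_FB1_iff hn0 F G h (cor01 hd ha)
    · exact per_FB1_iff hn0 F G h (cor01 hd hb)

theorem KB1_eq (ρ : ℕ) (hn0 : 0 < n) (F G : Finset Edg) :
    KB1 S N r k c n M (mrg (ExB1 S N r k ρ c n M F) F G) = KB1 S N r k c n M F := by
  funext x
  refine propext ⟨?_, ?_⟩
  · rintro ⟨s, i, hi, h2⟩
    exact ⟨s, i, hi, (KB1_congr ρ hn0 F G ⟨s, i, hi, EqvGen.refl _⟩).2 h2⟩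
  · rintro ⟨s, i, hi, h2⟩
    exact ⟨s, i, hi, (KB1_congr ρ hn0 F G ⟨s, i, hi, EqvGen.refl _⟩).1 h2⟩

theorem per_KL_iff (h4 : KU.S_k4) (S : Finset ℕ) (hk : 2 ≤ k) (hN : k + 4 ≤ N)
    (hC : AdmS N k c) (hn : n = prd N k * r) (hn0 : 0 < n) {F G : Finset Edg}
    (hF : F ⊆ CE n M) (hG : G ⊆ CE n M) {e : Edg} (hY : e ∈ Yb N r k ρ c n)
    (hK : KL N r k ρ c n F (src e) ∨ KL N r k ρ c n F (tgt e)) :
    e ∈ per n F ↔ e ∈ per n (mrg (ExB1 S N r k ρ c n M F) F G) := by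
  show red n e ∈ F ↔ red n e ∈ mrg (ExB1 S N r k ρ c n M F) F G
  rw [mem_mrg]
  by_cases h1 : red n e ∈ CE n M
  · have h5 : red n e ∈ ExB1 S N r k ρ c n M F := by
      rw [mem_ExB1]
      have h6 : red n e ∈ Yb N r k ρ c n := by
        rw [KZ.Per.red_eq_te]
        exact Yb_te1 h4 hk hN hC hn _ hY
      refine ⟨h1, h6.1, Or.inr ⟨h6, ?_⟩⟩
      rw [KZ.Per.red_eq_te, src_te, tgt_te]
      exact hK.imp (KL_tv h4 hk hN hC hn hn0 F _) (KL_tv h4 hk hN hC hn hn0 F _)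
    tauto
  · have h2 : red n e ∉ F := fun h => h1 (hF h)
    have h4 : red n e ∉ G := fun h => h1 (hG h)
    tauto

theorem KL_eq (h4 : KU.S_k4) (S : Finset ℕ) (hk : 2 ≤ k) (hN : k + 4 ≤ N)
    (hC : AdmS N k c) (hn : n = prd N k * r) (hn0 : 0 < n) {F G : Finset Edg}
    (hF : F ⊆ CE n M) (hG : G ⊆ CE n M) (v : Vtx) :
    KL N r k ρ c n (mrg (ExB1 S N r k ρ c n M F) F G) v ↔ KL N r k ρ c n F v := by
  constructor
  · rintro ⟨w, e0, h1, h2, h5, h6⟩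
    have key : ∀ v, Reach (per n (mrg (ExB1 S N r k ρ c n M F) F G) ∩ Yb N r k ρ c n) w v →
        Reach (per n F ∩ Yb N r k ρ c n) w v := by
      intro v h
      induction h with
      | refl => exact Relation.ReflTransGen.refl
      | @tail b d _ hs ih =>
        refine ih.tail ?_
        obtain ⟨e, ⟨he1, he2⟩, h⟩ := hs
        have hb : KL N r k ρ c n F b := ⟨w, e0, h1, h2, h5, ih⟩
        have hK : KL N r k ρ c n F (src e) ∨ KL N r k ρ c n F (tgt e) := by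
          rcases h with ⟨ha, _⟩ | ⟨_, ha⟩
          · left; rw [ha]; exact hb
          · right; rw [ha]; exact hb
        exact ⟨e, ⟨(per_KL_iff h4 S hk hN hC hn hn0 hF hG he2 hK).2 he1, he2⟩, h⟩
    exact ⟨w, e0, h1, h2, h5, key v h6⟩
  · rintro ⟨w, e0, h1, h2, h5, h6⟩
    have key : ∀ v, Reach (per n F ∩ Yb N r k ρ c n) w v →
        Reach (per n (mrg (ExB1 S N r k ρ c n M F) F G) ∩ Yb N r k ρ c n) w v := by
      intro v h
      induction h with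
      | refl => exact Relation.ReflTransGen.refl
      | @tail b d hbr hs ih =>
        refine ih.tail ?_
        obtain ⟨e, ⟨he1, he2⟩, h⟩ := hs
        have hb : KL N r k ρ c n F b := ⟨w, e0, h1, h2, h5, hbr⟩
        have hK : KL N r k ρ c n F (src e) ∨ KL N r k ρ c n F (tgt e) := by
          rcases h with ⟨ha, _⟩ | ⟨_, ha⟩
          · left; rw [ha]; exact hb
          · right; rw [ha]; exact hb
        exact ⟨e, ⟨(per_KL_iff h4 S hk hN hC hn hn0 hF hG he2 hK).1 he1, he2⟩, h⟩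
    exact ⟨w, e0, h1, h2, h5, key v h6⟩

end TEXB1

theorem t_EXB1 : KU.S_k4 → S_EXB1 := by
  intro h4 S N r k ρ c hk hN hρ hρr hC n M hn hM F G hF hG
  have hn0 := TEXA1.n_pos hN (by omega) hn
  have hN4 : k + 4 ≤ N := by omega
  have hKB := TEXB1.KB1_eq (S := S) (N := N) (r := r) (k := k) (c := c) ρ hn0 F G (M := M)
  have hKL := TEXB1.KL_eq h4 S (ρ := ρ) hk hN4 hC hn hn0 hF hG
  refine ⟨?_, hKL, ?_⟩
  · ext e
    rw [TEXB1.mem_ExB1, TEXB1.mem_ExB1, hKB, hKL, hKL]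
  · intro s i x hi
    exact (TEXB1.KB1_congr ρ hn0 F G ⟨s, i, hi, Relation.EqvGen.refl _⟩).symm

end Pool.Agent.W808.KY
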