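import Pool.Agent.W808.KY.Stm
import Pool.Agent.W808.KZ.T_IND

/-!
Independence of the event of the dislocated plane in the boxes and of the bad events outside of them,
`2 k + 1` legs.
-/

set_option autoImplicit false

namespace Pool.Agent.W808.KY
open H974 H906.Cyl
open H12S (Dir hbE segD rimE H4 Crs Nr sqE)
open Pool.Agent.H160R2.ML (nm)
open Pool.Agent.H160R2.MU (Cel csq cpos prd shf BxS Bxs EP inSq PC Bad Cc)
open Pool.Agent.W808.HU (PTr)
open Pool.Agent.W801.OU (zp nrm Dg LZ RZ Cor bxz Zn)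
open Pool.Agent.W808.KZ (vp fp nrp BZ mrg ZCr)
open Pool.Agent.H863R2.Cyl
open Pool.Agent.W808.KZ.TIND (RZ_congr ZCr_congr)

namespace TIND

theorem RB_congr {k R : ℕ} {G G' : Set Edg} (h : ∀ e ∈ boxE R, (e ∈ G ↔ e ∈ G')) :
    RB k R G = RB k R G' := by
  unfold RB
  refine RZ_congr fun e he => ?_
  rw [Set.mem_union, Set.mem_union,
    h e (Pool.Agent.H160R2.MU.TIND.mem_boxE_of he.1.1 he.1.2)]

theorem SEy_congr {k R : ℕ} {G G' : Set Edg} (h : ∀ e ∈ boxE R, (e ∈ G ↔ e ∈ G')) :
    SEy k R G ↔ SEy k R G' := by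
  unfold SEy
  rw [RB_congr h]

end TIND

open TIND in
open Pool.Agent.H160R2.MU.TIND (Far Cc_congr Bad_mono' per_congr) in
theorem t_IND : S_IND := by
  intro c N r k ρ l hc hk hN hr h1 hl h2 n M hn' hM'
  obtain ⟨ν, hνdef⟩ : ∃ ν : ℕ, ν = prd N k := ⟨_, rfl⟩
  have hν : 4 * N ≤ ν := by
    rw [hνdef]
    unfold prd
    omega
  rw [← hνdef] at hn' ⊢
  set R : ℕ := N * r / 2 with hRdef
  have hP : 16 * r ≤ N * r := Nat.mul_le_mul_right r (by omega)
  have hnP : 4 * (N * r) ≤ n := by
    rw [hn']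
    calc 4 * (N * r) = 4 * N * r := by ring
      _ ≤ ν * r := Nat.mul_le_mul_right r hν
  have hn : 0 < n := by omega
  have hinj : Set.InjOn (red n) (boxE R : Set Edg) := by
    apply red_inj_x
    omega
  have himg : (boxE R).image (red n) ⊆ CE n M := by
    apply image_red_sub hn
    · omega
    · omega
  have hA : ∀ F, F ⊆ CE n M → (SEy k R (per n F) ↔ SEy k R (per n (F ∩ (boxE R).image (red n)))) := by
    intro F _
    apply SEy_congr
    intro e he
    show red n e ∈ F ↔ red n e ∈ F ∩ (boxE R).image (red n)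
    rw [Finset.mem_inter]
    exact ⟨fun h => ⟨h, Finset.mem_image_of_mem _ he⟩, fun h => h.1⟩
  have hB : ∀ F, F ⊆ CE n M → (Bad c N r ρ l ν n M F ↔
      Bad c N r ρ l ν n M (F ∩ (CE n M \ (boxE R).image (red n)))) := by
    intro F hF
    have key : ∀ e : Edg, Far n R e → (e ∈ Cc c n M F ↔
      e ∈ Cc c n M (F ∩ (CE n M \ (boxE R).image (red n)))) := fun e he => Cc_congr hF he
    constructor
    · exact Bad_mono' hn' (by omega) (by omega) (by omega) (by omega) key
    · exact Bad_mono' hn' (by omega) (by omega) (by omega) (by omega)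
        fun e he => (key e he).symm
  have hB2 : ∀ F, F ⊆ CE n M → (BZ N r ρ n F ↔
      BZ N r ρ n (F ∩ (CE n M \ (boxE R).image (red n)))) := by
    intro F hF
    unfold BZ
    apply ZCr_congr
    rintro e ⟨he1, he2⟩
    refine per_congr hF fun s => ?_
    have hNr : ((N * r : ℕ) : ℤ) = (N : ℤ) * r := by push_cast; ring
    have hnz : 4 * ((N * r : ℕ) : ℤ) ≤ (n : ℤ) := by exact_mod_cast hnP
    have hRz : (2 * R : ℤ) ≤ (N * r : ℕ) := by
      have : 2 * R ≤ N * r := by omega
      exact_mod_cast this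
    have hPz : (16 : ℤ) * r ≤ (N * r : ℕ) := by exact_mod_cast hP
    have hrz : (2 : ℤ) ≤ r := by
      have : 2 ≤ r := by omega
      exact_mod_cast this
    have he3 : |dco e + 2 * ((N * r : ℕ) : ℤ)| ≤ r := by
      rw [hNr, ← mul_assoc]
      exact he2
    have hd : e.1 - e.2.1 - 1 ≤ dco e ∧ dco e ≤ e.1 - e.2.1 := by
      obtain ⟨x, y, _ | _⟩ := e
      · simp only [dco]
        simp
      · simp only [dco]
        simp
    obtain ⟨h5, h6⟩ := abs_le.1 he1
    obtain ⟨h7, h8⟩ := abs_le.1 he3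
    obtain ⟨h9, h10⟩ := hd
    have hnn : (0 : ℤ) ≤ n := by positivity
    rcases lt_trichotomy s 0 with hs | hs | hs
    · right
      have h11 : s * n ≤ (-1) * n := mul_le_mul_of_nonneg_right (by omega) hnn
      rw [lt_abs]
      left
      omega
    · left
      subst hs
      rw [lt_abs]
      right
      omega
    · left
      have h11 : 1 * (n : ℤ) ≤ s * n := mul_le_mul_of_nonneg_right (by omega) hnn
      rw [lt_abs]
      right
      omega
  have e1 : PC n M (fun F => SEy k R (per n F) ∧ (Bad c N r ρ l ν n M F ∨ BZ N r ρ n F)) =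
      PC n M (fun F => SEy k R (per n F)) * PC n M (fun F => Bad c N r ρ l ν n M F ∨ BZ N r ρ n F) :=
    Pr_indep himg Finset.sdiff_subset Finset.disjoint_sdiff hA
      fun F hF => or_congr (hB F hF) (hB2 F hF)
  have e2 : PC n M (fun F => SEy k R (per n F)) = uY k R := by
    have e3 := Pr_red (q := 1 / 2) hinj himg (fun F => SEy k R (↑F : Set Edg))
    unfold uY PC
    rw [← e3]
    apply Pr_congr
    intro F _
    apply SEy_congr
    intro e he
    simp only [Finset.coe_filter, Set.mem_ofPred_eq, he, true_and]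
    rfl
  have e4 : PC n M (fun F => SEy k (N * r / 2 : ℕ) (per n F) ∧
      (Bad c N r ρ l ν n M F ∨ BZ N r ρ n F)) =
      PC n M (fun F => SEy k R (per n F) ∧ (Bad c N r ρ l ν n M F ∨ BZ N r ρ n F)) := rfl
  rw [e4, e1, e2]

end Pool.Agent.W808.KY
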