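import Pool.Agent.W808.KY.T_LAND3

/-! LAND: the clusters of the box of the dislocated plane with `2 k + 1` legs land (helper212). -/

set_option autoImplicit false

namespace Pool.Agent.W808.KY
open H974 H906.Cyl
open H12S (Dir hbE segD rimE H4 Crs Nr sqE)
open Pool.Agent.H160R2.ML (nm)
open Pool.Agent.H160R2.MU (Cel csq cpos prd shf BxS Bxs EP inSq PC Bad Cc)
open Pool.Agent.W801.OU (zp nrm Dg LZ RZ Cor bxz Zn)
open Pool.Agent.W808.KU (AdmS)
open Pool.Agent.W808.KZ (vp fp ZCr)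

open TLAND in
open Pool.Agent.H160R2.MU.TLAND (ok2 bad_mono) in
open Pool.Agent.H160R2.MU (TMON.box_mono) in
theorem t_LAND : S_ADJ → S_NC → KZ.S_ZC → S_LAND := by
  classical
  intro hADJ hNC hZC k hk δ hδ
  obtain ⟨N, A, B, hN, hA, hB, hN2, hN3, hP⟩ := prob_y hZC k δ hδ
  refine ⟨N, hN, ((Fintype.piFinset (fun _ : Fin k =>
    Finset.range 4 ×ˢ Finset.Ico (-(N : ℤ)) N)).filter (AdmS N k)),
    fun c hc => (Finset.mem_filter.1 hc).2, k, ?_⟩
  intro r hkr
  have hr : 1 ≤ r := by omega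
  set Cs := ((Fintype.piFinset (fun _ : Fin k =>
    Finset.range 4 ×ˢ Finset.Ico (-(N : ℤ)) N)).filter (AdmS N k)) with hCs
  set l := A * r with hl
  set ρ := B * (A * r) with hρ
  have h1 : 64 * r ≤ l := Nat.mul_le_mul_right r hA
  have h2 : 64 * l ≤ ρ := Nat.mul_le_mul_right _ hB
  have h3 : 256 * ρ ≤ N * r := by
    calc 256 * ρ = 256 * (B * A) * r := by rw [hρ]; ring
      _ ≤ N * r := Nat.mul_le_mul_right r hN2
  have h4 : 64 * k ≤ N * r := by
    calc 64 * k ≤ N := hN3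
      _ = N * 1 := (mul_one N).symm
      _ ≤ N * r := Nat.mul_le_mul_left N hr
  have hcov : uY k (N * r) ≤ Pr (fun _ => (1 / 2 : ℝ)) (boxE (N * r)) (fun F =>
      (SEy k (N * r / 2 : ℕ) (↑F : Set Edg) ∧ BadY r l ρ (N * r) (↑F : Set Edg)) ∨
      ∃ c ∈ Cs, LandY N r k c (↑F : Set Edg)) := by
    unfold uY
    refine Pr_mono ok2 fun F _ hF => ?_
    by_cases hb : BadY r l ρ (N * r) (↑F : Set Edg)
    · exact Or.inl ⟨sey_mono (by exact_mod_cast Nat.div_le_self _ _) hF, hb⟩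
    · right
      obtain ⟨c, hc, hc'⟩ := det_y hADJ hNC hk hkr hr h1 h2 h3 h4 (fun h => hb (Or.inl h))
        (fun h => hb (Or.inr h)) hF
      refine ⟨c, ?_, hc'⟩
      rw [hCs, Finset.mem_filter, Fintype.mem_piFinset]
      refine ⟨fun a => ?_, hc⟩
      have := hc.1 a
      rw [Finset.mem_product, Finset.mem_range, Finset.mem_Ico]
      omega
  have hind : Pr (fun _ => (1 / 2 : ℝ)) (boxE (N * r)) (fun F =>
      (SEy k (N * r / 2 : ℕ) (↑F : Set Edg) ∧ BadY r l ρ (N * r) (↑F : Set Edg))) =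
      Pr (fun _ => (1 / 2 : ℝ)) (boxE (N * r)) (fun F => SEy k (N * r / 2 : ℕ) (↑F : Set Edg)) *
      Pr (fun _ => (1 / 2 : ℝ)) (boxE (N * r)) (fun F => BadY r l ρ (N * r) (↑F : Set Edg)) := by
    refine Pr_indep (S := boxE (N * r / 2)) (T := boxE (N * r) \ boxE (N * r / 2))
      (TMON.box_mono (Nat.div_le_self _ _)) Finset.sdiff_subset Finset.disjoint_sdiff
      (fun F _ => sey_local F) (fun F hF => ?_)
    have key : ∀ e : Edg, e ∉ boxE (N * r / 2) →
        (e ∈ (↑F : Set Edg) ↔ e ∈ (↑(F ∩ (boxE (N * r) \ boxE (N * r / 2))) : Set Edg)) := by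
      intro e he
      rw [Finset.mem_coe, Finset.mem_coe, Finset.mem_inter, Finset.mem_sdiff]
      exact ⟨fun h => ⟨h, hF h, he⟩, fun h => h.1⟩
    have hz := zcr_local (R := N * r) (by omega) (t := (-(2 * (N * r : ℕ) : ℤ)))
      (a := (16 * ρ : ℕ)) (b := (N * r / 8 : ℕ)) (fun e he _ => key e he)
    exact or_congr ⟨bad_mono hr h1 h2 (by omega) key, bad_mono hr h1 h2 (by omega)
      fun e he => (key e he).symm⟩ hz
  have hsp : Pr (fun _ => (1 / 2 : ℝ)) (boxE (N * r))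
      (fun F => SEy k (N * r / 2 : ℕ) (↑F : Set Edg)) = uY k (N * r / 2) :=
    Pr_local (TMON.box_mono (Nat.div_le_self _ _)) fun F _ => sey_local F
  have hsp0 : 0 ≤ uY k (N * r / 2) := Pr_nonneg ok2 _ _
  refine hcov.trans ((Pr_or_le ok2 _ _ _).trans (add_le_add ?_ (Pr_exists_le ok2 _ _ _)))
  rw [hind, hsp, mul_comm]
  exact mul_le_mul_of_nonneg_right (hP r hr) hsp0

end Pool.Agent.W808.KY
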