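import Pool.Agent.W808.KY.Stm2
import Pool.Agent.W808.KU.T_DET
import Pool.Agent.W658.KZ.MA0

/-!
# Step A, deterministic part (`2 k + 1` legs)
(adapted from `Pool.Agent.W658.KZ.MA1`)
-/

set_option autoImplicit false

namespace Pool.Agent.W808.KY
open H974 H906.Cyl
open H12S (Dir hbE segD rimE H4 Crs Nr sqE)
open Pool.Agent.H160R2.ML (nm)
open Pool.Agent.H160R2.MU (Cel csq cpos prd shf BxS Bxs EP inSq PC Bad Cc)
open Pool.Agent.W808.HU (PTr labC labT)
open Pool.Agent.W801.OU (zp nrm Dg LZ RZ Cor bxz Zn)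
open Pool.Agent.W808.KU (AdmS TubeS CrrS S_k1 S_k2 S_k3 S_k4 S_k5)
open Pool.Agent.W808.KZ (vp fp nrp BZ mrg)
open Pool.Agent.W808.KZ.Per (te tp te_te tp_tp te_zero tp_zero dco_te sum_te)
open Pool.Agent.W658.KZ.TMA (Tr Cn opp opp_opp opp_par dg_tr dg_tr' cor_tr dg_near cor_near Far nb
  fpi reach_lk nr_fpi Tr.zp Tr.nrm0 Tr.nrm1 Cn.opp Far.tr Far.trc Far.cor)

namespace TMA1

open Relation (EqvGen)

/-! ### links in both directions -/

/-- links in both directions -/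
def St (n : ℕ) (B G : Set Edg) (e : Edg) (x y : ℤ × ℤ) : Prop :=
  e ∈ B ∧ e ∉ zp (Zn n) ∧ ((e ∈ G ∧ (Dg (Zn n) 0 e x y ∨ Dg (Zn n) 0 e y x)) ∨
    (e ∉ G ∧ (Dg (Zn n) 1 e x y ∨ Dg (Zn n) 1 e y x)))

theorem St.rc {n : ℕ} {B G : Set Edg} {e : Edg} {x y : ℤ × ℤ} (h : St n B G e x y) :
    RZ (Zn n) B G x y := by
  obtain ⟨hB, hz, ⟨h1, h2 | h2⟩ | ⟨h1, h2 | h2⟩⟩ := h
  · exact EqvGen.rel _ _ ⟨e, hB, hz, Or.inl ⟨h1, h2⟩⟩
  · exact EqvGen.symm _ _ (EqvGen.rel _ _ ⟨e, hB, hz, Or.inl ⟨h1, h2⟩⟩)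
  · exact EqvGen.rel _ _ ⟨e, hB, hz, Or.inr ⟨h1, h2⟩⟩
  · exact EqvGen.symm _ _ (EqvGen.rel _ _ ⟨e, hB, hz, Or.inr ⟨h1, h2⟩⟩)

theorem St.mono {n : ℕ} {B B' G G' : Set Edg} {e : Edg} {x y : ℤ × ℤ} (h : St n B G e x y)
    (hB : e ∈ B → e ∈ B') (hG : e ∈ G ↔ e ∈ G') : St n B' G' e x y := by
  obtain ⟨h0, hz, h⟩ := h
  rw [hG] at h
  exact ⟨hB h0, hz, h⟩

theorem step_closed {n : ℕ} {B G : Set Edg} {P : ℤ × ℤ → Prop}
    (h : ∀ (e : Edg) (x y : ℤ × ℤ), St n B G e x y → P x → P y) {x y : ℤ × ℤ}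
    (hxy : RZ (Zn n) B G x y) : P x ↔ P y := by
  induction hxy with
  | refl x => exact Iff.rfl
  | symm x y _ ih => exact ih.symm
  | trans x y z _ _ ih1 ih2 => exact ih1.trans ih2
  | rel x y h1 =>
    obtain ⟨e, h0, hz, h2⟩ := h1
    constructor
    · refine h e x y ⟨h0, hz, ?_⟩
      exact h2.imp (fun h => ⟨h.1, Or.inl h.2⟩) (fun h => ⟨h.1, Or.inl h.2⟩)
    · refine h e y x ⟨h0, hz, ?_⟩
      exact h2.imp (fun h => ⟨h.1, Or.inr h.2⟩) (fun h => ⟨h.1, Or.inr h.2⟩)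

theorem ry_refl {n k : ℕ} {G : Set Edg} (x : ℤ × ℤ) : RY n k G x x := EqvGen.refl _
theorem ry_symm {n k : ℕ} {G : Set Edg} {x y : ℤ × ℤ} (h : RY n k G x y) : RY n k G y x :=
  EqvGen.symm _ _ h
theorem ry_trans {n k : ℕ} {G : Set Edg} {x y z : ℤ × ℤ} (h : RY n k G x y) (h' : RY n k G y z) :
    RY n k G x z := EqvGen.trans _ _ _ h h'

theorem St.cor {n : ℕ} {B G : Set Edg} {e : Edg} {x y : ℤ × ℤ} (h : St n B G e x y) :
    (e ∈ G ∧ Cor (Zn n) 0 e x ∧ Cor (Zn n) 0 e y) ∨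
      (e ∉ G ∧ Cor (Zn n) 1 e x ∧ Cor (Zn n) 1 e y) := by
  obtain ⟨-, hz, ⟨h1, h2⟩ | ⟨h1, h2⟩⟩ := h
  · exact Or.inl ⟨h1, ⟨hz, y, h2⟩, ⟨hz, x, h2.symm⟩⟩
  · exact Or.inr ⟨h1, ⟨hz, y, h2⟩, ⟨hz, x, h2.symm⟩⟩

theorem St.tr {n : ℕ} {B G : Set Edg} {e : Edg} {x y : ℤ × ℤ} (h : St n B G e x y) (ht : Tr n e) :
    Cn e x ∧ y = opp e x ∧ (e ∈ G ↔ (x.1 + x.2) % 2 = 0) := by
  have key : ∀ c : ℤ, (c = 0 ∨ c = 1) → (Dg (Zn n) c e x y ∨ Dg (Zn n) c e y x) →
      Cn e x ∧ (x.1 + x.2) % 2 = c ∧ y = opp e x := by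
    intro c hc hd
    rcases hd with hd | hd
    · exact dg_tr ht hc hd
    · obtain ⟨h1, h2, rfl⟩ := dg_tr ht hc hd
      refine ⟨h1.opp, by rw [opp_par]; exact h2, (opp_opp e y).symm⟩
  obtain ⟨-, hz, ⟨h1, h2⟩ | ⟨h1, h2⟩⟩ := h
  · obtain ⟨k1, k2, k3⟩ := key 0 (Or.inl rfl) h2
    exact ⟨k1, k3, ⟨fun _ => k2, fun _ => h1⟩⟩
  · obtain ⟨k1, k2, k3⟩ := key 1 (Or.inr rfl) h2
    exact ⟨k1, k3, ⟨fun h => absurd h h1, fun h => by omega⟩⟩

theorem st_tr {n : ℕ} {B G : Set Edg} {e : Edg} {x : ℤ × ℤ} (hB : e ∈ B) (ht : Tr n e)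
    (hx : Cn e x) (hG : e ∈ G ↔ (x.1 + x.2) % 2 = 0) : St n B G e x (opp e x) := by
  refine ⟨hB, ht.zp, ?_⟩
  by_cases h : e ∈ G
  · exact Or.inl ⟨h, dg_tr' ht (Or.inl rfl) hx (hG.1 h)⟩
  · have : (x.1 + x.2) % 2 = 1 := by
      have := mt hG.2 h
      omega
    exact Or.inr ⟨h, dg_tr' ht (Or.inr rfl) hx this⟩

/-! ### translations -/

theorem mod_add (n : ℕ) (j q : ℤ) : (j + 2 * n * q) % (2 * n : ℕ) = j % (2 * n : ℕ) := by
  have h : j + 2 * n * q = j + ((2 * n : ℕ) : ℤ) * q := by push_cast; ring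
  rw [h, Int.add_mul_emod_self_left]

theorem Hn_te (n k : ℕ) (q : ℤ) (e : Edg) : te n q e ∈ Hn n k ↔ e ∈ Hn n k := by
  show ¬ (dco (te n q e) = -1 ∧ 1 ≤ ((te n q e).1 + (te n q e).2.1) % (2 * n : ℕ) ∧
    ((te n q e).1 + (te n q e).2.1) % (2 * n : ℕ) < k) ↔ ¬ (dco e = -1 ∧
    1 ≤ (e.1 + e.2.1) % (2 * n : ℕ) ∧ (e.1 + e.2.1) % (2 * n : ℕ) < k)
  rw [dco_te, sum_te, mod_add]

theorem En_te (n : ℕ) (q : ℤ) (e : Edg) : te n q e ∈ En n ↔ e ∈ En n := by
  show (dco (te n q e) = -1 ∧ ((te n q e).1 + (te n q e).2.1) % (2 * n : ℕ) = 0) ↔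
    (dco e = -1 ∧ (e.1 + e.2.1) % (2 * n : ℕ) = 0)
  rw [dco_te, sum_te, mod_add]

theorem RY_tp {n k : ℕ} (hn : 0 < n) (F : Finset Edg) {x y : ℤ × ℤ} (q : ℤ)
    (h : RY n k (per n F) x y) : RY n k (per n F) (tp n q x) (tp n q y) :=
  Pool.Agent.W808.KZ.Per.RZ_tp (Hn_te n k)
    (fun q e => or_congr (Pool.Agent.W808.KZ.Per.per_te hn F q e) (En_te n q e)) q h

theorem tp_scy (n k : ℕ) (q s : ℤ) (c : ℕ) : tp n q (scy n k s c) = scy n k (s + q) c := by
  unfold tp scy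
  split_ifs
  · exact Prod.ext (by simp only; ring) rfl
  · exact Prod.ext (by simp only; ring) rfl

theorem Bxs_iff {N k : ℕ} (z : ℤ × ℤ) (s : ℤ) : z ∈ Bxs N k ↔ shf N k s z ∈ Bxs N k := by
  refine ⟨fun h => Pool.Agent.H160R2.MU.TDET.Bxs_shift s h, fun h => ?_⟩
  have := Pool.Agent.H160R2.MU.TDET.Bxs_shift (-s) h
  rw [Pool.Agent.H160R2.MU.TDET.shf_shf] at this
  simpa [shf] using this

theorem Crr_iff {N k : ℕ} {c : Fin k → Cel} (z : ℤ × ℤ) (s : ℤ) :
    z ∈ CrrS N k c ↔ shf N k s z ∈ CrrS N k c := by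
  refine ⟨fun h => Pool.Agent.W808.KU.TDET.Crr_shift s h, fun h => ?_⟩
  have := Pool.Agent.W808.KU.TDET.Crr_shift (-s) h
  rw [Pool.Agent.H160R2.MU.TDET.shf_shf] at this
  simpa [shf] using this

/-! ### geometry -/

structure Geo (N r k : ℕ) (c : Fin k → Cel) (n M : ℕ) : Prop where
  k2 : S_k2
  k3 : S_k3
  k4 : S_k4
  k5 : S_k5
  hk : 2 ≤ k
  hN : k + 16 ≤ N
  hr : 4 ≤ r
  hkr : 4 * k + 4 ≤ r
  hc : AdmS N k c
  hn : n = prd N k * r
  hM : M = 4 * n

section geo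
variable {N r k : ℕ} {c : Fin k → Cel} {n M : ℕ} {F : Finset Edg}

theorem Geo.hnr (g : Geo N r k c n M) : (n : ℤ) = 4 * (N * r) + 16 * (k * r) := by
  rw [g.hn]; unfold prd; push_cast; ring

/-- sizes -/
theorem Geo.sz (g : Geo N r k c n M) : (16 * r : ℤ) ≤ N * r ∧ (2 * r : ℤ) ≤ k * r ∧
    (k * r : ℤ) ≤ N * r := by
  have h1 := g.hN
  have h2 := g.hk
  refine ⟨?_, ?_, ?_⟩
  · have : 16 * r ≤ N * r := Nat.mul_le_mul_right _ (by omega)
    exact_mod_cast this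
  · have : 2 * r ≤ k * r := Nat.mul_le_mul_right _ (by omega)
    exact_mod_cast this
  · have : k * r ≤ N * r := Nat.mul_le_mul_right _ (by omega)
    exact_mod_cast this

theorem Geo.n0 (g : Geo N r k c n M) : 0 < n := by
  have h1 := g.hnr
  have h2 := g.sz
  have h3 := g.hr
  omega

theorem Geo.n2 (g : Geo N r k c n M) : 2 * k + 2 ≤ n := by
  have h1 := g.hnr
  have h2 := g.sz
  have h3 := g.hkr
  omega

theorem Geo.EBte (g : Geo N r k c n M) (q : ℤ) (e : Edg) : te n q e ∈ EB N r k ↔ e ∈ EB N r k :=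
  Pool.Agent.W808.KZ.Per.EP_te g.hn Bxs_iff q e

theorem Geo.ETte (g : Geo N r k c n M) (q : ℤ) (e : Edg) :
    te n q e ∈ ET N r k c ↔ e ∈ ET N r k c :=
  Pool.Agent.W808.KZ.Per.EP_te g.hn Crr_iff q e

theorem Geo.EBred (g : Geo N r k c n M) (e : Edg) : red n e ∈ EB N r k ↔ e ∈ EB N r k := by
  rw [Pool.Agent.W808.KZ.Per.red_eq_te]; exact g.EBte _ e

theorem Geo.ETred (g : Geo N r k c n M) (e : Edg) : red n e ∈ ET N r k c ↔ e ∈ ET N r k c := by
  rw [Pool.Agent.W808.KZ.Per.red_eq_te]; exact g.ETte _ e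

theorem sq_shf (hn : n = prd N k * r) (q : ℤ) (z : ℤ × ℤ) :
    (r : ℤ) * z.1 = r * (shf N k q z).1 + n * q ∧ (r : ℤ) * z.2 = r * (shf N k q z).2 + n * q := by
  unfold shf
  rw [hn]
  push_cast
  constructor <;> ring

/-- squares of the box `q` -/
theorem Geo.eb_box (g : Geo N r k c n M) {e : Edg} {z : ℤ × ℤ} {q : ℤ} (hz : z ∈ BxS N k q)
    (he : e ∈ sqE r z) : (-(2 * (N * r) : ℤ) ≤ e.1 + e.2.1 - 2 * n * q ∧
      e.1 + e.2.1 - 2 * n * q + 1 ≤ 2 * (N * r)) ∧ -(2 * (N * r) : ℤ) ≤ dco e ∧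
      dco e + 1 ≤ 2 * (N * r) := by
  obtain ⟨h1, h2, h3, h4⟩ := hz
  rw [Pool.Agent.W808.KZ.Per.mem_sq] at he
  obtain ⟨e1, e2⟩ := sq_shf g.hn q z
  rw [e1, e2] at he
  generalize shf N k q z = w at *
  have b1 : -((N : ℤ) * r) ≤ r * w.1 := by nlinarith
  have b2 : (r : ℤ) * w.1 + r ≤ N * r := by nlinarith
  have b3 : -((N : ℤ) * r) ≤ r * w.2 := by nlinarith
  have b4 : (r : ℤ) * w.2 + r ≤ N * r := by nlinarith
  obtain ⟨x, y, _ | _⟩ := e
  · simp only [Bool.false_eq_true, if_false, dco] at he ⊢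
    have : (2 : ℤ) * n * q = n * q + n * q := by ring
    rw [this]
    omega
  · simp only [if_true, dco] at he ⊢
    have : (2 : ℤ) * n * q = n * q + n * q := by ring
    rw [this]
    omega

/-- squares of the tubes -/
theorem Geo.et_sq (g : Geo N r k c n M) {e : Edg} {z : ℤ × ℤ} (hz : z ∈ CrrS N k c)
    (he : e ∈ sqE r z) : (-(2 * n : ℤ) + 8 * r ≤ dco e ∧ dco e + 8 * r ≤ 2 * n) ∧
    ∀ q : ℤ, (e.1 + e.2.1 - 2 * n * q ≤ -(4 * r : ℤ)) ∨ (5 * r : ℤ) ≤ e.1 + e.2.1 - 2 * n * q ∨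
      (15 * r : ℤ) - 1 ≤ dco e := by
  have hN := g.hN
  have hk := g.hk
  have hx := (g.k4 N k c hk (by omega) g.hc _ rfl).2.2.2 z (Or.inr hz)
  rw [abs_le] at hx
  rw [Pool.Agent.W808.KZ.Per.mem_sq] at he
  constructor
  · have hp : (n : ℤ) = prd N k * r := by rw [g.hn]; push_cast; ring
    have b1 : (r : ℤ) * z.1 - r * z.2 ≤ n + 4 * (N * r) := by rw [hp]; nlinarith
    have b2 : -((n : ℤ) + 4 * (N * r)) ≤ (r : ℤ) * z.1 - r * z.2 := by rw [hp]; nlinarith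
    have h1 := g.hnr
    have h2 := g.sz
    have h3 := g.hr
    obtain ⟨x, y, _ | _⟩ := e
    · simp only [Bool.false_eq_true, if_false, dco] at he ⊢
      omega
    · simp only [if_true, dco] at he ⊢
      omega
  · intro q
    obtain ⟨e1, e2⟩ := sq_shf (N := N) (k := k) g.hn q z
    rw [e1, e2] at he
    have hy := g.k5 N k c hk (by omega) g.hc z hz q
    generalize shf N k q z = w at *
    have hN' : (16 : ℤ) ≤ N := by omega
    have hsum : (2 : ℤ) * n * q = n * q + n * q := by ring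
    rw [hsum]
    rcases hy with hy | hy | hy
    · right; right
      have : (r : ℤ) * 16 ≤ r * w.1 - r * w.2 := by nlinarith
      obtain ⟨x, y, _ | _⟩ := e
      · simp only [Bool.false_eq_true, if_false, dco] at he ⊢
        omega
      · simp only [if_true, dco] at he ⊢
        omega
    · left
      have : (r : ℤ) * w.1 + r * w.2 ≤ -(6 * r) := by nlinarith
      obtain ⟨x, y, _ | _⟩ := e
      · simp only [Bool.false_eq_true, if_false] at he ⊢
        omega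
      · simp only [if_true] at he ⊢
        omega
    · right; left
      have : (5 : ℤ) * r ≤ (r : ℤ) * w.1 + r * w.2 := by nlinarith
      obtain ⟨x, y, _ | _⟩ := e
      · simp only [Bool.false_eq_true, if_false] at he ⊢
        omega
      · simp only [if_true] at he ⊢
        omega

theorem Geo.et_ext (g : Geo N r k c n M) {e : Edg} (he : e ∈ ET N r k c) :
    (-(2 * n : ℤ) + 8 * r ≤ dco e ∧ dco e + 8 * r ≤ 2 * n) ∧
    ∀ q : ℤ, (e.1 + e.2.1 - 2 * n * q ≤ -(4 * r : ℤ)) ∨ (5 * r : ℤ) ≤ e.1 + e.2.1 - 2 * n * q ∨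
      (15 * r : ℤ) - 1 ≤ dco e := by
  obtain ⟨z, hz, he⟩ := he
  exact g.et_sq hz he

theorem Geo.et_tr (g : Geo N r k c n M) {e : Edg} (he : e ∈ ET N r k c) : Tr n e := by
  have hx := (g.et_ext he).2
  have hr := g.hr
  intro hd
  constructor
  · intro hs
    obtain ⟨q, hq⟩ := Pool.Agent.W658.KZ.TCOC.mem_Zn.1 hs
    have := hx q
    omega
  · intro hs
    obtain ⟨q, hq⟩ := Pool.Agent.W658.KZ.TCOC.mem_Zn.1 hs
    have := hx q
    omega

/-- decomposition of the column -/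
theorem Geo.dec (g : Geo N r k c n M) (s : ℤ) : ∃ q m : ℤ, s = 2 * n * q + m ∧ 0 ≤ m ∧
    m = s % (2 * n : ℕ) := by
  have h2 : (0 : ℤ) < (2 * n : ℕ) := by have := g.n0; exact_mod_cast (by omega : 0 < 2 * n)
  refine ⟨s / (2 * n : ℕ), s % (2 * n : ℕ), ?_, Int.emod_nonneg _ h2.ne', rfl⟩
  have := (Int.mul_ediv_add_emod s (2 * n : ℕ)).symm
  push_cast at this ⊢
  exact this

/-- holes and forced squares are in the boxes -/
theorem Geo.in_box (g : Geo N r k c n M) {e : Edg} (hd : dco e = -1) {q m : ℤ}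
    (hs : e.1 + e.2.1 = 2 * n * q + m) (h0 : 0 ≤ m) (h1 : m < k) : e ∈ EB N r k := by
  have hN := g.hN
  have hr := g.hr
  have hkr := g.hkr
  have hsz := g.sz
  have e1 : (r : ℤ) * (prd N k * q) = n * q := by rw [g.hn]; push_cast; ring
  -- the square near `q (n, n)`
  have h2 : te n (-q) e ∈ EB N r k → e ∈ EB N r k := (g.EBte (-q) e).1
  apply h2
  have hd' : dco (te n (-q) e) = -1 := by rw [dco_te]; exact hd
  have hs' : (te n (-q) e).1 + (te n (-q) e).2.1 = m := by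
    rw [sum_te, hs]; ring
  generalize te n (-q) e = e' at hd' hs'
  apply Pool.Agent.H160R2.MU.TDET.box_EP (by omega) (by omega)
  · rw [Pool.Agent.H160R2.MU.TDET.nm_le]
    push_cast
    obtain ⟨x, y, _ | _⟩ := e'
    · simp only [dco, Bool.false_eq_true, if_false] at hd' hs'
      simp only [src_mk]
      omega
    · simp only [dco, if_true] at hd' hs'
      simp only [src_mk]
      omega
  · rw [Pool.Agent.H160R2.MU.TDET.nm_le]
    push_cast
    obtain ⟨x, y, _ | _⟩ := e'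
    · simp only [dco, Bool.false_eq_true, if_false] at hd' hs'
      simp only [tgt_false]
      omega
    · simp only [dco, if_true] at hd' hs'
      simp only [tgt_true]
      omega

/-- outside the boxes there are no holes -/
theorem Geo.hole (g : Geo N r k c n M) {e : Edg} (h : e ∉ EB N r k) : e ∈ Hn n k ∧ e ∉ En n := by
  have hk := g.hk
  obtain ⟨q, m, h1, h2, h3⟩ := g.dec (e.1 + e.2.1)
  constructor
  · rintro ⟨h4, h5, h6⟩
    exact h (g.in_box h4 h1 h2 (by omega))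
  · rintro ⟨h4, h5⟩
    exact h (g.in_box h4 h1 h2 (by omega))

/-- near far points there are no holes -/
theorem Geo.hfar (g : Geo N r k c n M) {y : ℤ × ℤ} (h : Far n r y) {e : Edg} (he : Cn e y) :
    e ∈ Hn n k ∧ e ∉ En n := by
  have hk := g.hk
  have hkr := g.hkr
  obtain ⟨q, m, h1, h2, h3⟩ := g.dec (e.1 + e.2.1)
  have key : dco e = -1 → m < k → False := by
    intro h4 h5
    unfold Cn at he
    rcases h q with h | h
    · rw [le_abs] at h
      omega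
    · omega
  constructor
  · rintro ⟨h4, h5, h6⟩
    exact key h4 (by omega)
  · rintro ⟨h4, h5⟩
    exact key h4 (by omega)

theorem mem_FA {e : Edg} : e ∈ FA N r k c n M F ↔ e ∈ CE n M ∧
    ((e ∈ EB N r k ∧ e ∈ F) ∨ (e ∉ EB N r k ∧ e ∈ ET N r k c)) := by
  classical
  unfold FA
  simp only [Finset.mem_filter]

theorem mem_FB {e : Edg} : e ∈ FB N r k c n M F ↔ e ∈ CE n M ∧
    ((e ∈ EB N r k ∨ e ∈ ET N r k c) ∧ e ∈ F) := by
  classical
  unfold FB
  simp only [Finset.mem_filter]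

theorem Geo.ceB (g : Geo N r k c n M) {e : Edg} (he : e ∈ EB N r k) :
    -(M : ℤ) ≤ dco e ∧ dco e < M := by
  obtain ⟨z, ⟨q, hz⟩, he⟩ := he
  have h1 := (g.eb_box hz he).2
  have h3 := g.hnr
  have h4 := g.hM
  have h5 := g.sz
  omega

theorem Geo.ceT (g : Geo N r k c n M) {e : Edg} (he : e ∈ ET N r k c) :
    -(M : ℤ) ≤ dco e ∧ dco e < M := by
  have h1 := (g.et_ext he).1
  have h4 := g.hM
  have h5 := g.n0
  omega

theorem Geo.fa_tube (g : Geo N r k c n M) {e : Edg} (h1 : e ∉ EB N r k) (h2 : e ∈ ET N r k c) :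
    e ∈ per n (FA N r k c n M F) := by
  show red n e ∈ FA N r k c n M F
  rw [mem_FA, g.EBred, g.ETred]
  exact ⟨red_mem g.n0 (g.ceT h2).1 (g.ceT h2).2, Or.inr ⟨h1, h2⟩⟩

theorem Geo.fa_out (g : Geo N r k c n M) {e : Edg} (h1 : e ∉ EB N r k) (h2 : e ∉ ET N r k c) :
    e ∉ per n (FA N r k c n M F) := by
  show red n e ∉ FA N r k c n M F
  rw [mem_FA, g.EBred, g.ETred]
  rintro ⟨-, ⟨h, -⟩ | ⟨-, h⟩⟩
  · exact h1 h
  · exact h2 h

theorem Geo.fa_box (g : Geo N r k c n M) {e : Edg} (h : e ∈ EB N r k) :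
    e ∈ per n (FA N r k c n M F) ↔ red n e ∈ F := by
  show red n e ∈ FA N r k c n M F ↔ _
  rw [mem_FA, g.EBred, g.ETred]
  have := red_mem (M := M) g.n0 (g.ceB h).1 (g.ceB h).2
  tauto

theorem Geo.XE_tp (g : Geo N r k c n M) (q : ℤ) {x : ℤ × ℤ} (h : XE N r k c n x) :
    XE N r k c n (tp n q x) := by
  obtain ⟨e, h1, h2, h4⟩ := h
  exact ⟨te n q e, fun h => h1 ((g.EBte q e).1 h), fun h => h2 ((g.ETte q e).1 h),
    Pool.Agent.W808.KZ.Per.Cor_te1 q h4⟩

/-- class `0` of the tube `L` -/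
def TVL (N r k : ℕ) (c : Fin k → Cel) (n : ℕ) (L : ℕ × ℤ) (x : ℤ × ℤ) : Prop :=
  ∃ (z : ℤ × ℤ) (e : Edg), z ∈ TubeS N k c L ∧ e ∈ sqE r z ∧ e ∉ EB N r k ∧ Cor (Zn n) 0 e x

theorem even_cor {e : Edg} {x : ℤ × ℤ} (hx : Cn e x) (hp : (x.1 + x.2) % 2 = 0) :
    x = vp (src e) ∨ x = vp (tgt e) := by
  obtain ⟨x1, x2⟩ := x
  unfold Cn at hx
  obtain ⟨a, b, _ | _⟩ := e
  · simp only [dco, Bool.false_eq_true, if_false] at hx hp
    simp only [src_mk, tgt_false, vp, Prod.mk.injEq]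
    omega
  · simp only [dco, if_true] at hx hp
    simp only [src_mk, tgt_true, vp, Prod.mk.injEq]
    omega

theorem vp_inj {u v : Vtx} (h : vp u = vp v) : u = v := by
  obtain ⟨a, b⟩ := u
  obtain ⟨a', b'⟩ := v
  unfold vp at h
  simp only [Prod.mk.injEq] at h ⊢
  omega

theorem Geo.tv_vp (g : Geo N r k c n M) {L : ℕ × ℤ} {x : ℤ × ℤ} (h : TVL N r k c n L x) :
    ∃ (z : ℤ × ℤ) (u : Vtx), z ∈ TubeS N k c L ∧ inSq r z u ∧ x = vp u := by
  obtain ⟨z, e, hz, hez, h1, h4⟩ := h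
  have ht := g.et_tr (e := e) ⟨z, ⟨L, hz⟩, hez⟩
  obtain ⟨h5, h6⟩ := (cor_tr ht (Or.inl rfl)).1 h4
  obtain ⟨q1, q2⟩ := Pool.Agent.H160R2.MU.TDET.sqE_inSq hez
  rcases even_cor h5 h6 with h | h
  · exact ⟨z, _, hz, q1, h⟩
  · exact ⟨z, _, hz, q2, h⟩

/-- connections of a tube -/
theorem Geo.tube (g : Geo N r k c n M) {L : ℕ × ℤ} {u v : Vtx}
    (h : Reach (EP r (TubeS N k c L) \ EP r (Bxs N k)) u v) :
    RY n k (per n (FA N r k c n M F)) (vp u) (vp v) := by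
  induction h with
  | refl => exact ry_refl _
  | tail _ hs ih =>
    refine ry_trans ih ?_
    obtain ⟨e, ⟨⟨z, hz, hez⟩, heB⟩, he⟩ := hs
    have hT : e ∈ ET N r k c := ⟨z, ⟨L, hz⟩, hez⟩
    have ht := g.et_tr hT
    have hh := g.hole heB
    have hl : RY n k (per n (FA N r k c n M F)) (vp (src e)) (vp (tgt e)) := by
      refine EqvGen.rel _ _ ⟨e, hh.1, ht.zp, Or.inl ⟨Or.inl (g.fa_tube heB hT), ?_⟩⟩
      exact Pool.Agent.W808.KZ.TDET.Dg_vp (fun h => (ht h.1).1 h.2) (fun h => (ht h.1).2 h.2)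
    rcases he with ⟨h1, h2⟩ | ⟨h1, h2⟩
    · rw [← h1, ← h2]; exact hl
    · rw [← h1, ← h2]; exact ry_symm hl

theorem Geo.tv_conn (g : Geo N r k c n M) {L : ℕ × ℤ} {x y : ℤ × ℤ} (hx : TVL N r k c n L x)
    (hy : TVL N r k c n L y) : RY n k (per n (FA N r k c n M F)) x y := by
  obtain ⟨z, u, hz, hu, rfl⟩ := g.tv_vp hx
  obtain ⟨z', u', hz', hu', rfl⟩ := g.tv_vp hy
  have hr := g.hr
  have hN := g.hN
  exact g.tube ((g.k3 N k c g.hk (by omega) g.hc).1 r L z z' u u' (by omega) hz hz' hu hu')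

/-- the tubes are far -/
theorem Geo.t_far (g : Geo N r k c n M) {e : Edg} (he : e ∈ ET N r k c) {x : ℤ × ℤ} (hx : Cn e x) :
    (|x.2| ≤ 2 * n) ∧ ∀ q : ℤ, (3 * r : ℤ) ≤ |x.1 - 2 * n * q| ∨ (3 * r : ℤ) ≤ x.2 := by
  obtain ⟨⟨k1, k2⟩, k3⟩ := g.et_ext he
  have hr := g.hr
  unfold Cn at hx
  refine ⟨?_, ?_⟩
  · rw [abs_le]
    omega
  · intro q
    rcases k3 q with h | h | h
    · left
      rw [le_abs]
      omega
    · left
      rw [le_abs]
      omega
    · right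
      omega

/-- the sectors are near the tips -/
theorem scy_near {n k : ℕ} {s : ℤ} {i : ℕ} (hi : i < 2 * k + 1) :
    |(scy n k s i).1 - 2 * n * s| ≤ k + 1 ∧ -1 ≤ (scy n k s i).2 ∧ (scy n k s i).2 ≤ 0 := by
  unfold scy
  split_ifs with h
  · refine ⟨?_, by simp, by simp⟩
    simp only
    rw [abs_le]
    omega
  · refine ⟨?_, by simp, by simp⟩
    simp only
    rw [abs_le]
    omega

theorem scy_not_far {n k r : ℕ} (hkr : 4 * k + 4 ≤ r) {s : ℤ} {i : ℕ} (hi : i < 2 * k + 1) :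
    ¬ Far n r (scy n k s i) := by
  intro h
  obtain ⟨h1, -, h2⟩ := scy_near (n := n) (s := s) hi
  rcases h s with h | h
  · omega
  · omega

/-- a cluster which goes to another tip leaves the box -/
theorem Geo.exit (g : Geo N r k c n M) {a b : ℕ} {s : ℤ} (ha : a < 2 * k + 1) (hb : b < 2 * k + 1)
    (hs : s ≠ 0) (h : RY n k (per n (FA N r k c n M F)) (scy n k 0 a) (scy n k s b)) :
    ∃ x : ℤ × ℤ, RY n k (per n (FA N r k c n M F)) (scy n k 0 a) x ∧
      (XE N r k c n x ∨ ∃ i : Fin k, TVL N r k c n (labC k i 0) x) := by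
  by_contra hcon
  push Not at hcon
  have hnr := g.hnr
  have hsz := g.sz
  have hr := g.hr
  have hkr := g.hkr
  have hN := g.hN
  have hk := g.hk
  have sa := scy_near (n := n) (s := 0) ha
  rw [mul_zero, sub_zero] at sa
  have key := step_closed (P := fun z => RY n k (per n (FA N r k c n M F)) (scy n k 0 a) z ∧
      |z.1| ≤ 2 * (N * r) + 2 ∧ (z = scy n k 0 a ∨ ∃ (b : ℤ × ℤ) (e' : Edg), b ∈ BxS N k 0 ∧
        e' ∈ sqE r b ∧ (Cor (Zn n) 0 e' z ∨ Cor (Zn n) 1 e' z))) (x := scy n k 0 a)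
      (y := scy n k s b) (n := n) (B := Hn n k) (G := per n (FA N r k c n M F) ∪ En n) ?_ h
  · have h1 := (key.1 ⟨ry_refl _, by rw [abs_le] at sa ⊢; omega, Or.inl rfl⟩).2.1
    have sb := scy_near (n := n) (s := s) hb
    rw [abs_le] at h1 sb
    rcases lt_or_gt_of_ne hs with hq | hq
    · have : 2 * (n : ℤ) * s ≤ -(2 * n) := by nlinarith
      omega
    · have : 2 * (n : ℤ) ≤ 2 * n * s := by nlinarith
      omega
  · rintro e x y hst ⟨hx1, hx2, hx3⟩
    have hy1 : RY n k (per n (FA N r k c n M F)) (scy n k 0 a) y := ry_trans hx1 hst.rc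
    refine ⟨hy1, ?_⟩
    have hc := hst.cor
    by_cases hB : e ∈ EB N r k
    · obtain ⟨z, ⟨q, hz⟩, hez⟩ := hB
      obtain ⟨⟨b1, b2⟩, -⟩ := g.eb_box hz hez
      have hx3 : e.1 + e.2.1 - 1 ≤ x.1 ∧ x.1 ≤ e.1 + e.2.1 + 1 ∧
          e.1 + e.2.1 - 1 ≤ y.1 ∧ y.1 ≤ e.1 + e.2.1 + 1 := by
        rcases hc with ⟨-, k1, k2⟩ | ⟨-, k1, k2⟩
        · have := cor_near k1
          have := cor_near k2
          omega
        · have := cor_near k1
          have := cor_near k2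
          omega
      rw [abs_le] at hx2
      have hq0 : q = 0 := by
        by_contra hq
        rcases lt_or_gt_of_ne hq with hq | hq
        · have : 2 * (n : ℤ) * q ≤ -(2 * n) := by nlinarith
          omega
        · have : 2 * (n : ℤ) ≤ 2 * n * q := by nlinarith
          omega
      subst hq0
      rw [mul_zero] at b1 b2
      refine ⟨by rw [abs_le]; omega, Or.inr ⟨z, e, hz, hez, ?_⟩⟩
      exact hc.imp (fun h => h.2.2) (fun h => h.2.2)
    · exfalso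
      have hh := g.hole hB
      by_cases hT : e ∈ ET N r k c
      · have he : e ∈ per n (FA N r k c n M F) ∪ En n := Or.inl (g.fa_tube hB hT)
        have ht := g.et_tr hT
        rcases hc with ⟨-, k1, -⟩ | ⟨h1, -⟩
        swap
        · exact h1 he
        obtain ⟨m1, m2⟩ := (cor_tr ht (Or.inl rfl)).1 k1
        have hfar := (g.t_far hT m1).2
        obtain ⟨z, ⟨L, hz⟩, hez⟩ := hT
        rcases hx3 with rfl | ⟨b', e', hb', he', hce'⟩
        · have h2 := hfar 0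
          rw [mul_zero, sub_zero] at h2
          omega
        · have hF : Far n r x := by
            intro q
            have := hfar q
            omega
          have ht' : Tr n e' := by
            rcases hce' with h | h
            · exact hF.cor (by omega) h
            · exact hF.cor (by omega) h
          have hcn' : Cn e' x := by
            rcases hce' with h | h
            · exact ((cor_tr ht' (Or.inl rfl)).1 h).1
            · exact ((cor_tr ht' (Or.inr rfl)).1 h).1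
          obtain ⟨q1, q2⟩ := Pool.Agent.H160R2.MU.TDET.sqE_inSq hez
          obtain ⟨p1, p2⟩ := Pool.Agent.H160R2.MU.TDET.sqE_inSq he'
          obtain ⟨u, hu1, hu2⟩ : ∃ u, x = vp u ∧ inSq r z u := by
            rcases even_cor m1 m2 with h | h
            · exact ⟨_, h, q1⟩
            · exact ⟨_, h, q2⟩
          obtain ⟨u', hu1', hu2'⟩ : ∃ u, x = vp u ∧ inSq r b' u := by
            rcases even_cor hcn' m2 with h | h
            · exact ⟨_, h, p1⟩
            · exact ⟨_, h, p2⟩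
          have huu : u = u' := vp_inj (hu1.symm.trans hu1')
          subst huu
          obtain ⟨w1, w2⟩ := Pool.Agent.H160R2.MU.TDET.sq_near (by omega) hu2 hu2'
          obtain ⟨i, hi, -⟩ := g.k2 N k c hk (by omega) g.hc L 0 z b' hz hb' w1 w2
          refine (hcon x hx1).2 i ?_
          rw [hi]
          exact ⟨z, e, hz, hez, hB, k1⟩
      · have he : e ∉ per n (FA N r k c n M F) ∪ En n := fun h => h.elim (g.fa_out hB hT) hh.2
        rcases hc with ⟨h1, -⟩ | ⟨-, k1, -⟩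
        · exact he h1
        · exact (hcon x hx1).1 ⟨e, hB, hT, k1⟩

end geo

/-! ### the data of step A -/

structure Ctx (N r k ρ l : ℕ) (c : Fin k → Cel) (n M : ℕ) (F G : Finset Edg) (S : Finset ℕ) :
    Prop where
  w2 : S_W2
  na : S_NA
  coc : S_COC
  k2 : S_k2
  k3 : S_k3
  k4 : S_k4
  k5 : S_k5
  xch : S_XCH
  exa : S_EXA1
  sepa : S_SEPA1
  hk : 2 ≤ k
  hN : k + 16 ≤ N
  hc : AdmS N k c
  hl : 1 ≤ l
  hlr : 32 * l ≤ ρ
  hrr : 64 * ρ ≤ r
  hkr : 4 * k + 4 ≤ ρ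
  hn : n = prd N k * r
  hM : M = 4 * n
  hF : F ⊆ CE n M
  hG : G ⊆ CE n M
  bad : ¬ Bad 1 N r ρ l (prd N k) n M F
  ptr : PTr 1 n M l G
  gy : Gy n k (per n (FA N r k c n M F))
  nad : NAd k S
  nc : ∀ i ∈ S, ∀ x : ℤ × ℤ, XE N r k c n x → ¬ RY n k (per n (FA N r k c n M F)) (scy n k 0 i) x

/-- the unexplored squares are open -/
noncomputable abbrev F1 (N r k : ℕ) (c : Fin k → Cel) (n M : ℕ) (F : Finset Edg) : Finset Edg :=
  mrg (ExA1 N r k c n M F) F (CE n M)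

abbrev G0 (N r k : ℕ) (c : Fin k → Cel) (n M : ℕ) (F : Finset Edg) : Set Edg :=
  per n (FA N r k c n M F)
abbrev G1 (N r k : ℕ) (c : Fin k → Cel) (n M : ℕ) (F : Finset Edg) : Set Edg :=
  per n (FA N r k c n M (F1 N r k c n M F))
abbrev G2 (N r k : ℕ) (c : Fin k → Cel) (n M : ℕ) (F G : Finset Edg) : Set Edg :=
  per n (FB N r k c n M (mrg (ExA1 N r k c n M F) F G))
abbrev K (N r k : ℕ) (c : Fin k → Cel) (n M : ℕ) (F : Finset Edg) (x : ℤ × ℤ) : Prop :=
  KA1 N r k c n M F x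

section ctx
variable {N r k ρ l : ℕ} {c : Fin k → Cel} {n M : ℕ} {F G : Finset Edg} {S : Finset ℕ}

theorem Ctx.r0 (X : Ctx N r k ρ l c n M F G S) : 2048 ≤ r ∧ 2048 * l ≤ r ∧ 4 * k + 4 ≤ r := by
  have h1 := X.hl
  have h2 := X.hlr
  have h3 := X.hrr
  have h4 := X.hkr
  omega

theorem Ctx.g (X : Ctx N r k ρ l c n M F G S) : Geo N r k c n M :=
  { k2 := X.k2, k3 := X.k3, k4 := X.k4, k5 := X.k5, hk := X.hk, hN := X.hN,
    hr := by have := X.r0; omega, hkr := X.r0.2.2, hc := X.hc, hn := X.hn, hM := X.hM }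

theorem mrg_sub {X F G S : Finset Edg} (hF : F ⊆ S) (hG : G ⊆ S) : mrg X F G ⊆ S := by
  intro e he
  rw [Pool.Agent.W808.KZ.TEXA.mem_mrg] at he
  rcases he with h | h
  · exact hF h.1
  · exact hG h.1

theorem Ctx.exa1 (X : Ctx N r k ρ l c n M F G S) {x y : ℤ × ℤ} (hx : K N r k c n M F x) :
    RY n k (G1 N r k c n M F) x y ↔ RY n k (G0 N r k c n M F) x y :=
  (X.exa N r k c X.hk X.hN (by have := X.r0; omega) X.hc n M X.hn X.hM F (CE n M) X.hF
    (Finset.Subset.refl _)).2.2 x y hx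

theorem K_ry {x y : ℤ × ℤ} (hx : K N r k c n M F x) (h : RY n k (G0 N r k c n M F) x y) :
    K N r k c n M F y := by
  obtain ⟨z, h1, h2⟩ := hx
  exact ⟨z, h1, ry_trans h2 h⟩

theorem Ctx.K_ry1 (X : Ctx N r k ρ l c n M F G S) {x y : ℤ × ℤ} (hx : K N r k c n M F x)
    (h : RY n k (G1 N r k c n M F) x y) : K N r k c n M F y := K_ry hx ((X.exa1 hx).1 h)

theorem K_xe {x : ℤ × ℤ} (hx : XE N r k c n x) : K N r k c n M F x := ⟨x, hx, ry_refl _⟩

theorem Ctx.K_tp (X : Ctx N r k ρ l c n M F G S) (q : ℤ) {x : ℤ × ℤ} (hx : K N r k c n M F x) :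
    K N r k c n M F (tp n q x) := by
  obtain ⟨z, h1, h2⟩ := hx
  exact ⟨tp n q z, X.g.XE_tp q h1, RY_tp X.g.n0 _ q h2⟩

/-- every cell is used by a sector of `S` -/
theorem Ctx.cells (X : Ctx N r k ρ l c n M F G S) (a : Fin k) : ∃ i ∈ S, ∃ x : ℤ × ℤ,
    RY n k (G0 N r k c n M F) (scy n k 0 i) x ∧ TVL N r k c n (labC k a 0) x := by
  classical
  have h1 : ∀ i : {i // i ∈ S}, ∃ a : Fin k, ∃ x : ℤ × ℤ,
      RY n k (G0 N r k c n M F) (scy n k 0 i) x ∧ TVL N r k c n (labC k a 0) x := by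
    rintro ⟨i, hi⟩
    have hi3 := X.nad.2.1 i hi
    obtain ⟨s, hs, b, hb, h⟩ := (X.gy i hi3).2
    obtain ⟨x, hx1, hx2 | ⟨a, hx2⟩⟩ := X.g.exit hi3 hb hs h
    · exact absurd hx1 (X.nc i hi x hx2)
    · exact ⟨a, x, hx1, hx2⟩
  choose α hα using h1
  have hinj : Function.Injective α := by
    intro i j hij
    obtain ⟨x, hx1, hx2⟩ := hα i
    obtain ⟨y, hy1, hy2⟩ := hα j
    rw [hij] at hx2
    by_contra hne
    have h3 : RY n k (G0 N r k c n M F) (scy n k 0 i) (scy n k 0 j) :=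
      ry_trans hx1 (ry_trans (X.g.tv_conn hx2 hy2) (ry_symm hy1))
    exact (X.gy i (X.nad.2.1 i i.2)).1 j (X.nad.2.1 j j.2) (fun h => hne (Subtype.ext h.symm)) h3
  have hbij : Function.Bijective α := by
    rw [Fintype.bijective_iff_injective_and_card]
    exact ⟨hinj, by rw [Fintype.card_coe, Fintype.card_fin]; exact X.nad.1⟩
  obtain ⟨i, rfl⟩ := hbij.2 a
  obtain ⟨x, hx⟩ := hα i
  exact ⟨i, i.2, x, hx⟩

/-- the sectors outside `S` are in the clusters of the closed region -/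
theorem Ctx.K_out (X : Ctx N r k ρ l c n M F G S) {j : ℕ} (hj : j < 2 * k + 1) (hjS : j ∉ S) (s : ℤ) :
    K N r k c n M F (scy n k s j) := by
  have key : K N r k c n M F (scy n k 0 j) := by
    obtain ⟨s, hs, b, hb, h⟩ := (X.gy j hj).2
    obtain ⟨x, hx1, hx2 | ⟨a, hx2⟩⟩ := X.g.exit hj hb hs h
    · exact ⟨x, hx2, ry_symm hx1⟩
    · exfalso
      obtain ⟨i, hi, y, hy1, hy2⟩ := X.cells a
      exact (X.gy j hj).1 i (X.nad.2.1 i hi) (fun h => hjS (h ▸ hi))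
        (ry_trans hx1 (ry_trans (X.g.tv_conn hx2 hy2) (ry_symm hy1)))
  have := X.K_tp s key
  rw [tp_scy, zero_add] at this
  exact this

theorem sq_te (hn : n = prd N k * r) {e : Edg} {z : ℤ × ℤ} (q : ℤ) (he : e ∈ sqE r z) :
    te n (-q) e ∈ sqE r (shf N k q z) := by
  rw [Pool.Agent.W808.KZ.Per.mem_sq] at he ⊢
  obtain ⟨e1, e2⟩ := sq_shf (r := r) (N := N) (k := k) hn q z
  rw [e1, e2] at he
  unfold te
  simp only
  have : (n : ℤ) * -q = -(n * q) := by ring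
  rw [this]
  generalize (n : ℤ) * q = w at *
  split_ifs at he ⊢ <;> refine ⟨⟨by omega, by omega⟩, by omega, by omega⟩

/-- the tubes are not in the clusters of the closed region -/
theorem Ctx.XT_nK (X : Ctx N r k ρ l c n M F G S) {t : ℤ × ℤ} (h : XT N r k c n t) :
    ¬ K N r k c n M F t := by
  intro hK
  obtain ⟨e, hB, ⟨z, ⟨L, i, q, hi, hL, hz⟩, hez⟩, hcor⟩ := h
  have h1 : TVL N r k c n (labC k i 0) (tp n (-q) t) := by
    refine ⟨shf N k q z, te n (-q) e, ⟨i, 0, hi, ?_, ?_⟩, sq_te X.hn q hez, ?_, ?_⟩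
    · unfold labT labC
      split_ifs <;> first | rfl | omega
    · have : shf N k 0 (shf N k q z) = shf N k q z := by
        rw [Pool.Agent.H160R2.MU.TDET.shf_shf]; simp
      rw [this]
      exact hz
    · exact fun h => hB ((X.g.EBte _ _).1 h)
    · exact Pool.Agent.W808.KZ.Per.Cor_te1 _ hcor
  obtain ⟨j, hj, y, hy1, hy2⟩ := X.cells ⟨i, by omega⟩
  obtain ⟨w, hw1, hw2⟩ := X.K_tp (-q) hK
  exact X.nc j hj w hw1 (ry_trans hy1 (ry_trans (X.g.tv_conn hy2 h1) (ry_symm hw2)))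

/-- the clusters of the tubes -/
def T1 (N r k : ℕ) (c : Fin k → Cel) (n M : ℕ) (F : Finset Edg) (x : ℤ × ℤ) : Prop :=
  ∃ t, XT N r k c n t ∧ RY n k (G1 N r k c n M F) t x

theorem T1_tr {x y : ℤ × ℤ} (h : T1 N r k c n M F x) (h' : RY n k (G1 N r k c n M F) x y) :
    T1 N r k c n M F y := by
  obtain ⟨t, h1, h2⟩ := h
  exact ⟨t, h1, ry_trans h2 h'⟩

theorem Ctx.T1_nK (X : Ctx N r k ρ l c n M F G S) {x : ℤ × ℤ} (h : T1 N r k c n M F x) :
    ¬ K N r k c n M F x := by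
  obtain ⟨t, h1, h2⟩ := h
  intro hk
  exact X.XT_nK h1 (X.K_ry1 hk (ry_symm h2))

/-- the next sectors -/
def S' (k : ℕ) (S : Finset ℕ) : Finset ℕ := S.image (fun i => (i + 1) % (2 * k + 1))

theorem nad_S' {k : ℕ} {S : Finset ℕ} (h : NAd k S) : NAd k (S' k S) := by
  obtain ⟨h1, h2, h3⟩ := h
  refine ⟨?_, ?_, ?_⟩
  · unfold S'
    rw [Finset.card_image_of_injOn, h1]
    intro i hi j hj hij
    have hi' := h2 i hi
    have hj' := h2 j hj
    simp only at hij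
    rcases Nat.lt_or_ge (i + 1) (2 * k + 1) with h4 | h4
    · rw [Nat.mod_eq_of_lt h4] at hij
      rcases Nat.lt_or_ge (j + 1) (2 * k + 1) with h5 | h5
      · rw [Nat.mod_eq_of_lt h5] at hij
        omega
      · have : j + 1 = 2 * k + 1 := by omega
        rw [this, Nat.mod_self] at hij
        omega
    · have h6 : i + 1 = 2 * k + 1 := by omega
      rw [h6, Nat.mod_self] at hij
      rcases Nat.lt_or_ge (j + 1) (2 * k + 1) with h5 | h5
      · rw [Nat.mod_eq_of_lt h5] at hij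
        omega
      · omega
  · intro i hi
    unfold S' at hi
    simp only [Finset.mem_image] at hi
    obtain ⟨j, -, rfl⟩ := hi
    exact Nat.mod_lt _ (by omega)
  · intro i hi hi'
    unfold S' at hi hi'
    simp only [Finset.mem_image] at hi hi'
    obtain ⟨j, hj, rfl⟩ := hi
    obtain ⟨j', hj', h4⟩ := hi'
    have hj1 := h2 j hj
    have hj1' := h2 j' hj'
    -- `j' = (j + 1) % (2 k + 1)`
    have h5 : j' = (j + 1) % (2 * k + 1) := by
      have h6 : (j + 1) % (2 * k + 1) < 2 * k + 1 := Nat.mod_lt _ (by omega)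
      generalize (j + 1) % (2 * k + 1) = m at h4 h6
      rcases Nat.lt_or_ge (j' + 1) (2 * k + 1) with h7 | h7
      · rw [Nat.mod_eq_of_lt h7] at h4
        rcases Nat.lt_or_ge (m + 1) (2 * k + 1) with h8 | h8
        · rw [Nat.mod_eq_of_lt h8] at h4
          omega
        · have : m + 1 = 2 * k + 1 := by omega
          rw [this, Nat.mod_self] at h4
          omega
      · have h9 : j' + 1 = 2 * k + 1 := by omega
        rw [h9, Nat.mod_self] at h4
        rcases Nat.lt_or_ge (m + 1) (2 * k + 1) with h8 | h8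
        · rw [Nat.mod_eq_of_lt h8] at h4
          omega
        · omega
    exact h3 j hj (h5 ▸ hj')

theorem S'_out {k : ℕ} {S : Finset ℕ} (h : NAd k S) {i : ℕ} (hi : i ∈ S' k S) :
    i < 2 * k + 1 ∧ i ∉ S := by
  unfold S' at hi
  simp only [Finset.mem_image] at hi
  obtain ⟨j, hj, rfl⟩ := hi
  exact ⟨Nat.mod_lt _ (by omega), h.2.2 j hj⟩

theorem Ctx.gy' (X : Ctx N r k ρ l c n M F G S) : Gy n k (G1 N r k c n M F) := by
  have hk := X.hk
  refine X.w2 n M k (by omega) X.g.n2 _ (fun e he => (mem_FA.1 he).1) (S' k S) (nad_S' X.nad) ?_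
  intro i hi
  obtain ⟨h1, h2⟩ := S'_out X.nad hi
  have hK := X.K_out h1 h2 0
  obtain ⟨h3, s, hs, d, hd, h4⟩ := X.gy i h1
  exact ⟨⟨s, hs, d, hd, (X.exa1 hK).2 h4⟩, fun d hd hdi h => h3 d hd hdi ((X.exa1 hK).1 h)⟩

/-! ### sides -/

theorem far_tr' {n r : ℕ} (hr : 2 ≤ r) {y : ℤ × ℤ} (h : Far n r y) {e : Edg} (hz : e ∉ zp (Zn n))
    (hn : e.1 + e.2.1 - 1 ≤ y.1 ∧ y.1 ≤ e.1 + e.2.1 + 1 ∧ y.2 ≤ dco e + 1) : Tr n e := by
  intro hd
  constructor
  · intro hs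
    obtain ⟨q, hq⟩ := Pool.Agent.W658.KZ.TCOC.mem_Zn.1 hs
    rcases h q with h | h
    · rw [← hq] at h
      have : |y.1 - (e.1 + e.2.1)| ≤ 1 := by rw [abs_le]; constructor <;> omega
      omega
    · omega
  · intro hs
    exact hz ⟨hd, hs⟩

theorem nrm_bd (Z : Set ℤ) (d j t : ℤ) : j - 1 ≤ (nrm Z d j t).1 ∧ (nrm Z d j t).1 ≤ j ∧
    (nrm Z d j t).2 = t := by
  unfold nrm
  split_ifs
  · exact ⟨by simp, by simp, rfl⟩
  · exact ⟨by simp, by simp, rfl⟩

/-- adjacent points far from the zippers have different parities -/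
theorem side_par {n k r : ℕ} (hr : 2 ≤ r) {x y : ℤ × ℤ} (h : Sidy n k x y)
    (hf : Far n r x ∨ Far n r y) : (x.1 + x.2 + (y.1 + y.2)) % 2 = 1 := by
  cases h with
  | bot e hz _ _ =>
    have b1 := nrm_bd (Zn n) (dco e) (e.1 + e.2.1) (dco e)
    have b2 := nrm_bd (Zn n) (dco e) (e.1 + e.2.1 + 1) (dco e)
    have ht : Tr n e := by
      rcases hf with hf | hf
      · exact far_tr' hr hf hz (by omega)
      · exact far_tr' hr hf hz (by omega)
    rw [ht.nrm0, ht.nrm1]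
    simp only
    omega
  | top e hz _ _ =>
    have b1 := nrm_bd (Zn n) (dco e) (e.1 + e.2.1) (dco e + 1)
    have b2 := nrm_bd (Zn n) (dco e) (e.1 + e.2.1 + 1) (dco e + 1)
    have ht : Tr n e := by
      rcases hf with hf | hf
      · exact far_tr' hr hf hz (by omega)
      · exact far_tr' hr hf hz (by omega)
    rw [ht.nrm0, ht.nrm1]
    simp only
    omega
  | lft e hz _ _ =>
    have b1 := nrm_bd (Zn n) (dco e) (e.1 + e.2.1) (dco e)
    have b2 := nrm_bd (Zn n) (dco e) (e.1 + e.2.1) (dco e + 1)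
    have ht : Tr n e := by
      rcases hf with hf | hf
      · exact far_tr' hr hf hz (by omega)
      · exact far_tr' hr hf hz (by omega)
    rw [ht.nrm0, ht.nrm0]
    simp only
    omega
  | rgt e hz _ _ =>
    have b1 := nrm_bd (Zn n) (dco e) (e.1 + e.2.1 + 1) (dco e)
    have b2 := nrm_bd (Zn n) (dco e) (e.1 + e.2.1 + 1) (dco e + 1)
    have ht : Tr n e := by
      rcases hf with hf | hf
      · exact far_tr' hr hf hz (by omega)
      · exact far_tr' hr hf hz (by omega)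
    rw [ht.nrm1, ht.nrm1]
    simp only
    omega

theorem Geo.side (g : Geo N r k c n M) {y v : ℤ × ℤ} (h : Far n r y) (hv : nb y v) :
    Sidy n k y v ∨ Sidy n k v y := by
  have hr := g.hr
  have key : ∀ s d : ℤ, (y.1 = s ∨ y.1 = s + 1) → (y.2 = d ∨ y.2 = d + 1) →
      Tr n (edz s d) ∧ edz s d ∈ Hn n k ∧ edz s d ∉ En n := by
    intro s d h1 h2
    have hc : Cn (edz s d) y := by
      unfold Cn
      rw [Pool.Agent.W658.KZ.TCOC.edz_s, Pool.Agent.W658.KZ.TCOC.edz_d]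
      exact ⟨h1, h2⟩
    exact ⟨h.trc (by omega) hc, g.hfar h hc⟩
  rcases hv with rfl | rfl | rfl | rfl
  · left
    obtain ⟨ht, h1, h2⟩ := key y.1 y.2 (Or.inl rfl) (Or.inl rfl)
    have := Sidy.bot _ ht.zp h1 h2
    rw [ht.nrm0, ht.nrm1, Pool.Agent.W658.KZ.TCOC.edz_s, Pool.Agent.W658.KZ.TCOC.edz_d] at this
    exact this
  · right
    obtain ⟨ht, h1, h2⟩ := key (y.1 - 1) y.2 (Or.inr (by ring)) (Or.inl rfl)
    have := Sidy.bot _ ht.zp h1 h2
    rw [ht.nrm0, ht.nrm1, Pool.Agent.W658.KZ.TCOC.edz_s, Pool.Agent.W658.KZ.TCOC.edz_d,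
      sub_add_cancel] at this
    exact this
  · left
    obtain ⟨ht, h1, h2⟩ := key y.1 y.2 (Or.inl rfl) (Or.inl rfl)
    have := Sidy.lft _ ht.zp h1 h2
    rw [ht.nrm0, ht.nrm0, Pool.Agent.W658.KZ.TCOC.edz_s, Pool.Agent.W658.KZ.TCOC.edz_d] at this
    exact this
  · right
    obtain ⟨ht, h1, h2⟩ := key y.1 (y.2 - 1) (Or.inl rfl) (Or.inr (by ring))
    have := Sidy.lft _ ht.zp h1 h2
    rw [ht.nrm0, ht.nrm0, Pool.Agent.W658.KZ.TCOC.edz_s, Pool.Agent.W658.KZ.TCOC.edz_d,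
      sub_add_cancel] at this
    exact this

theorem Geo.xt_even (g : Geo N r k c n M) {t : ℤ × ℤ} (h : XT N r k c n t) :
    (t.1 + t.2) % 2 = 0 ∧ Far n r t := by
  obtain ⟨e, hB, hT, hcor⟩ := h
  have ht := g.et_tr hT
  obtain ⟨h1, h2⟩ := (cor_tr ht (Or.inl rfl)).1 hcor
  refine ⟨h2, ?_⟩
  intro q
  have := (g.t_far hT h1).2 q
  omega

/-- **no point adjacent to both clusters** -/
theorem Ctx.cont (X : Ctx N r k ρ l c n M F G S) {y v z : ℤ × ℤ} (hy : ¬ K N r k c n M F y)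
    (hv : T1 N r k c n M F v) (hyv : Sidy n k y v ∨ Sidy n k v y)
    (hk : K N r k c n M F z) (hyk : Sidy n k y z ∨ Sidy n k z y) : False := by
  have hk2 := X.hk
  have hnyv : ¬ RY n k (G1 N r k c n M F) y v := by
    rcases hyv with h | h
    · exact X.na n k _ (by omega) X.g.n2 X.gy' y v h
    · exact fun h' => X.na n k _ (by omega) X.g.n2 X.gy' v y h (ry_symm h')
  have hyK : ∀ x, RY n k (G1 N r k c n M F) y x → ¬ K N r k c n M F x := fun x h hx =>
    hy (X.K_ry1 hx (ry_symm h))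
  have hvK : ∀ x, RY n k (G1 N r k c n M F) v x → ¬ K N r k c n M F x := fun x h =>
    X.T1_nK (T1_tr hv h)
  obtain ⟨φ, φ1, φ2⟩ := X.coc n k (G1 N r k c n M F)
    (fun a b => (RY n k (G1 N r k c n M F) y a ∧ RY n k (G1 N r k c n M F) v b) ∨
      (RY n k (G1 N r k c n M F) v a ∧ RY n k (G1 N r k c n M F) y b)) (by omega) X.g.n2
    (fun a b h => h.symm.imp And.symm And.symm)
    (fun a a' b h h' => h'.imp (fun h' => ⟨ry_trans h'.1 h, h'.2⟩) (fun h' => ⟨ry_trans h'.1 h, h'.2⟩))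
    (by
      intro s i hi h
      have hi' : (i + 1) % (2 * k + 1) < 2 * k + 1 := Nat.mod_lt _ (by omega)
      have h1 : i ∈ S := by
        by_contra hiS
        rcases h with ⟨h1, -⟩ | ⟨h1, -⟩
        · exact hyK _ h1 (X.K_out hi hiS s)
        · exact hvK _ h1 (X.K_out hi hiS s)
      have h2 : (i + 1) % (2 * k + 1) ∈ S := by
        by_contra hiS
        rcases h with ⟨-, h1⟩ | ⟨-, h1⟩
        · exact hvK _ h1 (X.K_out hi' hiS s)
        · exact hyK _ h1 (X.K_out hi' hiS s)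
      exact X.nad.2.2 i h1 h2)
  have φs : ∀ x z : ℤ × ℤ, (Sidy n k x z ∨ Sidy n k z x) →
      ((RY n k (G1 N r k c n M F) y x ∧ RY n k (G1 N r k c n M F) v z) ∨
      (RY n k (G1 N r k c n M F) v x ∧ RY n k (G1 N r k c n M F) y z)) ∨ (φ x ↔ φ z) := by
    intro x z h
    rcases h with h | h
    · by_cases h1 : φ x ↔ φ z
      · exact Or.inr h1
      · exact Or.inl ((φ2 x z h).2 h1)
    · by_cases h1 : φ x ↔ φ z
      · exact Or.inr h1
      · exact Or.inl (((φ2 z x h).2 (fun h2 => h1 h2.symm)).symm.imp And.symm And.symm)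
  have hneg : ¬ (φ y ↔ φ v) := by
    rcases hyv with h | h
    · exact (φ2 y v h).1 (Or.inl ⟨ry_refl _, ry_refl _⟩)
    · exact fun h' => (φ2 v y h).1 (Or.inr ⟨ry_refl _, ry_refl _⟩) h'.symm
  have h1 : φ y ↔ φ z := by
    rcases φs y z hyk with (⟨-, h⟩ | ⟨-, h⟩) | h
    · exact absurd hk (hvK z h)
    · exact absurd hk (hyK z h)
    · exact h
  obtain ⟨x1, hx1, hx2⟩ := id hk
  have h2 : φ x1 ↔ φ z := φ1 _ _ ((X.exa1 (K_xe hx1)).2 hx2)
  obtain ⟨t, ht1, ht2⟩ := id hv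
  have h3 : φ t ↔ φ v := φ1 _ _ ht2
  have h4 : φ x1 ↔ φ t := by
    refine X.xch N r k c X.hk X.hN (by have := X.r0; omega) X.hc n X.hn φ ?_ ?_ ?_ x1 t
      (Or.inl hx1) (Or.inr ht1)
    · intro a b hab
      apply φ1
      refine EqvGen.mono ?_ _ _ hab
      rintro a b ⟨e, he, hz, h⟩
      have hh := X.g.hole he.1
      refine ⟨e, hh.1, hz, Or.inr ⟨fun h => h.elim (X.g.fa_out he.1 he.2) hh.2, ?_⟩⟩
      rcases h with ⟨h, -⟩ | ⟨-, h⟩
      · exact absurd h (Set.notMem_empty _)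
      · exact h
    · intro a b hab
      apply φ1
      refine EqvGen.mono ?_ _ _ hab
      rintro a b ⟨e, he, hz, h⟩
      have hh := X.g.hole he.1
      refine ⟨e, hh.1, hz, Or.inl ⟨Or.inl (X.g.fa_tube he.1 he.2), ?_⟩⟩
      rcases h with ⟨-, h⟩ | ⟨h, -⟩
      · exact h
      · exact absurd (Set.mem_univ _) h
    · intro a b ha hb hab
      rcases φs a b (Or.inl hab) with h | h
      swap
      · exact h
      exfalso
      have haK : ¬ K N r k c n M F a := by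
        rcases h with ⟨h, -⟩ | ⟨h, -⟩
        · exact hyK a h
        · exact hvK a h
      have hbK : ¬ K N r k c n M F b := by
        rcases h with ⟨-, h⟩ | ⟨-, h⟩
        · exact hvK b h
        · exact hyK b h
      have ha' : XT N r k c n a := ha.resolve_left (fun h => haK (K_xe h))
      have hb' : XT N r k c n b := hb.resolve_left (fun h => hbK (K_xe h))
      obtain ⟨pa, fa⟩ := X.g.xt_even ha'
      obtain ⟨pb, -⟩ := X.g.xt_even hb'
      have hr := X.g.hr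
      have := side_par (r := r) (by omega) hab (Or.inl fa)
      omega
  exact hneg (h1.trans (h2.symm.trans (h4.trans h3)))

/-! ### the explored squares -/

/-- squares which touch the clusters -/
def Ex (N r k : ℕ) (c : Fin k → Cel) (n M : ℕ) (F : Finset Edg) (e : Edg) : Prop :=
  ∃ x, K N r k c n M F x ∧ (Cor (Zn n) 0 e x ∨ Cor (Zn n) 1 e x)

theorem Ctx.ex_iff (X : Ctx N r k ρ l c n M F G S) {e : Edg} (he : e ∈ EB N r k) :
    red n e ∈ ExA1 N r k c n M F ↔ Ex N r k c n M F e := by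
  classical
  have h0 : red n e ∈ CE n M := red_mem X.g.n0 (X.g.ceB he).1 (X.g.ceB he).2
  have h1 : red n e ∈ EB N r k := (X.g.EBred e).2 he
  simp only [ExA1, Finset.mem_filter]
  constructor
  · rintro ⟨-, -, x, hx, h⟩
    refine ⟨tp n ((e.1 + e.2.1) / (2 * n)) x, X.K_tp _ hx, ?_⟩
    rw [Pool.Agent.W808.KZ.Per.red_eq_te] at h
    refine h.imp ?_ ?_
    · intro h
      have := Pool.Agent.W808.KZ.Per.Cor_te1 ((e.1 + e.2.1) / (2 * n)) h
      rw [te_te, add_neg_cancel, te_zero] at this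
      exact this
    · intro h
      have := Pool.Agent.W808.KZ.Per.Cor_te1 ((e.1 + e.2.1) / (2 * n)) h
      rw [te_te, add_neg_cancel, te_zero] at this
      exact this
  · rintro ⟨x, hx, h⟩
    refine ⟨h0, h1, tp n (-((e.1 + e.2.1) / (2 * n))) x, X.K_tp _ hx, ?_⟩
    rw [Pool.Agent.W808.KZ.Per.red_eq_te]
    exact h.imp (Pool.Agent.W808.KZ.Per.Cor_te1 _) (Pool.Agent.W808.KZ.Per.Cor_te1 _)

theorem Ctx.g2_out (X : Ctx N r k ρ l c n M F G S) {e : Edg} (h1 : e ∉ EB N r k)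
    (h2 : e ∉ ET N r k c) : e ∉ G2 N r k c n M F G := by
  show red n e ∉ FB N r k c n M (mrg (ExA1 N r k c n M F) F G)
  rw [mem_FB, X.g.EBred, X.g.ETred]
  tauto

theorem Ctx.g2_in (X : Ctx N r k ρ l c n M F G S) {e : Edg} (h : e ∈ EB N r k ∨ e ∈ ET N r k c) :
    e ∈ G2 N r k c n M F G ↔ red n e ∈ mrg (ExA1 N r k c n M F) F G := by
  show red n e ∈ FB N r k c n M (mrg (ExA1 N r k c n M F) F G) ↔ _
  rw [mem_FB, X.g.EBred, X.g.ETred]
  have h0 : red n e ∈ CE n M := by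
    rcases h with h | h
    · exact red_mem X.g.n0 (X.g.ceB h).1 (X.g.ceB h).2
    · exact red_mem X.g.n0 (X.g.ceT h).1 (X.g.ceT h).2
  tauto

theorem Ctx.g2_ex (X : Ctx N r k ρ l c n M F G S) {e : Edg} (h : e ∈ EB N r k)
    (hx : Ex N r k c n M F e) : e ∈ G2 N r k c n M F G ↔ e ∈ G0 N r k c n M F := by
  rw [X.g2_in (Or.inl h), X.g.fa_box h, Pool.Agent.W808.KZ.TEXA.mem_mrg]
  have := (X.ex_iff h).2 hx
  tauto

theorem Ctx.g2_nex (X : Ctx N r k ρ l c n M F G S) {e : Edg} (h : e ∈ EB N r k)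
    (hx : ¬ Ex N r k c n M F e) : e ∈ G2 N r k c n M F G ↔ e ∈ per n G := by
  rw [X.g2_in (Or.inl h), Pool.Agent.W808.KZ.TEXA.mem_mrg]
  have := mt (X.ex_iff h).1 hx
  show _ ↔ red n e ∈ G
  tauto

theorem Ctx.g2_tube (X : Ctx N r k ρ l c n M F G S) {e : Edg} (h1 : e ∉ EB N r k)
    (h2 : e ∈ ET N r k c) : e ∈ G2 N r k c n M F G ↔ e ∈ per n G := by
  classical
  rw [X.g2_in (Or.inr h2), Pool.Agent.W808.KZ.TEXA.mem_mrg]
  have : red n e ∉ ExA1 N r k c n M F := by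
    simp only [ExA1, Finset.mem_filter]
    rintro ⟨-, h, -⟩
    exact h1 ((X.g.EBred e).1 h)
  show _ ↔ red n e ∈ G
  tauto

theorem Ctx.g1_closed (X : Ctx N r k ρ l c n M F G S) {e : Edg} (h : e ∈ EB N r k)
    (he : e ∉ G1 N r k c n M F) : Ex N r k c n M F e := by
  rw [← X.ex_iff h]
  by_contra hx
  apply he
  rw [X.g.fa_box h, Pool.Agent.W808.KZ.TEXA.mem_mrg]
  exact Or.inr ⟨red_mem X.g.n0 (X.g.ceB h).1 (X.g.ceB h).2, hx⟩

/-- the squares around a point next to the cluster of a tube are open -/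
theorem Ctx.open_sq (X : Ctx N r k ρ l c n M F G S) {y v : ℤ × ℤ} (hf : Far n r y)
    (hp : (y.1 + y.2) % 2 = 1) (hK : ¬ K N r k c n M F y) (hv : nb y v) (hT : T1 N r k c n M F v)
    {e : Edg} (he : Cn e y) : e ∈ G1 N r k c n M F := by
  by_contra hcl
  have hr2 : 2 ≤ r := by have := X.r0; omega
  have ht : Tr n e := hf.trc hr2 he
  obtain ⟨hh1, hh2⟩ := X.g.hfar hf he
  by_cases hB : e ∈ EB N r k
  · obtain ⟨z, hk, hc⟩ := X.g1_closed hB hcl
    have hck : Cn e z := by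
      rcases hc with h | h
      · exact ((cor_tr ht (Or.inl rfl)).1 h).1
      · exact ((cor_tr ht (Or.inr rfl)).1 h).1
    have hcl' : e ∉ G1 N r k c n M F ∪ En n := fun h => h.elim hcl hh2
    have hlk : RY n k (G1 N r k c n M F) y (opp e y) :=
      (st_tr hh1 ht he ⟨fun h => absurd h hcl', fun h => by omega⟩).rc
    have h4 : z = y ∨ z = opp e y ∨ nb y z := by
      obtain ⟨y1, y2⟩ := y
      obtain ⟨k1, k2⟩ := z
      unfold Cn at he hck
      unfold opp nb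
      simp only [Prod.mk.injEq] at he hck ⊢
      omega
    rcases h4 with rfl | rfl | h4
    · exact hK hk
    · exact hK (X.K_ry1 hk (ry_symm hlk))
    · exact X.cont hK hT (X.g.side hf hv) hk (X.g.side hf h4)
  · by_cases hE : e ∈ ET N r k c
    · exact hcl (X.g.fa_tube hB hE)
    · exact hK (K_xe ⟨e, hB, hE, (cor_tr ht (Or.inr rfl)).2 ⟨he, hp⟩⟩)

/-- all the neighbours are in the clusters of the tubes -/
theorem Ctx.all4 (X : Ctx N r k ρ l c n M F G S) {y v : ℤ × ℤ} (hf : Far n r y)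
    (hp : (y.1 + y.2) % 2 = 1) (hK : ¬ K N r k c n M F y) (hv : nb y v) (hT : T1 N r k c n M F v) :
    ∀ w : ℤ × ℤ, nb y w → T1 N r k c n M F w := by
  have hr2 : 2 ≤ r := by have := X.r0; omega
  have key : ∀ (s d : ℤ) (x : ℤ × ℤ), Cn (edz s d) y → Cn (edz s d) x → (x.1 + x.2) % 2 = 0 →
      (T1 N r k c n M F x ↔ T1 N r k c n M F (opp (edz s d) x)) := by
    intro s d x h1 h2 h3
    have ho := X.open_sq hf hp hK hv hT h1
    have ht : Tr n (edz s d) := hf.trc hr2 h1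
    have hl : RY n k (G1 N r k c n M F) x (opp (edz s d) x) :=
      (st_tr (X.g.hfar hf h1).1 ht h2 ⟨fun _ => h3, fun _ => Or.inl ho⟩).rc
    exact ⟨fun h => T1_tr h hl, fun h => T1_tr h (ry_symm hl)⟩
  have es := Pool.Agent.W658.KZ.TCOC.edz_s
  have ed := Pool.Agent.W658.KZ.TCOC.edz_d
  obtain ⟨y1, y2⟩ := y
  simp only at hp
  have a1 : T1 N r k c n M F (y1 + 1, y2) ↔ T1 N r k c n M F (y1, y2 + 1) := by
    have := key y1 y2 (y1 + 1, y2) (by unfold Cn; rw [es, ed]; simp)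
      (by unfold Cn; rw [es, ed]; simp) (by simp only; omega)
    unfold opp at this
    rw [es, ed] at this
    simp only at this
    rw [show 2 * y1 + 1 - (y1 + 1) = y1 by ring, show 2 * y2 + 1 - y2 = y2 + 1 by ring] at this
    exact this
  have a2 : T1 N r k c n M F (y1 - 1, y2) ↔ T1 N r k c n M F (y1, y2 + 1) := by
    have := key (y1 - 1) y2 (y1 - 1, y2) (by unfold Cn; rw [es, ed]; simp)
      (by unfold Cn; rw [es, ed]; simp) (by simp only; omega)
    unfold opp at this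
    rw [es, ed] at this
    simp only at this
    rw [show 2 * (y1 - 1) + 1 - (y1 - 1) = y1 by ring, show 2 * y2 + 1 - y2 = y2 + 1 by ring] at this
    exact this
  have a3 : T1 N r k c n M F (y1 + 1, y2) ↔ T1 N r k c n M F (y1, y2 - 1) := by
    have := key y1 (y2 - 1) (y1 + 1, y2) (by unfold Cn; rw [es, ed]; simp)
      (by unfold Cn; rw [es, ed]; simp) (by simp only; omega)
    unfold opp at this
    rw [es, ed] at this
    simp only at this
    rw [show 2 * y1 + 1 - (y1 + 1) = y1 by ring, show 2 * (y2 - 1) + 1 - y2 = y2 - 1 by ring] at this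
    exact this
  unfold nb at *
  simp only at hv ⊢
  intro w hw
  have hE : T1 N r k c n M F (y1 + 1, y2) := by
    rcases hv with rfl | rfl | rfl | rfl
    · exact hT
    · exact a1.2 (a2.1 hT)
    · exact a1.2 hT
    · exact a3.2 hT
  rcases hw with rfl | rfl | rfl | rfl
  · exact hE
  · exact a2.2 (a1.1 hE)
  · exact a1.1 hE
  · exact a3.1 hE

/-! ### excursions -/

theorem nrp_abs {l : ℕ} {u v : ℤ × ℤ} (h : nrp l u v) : |u.1 - v.1| ≤ 8 * l ∧ |u.2 - v.2| ≤ 8 * l := by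
  unfold nrp at h
  simp only [abs_le] at h ⊢
  omega

/-- excursions outside the clusters, from the cluster of `x0` -/
def Exc (N r k : ℕ) (c : Fin k → Cel) (n M : ℕ) (F G : Finset Edg) (x0 z : ℤ × ℤ) : Prop :=
  (z.1 + z.2) % 2 = 1 ∧ Far n r z ∧ ¬ K N r k c n M F z ∧ (∃ v, nb z v ∧ T1 N r k c n M F v) ∧
    ∃ u, RY n k (G0 N r k c n M F) x0 u ∧ DeA N r k c n u ∧ Reach (Cc 1 n M G) (fpi u) (fpi z)

theorem Geo.dea (g : Geo N r k c n M) {u : ℤ × ℤ} (hu : DeA N r k c n u) :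
    (u.1 + u.2) % 2 = 1 ∧ (|u.2| ≤ 2 * n) ∧
      ∀ q : ℤ, (3 * r : ℤ) ≤ |u.1 - 2 * n * q| ∨ (3 * r : ℤ) ≤ u.2 := by
  obtain ⟨e, -, h2, h4⟩ := hu
  have ht := g.et_tr h2
  obtain ⟨h5, h6⟩ := (cor_tr ht (Or.inr rfl)).1 h4
  exact ⟨h6, g.t_far h2 h5⟩

theorem Ctx.near (X : Ctx N r k ρ l c n M F G S) {u z : ℤ × ℤ} (hu : DeA N r k c n u)
    (hz : (z.1 + z.2) % 2 = 1) (h : Reach (Cc 1 n M G) (fpi u) (fpi z)) : nrp l u z := by
  obtain ⟨h1, h2, -⟩ := X.g.dea hu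
  refine nr_fpi h1 hz (X.ptr _ _ ?_ h)
  have h3 : (fpi u).1 - (fpi u).2 = u.2 := by
    unfold fpi
    simp only
    omega
  rw [h3]
  exact h2

theorem Ctx.far (X : Ctx N r k ρ l c n M F G S) {u z : ℤ × ℤ} (hu : DeA N r k c n u)
    (h : nrp l u z) : Far n r z := by
  have hr4 := X.r0
  obtain ⟨-, -, h2⟩ := X.g.dea hu
  obtain ⟨h3, h4⟩ := nrp_abs h
  intro q
  rw [abs_le] at h3 h4
  rcases h2 q with h5 | h5
  · left
    rw [le_abs] at h5 ⊢
    omega
  · right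
    omega

theorem Ctx.merge (X : Ctx N r k ρ l c n M F G S) {x0 u z : ℤ × ℤ} (h0 : K N r k c n M F x0)
    (hu : RY n k (G0 N r k c n M F) x0 u) (hd : DeA N r k c n u) (hz : K N r k c n M F z)
    (hdz : DeA N r k c n z) (h : nrp l u z) : RY n k (G0 N r k c n M F) x0 z := by
  obtain ⟨y, hy1, hy2⟩ := hz
  obtain ⟨y', hy1', hy2'⟩ := h0
  exact ry_trans (ry_symm hy2') (ry_trans (X.sepa N r k ρ l c X.hk X.hN X.hc X.hl X.hlr X.hrr X.hkr n
    M X.hn X.hM F X.hF X.bad y' y u z hy1' hy1 (ry_trans hy2' hu) hy2 hd hdz h) hy2)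

/-- **the main induction** -/
theorem Ctx.main (X : Ctx N r k ρ l c n M F G S) {x0 : ℤ × ℤ}
    (hK0 : K N r k c n M F x0) {z : ℤ × ℤ} (h : RY n k (G2 N r k c n M F G) x0 z) :
    RY n k (G0 N r k c n M F) x0 z ∨ Exc N r k c n M F G x0 z := by
  have hr2 : 2 ≤ r := by have := X.r0; omega
  have hr4 : 4 ≤ r := by have := X.r0; omega
  refine (step_closed (P := fun z => RY n k (G0 N r k c n M F) x0 z ∨
    Exc N r k c n M F G x0 z) ?_ h).1 (Or.inl (ry_refl _))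
  rintro e x y hst (hx | hx)
  · -- in the cluster
    have hKx : K N r k c n M F x := K_ry hK0 hx
    by_cases hB : e ∈ EB N r k
    · have hE : Ex N r k c n M F e := by
        rcases hst.cor with ⟨-, h1, -⟩ | ⟨-, h1, -⟩
        · exact ⟨x, hKx, Or.inl h1⟩
        · exact ⟨x, hKx, Or.inr h1⟩
      exact Or.inl (ry_trans hx (hst.mono (G' := G0 N r k c n M F ∪ En n) id
        (or_congr (X.g2_ex hB hE) Iff.rfl)).rc)
    have hh := X.g.hole hB
    by_cases hT : e ∈ ET N r k c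
    · have ht := X.g.et_tr hT
      rcases hst.cor with ⟨-, h1, -⟩ | ⟨h1, h2, h3⟩
      · exact absurd hKx (X.XT_nK ⟨e, hB, hT, h1⟩)
      · obtain ⟨k1, rfl, k3⟩ := hst.tr ht
        have hp : (x.1 + x.2) % 2 = 1 := ((cor_tr ht (Or.inr rfl)).1 h2).2
        have hG : e ∉ per n G := fun h => h1 (Or.inl ((X.g2_tube hB hT).2 h))
        have hR := reach_lk k1 hp hG (X.g.ceT hT).1 (X.g.ceT hT).2
        have hdx : DeA N r k c n x := ⟨e, hB, hT, h2⟩
        have hdy : DeA N r k c n (opp e x) := ⟨e, hB, hT, h3⟩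
        have hpy : ((opp e x).1 + (opp e x).2) % 2 = 1 := by rw [opp_par]; exact hp
        have hnr := X.near hdx hpy hR
        by_cases hKy : K N r k c n M F (opp e x)
        · exact Or.inl (X.merge hK0 hx hdx hKy hdy hnr)
        · refine Or.inr ⟨hpy, X.far hdx hnr, hKy, ?_, x, hx, hdx, hR⟩
          refine ⟨((opp e x).1, x.2), ?_, ((opp e x).1, x.2), ⟨e, hB, hT, ?_⟩, ry_refl _⟩
          · unfold Cn at k1
            unfold nb opp
            simp only [Prod.mk.injEq, true_and]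
            omega
          · rw [cor_tr ht (Or.inl rfl)]
            unfold Cn at k1 ⊢
            unfold opp
            simp only
            omega
    · have h1 : e ∉ G2 N r k c n M F G ∪ En n := fun h => h.elim (X.g2_out hB hT) hh.2
      have h2 : e ∉ G0 N r k c n M F ∪ En n := fun h => h.elim (X.g.fa_out hB hT) hh.2
      exact Or.inl (ry_trans hx (hst.mono id ⟨fun h => absurd h h1, fun h => absurd h h2⟩).rc)
  · -- an excursion
    obtain ⟨hp, hf, hKx, ⟨v, hv, hTv⟩, u, hu, hd, hR⟩ := hx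
    have ht : Tr n e := by
      rcases hst.cor with ⟨-, h1, -⟩ | ⟨-, h1, -⟩
      · exact hf.cor hr2 h1
      · exact hf.cor hr2 h1
    obtain ⟨k1, rfl, k3⟩ := hst.tr ht
    have hh := X.g.hfar hf k1
    have hcl : e ∉ G2 N r k c n M F G := fun h => by
      have := k3.1 (Or.inl h)
      omega
    have hpy : ((opp e x).1 + (opp e x).2) % 2 = 1 := by rw [opp_par]; exact hp
    have hall := X.all4 hf hp hKx hv hTv
    have hw : nb (opp e x) ((opp e x).1, x.2) ∧ T1 N r k c n M F ((opp e x).1, x.2) := by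
      constructor
      · unfold Cn at k1
        unfold nb opp
        simp only [Prod.mk.injEq, true_and]
        omega
      · apply hall
        unfold Cn at k1
        unfold nb opp
        simp only [Prod.mk.injEq, and_true]
        omega
    have fin : e ∉ per n G → -(M : ℤ) ≤ dco e → dco e < M → ¬ K N r k c n M F (opp e x) →
        Exc N r k c n M F G x0 (opp e x) := by
      intro hG h1 h2 hKy
      have hR' : Reach (Cc 1 n M G) (fpi u) (fpi (opp e x)) := hR.trans (reach_lk k1 hp hG h1 h2)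
      exact ⟨hpy, X.far hd (X.near hd hpy hR'), hKy, ⟨_, hw.1, hw.2⟩, u, hu, hd, hR'⟩
    by_cases hB : e ∈ EB N r k
    · have hnE : ¬ Ex N r k c n M F e := by
        intro hE
        have hcl0 : e ∉ G0 N r k c n M F ∪ En n := fun h =>
          h.elim (fun h => hcl ((X.g2_ex hB hE).2 h)) hh.2
        have hlk : RY n k (G0 N r k c n M F) x (opp e x) :=
          (st_tr hh.1 ht k1 ⟨fun h => absurd h hcl0, fun h => by omega⟩).rc
        obtain ⟨z, hk, hc⟩ := hE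
        have hck : Cn e z := by
          rcases hc with h | h
          · exact ((cor_tr ht (Or.inl rfl)).1 h).1
          · exact ((cor_tr ht (Or.inr rfl)).1 h).1
        have h4 : z = x ∨ z = opp e x ∨ nb x z := by
          clear hall hw fin hst hR hpy hKx hlk
          obtain ⟨y1, y2⟩ := x
          obtain ⟨k1', k2⟩ := z
          unfold Cn at k1 hck
          unfold opp nb
          simp only [Prod.mk.injEq] at k1 hck ⊢
          omega
        rcases h4 with rfl | rfl | h4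
        · exact hKx hk
        · exact hKx (K_ry hk (ry_symm hlk))
        · exact X.T1_nK (hall z h4) hk
      refine Or.inr (fin (fun h => hcl ((X.g2_nex hB hnE).2 h)) (X.g.ceB hB).1 (X.g.ceB hB).2 ?_)
      intro hKy
      apply hnE
      exact ⟨opp e x, hKy, Or.inr ((cor_tr ht (Or.inr rfl)).2 ⟨k1.opp, hpy⟩)⟩
    by_cases hT : e ∈ ET N r k c
    · have hG : e ∉ per n G := fun h => hcl ((X.g2_tube hB hT).2 h)
      by_cases hKy : K N r k c n M F (opp e x)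
      · have hR' : Reach (Cc 1 n M G) (fpi u) (fpi (opp e x)) :=
          hR.trans (reach_lk k1 hp hG (X.g.ceT hT).1 (X.g.ceT hT).2)
        refine Or.inl (X.merge hK0 hu hd hKy ?_ (X.near hd hpy hR'))
        exact ⟨e, hB, hT, (cor_tr ht (Or.inr rfl)).2 ⟨k1.opp, hpy⟩⟩
      · exact Or.inr (fin hG (X.g.ceT hT).1 (X.g.ceT hT).2 hKy)
    · exact absurd (K_xe ⟨e, hB, hT, (cor_tr ht (Or.inr rfl)).2 ⟨k1, hp⟩⟩) hKx

/-- a sector in the same cluster of `G2` is in the same cluster of `G0` -/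
theorem Ctx.back (X : Ctx N r k ρ l c n M F G S) {x0 : ℤ × ℤ} (hK0 : K N r k c n M F x0)
    {s : ℤ} {b : ℕ} (hb : b < 2 * k + 1) (h : RY n k (G2 N r k c n M F G) x0 (scy n k s b)) :
    RY n k (G0 N r k c n M F) x0 (scy n k s b) := by
  rcases X.main hK0 h with h1 | ⟨-, h1, -⟩
  · exact h1
  · exact absurd h1 (scy_not_far X.r0.2.2 hb)

/-- the clusters of `G0` are in the clusters of `G2` -/
theorem Ctx.forth (X : Ctx N r k ρ l c n M F G S) {x0 z : ℤ × ℤ} (hK0 : K N r k c n M F x0)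
    (h : RY n k (G0 N r k c n M F) x0 z) : RY n k (G2 N r k c n M F G) x0 z := by
  refine ((step_closed (P := fun z => RY n k (G0 N r k c n M F) x0 z ∧
    RY n k (G2 N r k c n M F G) x0 z) ?_ h).1 ⟨ry_refl _, ry_refl _⟩).2
  rintro e x y hst ⟨hx, hx2⟩
  refine ⟨ry_trans hx hst.rc, ry_trans hx2 ?_⟩
  have hKx : K N r k c n M F x := K_ry hK0 hx
  by_cases hB : e ∈ EB N r k
  · have hE : Ex N r k c n M F e := by
      rcases hst.cor with ⟨-, h1, -⟩ | ⟨-, h1, -⟩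
      · exact ⟨x, hKx, Or.inl h1⟩
      · exact ⟨x, hKx, Or.inr h1⟩
    exact (hst.mono (G' := G2 N r k c n M F G ∪ En n) id
      (or_congr (X.g2_ex hB hE).symm Iff.rfl)).rc
  have hh := X.g.hole hB
  by_cases hT : e ∈ ET N r k c
  · exfalso
    rcases hst.cor with ⟨-, h1, -⟩ | ⟨h1, -⟩
    · exact X.XT_nK ⟨e, hB, hT, h1⟩ hKx
    · exact h1 (Or.inl (X.g.fa_tube hB hT))
  · have h1 : e ∉ G2 N r k c n M F G ∪ En n := fun h => h.elim (X.g2_out hB hT) hh.2
    have h2 : e ∉ G0 N r k c n M F ∪ En n := fun h => h.elim (X.g.fa_out hB hT) hh.2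
    exact (hst.mono id ⟨fun h => absurd h h2, fun h => absurd h h1⟩).rc

end ctx

end TMA1

open TMA1 in
/-- **step A, deterministic part** -/
theorem t_MA1 : S_W2 → S_NA → S_COC → S_k2 → S_k3 → S_k4 → S_k5 → S_XCH → S_EXA1 → S_SEPA1 →
    S_MA1 := by
  intro gW gN gC g2 g3 g4 g5 gX gA gS N r k ρ l c hk hN hc hl hlr hrr hkr n M hn hM F G hF hG hbad
    hptr hEZ
  obtain ⟨hGy, S, hS, hnc⟩ := hEZ
  have X : Ctx N r k ρ l c n M F G S :=
    { w2 := gW, na := gN, coc := gC, k2 := g2, k3 := g3, k4 := g4, k5 := g5, xch := gX, exa := gA,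
      sepa := gS, hk := hk, hN := hN, hc := hc, hl := hl, hlr := hlr, hrr := hrr, hkr := hkr,
      hn := hn, hM := hM, hF := hF, hG := hG, bad := hbad, ptr := hptr, gy := hGy, nad := hS,
      nc := hnc }
  refine ⟨?_, S, hS, ?_⟩
  · refine gW n M k (by omega) X.g.n2 _ (fun e he => (mem_FB.1 he).1) (S' k S) (nad_S' hS) ?_
    intro i hi
    obtain ⟨h1, h2⟩ := S'_out hS hi
    have hK := X.K_out h1 h2 0
    obtain ⟨h3, s, hs, d, hd, h4⟩ := hGy i h1
    exact ⟨⟨s, hs, d, hd, X.forth hK h4⟩, fun d hd hdi h => h3 d hd hdi (X.back hK hd h)⟩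
  · intro i hi x hx h
    exact hnc i hi x hx (ry_symm (X.back (K_xe hx) (hS.2.1 i hi) (ry_symm h)))

end Pool.Agent.W808.KY
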