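import Pool.Agent.W808.KY.Stm
import Pool.Agent.W808.KZ.T_MON

/-!
# MON: monotonicity of the probability of the `2 k + 1` arm event of the dislocated plane, locality
-/

set_option autoImplicit false

namespace Pool.Agent.W808.KY
open H974 H906.Cyl
open Pool.Agent.H160R2.ML (nm)
open Pool.Agent.W801.OU (zp nrm Dg LZ RZ Cor bxz Zn)
open Pool.Agent.H160R2.MU.TMON (nm_le_iff nm_tgt_le nm_src_le mem_box box_mono)
open Pool.Agent.W808.KZ.TMON (bxz_sub_box bxz_mono LZ_mono RZ_mono LZ_congr RZ_congr RZ_inv LZ_cor)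

namespace TMON

/-- first exit from the region `B` (inside of `B'`) -/
theorem exit {Z : Set ℤ} {B B' G : Set Edg} {a : ℤ × ℤ}
    (h : ∀ x, RZ Z B G a x → ∀ e ∈ B', e ∉ B → ¬ (Cor Z 0 e x ∨ Cor Z 1 e x)) {y : ℤ × ℤ}
    (hy : RZ Z B' G a y) : RZ Z B G a y := by
  refine (RZ_inv (P := fun x => RZ Z B G a x) ?_ hy).1 (Relation.EqvGen.refl _)
  intro x z hxz
  obtain ⟨e, heB, ⟨h1, h2⟩, h3⟩ := LZ_cor hxz
  by_cases he : e ∈ B
  · have h4 : RZ Z B G x z := Relation.EqvGen.rel _ _ (h3 B he)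
    exact ⟨fun h5 => Relation.EqvGen.trans _ _ _ h5 h4,
      fun h5 => Relation.EqvGen.trans _ _ _ h5 (Relation.EqvGen.symm _ _ h4)⟩
  · exact ⟨fun h5 => absurd h1 (h x h5 e heB he), fun h5 => absurd h2 (h z h5 e heB he)⟩

theorem RB_mono {k : ℕ} {R R' : ℤ} (h : R ≤ R') {G : Set Edg} {x y : ℤ × ℤ}
    (hxy : RB k R G x y) : RB k R' G x y :=
  RZ_mono (Set.inter_subset_inter_left _ (bxz_mono h)) hxy

theorem RB_congr {k : ℕ} {R : ℤ} {G G' : Set Edg} (h : ∀ e ∈ bxz R, (e ∈ G ↔ e ∈ G')) :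
    RB k R G = RB k R G' := by
  unfold RB
  apply RZ_congr
  intro e he
  exact or_congr (h e he.1) Iff.rfl

theorem sey_mono {k : ℕ} {R R' : ℤ} (hR : R ≤ R') {G : Set Edg} (h : SEy k R' G) :
    SEy k R G := by
  refine ⟨fun c d hc hd hcd hcon => h.1 c d hc hd hcd (RB_mono hR hcon),
    fun c hc => ?_⟩
  by_contra hno
  obtain ⟨x, hx, e, he, hcor⟩ := h.2 c hc
  have h1 : ∀ x, RB k R G (scy 0 k 0 c) x → ∀ e, e ∉ bxz R →
      ¬ (Cor {0} 0 e x ∨ Cor {0} 1 e x) :=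
    fun x hx e he hc' => hno ⟨x, hx, e, he, hc'⟩
  exact h1 x (exit (fun x hx e he1 he2 => h1 x hx e (fun he3 => he2 ⟨he3, he1.2⟩)) hx) e
    (fun h2 => he (bxz_mono hR h2)) hcor

theorem sey_congr {k : ℕ} {R : ℤ} {G G' : Set Edg} (h : ∀ e ∈ bxz R, (e ∈ G ↔ e ∈ G')) :
    SEy k R G ↔ SEy k R G' := by
  unfold SEy
  rw [RB_congr h]

theorem sey_local {k R : ℕ} (F : Finset Edg) :
    SEy k (R : ℤ) (↑F : Set Edg) ↔ SEy k (R : ℤ) (↑(F ∩ boxE R) : Set Edg) := by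
  refine sey_congr fun e he => ?_
  rw [Finset.mem_coe, Finset.mem_coe, Finset.mem_inter]
  exact ⟨fun h => ⟨h, bxz_sub_box he⟩, fun h => h.1⟩

end TMON

theorem t_MON : S_MON := by
  intro k R R' _ _ hR
  have ok : Ok (fun _ : Edg => (1 / 2 : ℝ)) := fun _ => ⟨by norm_num, by norm_num⟩
  have hR' : (R : ℤ) ≤ R' := by exact_mod_cast hR
  unfold uY
  refine (Pr_mono ok fun F _ h => TMON.sey_mono hR' h).trans (le_of_eq ?_)
  exact Pr_local (box_mono hR) fun F _ => TMON.sey_local F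

end Pool.Agent.W808.KY
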