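import Pool.Agent.W808.KY.Stm
import Pool.Agent.W808.KZ.T_NC

/-!
# At least `k` sectors do not touch the outside of the box in class 1
-/

set_option autoImplicit false

namespace Pool.Agent.W808.KY
open H974 H906.Cyl
open Pool.Agent.H160R2.ML (nm)
open Pool.Agent.W801.OU (zp nrm Dg LZ RZ Cor bxz Zn)

namespace TNC
open Pool.Agent.W808.KZ.TNC

/-- the removed and the forced squares, seen from the cylinder -/
theorem em_small {n : ℕ} {s : ℤ} (h1 : -(2 * n : ℤ) < s) (h2 : s < 2 * n) :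
    (0 ≤ s → s % (2 * n : ℕ) = s) ∧ (s < 0 → s % (2 * n : ℕ) = s + 2 * n) := by
  constructor
  · intro h
    exact Int.emod_eq_of_lt h (by push_cast; omega)
  · intro h
    have h3 : (s + ((2 * n : ℕ) : ℤ)) % ((2 * n : ℕ) : ℤ) = s % ((2 * n : ℕ) : ℤ) := by
      simp
    rw [← h3, Int.emod_eq_of_lt (by push_cast; omega) (by push_cast; omega)]
    push_cast
    ring

theorem hn_iff {n k : ℕ} {e : Edg} (h1 : -(2 * n : ℤ) + k ≤ e.1 + e.2.1)
    (h2 : e.1 + e.2.1 < 2 * n) (h0 : -(2 * n : ℤ) < e.1 + e.2.1) : e ∈ Hn n k ↔ e ∈ H0 k := by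
  have := em_small h0 h2
  simp only [Hn, H0, Set.mem_ofPred_eq]
  rcases lt_or_ge (e.1 + e.2.1) 0 with h | h
  · rw [this.2 h]; constructor <;> intro _ <;> omega
  · rw [this.1 h]

theorem en_iff {n : ℕ} {e : Edg} (h0 : -(2 * n : ℤ) < e.1 + e.2.1)
    (h2 : e.1 + e.2.1 < 2 * n) : e ∈ En n ↔ e ∈ E0 := by
  have := em_small h0 h2
  simp only [En, E0, Set.mem_ofPred_eq]
  rcases lt_or_ge (e.1 + e.2.1) 0 with h | h
  · rw [this.2 h]; constructor <;> intro _ <;> omega
  · rw [this.1 h]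

/-- connections in the box are connections of the cylinder -/
theorem RB_RY {n R k : ℕ} {G : Set Edg} (hk : 2 * k + 2 ≤ R) (h : 10 * R + 20 ≤ n) {x y : ℤ × ℤ}
    (hxy : RB k R G x y) : RY n k (per n (FF n R G)) x y := by
  refine Relation.EqvGen.mono (r := LZ {0} (bxz R ∩ H0 k) (G ∪ E0)) ?_ _ _ hxy
  rintro a b ⟨e, ⟨he, heh⟩, hz, hl⟩
  have hb := he
  rw [bxz_iff] at hb
  have hmem : e ∈ per n (FF n R G) ∪ En n ↔ e ∈ G ∪ E0 := by
    rw [Set.mem_union, Set.mem_union, FF_box (by omega) he, en_iff (by omega) (by omega)]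
  refine ⟨e, (hn_iff (by omega) (by omega) (by omega)).2 heh, ?_, ?_⟩
  · rw [← zp_eq (n := n) (by omega) (by omega)]
    exact hz
  · rcases hl with ⟨h1, h2⟩ | ⟨h1, h2⟩
    · exact Or.inl ⟨hmem.2 h1, Dg_eq (by omega) (by omega) h2⟩
    · exact Or.inr ⟨fun h3 => h1 (hmem.1 h3), Dg_eq (by omega) (by omega) h2⟩

/-! ### closed squares -/

variable {n k : ℕ} {G : Set Edg}

/-- no hole, no forced square -/
def Ok (n k : ℕ) (s d : ℤ) : Prop := d ≠ -1 ∨ (s % (2 * n : ℕ) ≠ 0 ∧ (k : ℤ) ≤ s % (2 * n : ℕ))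

theorem ok_hn {e : Edg} (h : Ok n k (e.1 + e.2.1) (dco e)) : e ∈ Hn n k := by
  simp only [Hn, Set.mem_ofPred_eq]
  unfold Ok at h
  omega

theorem ok_en {e : Edg} (h : Ok n k (e.1 + e.2.1) (dco e)) : e ∉ En n := by
  simp only [En, Set.mem_ofPred_eq]
  unfold Ok at h
  omega

theorem ok_pos {s d : ℤ} (h1 : 0 < s) (h2 : s < 2 * n) (h3 : (k : ℤ) ≤ s) : Ok n k s d := by
  right
  rw [(em_small (by omega) h2).1 h1.le]
  omega

theorem ok_neg {s d : ℤ} (h1 : s < 0) (h2 : -(2 * n : ℤ) < s) (h3 : (k : ℤ) ≤ s + 2 * n) :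
    Ok n k s d := by
  right
  rw [(em_small h2 (by omega)).2 h1]
  omega

theorem lk_rise {s d : ℤ} (hG : edz s d ∉ G) (hz : ¬ (d < 0 ∧ s + 1 ∈ Zn n))
    (hp : (s + d) % 2 = 1) (h1 : ¬ (d < 0 ∧ s ∈ Zn n)) (hO : Ok n k s d) :
    RY n k G (s, d) (s + 1, d + 1) := by
  have hO' : Ok n k ((edz s d).1 + (edz s d).2.1) (dco (edz s d)) := by rw [edz_s, edz_d]; exact hO
  refine Relation.EqvGen.rel _ _ ⟨edz s d, ok_hn hO', ?_, Or.inr ⟨?_, ?_⟩⟩
  · simp only [zp, Set.mem_ofPred_eq, edz_s, edz_d]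
    exact hz
  · rintro (h | h)
    · exact hG h
    · exact ok_en hO' h
  · have := Dg.rise (Z := Zn n) (c := 1) (e := edz s d) (by rw [edz_s, edz_d]; exact hp)
    rw [edz_s, edz_d] at this
    simp only [nrm, if_neg hz, if_neg h1] at this
    exact this

theorem lk_fall {s d : ℤ} (hG : edz s d ∉ G) (hz : ¬ (d < 0 ∧ s + 1 ∈ Zn n))
    (hp : (s + d) % 2 = 0) (h1 : ¬ (d < 0 ∧ s ∈ Zn n)) (hO : Ok n k s d) :
    RY n k G (s, d + 1) (s + 1, d) := by
  have hO' : Ok n k ((edz s d).1 + (edz s d).2.1) (dco (edz s d)) := by rw [edz_s, edz_d]; exact hO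
  refine Relation.EqvGen.rel _ _ ⟨edz s d, ok_hn hO', ?_, Or.inr ⟨?_, ?_⟩⟩
  · simp only [zp, Set.mem_ofPred_eq, edz_s, edz_d]
    exact hz
  · rintro (h | h)
    · exact hG h
    · exact ok_en hO' h
  · have := Dg.fall (Z := Zn n) (c := 1) (e := edz s d) (by rw [edz_s, edz_d]; simpa using hp)
    rw [edz_s, edz_d] at this
    simp only [nrm, if_neg hz, if_neg h1] at this
    exact this

/-- the row of closed squares -/
theorem row {T : ℤ} (hT : 0 ≤ T) (hc : ∀ s, edz s T ∉ G) (j j' : ℤ) :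
    RY n k G (j, T + (j + T + 1) % 2) (j', T + (j' + T + 1) % 2) := by
  have step : ∀ j : ℤ, RY n k G (j, T + (j + T + 1) % 2) (j + 1, T + (j + 1 + T + 1) % 2) := by
    intro j
    rcases Int.emod_two_eq_zero_or_one (j + T) with h | h
    · have e1 : (j + T + 1) % 2 = 1 := by omega
      have e2 : (j + 1 + T + 1) % 2 = 0 := by omega
      rw [e1, e2, add_zero]
      exact lk_fall (hc j) (by omega) h (by omega) (Or.inl (by omega))
    · have e1 : (j + T + 1) % 2 = 0 := by omega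
      have e2 : (j + 1 + T + 1) % 2 = 1 := by omega
      rw [e1, e2, add_zero]
      exact lk_rise (hc j) (by omega) h (by omega) (Or.inl (by omega))
  have key : ∀ (m : ℕ) (j : ℤ), RY n k G (j, T + (j + T + 1) % 2)
      (j + m, T + (j + m + T + 1) % 2) := by
    intro m
    induction m with
    | zero => intro j; simp only [Nat.cast_zero, add_zero]; exact Relation.EqvGen.refl _
    | succ m ih =>
      intro j
      have h1 := ih j
      have h2 := step (j + m)
      have e : j + ((m + 1 : ℕ) : ℤ) = j + m + 1 := by push_cast; ring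
      rw [e]
      exact Relation.EqvGen.trans _ _ _ h1 h2
  rcases le_total j j' with h | h
  · obtain ⟨m, hm⟩ := Int.eq_ofNat_of_zero_le (sub_nonneg.2 h)
    have := key m j
    rw [show j + (m : ℤ) = j' by omega] at this
    exact this
  · obtain ⟨m, hm⟩ := Int.eq_ofNat_of_zero_le (sub_nonneg.2 h)
    have := key m j'
    rw [show j' + (m : ℤ) = j by omega] at this
    exact Relation.EqvGen.symm _ _ this

/-! ### the paths to the row `T` -/

theorem pathR {R : ℕ} {G : Set Edg} {T : ℤ} (hkR : 2 * k + 2 ≤ R) :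
    ∀ (m : ℕ) (j t : ℤ), t + m = T → (j + t) % 2 = 1 →
    (j - t ≤ -(2 * R) - 1 ∨ 2 * R + 1 ≤ j - t) → -(2 * n : ℤ) + 2 * R + 2 ≤ j - t →
    j - t ≤ 2 * n - 2 * R - 2 → (t < 0 → 1 ≤ j) →
    RY n k (per n (FF n R G)) (j, t) (j + m, T) := by
  intro m
  induction m with
  | zero =>
    intro j t hT _ _ _ _ _
    have : t = T := by simpa using hT
    subst this
    simp only [Nat.cast_zero, add_zero]; exact Relation.EqvGen.refl _
  | succ m ih =>
    intro j t hT hp h1 h2 h3 h4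
    have hc : edz j t ∉ per n (FF n R G) := by
      apply FF_out
      rw [edz_s, edz_d]
      exact Or.inr (Or.inl ⟨h1, h2, h3⟩)
    have hO : Ok n k j t := by
      by_cases ht : t = -1
      · exact ok_pos (by omega) (by omega) (by omega)
      · exact Or.inl ht
    have l1 := lk_rise hc
      (by
        rintro ⟨h5, h6⟩
        rw [Zn_small (n := n) (by omega) (by omega)] at h6
        omega) hp
      (by
        rintro ⟨h5, h6⟩
        rw [Zn_small (n := n) (by omega) (by omega)] at h6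
        omega) hO
    have l2 := ih (j + 1) (t + 1) (by push_cast at hT; omega) (by omega) (by omega) (by omega)
      (by omega) (by omega)
    have e : j + ((m + 1 : ℕ) : ℤ) = j + 1 + m := by push_cast; ring
    rw [e]
    exact Relation.EqvGen.trans _ _ _ l1 l2

theorem pathL {R : ℕ} {G : Set Edg} {T : ℤ} (hkR : 2 * k + 2 ≤ R) :
    ∀ (m : ℕ) (j t : ℤ), t + m = T → (j + t) % 2 = 1 →
    (j - 1 + t ≤ -(2 * R) - 2 ∨ 2 * R ≤ j - 1 + t) → -(2 * n : ℤ) + 2 * R + 2 ≤ j - 1 + t →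
    j - 1 + t ≤ 2 * n - 2 * R - 2 → (t < 0 → j ≤ -1) →
    RY n k (per n (FF n R G)) (j, t) (j - m, T) := by
  intro m
  induction m with
  | zero =>
    intro j t hT _ _ _ _ _
    have : t = T := by simpa using hT
    subst this
    simp only [Nat.cast_zero, sub_zero]; exact Relation.EqvGen.refl _
  | succ m ih =>
    intro j t hT hp h1 h2 h3 h4
    have hc : edz (j - 1) t ∉ per n (FF n R G) := by
      apply FF_out
      rw [edz_s, edz_d]
      exact Or.inl ⟨h1, h2, h3⟩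
    have hO : Ok n k (j - 1) t := by
      by_cases ht : t = -1
      · exact ok_neg (by omega) (by omega) (by omega)
      · exact Or.inl ht
    have l1 := lk_fall hc
      (by
        rintro ⟨h5, h6⟩
        rw [Zn_small (n := n) (by omega) (by omega)] at h6
        omega) (by omega)
      (by
        rintro ⟨h5, h6⟩
        rw [Zn_small (n := n) (by omega) (by omega)] at h6
        omega) hO
    rw [show j - 1 + 1 = j by ring] at l1
    have l2 := ih (j - 1) (t + 1) (by push_cast at hT; omega) (by omega) (by omega) (by omega)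
      (by omega) (by omega)
    have e : j - ((m + 1 : ℕ) : ℤ) = j - 1 - m := by push_cast; ring
    rw [e]
    exact Relation.EqvGen.trans _ _ _ (Relation.EqvGen.symm _ _ l1) l2

/-- the right corner of class `1` -/
theorem rcor {R : ℕ} {G : Set Edg} {T : ℤ} (hkR : 2 * k + 2 ≤ R) (hT : T = 2 * R + 10)
    (hn : 10 * R + 20 ≤ n) {e : Edg}
    (he : e ∉ bxz R) (hz : e ∉ zp (Zn n)) (hs : -(2 * R + 5 : ℤ) ≤ e.1 + e.2.1)
    (hs' : e.1 + e.2.1 ≤ 2 * R + 5) (hd : -(2 * R + 5 : ℤ) ≤ dco e) (hd' : dco e ≤ 2 * R + 5)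
    {t : ℤ} (ht : t = dco e + (e.1 + e.2.1 + dco e) % 2) :
    RY n k (per n (FF n R G)) (e.1 + e.2.1 + 1, t) (0, T + (0 + T + 1) % 2) := by
  have hrow : ∀ j j' : ℤ, RY n k (per n (FF n R G)) (j, T + (j + T + 1) % 2)
      (j', T + (j' + T + 1) % 2) := by
    apply row (by omega)
    intro s
    apply FF_out
    rw [edz_s, edz_d]
    exact Or.inr (Or.inr (by omega))
  rw [bxz_iff] at he
  have hz' : ¬ (dco e < 0 ∧ e.1 + e.2.1 + 1 ∈ Zn n) := hz
  have hz2 : dco e < 0 → e.1 + e.2.1 + 1 ≠ 0 := by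
    intro h1 h2
    exact hz' ⟨h1, by rw [Zn_small (n := n) (by omega) (by omega)]; exact h2⟩
  generalize dco e = d at *
  generalize e.1 + e.2.1 = s at *
  obtain ⟨m, hm⟩ := Int.eq_ofNat_of_zero_le (show 0 ≤ T - t by omega)
  have hR : (s + 1 - t ≤ -(2 * R) - 1 ∨ 2 * R + 1 ≤ s + 1 - t) → (t < 0 → 1 ≤ s + 1) →
      RY n k (per n (FF n R G)) (s + 1, t) (0, T + (0 + T + 1) % 2) := by
    intro h1 h2
    have l1 := pathR (n := n) (R := R) (G := G) (T := T) hkR m (s + 1) t (by omega) (by omega) h1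
      (by omega) (by omega) h2
    have l2 := hrow (s + 1 + m) 0
    rw [show T + (s + 1 + m + T + 1) % 2 = T by omega] at l2
    exact Relation.EqvGen.trans _ _ _ l1 l2
  have hL : (s + 1 - 1 + t ≤ -(2 * R) - 2 ∨ 2 * R ≤ s + 1 - 1 + t) → (t < 0 → s + 1 ≤ -1) →
      RY n k (per n (FF n R G)) (s + 1, t) (0, T + (0 + T + 1) % 2) := by
    intro h1 h2
    have l1 := pathL (n := n) (R := R) (G := G) (T := T) hkR m (s + 1) t (by omega) (by omega) h1
      (by omega) (by omega) h2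
    have l2 := hrow (s + 1 - m) 0
    rw [show T + (s + 1 - m + T + 1) % 2 = T by omega] at l2
    exact Relation.EqvGen.trans _ _ _ l1 l2
  rcases lt_or_ge d 0 with h0 | h0
  · rcases lt_or_ge s 0 with h1 | h1
    · have := hz2 h0
      exact hL (by omega) (by omega)
    · exact hR (by omega) (by omega)
  · by_cases h1 : s - d ≤ -(2 * R) - 1 ∨ 2 * R + 1 ≤ s - d
    · exact hR (by omega) (by omega)
    · exact hL (by omega) (by omega)

theorem scy_bd {c R : ℕ} (hkR : 2 * k + 2 ≤ R) (hc : c < 2 * k + 1) :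
    (-(2 * R + 3 : ℤ) ≤ (scy 0 k 0 c).1 ∧ (scy 0 k 0 c).1 ≤ 2 * R + 3) ∧
      -(2 * R + 3 : ℤ) ≤ (scy 0 k 0 c).2 ∧ (scy 0 k 0 c).2 ≤ 2 * R + 3 := by
  unfold scy
  split_ifs <;> refine ⟨⟨?_, ?_⟩, ?_, ?_⟩ <;> dsimp only <;> push_cast <;> omega

/-- a sector which touches the outside in class `1` is connected to the row -/
theorem touch {R : ℕ} {G : Set Edg} {T : ℤ} (hkR : 2 * k + 2 ≤ R) (hT : T = 2 * R + 10)
    (hn : 10 * R + 20 ≤ n)
    {c : ℕ} (hc : c < 2 * k + 1) {x : ℤ × ℤ} {e : Edg} (he : e ∉ bxz R) (hx : Cor {0} 1 e x)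
    (hr : RB k R G (scy 0 k 0 c) x) :
    RY n k (per n (FF n R G)) (scy n k 0 c) (0, T + (0 + T + 1) % 2) := by
  have e1 : scy 0 k 0 c = scy n k 0 c := by simp [scy]
  have hr' : RZ {0} (bxz R) (G ∪ E0) (scy 0 k 0 c) x := by
    refine Relation.EqvGen.mono (r := LZ {0} (bxz R ∩ H0 k) (G ∪ E0)) ?_ _ _ hr
    rintro a b ⟨f, ⟨hf, -⟩, h⟩
    exact ⟨f, hf, h⟩
  have hb := bounded hr' (scy_bd hkR hc)
  obtain ⟨hz, y, hy⟩ := hx
  have hbd : (-(2 * R + 5 : ℤ) ≤ e.1 + e.2.1 ∧ e.1 + e.2.1 ≤ 2 * R + 5) ∧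
      -(2 * R + 5 : ℤ) ≤ dco e ∧ dco e ≤ 2 * R + 5 := by
    rcases hy with hy | hy <;> have := Dg_bd hy <;> omega
  obtain ⟨⟨b1, b2⟩, b3, b4⟩ := hbd
  have hz' : e ∉ zp (Zn n) := by
    rw [← zp_eq (n := n) (by omega) (by omega)]
    exact hz
  have hcl : e ∉ per n (FF n R G) := by
    apply FF_out
    rw [bxz_iff] at he
    by_cases h1 : e.1 + e.2.1 + dco e ≤ -(2 * R) - 2 ∨ 2 * (R : ℤ) ≤ e.1 + e.2.1 + dco e
    · exact Or.inl ⟨h1, by omega, by omega⟩
    · refine Or.inr (Or.inl ⟨by omega, by omega, by omega⟩)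
  have hO : Ok n k (e.1 + e.2.1) (dco e) := by
    rw [bxz_iff] at he
    by_cases hd : dco e = -1
    · rcases lt_or_ge (e.1 + e.2.1) 0 with h | h
      · exact ok_neg h (by omega) (by omega)
      · exact ok_pos (by omega) (by omega) (by omega)
    · exact Or.inl hd
  have hcl' : e ∉ per n (FF n R G) ∪ En n := by
    rintro (h | h)
    · exact hcl h
    · exact ok_en hO h
  have hB := rcor (G := G) hkR hT hn he hz' b1 b2 b3 b4 rfl
  have h2 := RB_RY (n := n) hkR hn hr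
  rw [e1] at h2
  refine Relation.EqvGen.trans _ _ _ h2 ?_
  rcases hy with hy | hy
  · have hy' := Dg_eq (n := n) (by omega) (by omega) hy
    have h3 := Dg_right hz' hy'
    have l : RY n k (per n (FF n R G)) x y :=
      Relation.EqvGen.rel _ _ ⟨e, ok_hn hO, hz', Or.inr ⟨hcl', hy'⟩⟩
    refine Relation.EqvGen.trans _ _ _ l ?_
    rw [h3]
    exact hB
  · have hy' := Dg_eq (n := n) (by omega) (by omega) hy
    have h3 := Dg_right hz' hy'
    rw [h3]
    exact hB

end TNC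

theorem t_NC (hT : S_W4) : S_NC := by
  classical
  intro R k G hk hkR
  obtain ⟨T, hcard, hlt, hnc⟩ := hT (10 * R + 20) (10 * R + 20) k hk (by omega)
    (Pool.Agent.W808.KZ.TNC.FF (10 * R + 20) R G) (Pool.Agent.W808.KZ.TNC.FF_sub (by omega))
  refine ⟨T.filter (fun c => ∀ (x : ℤ × ℤ) (e : Edg), e ∉ bxz R → Cor {0} 1 e x →
    ¬ RB k R G (scy 0 k 0 c) x), ?_, fun c hc => hlt c (Finset.mem_filter.1 hc).1,
    fun c hc => (Finset.mem_filter.1 hc).2⟩
  have h1 : (T.filter (fun c => ¬ ∀ (x : ℤ × ℤ) (e : Edg), e ∉ bxz R → Cor {0} 1 e x →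
      ¬ RB k R G (scy 0 k 0 c) x)).card ≤ 1 := by
    rw [Finset.card_le_one]
    intro a ha b hb
    rw [Finset.mem_filter] at ha hb
    obtain ⟨ha, ha'⟩ := ha
    obtain ⟨hb, hb'⟩ := hb
    push Not at ha' hb'
    obtain ⟨x, e, he, hx, hr⟩ := ha'
    obtain ⟨x', e', he', hx', hr'⟩ := hb'
    by_contra hab
    exact hnc a ha b hb hab (Relation.EqvGen.trans _ _ _
      (TNC.touch hkR rfl le_rfl (hlt a ha) he hx hr)
      (Relation.EqvGen.symm _ _ (TNC.touch hkR rfl le_rfl (hlt b hb) he' hx' hr')))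
  have h2 := Finset.card_filter_add_card_filter_not (s := T) (fun c => ∀ (x : ℤ × ℤ) (e : Edg),
    e ∉ bxz R → Cor {0} 1 e x → ¬ RB k R G (scy 0 k 0 c) x)
  omega

end Pool.Agent.W808.KY
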