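import Pool.Agent.W808.KY.Stm

/-! Task RCR: the recursion. -/

set_option autoImplicit false

namespace Pool.Agent.W808.KY
open H974 H906.Cyl
open H12S (Dir hbE segD rimE H4 Crs Nr sqE)
open Pool.Agent.H160R2.ML (nm)
open Pool.Agent.H160R2.MU (Cel csq cpos prd shf BxS Bxs EP inSq PC Bad Cc)
open Pool.Agent.W808.HU (PTr labC)
open Pool.Agent.W801.OU (zp nrm Dg LZ RZ Cor bxz Zn)
open Pool.Agent.W808.KU (AdmS TubeS CrrS)
open Pool.Agent.W808.KZ (vp fp nrp BZ mrg ZCr)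

namespace TRCR

/-- the three steps for one family of cells -/
theorem one (hDETP : S_DETP) (hSTA : S_STA) (hSTB : S_STB) (N k : ℕ) (c : Fin k → Cel)
    (hk : 2 ≤ k) (hN : k + 16 ≤ N) (hc : AdmS N k c) (δ : ℝ) (hδ : 0 < δ) :
    ∃ C : ℝ, 0 < C ∧ ∃ r0 : ℕ, ∀ r : ℕ, r0 ≤ r → ∀ (n M : ℕ), n = prd N k * r → M = 4 * n →
    Pr (fun _ => (1 / 2 : ℝ)) (boxE (N * r)) (fun F => LandY N r k c (↑F : Set Edg)) ≤
      δ * uY k (N * r / 2) + C * PC n M (fun F => Ony n k M (per n F)) := by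
  obtain ⟨CA, hCA, rA, hA⟩ := hSTA N k c hk hN hc (δ / 2) (by positivity)
  obtain ⟨CB, hCB, rB, hB⟩ := hSTB N k c hk hN hc (δ / (2 * CA)) (by positivity)
  refine ⟨CA * CB, by positivity, max (max rA rB) (2 * k + 4), fun r hr n M hn hM => ?_⟩
  have hrA : rA ≤ r := (le_max_left _ _).trans ((le_max_left _ _).trans hr)
  have hrB : rB ≤ r := (le_max_right _ _).trans ((le_max_left _ _).trans hr)
  have hr4 : 2 * k + 4 ≤ r := (le_max_right _ _).trans hr
  have h1 := hDETP N r k c hk hN hr4 hc n M hn hM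
  have h2 := hA r hrA n M hn hM
  have h3 := hB r hrB n M hn hM
  have h4 := mul_le_mul_of_nonneg_left h3 hCA.le
  have h5 : CA * (δ / (2 * CA) * uY k (N * r / 2) +
      CB * PC n M (fun F => Ony n k M (per n F))) =
      δ / 2 * uY k (N * r / 2) +
        CA * CB * PC n M (fun F => Ony n k M (per n F)) := by
    field_simp
  rw [h5] at h4
  linarith

theorem uY_nonneg (k R : ℕ) : 0 ≤ uY k R :=
  Pr_nonneg (fun _ => by norm_num) _ _

/-- all families of cells -/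
theorem all (hDETP : S_DETP) (hSTA : S_STA) (hSTB : S_STB) (N k : ℕ)
    (hk : 2 ≤ k) (hN : k + 16 ≤ N) (δ : ℝ) (hδ : 0 < δ) (Cs : Finset (Fin k → Cel))
    (hCs : ∀ c ∈ Cs, AdmS N k c) :
    ∃ C : ℝ, 0 ≤ C ∧ ∃ r0 : ℕ, ∀ r : ℕ, r0 ≤ r → ∀ (n M : ℕ), n = prd N k * r → M = 4 * n →
    ∑ c ∈ Cs, Pr (fun _ => (1 / 2 : ℝ)) (boxE (N * r)) (fun F => LandY N r k c (↑F : Set Edg)) ≤
      Cs.card * (δ * uY k (N * r / 2)) +
        C * PC n M (fun F => Ony n k M (per n F)) := by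
  classical
  induction Cs using Finset.induction_on with
  | empty =>
    refine ⟨0, le_rfl, 0, fun r _ n M _ _ => ?_⟩
    simp
  | insert c Cs hcn ih =>
    obtain ⟨C1, hC1, r1, h1⟩ := ih fun c' hc' => hCs c' (Finset.mem_insert_of_mem hc')
    obtain ⟨C2, hC2, r2, h2⟩ := one hDETP hSTA hSTB N k c hk hN
      (hCs c (Finset.mem_insert_self _ _)) δ hδ
    refine ⟨C2 + C1, by positivity, max r1 r2, fun r hr n M hn hM => ?_⟩
    have h3 := h1 r ((le_max_left _ _).trans hr) n M hn hM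
    have h4 := h2 r ((le_max_right _ _).trans hr) n M hn hM
    rw [Finset.sum_insert hcn, Finset.card_insert_of_notMem hcn]
    push_cast
    linarith

end TRCR

theorem t_RCR : S_LAND → S_DETP → S_STA → S_STB → S_ONE → S_RCR := by
  classical
  intro hLAND hDETP hSTA hSTB hONE k hk δ hδ
  obtain ⟨N, hN, Cs, hCs, r1, hL⟩ := hLAND k hk (δ / 2) (by positivity)
  obtain ⟨K, hK, r2, hall⟩ := TRCR.all hDETP hSTA hSTB N k hk hN (δ / (2 * (Cs.card + 1)))
    (by positivity) Cs hCs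
  obtain ⟨C, hC, hPn⟩ := hONE k (by omega)
  refine ⟨N, hN, K * C + 1, by positivity, max (max r1 r2) 1, fun r hr => ?_⟩
  have hr1 : r1 ≤ r := (le_max_left _ _).trans ((le_max_left _ _).trans hr)
  have hr2 : r2 ≤ r := (le_max_right _ _).trans ((le_max_left _ _).trans hr)
  have hr0 : 1 ≤ r := (le_max_right _ _).trans hr
  have hprd : 2 * k + 2 ≤ prd N k := by unfold prd; omega
  set n : ℕ := prd N k * r with hn
  have hrn : (2 * k + 2) * r ≤ n := by
    rw [hn]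
    exact Nat.mul_le_mul_right r hprd
  have hn2 : 2 * k + 2 ≤ n := le_trans (Nat.le_mul_of_pos_right _ hr0) hrn
  have hrn' : r ≤ n := le_trans (Nat.le_mul_of_pos_left r (by omega)) hrn
  have hS := TRCR.uY_nonneg k (N * r / 2)
  have he : -((k : ℝ) * (k + 1) / 3) ≤ 0 := by
    have : (0 : ℝ) ≤ k := Nat.cast_nonneg k
    have h2 : 0 ≤ (k : ℝ) * (k + 1) / 3 := by positivity
    linarith
  -- the exact law
  have hex : PC n (4 * n) (fun F => Ony n k (4 * n) (per n F)) ≤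
      C * (r : ℝ) ^ (-((k : ℝ) * (k + 1) / 3)) := by
    refine (hPn n (4 * n) hn2).trans ?_
    refine mul_le_mul_of_nonneg_left ?_ hC.le
    refine Real.rpow_le_rpow_of_nonpos (by exact_mod_cast hr0) ?_ he
    exact_mod_cast hrn'
  have h1 := hL r hr1
  have h2 := hall r hr2 n (4 * n) hn rfl
  have h3 : (Cs.card : ℝ) * (δ / (2 * (Cs.card + 1)) * uY k (N * r / 2)) ≤
      δ / 2 * uY k (N * r / 2) := by
    have h4 : (Cs.card : ℝ) * (δ / (2 * (Cs.card + 1))) ≤ δ / 2 := by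
      have h5 : (0 : ℝ) ≤ Cs.card := Nat.cast_nonneg _
      rw [mul_div_assoc', div_le_div_iff₀ (by positivity) (by norm_num)]
      nlinarith
    rw [← mul_assoc]
    exact mul_le_mul_of_nonneg_right h4 hS
  have hfin : K * PC n (4 * n) (fun F => Ony n k (4 * n) (per n F)) ≤
      (K * C + 1) * (r : ℝ) ^ (-((k : ℝ) * (k + 1) / 3)) := by
    have h1 := mul_le_mul_of_nonneg_left hex hK
    have h2 : 0 ≤ (r : ℝ) ^ (-((k : ℝ) * (k + 1) / 3)) := Real.rpow_nonneg (Nat.cast_nonneg _) _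
    nlinarith
  linarith

end Pool.Agent.W808.KY
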