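import Pool.Agent.W782.KI.Planar
import Pool.Agent.W808.KZ.T_SEPB
import Pool.Agent.W808.KY.T_FRB

/-!
# Separation in step B: the cluster of a sector and the local clusters of class `0` of the strip
(helper782; periodic version of `Pool.Agent.W782.KI.T_SEPB1`)
-/

set_option autoImplicit false

namespace Pool.Agent.W808.KY
open H974 H906.Cyl
open H12S (Dir hbE segD rimE H4 Crs Nr sqE FD_of_mem_RE)
open Pool.Agent.H160R2.ML (nm)
open Pool.Agent.H160R2.MU (Cel csq cpos prd shf BxS Bxs EP inSq PC Bad Cc)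
open Pool.Agent.H160R2.MU.TSEPB (EP_loc EP_of EP_union farx far_box)
open Pool.Agent.W808.HU (PTr labC)
open Pool.Agent.W801.OU (zp nrm Dg LZ RZ Cor bxz Zn)
open Pool.Agent.W808.KU (AdmS TubeS CrrS S_k4 S_k5)
open Pool.Agent.W808.KZ (vp fp nrp BZ mrg)
open Pool.Agent.W808.KZ.TSEPB (mem_Zn Aw Sz mem_Sz eqv_isol vp_inj vp_even src_dco dg0 link_vp)
open Pool.Agent.W658.KZ (Exi)
open Pool.Agent.W782.KI
open Relation (EqvGen)

namespace TSEPB1

open TFRB (dg_near eqv_closed EU_red)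

/-! ### vertices away from the zippers and the tips -/

/-- away from the zippers and from the tips -/
def AA (n k : ℕ) (v : Vtx) : Prop := Aw n (vp v) ∧
  ((3 : ℤ) ≤ |(vp v).2| ∨ ∀ s : ℤ, (k : ℤ) + 4 ≤ |(vp v).1 - 2 * n * s|)

/-- squares away from the zippers, the holes and the forced squares -/
def Sy (n k : ℕ) : Set Edg := {e | e ∈ Sz n ∧ e ∈ Hn n k ∧ e ∉ En n}

theorem tip_sq {n k : ℕ} {e : Edg} (h : e ∉ Hn n k ∨ e ∈ En n) : dco e = -1 ∧ ∃ q : ℤ,
    2 * n * q ≤ e.1 + e.2.1 ∧ e.1 + e.2.1 ≤ 2 * n * q + k := by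
  have hd := Int.emod_add_mul_ediv (e.1 + e.2.1) ((2 * n : ℕ) : ℤ)
  obtain ⟨q, hq⟩ : ∃ q : ℤ, q = (e.1 + e.2.1) / ((2 * n : ℕ) : ℤ) := ⟨_, rfl⟩
  rw [← hq] at hd
  push_cast at hd
  rcases h with h | h
  · have h' : ¬ ¬ (dco e = -1 ∧ 1 ≤ (e.1 + e.2.1) % (2 * n : ℕ) ∧
      (e.1 + e.2.1) % (2 * n : ℕ) < k) := h
    rw [not_not] at h'
    obtain ⟨h1, h2, h3⟩ := h'
    push_cast at h2 h3
    refine ⟨h1, q, ?_, ?_⟩
    · linarith
    · linarith
  · obtain ⟨h1, h2⟩ := h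
    push_cast at h2
    rw [h2] at hd
    refine ⟨h1, q, ?_, ?_⟩
    · linarith
    · have : (0 : ℤ) ≤ k := by positivity
      linarith

theorem src_tgt (e : Edg) {v : Vtx} (h : src e = v ∨ tgt e = v) :
    ((vp v).2 = dco e ∨ (vp v).2 = dco e + 1) ∧ e.1 + e.2.1 ≤ (vp v).1 ∧
      (vp v).1 ≤ e.1 + e.2.1 + 1 := by
  obtain ⟨x, y, β⟩ := e
  have k1 : (vp v).1 = v.1 + v.2 := rfl
  have k2 : (vp v).2 = v.1 - v.2 := rfl
  rw [k1, k2]
  cases β
  · rcases h with rfl | rfl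
    · show ((x - y = x - y - 1 ∨ x - y = x - y - 1 + 1) ∧ _)
      refine ⟨by omega, ?_, ?_⟩
      · show x + y ≤ x + y
        omega
      · show x + y ≤ x + y + 1
        omega
    · show ((x - (y + 1) = x - y - 1 ∨ x - (y + 1) = x - y - 1 + 1) ∧ _)
      refine ⟨by omega, ?_, ?_⟩
      · show x + y ≤ x + (y + 1)
        omega
      · show x + (y + 1) ≤ x + y + 1
        omega
  · rcases h with rfl | rfl
    · show ((x - y = x - y ∨ x - y = x - y + 1) ∧ _)
      refine ⟨by omega, ?_, ?_⟩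
      · show x + y ≤ x + y
        omega
      · show x + y ≤ x + y + 1
        omega
    · show ((x + 1 - y = x - y ∨ x + 1 - y = x - y + 1) ∧ _)
      refine ⟨by omega, ?_, ?_⟩
      · show x + y ≤ x + 1 + y
        omega
      · show x + 1 + y ≤ x + y + 1
        omega

/-- a square with a vertex away from zippers and tips -/
theorem sy_of_aa {n k : ℕ} {e : Edg} {v : Vtx} (h : src e = v ∨ tgt e = v) (hA : AA n k v) :
    e ∈ Sy n k := by
  obtain ⟨h1, h2, h3⟩ := src_tgt e h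
  have key : ¬ (dco e = -1 ∧ ∃ q : ℤ, 2 * n * q ≤ e.1 + e.2.1 ∧ e.1 + e.2.1 ≤ 2 * n * q + k) := by
    rintro ⟨k1, q, k2, k3⟩
    rcases hA.2 with h4 | h4
    · simp only [le_abs] at h4
      omega
    · have := h4 q
      simp only [le_abs] at this
      omega
  refine ⟨?_, ?_, ?_⟩
  · rw [mem_Sz]
    rcases hA.1 with h4 | h4
    · left
      omega
    · right
      intro s
      have := h4 s
      constructor
      · intro hh
        omega
      · intro hh
        omega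
  · by_contra hh
    exact key (tip_sq (Or.inl hh))
  · intro hh
    exact key (tip_sq (n := n) (k := k) (Or.inr hh))

theorem sz_not_zp {n : ℕ} {e : Edg} (h3 : e ∈ Sz n) : e ∉ zp (Zn n) := by
  rintro ⟨h4, h5⟩
  obtain ⟨s, hs⟩ := mem_Zn.1 h5
  rcases mem_Sz.1 h3 with h6 | h6
  · omega
  · exact (h6 s).1 hs

/-- a planar path is a connection -/
theorem CC_reach {n k : ℕ} {G : Set Edg} {v w : Vtx} (h : Reach (G ∩ Sy n k) v w) :
    RY n k G (vp v) (vp w) := by
  induction h with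
  | refl => exact EqvGen.refl _
  | tail _ hbc ih =>
    obtain ⟨e, he, hec⟩ := hbc
    have h1 : RY n k G (vp (src e)) (vp (tgt e)) :=
      EqvGen.rel _ _ ⟨e, he.2.2.1, sz_not_zp he.2.1,
        Or.inl ⟨Or.inl he.1, (dg0 he.2.1).2 ⟨rfl, rfl⟩⟩⟩
    refine ih.trans _ _ _ ?_
    rcases hec with ⟨h3, h4⟩ | ⟨h3, h4⟩
    · rw [← h3, ← h4]
      exact h1
    · rw [← h3, ← h4]
      exact h1.symm _ _

/-- leaving a region away from zippers and tips -/
theorem exit_CC {n k : ℕ} {G : Set Edg} {x : ℤ × ℤ} {p : Vtx} (hxp : RY n k G x (vp p))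
    (R : Vtx → Prop) (hRp : R p) (hA : ∀ v, R v → AA n k v) (hS : ∀ v, R v → vp v ≠ x) :
    ∃ v w, Reach ((G ∩ Sy n k) ∩ {e | R (src e) ∧ R (tgt e)}) p v ∧ R v ∧ ¬ R w ∧
      ∃ e ∈ G ∩ Sy n k, (src e = v ∧ tgt e = w) ∨ (src e = w ∧ tgt e = v) := by
  by_contra hcon
  push Not at hcon
  have step : ∀ (v w : Vtx) (e : Edg), Reach ((G ∩ Sy n k) ∩ {e | R (src e) ∧ R (tgt e)}) p v →
      R v → e ∈ G ∩ Sy n k → ((src e = v ∧ tgt e = w) ∨ (src e = w ∧ tgt e = v)) →
      Reach ((G ∩ Sy n k) ∩ {e | R (src e) ∧ R (tgt e)}) p w ∧ R w := by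
    intro v w e h1 h2 he hvw
    by_cases hw : R w
    · refine ⟨h1.trans (Adj.reach ⟨e, ⟨he, ?_⟩, hvw⟩), hw⟩
      rcases hvw with ⟨h3, h4⟩ | ⟨h3, h4⟩
      · exact ⟨by rw [h3]; exact h2, by rw [h4]; exact hw⟩
      · exact ⟨by rw [h3]; exact hw, by rw [h4]; exact h2⟩
    · exfalso
      have h5 := hcon v w h1 h2 hw e he
      rcases hvw with hvw | hvw
      · exact h5.1 hvw.1 hvw.2
      · exact h5.2 hvw.1 hvw.2
  have inG : ∀ {e : Edg} {v : Vtx}, R v → (src e = v ∨ tgt e = v) → e ∈ G ∪ En n →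
      e ∈ G ∩ Sy n k := by
    intro e v hv hev he
    have hSy := sy_of_aa hev (hA v hv)
    rcases he with he | he
    · exact ⟨he, hSy⟩
    · exact absurd he hSy.2.2
  have key : ∀ a b, LZ (Zn n) (Hn n k) (G ∪ En n) a b →
      ((∃ v, vp v = a ∧ Reach ((G ∩ Sy n k) ∩ {e | R (src e) ∧ R (tgt e)}) p v ∧ R v) ↔
       (∃ v, vp v = b ∧ Reach ((G ∩ Sy n k) ∩ {e | R (src e) ∧ R (tgt e)}) p v ∧ R v)) := by
    intro a b hab
    constructor
    · rintro ⟨v, rfl, h1, h2⟩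
      obtain ⟨e, he, hz, hd⟩ := hab
      obtain ⟨-, k2, k3, k4⟩ := (link_vp hz (hA v h2).1).1 hd
      exact ⟨tgt e, k4.symm, step v (tgt e) e h1 h2 (inG h2 (Or.inl k3) k2) (Or.inl ⟨k3, rfl⟩)⟩
    · rintro ⟨v, rfl, h1, h2⟩
      obtain ⟨e, he, hz, hd⟩ := hab
      obtain ⟨-, k2, k3, k4⟩ := (link_vp hz (hA v h2).1).2 hd
      exact ⟨src e, k4.symm, step v (src e) e h1 h2 (inG h2 (Or.inr k3) k2) (Or.inr ⟨rfl, k3⟩)⟩
  obtain ⟨v, hv, -, hv2⟩ := (eqv_closed key hxp).2 ⟨p, rfl, Reach.refl _ _, hRp⟩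
  exact hS v hv2 hv

/-- leaving a region along a path -/
theorem exit_reach {C D : Set Edg} {R : Vtx → Prop} {v w : Vtx} (h : Reach D v w)
    (hD : ∀ e ∈ D, (R (src e) ∨ R (tgt e)) → e ∈ C) (hv : R v) (hw : ¬ R w) :
    ∃ a b, Reach (C ∩ {e | R (src e) ∧ R (tgt e)}) v a ∧ R a ∧ ¬ R b ∧
      ∃ e ∈ C, (src e = a ∧ tgt e = b) ∨ (src e = b ∧ tgt e = a) := by
  by_contra hcon
  push Not at hcon
  have key : ∀ x, Reach D v x → Reach (C ∩ {e | R (src e) ∧ R (tgt e)}) v x ∧ R x := by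
    intro x hx
    induction hx with
    | refl => exact ⟨Reach.refl _ _, hv⟩
    | @tail b c _ hbc ih =>
      obtain ⟨e, he, hec⟩ := hbc
      obtain ⟨h1, h2⟩ := ih
      have heC : e ∈ C := hD e he (by
        rcases hec with ⟨h3, -⟩ | ⟨-, h3⟩
        · exact Or.inl (by rw [h3]; exact h2)
        · exact Or.inr (by rw [h3]; exact h2))
      by_cases hc : R c
      · refine ⟨h1.trans (Adj.reach ⟨e, ⟨heC, ?_⟩, hec⟩), hc⟩
        rcases hec with ⟨h3, h4⟩ | ⟨h3, h4⟩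
        · exact ⟨by rw [h3]; exact h2, by rw [h4]; exact hc⟩
        · exact ⟨by rw [h3]; exact hc, by rw [h4]; exact h2⟩
      · exfalso
        have h5 := hcon b c h1 h2 hc e heC
        rcases hec with hvw | hvw
        · exact h5.1 hvw.1 hvw.2
        · exact h5.2 hvw.1 hvw.2
  exact hw (key w h).2

theorem mle {r : ℕ} {a b : ℤ} (h : a ≤ b) : (r : ℤ) * a ≤ r * b :=
  mul_le_mul_of_nonneg_left h (by positivity)

theorem mlt {r : ℕ} {a b : ℤ} (h : (r : ℤ) * a < r * b) : a < b :=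
  lt_of_mul_lt_mul_left h (by positivity)

/-- the sectors are not away from the tips -/
theorem scy_loc {n k i : ℕ} (hk : 2 ≤ k) (hi : i < 2 * k + 1) (s : ℤ) :
    ((scy n k s i).2 = 0 ∨ (scy n k s i).2 = -1) ∧ |(scy n k s i).1 - 2 * n * s| ≤ k := by
  unfold scy
  split_ifs with h
  · dsimp only
    refine ⟨Or.inl rfl, ?_⟩
    rw [abs_le]
    omega
  · dsimp only
    refine ⟨Or.inr rfl, ?_⟩
    rw [abs_le]
    omega

theorem aa_sec {n k i : ℕ} (hk : 2 ≤ k) (hi : i < 2 * k + 1) {v : Vtx} (h : AA n k v) (s : ℤ) :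
    vp v ≠ scy n k s i := by
  intro hh
  obtain ⟨h1, h2⟩ := scy_loc (n := n) hk hi s
  rw [← hh] at h1 h2
  rcases h.2 with h3 | h3
  · simp only [le_abs] at h3
    omega
  · have := h3 s
    rw [abs_le] at h2
    simp only [le_abs] at this
    omega

section
variable {i N r k ρ l n M : ℕ} {c : Fin k → Cel} {F : Finset Edg} {s : ℤ} {u v : Vtx}

theorem mem_FB (h4 : S_k4) (hk : 2 ≤ k) (hN : k + 4 ≤ N) (hC : AdmS N k c)
    (hn : n = prd N k * r) (hF : F ⊆ CE n M) {e : Edg} :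
    e ∈ per n (FB N r k c n M F) ↔ (e ∈ EB N r k ∨ e ∈ ET N r k c) ∧ e ∈ per n F := by
  have h1 : e ∈ per n (FB N r k c n M F) ↔ red n e ∈ FB N r k c n M F := Iff.rfl
  have h2 : e ∈ per n F ↔ red n e ∈ F := Iff.rfl
  rw [h1, h2]
  simp only [FB, Finset.mem_filter]
  rw [EU_red h4 hk hN hC hn]
  exact ⟨fun h => h.2, fun h => ⟨hF h.2, h⟩⟩

/-- parameters -/
structure Par (i N r k ρ l n M : ℕ) (c : Fin k → Cel) (F : Finset Edg) (s : ℤ) (u v : Vtx) :
    Prop where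
  hi : i < 2 * k + 1
  hk : 2 ≤ k
  hN : k + 16 ≤ N
  hC : AdmS N k c
  hl : 1 ≤ l
  h1 : 32 * l ≤ ρ
  h2 : 64 * ρ ≤ r
  h3 : 4 * k + 4 ≤ ρ
  hn : n = prd N k * r
  hF : F ⊆ CE n M
  k4 : S_k4
  k5 : S_k5
  hX : ∀ x : ℤ × ℤ, XE N r k c n x → ¬ RY n k (per n (FB N r k c n M F)) (scy n k s i) x
  hfrb : ∀ s' : ℤ, (16 * ρ : ℤ) < |u.1 + u.2 - 2 * n * s'| ∨
    (16 * ρ : ℤ) < |u.1 - u.2 + 2 * N * r|
  hu : RY n k (per n (FB N r k c n M F)) (scy n k s i) (vp u)
  du : DvB N r k c u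
  dv : DvB N r k c v
  kv : KL N r k ρ c n F v
  nuv : Nr (4 * l) u v

theorem Par.nums (h : Par i N r k ρ l n M c F s u v) :
    ((18 : ℤ) * r ≤ N * r ∧ (n : ℤ) = 4 * (N * r) + 16 * (k * r) ∧ (2 : ℤ) * r ≤ k * r) ∧
      (32 : ℤ) * l ≤ ρ ∧ (64 : ℤ) * ρ ≤ r ∧ (1 : ℤ) ≤ l ∧ 4 * (k : ℤ) + 4 ≤ ρ := by
  have e1 : (18 : ℤ) ≤ N := by
    have := h.hN
    have := h.hk
    have : 18 ≤ N := by omega
    exact_mod_cast this
  have e3 : (2 : ℤ) ≤ k := by exact_mod_cast h.hk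
  have e2 : (0 : ℤ) ≤ r := by positivity
  refine ⟨⟨mul_le_mul_of_nonneg_right e1 e2, ?_, mul_le_mul_of_nonneg_right e3 e2⟩, ?_⟩
  · rw [h.hn]
    unfold prd
    push_cast
    ring
  · have := h.h1
    have := h.h2
    have := h.hl
    have := h.h3
    omega

theorem Par.hr1 (h : Par i N r k ρ l n M c F s u v) : 1 ≤ r := by
  have := h.h1
  have := h.h2
  have := h.hl
  omega

/-- the vertices of the closed region are outside the boxes -/
theorem Par.loc (h : Par i N r k ρ l n M c F s u v) {w : Vtx} (hw : DvB N r k c w) (q : ℤ) :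
    (N : ℤ) * r ≤ |w.1 - n * q| ∨ (N : ℤ) * r ≤ |w.2 - n * q| := by
  obtain ⟨e, he, -, hew⟩ := hw
  have := far_box h.hr1 he hew q
  rw [← h.hn] at this
  have e1 : q * (n : ℤ) = n * q := by ring
  rw [e1] at this
  exact this

/-- near `u` there are no tips -/
theorem Par.aa (h : Par i N r k ρ l n M c F s u v) {w : Vtx} (h1 : |w.1 - u.1| ≤ r)
    (h2 : |w.2 - u.2| ≤ r) (hA : Aw n (vp w)) : AA n k w := by
  refine ⟨hA, ?_⟩
  by_contra hcon
  push Not at hcon
  obtain ⟨h3, q, h4⟩ := hcon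
  have h5 := h.loc h.du q
  obtain ⟨⟨n1, n2, n3⟩, n4, n5, n6, n7⟩ := h.nums
  have e0 : (2 * n * q : ℤ) = 2 * (n * q) := by ring
  rw [e0] at h4
  have k1 : (vp w).1 = w.1 + w.2 := rfl
  have k2 : (vp w).2 = w.1 - w.2 := rfl
  rw [k1] at h4
  rw [k2] at h3
  rw [abs_lt] at h3 h4
  rw [abs_le] at h1 h2
  simp only [le_abs] at h5
  omega

/-- `u` is in a square of the boxes or of the tubes -/
theorem Par.link (h : Par i N r k ρ l n M c F s u v) : ∃ z ∈ Bxs N k ∪ CrrS N k c,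
    (r * z.1 - 1 ≤ u.1 ∧ u.1 ≤ r * z.1 + r + 1) ∧ (r * z.2 - 1 ≤ u.2 ∧ u.2 ≤ r * z.2 + r + 1) := by
  obtain ⟨⟨n1, n2, n3⟩, n4, n5, n6, n7⟩ := h.nums
  have htip : ∀ q : ℤ, ¬ (|u.1 + u.2 - 2 * (n * q)| ≤ k + 1 ∧ |u.1 - u.2| ≤ 2) := by
    rintro q ⟨h1, h2⟩
    have h5 := h.loc h.du q
    rw [abs_le] at h1 h2
    simp only [le_abs] at h5
    omega
  have k1 : (vp u).1 = u.1 + u.2 := rfl
  have k2 : (vp u).2 = u.1 - u.2 := rfl
  have key : ∃ e : Edg, (e ∈ EB N r k ∨ e ∈ ET N r k c) ∧ ∃ (c' : ℤ) (y : ℤ × ℤ),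
      Dg (Zn n) c' e (vp u) y ∨ Dg (Zn n) c' e y (vp u) := by
    by_contra hcon
    push Not at hcon
    have hno : ∀ (e : Edg) (c' : ℤ) (y : ℤ × ℤ), e ∈ per n (FB N r k c n M F) ∪ En n →
        (Dg (Zn n) c' e (vp u) y ∨ Dg (Zn n) c' e y (vp u)) → False := by
      intro e c' y he hd
      rcases he with he | he
      · have := ((mem_FB h.k4 h.hk (by have := h.hN; omega) h.hC h.hn h.hF).1 he).1
        rcases hd with hd | hd
        · exact (hcon e this c' y).1 hd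
        · exact (hcon e this c' y).2 hd
      · obtain ⟨t1, q, t2, t3⟩ := tip_sq (n := n) (k := 0) (Or.inr he)
        have hnear : ((vp u).2 = dco e ∨ (vp u).2 = dco e + 1) ∧ e.1 + e.2.1 - 1 ≤ (vp u).1 ∧
            (vp u).1 ≤ e.1 + e.2.1 + 1 := by
          rcases hd with hd | hd
          · exact ⟨(dg_near hd).1.1, (dg_near hd).2.1⟩
          · exact ⟨(dg_near hd).1.2, (dg_near hd).2.2⟩
        have e0 : (2 * n * q : ℤ) = 2 * (n * q) := by ring
        rw [e0] at t2 t3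
        rw [k1, k2] at hnear
        push_cast at t3
        apply htip q
        rw [abs_le, abs_le]
        omega
    have hiso : scy n k s i = vp u := by
      refine eqv_isol (fun z => ⟨?_, ?_⟩) h.hu
      · rintro ⟨e, he, hz, hd⟩
        rcases hd with hd | hd
        · exact hno e 0 z hd.1 (Or.inl hd.2)
        · by_cases hin : e ∈ EB N r k ∨ e ∈ ET N r k c
          · exact (hcon e hin 1 z).1 hd.2
          · push Not at hin
            exact h.hX (vp u) ⟨e, hin.1, hin.2, hz, z, Or.inl hd.2⟩ h.hu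
      · rintro ⟨e, he, hz, hd⟩
        rcases hd with hd | hd
        · exact hno e 0 z hd.1 (Or.inr hd.2)
        · by_cases hin : e ∈ EB N r k ∨ e ∈ ET N r k c
          · exact (hcon e hin 1 z).2 hd.2
          · push Not at hin
            exact h.hX (vp u) ⟨e, hin.1, hin.2, hz, z, Or.inr hd.2⟩ h.hu
    obtain ⟨m1, m2⟩ := scy_loc (n := n) h.hk h.hi s
    rw [hiso, k2] at m1
    rw [hiso, k1] at m2
    have e0 : (2 * n * s : ℤ) = 2 * (n * s) := by ring
    rw [e0] at m2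
    apply htip s
    rw [abs_le] at m2 ⊢
    rw [abs_le]
    omega
  obtain ⟨e, he, c', y, hd⟩ := key
  have he' : e ∈ EP r (Bxs N k ∪ CrrS N k c) := by
    rw [EP_union]
    exact he
  obtain ⟨z, hz, h1, h2⟩ := EP_loc he' (Or.inl ⟨rfl, rfl⟩)
  refine ⟨z, hz, ?_⟩
  have hnear : ((vp u).2 = dco e ∨ (vp u).2 = dco e + 1) ∧ e.1 + e.2.1 - 1 ≤ (vp u).1 ∧
      (vp u).1 ≤ e.1 + e.2.1 + 1 := by
    rcases hd with hd | hd
    · exact ⟨(dg_near hd).1.1, (dg_near hd).2.1⟩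
    · exact ⟨(dg_near hd).1.2, (dg_near hd).2.2⟩
  have h3 := src_dco e
  rw [k1, k2] at hnear
  unfold inSq at h1
  omega

/-- the extent -/
theorem Par.ext (h : Par i N r k ρ l n M c F s u v) : |u.1 - u.2| ≤ 2 * (n : ℤ) - 2 * r := by
  obtain ⟨⟨n1, n2, n3⟩, n4, n5, n6, n7⟩ := h.nums
  obtain ⟨z, hz, hz1, hz2⟩ := h.link
  have h1 := (h.k4 N k c h.hk (by have := h.hN; omega) h.hC _ rfl).2.2.2 z hz
  rw [abs_le] at h1
  have k1 := mle (r := r) h1.1
  have k2 := mle (r := r) h1.2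
  have e1 : (r : ℤ) * (-((prd N k : ℤ) + 4 * N)) = -(8 * (N * r) + 16 * (k * r)) := by
    unfold prd
    push_cast
    ring
  have e2 : (r : ℤ) * ((prd N k : ℤ) + 4 * N) = 8 * (N * r) + 16 * (k * r) := by
    unfold prd
    push_cast
    ring
  have e3 : (r : ℤ) * (z.1 - z.2) = r * z.1 - r * z.2 := by ring
  rw [e1, e3] at k1
  rw [e2, e3] at k2
  rw [abs_le]
  omega

/-- `u` is far from the zippers -/
theorem Par.far (h : Par i N r k ρ l n M c F s u v) :
    (7 * ρ : ℤ) ≤ u.1 - u.2 ∨ ∀ q : ℤ, (7 * ρ : ℤ) ≤ |u.1 + u.2 - 2 * (n * q)| := by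
  by_contra hfar
  push Not at hfar
  obtain ⟨hf1, q, hf2⟩ := hfar
  obtain ⟨z, hz, hz1, hz2⟩ := h.link
  obtain ⟨⟨n1, n2, n3⟩, n4, n5, n6, n7⟩ := h.nums
  have hfr := h.hfrb q
  obtain ⟨A, hA⟩ : ∃ A : ℤ, A = r * z.1 := ⟨_, rfl⟩
  obtain ⟨B, hB⟩ : ∃ B : ℤ, B = r * z.2 := ⟨_, rfl⟩
  have e1 : (2 * N * r : ℤ) = 2 * (N * r) := by ring
  have e0 : (2 * n * q : ℤ) = 2 * (n * q) := by ring
  rw [e1, e0] at hfr
  rw [← hA] at hz1
  rw [← hB] at hz2
  rw [abs_lt] at hf2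
  simp only [lt_abs] at hfr
  have hnr : (n : ℤ) = r * prd N k := by rw [h.hn]; push_cast; ring
  have hn0 : (0 : ℤ) ≤ n := by positivity
  rcases hz with hz | hz
  · obtain ⟨σ, c1, c2, c3, c4⟩ := hz
    unfold shf at c1 c2 c3 c4
    dsimp only at c1 c2 c3 c4
    obtain ⟨T, hT⟩ : ∃ T : ℤ, T = n * σ := ⟨_, rfl⟩
    have k1 := mle (r := r) c1
    have k2 := mle (r := r) (show z.1 - σ * (prd N k : ℕ) + 1 ≤ N by omega)
    have k3 := mle (r := r) c3
    have k4 := mle (r := r) (show z.2 - σ * (prd N k : ℕ) + 1 ≤ N by omega)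
    have d1 : (r : ℤ) * (-(N : ℤ)) = -(N * r) := by ring
    have d2 : (r : ℤ) * (z.1 - σ * (prd N k : ℕ)) = A - T := by rw [hA, hT, hnr]; ring
    have d3 : (r : ℤ) * (z.1 - σ * (prd N k : ℕ) + 1) = A - T + r := by rw [hA, hT, hnr]; ring
    have d4 : (r : ℤ) * (z.2 - σ * (prd N k : ℕ)) = B - T := by rw [hB, hT, hnr]; ring
    have d5 : (r : ℤ) * (z.2 - σ * (prd N k : ℕ) + 1) = B - T + r := by rw [hB, hT, hnr]; ring
    have d6 : (r : ℤ) * (N : ℤ) = N * r := by ring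
    rw [d1, d2] at k1
    rw [d3, d6] at k2
    rw [d1, d4] at k3
    rw [d5, d6] at k4
    have hss : q = σ := by
      by_contra hne
      rcases lt_or_gt_of_ne hne with hlt | hgt
      · have := mul_le_mul_of_nonneg_left (show q + 1 ≤ σ by omega) hn0
        have e2 : (n : ℤ) * (q + 1) = n * q + n := by ring
        rw [e2, ← hT] at this
        omega
      · have := mul_le_mul_of_nonneg_left (show σ + 1 ≤ q by omega) hn0
        have e2 : (n : ℤ) * (σ + 1) = T + n := by rw [hT]; ring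
        rw [e2] at this
        omega
    subst hss
    have h5 := h.loc h.du q
    rw [← hT] at h5 hf2 hfr
    simp only [le_abs] at h5
    omega
  · have h1 := h.k5 N k c h.hk (by have := h.hN; omega) h.hC z hz q
    unfold shf at h1
    dsimp only at h1
    obtain ⟨T, hT⟩ : ∃ T : ℤ, T = n * q := ⟨_, rfl⟩
    have hT' : T = r * (q * (prd N k : ℕ)) := by rw [hT, hnr]; ring
    rw [← hT] at hf2 hfr
    rcases h1 with h1 | h1 | h1
    · have := mle (r := r) h1
      have e5 : (r : ℤ) * (z.1 - q * (prd N k : ℕ) - (z.2 - q * (prd N k : ℕ))) = A - B := by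
        rw [hA, hB]; ring
      have e6 : (r : ℤ) * (N : ℤ) = N * r := by ring
      rw [e5, e6] at this
      omega
    · have := mle (r := r) h1
      have e5 : (r : ℤ) * (z.1 - q * (prd N k : ℕ) + (z.2 - q * (prd N k : ℕ))) =
          A + B - 2 * T := by
        rw [hA, hB, hT']; ring
      rw [e5] at this
      omega
    · have := mle (r := r) h1
      have e5 : (r : ℤ) * (z.1 - q * (prd N k : ℕ) + (z.2 - q * (prd N k : ℕ))) =
          A + B - 2 * T := by
        rw [hA, hB, hT']; ring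
      rw [e5] at this
      omega

/-- near `u` everything is away from zippers and tips -/
theorem Par.aw (h : Par i N r k ρ l n M c F s u v) {w : Vtx} (h1 : |w.1 - u.1| ≤ ρ + l)
    (h2 : |w.2 - u.2| ≤ ρ + l) : AA n k w := by
  obtain ⟨⟨n1, n2, n3⟩, n4, n5, n6, n7⟩ := h.nums
  have hf := h.far
  rw [abs_le] at h1 h2
  have k1 : (vp w).1 = w.1 + w.2 := rfl
  have k2 : (vp w).2 = w.1 - w.2 := rfl
  rcases hf with hf | hf
  · refine ⟨Or.inl ?_, Or.inl ?_⟩
    · rw [k2]; omega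
    · rw [k2, le_abs]; omega
  · have hq : ∀ q : ℤ, (k : ℤ) + 4 ≤ |(vp w).1 - 2 * n * q| := by
      intro q
      have h3 := hf q
      have e0 : (2 * n * q : ℤ) = 2 * (n * q) := by ring
      rw [k1, e0]
      simp only [le_abs] at h3 ⊢
      omega
    refine ⟨Or.inr ?_, Or.inr hq⟩
    intro q
    have h3 := hq q
    simp only [le_abs] at h3
    omega

/-- `v` is connected to the distance -/
theorem Par.exv (h : Par i N r k ρ l n M c F s u v) (Q : Vtx → Prop) (hQ : Q v)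
    (hQ2 : ∀ w, Q w → (|w.1 - u.1| ≤ ρ + l ∧ |w.2 - u.2| ≤ ρ + l) ∧ AA n k w) :
    ∃ a b, Reach ((per n (FB N r k c n M F) ∩ Sy n k) ∩ {e | Q (src e) ∧ Q (tgt e)}) v a ∧ Q a ∧
      ¬ Q b ∧ ∃ e ∈ per n (FB N r k c n M F) ∩ Sy n k,
        (src e = a ∧ tgt e = b) ∨ (src e = b ∧ tgt e = a) := by
  obtain ⟨w, e, he, heY, hew, hwv⟩ := h.kv
  obtain ⟨⟨n1, n2, n3⟩, n4, n5, n6, n7⟩ := h.nums
  refine exit_reach (w := w) hwv.symm ?_ hQ ?_
  · rintro g ⟨hg1, hg2⟩ hg3
    refine ⟨(mem_FB h.k4 h.hk (by have := h.hN; omega) h.hC h.hn h.hF).2 ⟨hg2.1, hg1⟩, ?_⟩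
    rcases hg3 with hg3 | hg3
    · exact sy_of_aa (Or.inl rfl) (hQ2 _ hg3).2
    · exact sy_of_aa (Or.inr rfl) (hQ2 _ hg3).2
  · intro hw
    obtain ⟨⟨k1, k2⟩, -⟩ := hQ2 w hw
    rw [abs_le] at k1 k2
    have hwe : |e.1 - w.1| ≤ 1 ∧ |e.2.1 - w.2| ≤ 1 := by
      rcases hew with rfl | rfl
      · simp [src]
      · obtain ⟨x, y, β⟩ := e
        cases β <;> simp [tgt]
    obtain ⟨e0, he0, he0', heu⟩ := h.du
    have hue : |e0.1 - u.1| ≤ 1 ∧ |e0.2.1 - u.2| ≤ 1 := by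
      rcases heu with rfl | rfl
      · simp [src]
      · obtain ⟨x, y, β⟩ := e0
        cases β <;> simp [tgt]
    simp only [abs_le] at hwe hue
    apply heY
    refine ⟨he, ⟨e0, he0, he0', ?_, ?_⟩, ?_⟩
    · rw [abs_le]; omega
    · rw [abs_le]; omega
    · rintro ⟨q, x1, x2⟩
      have hfr := h.hfrb q
      have e1 : (2 * N * r : ℤ) = 2 * (N * r) := by ring
      have e0 : (2 * n * q : ℤ) = 2 * (n * q) := by ring
      rw [e1, e0] at hfr
      simp only [lt_abs] at hfr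
      rw [abs_le] at x1 x2
      omega

/-- `v` touches a square of the boxes or of the tubes -/
theorem Par.tv (h : Par i N r k ρ l n M c F s u v) :
    ∃ g ∈ EP r (Bxs N k ∪ CrrS N k c), (src g = v ∨ tgt g = v) := by
  obtain ⟨w, e, he, -, hew, hwv⟩ := h.kv
  rcases Relation.ReflTransGen.cases_tail hwv with rfl | ⟨b, -, g, hg, hgv⟩
  · exact ⟨e, by rw [EP_union]; exact he, hew⟩
  · refine ⟨g, by rw [EP_union]; exact hg.2.1, ?_⟩
    rcases hgv with ⟨-, k⟩ | ⟨k, -⟩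
    · exact Or.inr k
    · exact Or.inl k

theorem not_EP {g : Edg} (h1 : g ∉ EB N r k) (h2 : g ∉ ET N r k c) :
    g ∉ EP r (Bxs N k ∪ CrrS N k c) := by
  rw [EP_union]
  rintro (h3 | h3)
  · exact h1 h3
  · exact h2 h3

theorem Par.ctx (h : Par i N r k ρ l n M c F s u v) :
    PL.Ctx r ρ l (Bad 0 N r ρ l (prd N k) n M F) (Sy n k) (AA n k)
      (Bxs N k ∪ CrrS N k c) (per n (FB N r k c n M F) ∩ Sy n k) (per n F) u v := by
  obtain ⟨⟨n1, n2, n3⟩, n4, n5, n6, n7⟩ := h.nums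
  have hr1 := h.hr1
  have hN4 : k + 4 ≤ N := by have := h.hN; omega
  have hr0 : (0 : ℤ) < r := by exact_mod_cast hr1
  have hCc : Cc 0 n M F = per n F := by
    unfold Cc
    simp
  have hext := h.ext
  have hloc := h.loc h.du
  have hnr : (n : ℤ) = ((prd N k * r : ℕ) : ℤ) := by rw [h.hn]
  have huv := h.nuv
  refine
    { hl := h.hl
      h1 := h.h1
      h2 := by have := h.h2; omega
      c1 := fun g hg => by
        rw [EP_union]
        exact ((mem_FB h.k4 h.hk hN4 h.hC h.hn h.hF).1 hg.1).1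
      c2 := fun g hg1 hg2 hg3 => by
        rw [EP_union] at hg3
        exact ⟨(mem_FB h.k4 h.hk hN4 h.hC h.hn h.hF).2 ⟨hg3, hg1⟩, hg2⟩
      c3 := fun g hg => ((mem_FB h.k4 h.hk hN4 h.hC h.hn h.hF).1 hg.1).2
      c4 := fun g hg => hg.2
      un := by
        obtain ⟨e, he, he', heu⟩ := h.du
        exact ⟨e, not_EP he he', heu⟩
      un' := by
        obtain ⟨e, he, he', heu⟩ := h.dv
        exact ⟨e, not_EP he he', heu⟩
      uy' := h.tv
      n1 := huv.1
      n2 := huv.2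
      ex := fun Q hQ hQ2 => exit_CC h.hu Q hQ (fun w hw => (hQ2 w hw).2)
        (fun w hw => aa_sec h.hk h.hi (hQ2 w hw).2 s)
      ex' := fun Q hQ hQ2 => h.exv Q hQ hQ2
      hcor := ?_
      bc := ?_
      bv := ?_
      bh := ?_ }
  · intro ζ a1 a2 w d1 d2
    have hfar := h.far
    obtain ⟨A, hA⟩ : ∃ A : ℤ, A = r * ζ.1 := ⟨_, rfl⟩
    obtain ⟨B, hB⟩ : ∃ B : ℤ, B = r * ζ.2 := ⟨_, rfl⟩
    rw [← hA] at a1 d1
    rw [← hB] at a2 d2
    rw [abs_le] at a1 a2
    rw [abs_lt] at d1 d2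
    push_cast at d1 d2
    have k1 : (vp w).1 = w.1 + w.2 := rfl
    have k2 : (vp w).2 = w.1 - w.2 := rfl
    refine h.aa (by rw [abs_le]; omega) (by rw [abs_le]; omega) ?_
    rcases hfar with hf | hf
    · left
      rw [k2]
      have k1 : (0 : ℤ) < ζ.1 - ζ.2 := by
        apply mlt (r := r)
        have : (r : ℤ) * (ζ.1 - ζ.2) = A - B := by rw [hA, hB]; ring
        rw [this]
        omega
      have k3 := mle (r := r) (show 1 ≤ ζ.1 - ζ.2 by omega)
      have k4 : (r : ℤ) * (ζ.1 - ζ.2) = A - B := by rw [hA, hB]; ring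
      rw [k4] at k3
      omega
    · right
      intro q
      rw [k1]
      have hf' := hf q
      obtain ⟨T, hT⟩ : ∃ T : ℤ, T = (n : ℤ) * q := ⟨_, rfl⟩
      have e0 : (2 * n * q : ℤ) = 2 * T := by rw [hT]; ring
      have hT' : T = r * (prd N k * q) := by rw [hT, h.hn]; push_cast; ring
      rw [← hT] at hf'
      rw [e0]
      obtain ⟨m, hm⟩ : ∃ m : ℤ, m = ζ.1 + ζ.2 - 2 * (prd N k * q) := ⟨_, rfl⟩
      have k4 : (r : ℤ) * m = A + B - 2 * T := by rw [hm, hA, hB, hT']; ring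
      simp only [le_abs] at hf'
      rcases hf' with hf' | hf'
      · have k1 : (0 : ℤ) < m := by
          apply mlt (r := r)
          rw [k4]
          omega
        have k3 := mle (r := r) (show 1 ≤ m by omega)
        rw [k4] at k3
        right
        omega
      · have k1 : m < 0 := by
          apply mlt (r := r)
          rw [k4]
          omega
        have k3 := mle (r := r) (show m ≤ -1 by omega)
        rw [k4] at k3
        left
        omega
  · intro ζ a1 a2 hcr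
    left
    rw [hCc]
    obtain ⟨A, hA⟩ : ∃ A : ℤ, A = r * ζ.1 := ⟨_, rfl⟩
    obtain ⟨B, hB⟩ : ∃ B : ℤ, B = r * ζ.2 := ⟨_, rfl⟩
    refine ⟨ζ, ?_, ?_, hcr⟩
    · rw [← hA] at a1
      rw [← hB] at a2
      rw [abs_le] at a1 a2 hext ⊢
      have hν : (r : ℤ) * (2 * (prd N k : ℕ)) = 2 * n := by rw [h.hn]; push_cast; ring
      constructor
      · have k3 : (-(2 * ((prd N k : ℕ) : ℤ))) < ζ.1 - ζ.2 := by
          apply mlt (r := r)
          have e1 : (r : ℤ) * (ζ.1 - ζ.2) = A - B := by rw [hA, hB]; ring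
          have e2 : (r : ℤ) * (-(2 * ((prd N k : ℕ) : ℤ))) = -(2 * n) := by rw [← hν]; ring
          rw [e1, e2]
          omega
        exact k3.le
      · have k3 : ζ.1 - ζ.2 < 2 * ((prd N k : ℕ) : ℤ) := by
          apply mlt (r := r)
          have e1 : (r : ℤ) * (ζ.1 - ζ.2) = A - B := by rw [hA, hB]; ring
          rw [e1, hν]
          omega
        exact k3.le
    · intro q
      have key : ∀ x ζ' : ℤ, |x - r * ζ'| ≤ 3 * ρ → (N : ℤ) * r ≤ |x - n * q| →
          (N : ℤ) ≤ |ζ' - q * (prd N k : ℕ)| := by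
        intro x ζ' h1 h2
        rw [abs_le] at h1
        have e0 : (n : ℤ) * q = r * (q * (prd N k : ℕ)) := by rw [h.hn]; push_cast; ring
        rw [e0] at h2
        rw [le_abs] at h2 ⊢
        obtain ⟨X, hX⟩ : ∃ X : ℤ, X = r * ζ' := ⟨_, rfl⟩
        obtain ⟨Y, hY⟩ : ∃ Y : ℤ, Y = r * (q * (prd N k : ℕ)) := ⟨_, rfl⟩
        rw [← hX] at h1
        rw [← hY] at h2
        rcases h2 with h2 | h2
        · left
          have k3 : (N : ℤ) < ζ' - q * (prd N k : ℕ) + 1 := by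
            apply mlt (r := r)
            have i1 : (r : ℤ) * (ζ' - q * (prd N k : ℕ) + 1) = X - Y + r := by rw [hX, hY]; ring
            have i2 : (r : ℤ) * N = N * r := by ring
            rw [i1, i2]
            omega
          omega
        · right
          have k3 : (N : ℤ) < -(ζ' - q * (prd N k : ℕ)) + 1 := by
            apply mlt (r := r)
            have i1 : (r : ℤ) * (-(ζ' - q * (prd N k : ℕ)) + 1) = Y - X + r := by
              rw [hX, hY]; ring
            have i2 : (r : ℤ) * N = N * r := by ring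
            rw [i1, i2]
            omega
          omega
      exact (hloc q).imp (key _ _ a1) (key _ _ a2)
  · intro d x0 j j' z hd a1 a2 a3 a4 hx0 hj hH
    right
    rw [hCc]
    refine ⟨d, x0, u.2, j, j', ?_, ?_, Or.inl ⟨hd, hx0, Or.inl hj⟩, hH⟩
    · rw [abs_le] at hext ⊢
      omega
    · intro q
      have e1 : q * (n : ℤ) = n * q := by ring
      rcases hloc q with h3 | h3
      · left
        have h4 := farx (N := N) (ν := prd N k) (s := q) hr1 h.hl h.h1 a1 a2 a3 a4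
          (by rw [← hnr, e1]; exact h3)
        rw [← hnr] at h4
        exact h4
      · right
        rw [e1]
        omega
  · intro d x0 j j' z hd a1 a2 a3 a4 hx0 hj hH
    right
    rw [hCc]
    refine ⟨d, u.1, x0, j, j', ?_, ?_, Or.inr ⟨hd, hx0, Or.inl hj⟩, hH⟩
    · rw [abs_le] at hext ⊢
      omega
    · intro q
      have e1 : q * (n : ℤ) = n * q := by ring
      rcases hloc q with h3 | h3
      · left
        rw [e1]
        omega
      · right
        have h4 := farx (N := N) (ν := prd N k) (s := q) hr1 h.hl h.h1 a1 a2 a3 a4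
          (by rw [← hnr, e1]; exact h3)
        rw [← hnr] at h4
        exact h4

theorem Par.ball (h : Par i N r k ρ l n M c F s u v) : PL.Ball (Sy n k) (AA n k) ρ l u := by
  have hb : ∀ w : Vtx, inR (u.1 - ρ - l) (u.1 + ρ + l) (u.2 - ρ - l) (u.2 + ρ + l) w →
      AA n k w := by
    intro w hw
    unfold inR at hw
    apply h.aw
    · rw [abs_le]; omega
    · rw [abs_le]; omega
  exact ⟨fun g hg _ => sy_of_aa (Or.inl rfl) (hb _ hg), hb⟩

theorem Par.main (h : Par i N r k ρ l n M c F s u v)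
    (hBad : ¬ Bad 0 N r ρ l (prd N k) n M F) :
    RY n k (per n (FB N r k c n M F)) (vp u) (vp v) := by
  have hAu : AA n k u := h.aw (by simp; omega) (by simp; omega)
  obtain ⟨a, b, -, hau, -, e, he, hev⟩ := exit_CC h.hu (fun w => w = u) rfl
    (fun w hw => by rw [hw]; exact hAu)
    (fun w hw => by rw [hw]; exact aa_sec h.hk h.hi hAu s)
  have hau' : a = u := hau
  subst hau'
  have he' : e ∈ EP r (Bxs N k ∪ CrrS N k c) := by
    rw [EP_union]
    exact ((mem_FB h.k4 h.hk (by have := h.hN; omega) h.hC h.hn h.hF).1 he.1).1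
  obtain ⟨z, hz, hza, -⟩ := EP_loc he' hev
  rcases PL.planar h.ctx hz hza h.ball with hbad | ⟨Q, -, -, hreach⟩
  · exact absurd hbad hBad
  · exact CC_reach (hreach.mono Set.inter_subset_left)

end

end TSEPB1

open TSEPB1 PerY in
/-- **separation in step B** -/
theorem t_SEPB1 (h4 : S_k4) (h5 : S_k5) (hfrb : S_FRB) : S_SEPB1 := by
  intro i N r k ρ l c hi hk hN hC hl h1 h2 h3 n M hn hM F hF hBad hBZ hX s u v hu du dv kv nuv
  have hr0 : 0 < r := by omega
  have hn0 : 0 < n := by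
    rw [hn]
    refine Nat.mul_pos ?_ hr0
    unfold prd
    omega
  have hfr := fun s' : ℤ => hfrb i N r k ρ c hi hk hN hC h3 (by omega) h2 n M hn hM F hF hBZ hX
    s s' (vp u) hu
  have hp : Par i N r k ρ l n M c F s u v :=
    { hi := hi
      hk := hk
      hN := hN
      hC := hC
      hl := hl
      h1 := h1
      h2 := h2
      h3 := h3
      hn := hn
      hF := hF
      k4 := h4
      k5 := h5
      hX := by
        intro y hyX hy
        have h := RY_tp hn0 (FB N r k c n M F) (-s) hy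
        rw [tp_scy, add_neg_cancel] at h
        exact hX _ (PerY.XE_tp h4 hk (by omega) hC hn (-s) hyX) h
      hfrb := hfr
      hu := hu
      du := du
      dv := dv
      kv := kv
      nuv := nuv }
  exact hp.main hBad

end Pool.Agent.W808.KY
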