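import Pool.Agent.W808.KY.Stm2
import Pool.Agent.W808.KZ.T_STA

/-!
# The dislocated plane with `2 k + 1` legs: re-randomising the tubes (step A)
-/

set_option autoImplicit false

namespace Pool.Agent.W808.KY
open H974 H906.Cyl
open H12S (Dir hbE segD rimE H4 Crs Nr sqE)
open Pool.Agent.H160R2.ML (nm)
open Pool.Agent.H160R2.MU (Cel csq cpos prd shf BxS Bxs EP inSq PC Bad Cc)
open Pool.Agent.W808.HU (PTr labC)
open Pool.Agent.W801.OU (zp nrm Dg LZ RZ Cor bxz Zn)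
open Pool.Agent.W808.KU (AdmS TubeS CrrS)
open Pool.Agent.W808.KZ (vp fp nrp BZ mrg)

namespace TSTA

section
variable {N r k n M : ℕ} {c : Fin k → Cel}

theorem FA_sub {F : Finset Edg} : FA N r k c n M F ⊆ CE n M := by
  classical
  unfold FA
  exact Finset.filter_subset _ _

theorem FB_sub {F : Finset Edg} : FB N r k c n M F ⊆ CE n M := by
  classical
  unfold FB
  exact Finset.filter_subset _ _

theorem FA_box (hr : 1 ≤ r) (hN : 1 ≤ N) (hn : n = prd N k * r) {F : Finset Edg}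
    (hF : F ⊆ CE n M) :
    ∀ e ∈ boxE (N * r / 2), red n e ∈ FA N r k c n M F ↔ red n e ∈ F := by
  classical
  intro e he
  have h : red n e ∈ EP r (Bxs N k) :=
    Pool.Agent.H160R2.MU.TSTA.red_box (k := k) hr hN hn he
  unfold FA
  rw [Finset.mem_filter]
  constructor
  · rintro ⟨_, h1 | h1⟩
    · exact h1.2
    · exact absurd h h1.1
  · intro h1
    exact ⟨hF h1, Or.inl ⟨h, h1⟩⟩

theorem FB_box (hr : 1 ≤ r) (hN : 1 ≤ N) (hn : n = prd N k * r) {F : Finset Edg}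
    (hF : F ⊆ CE n M) :
    ∀ e ∈ boxE (N * r / 2), red n e ∈ FB N r k c n M F ↔ red n e ∈ F := by
  classical
  intro e he
  have h : red n e ∈ EP r (Bxs N k) :=
    Pool.Agent.H160R2.MU.TSTA.red_box (k := k) hr hN hn he
  unfold FB
  rw [Finset.mem_filter]
  constructor
  · rintro ⟨_, h1⟩
    exact h1.2
  · intro h1
    exact ⟨hF h1, Or.inl h, h1⟩

end

/-- the arithmetic of the radii -/
theorem radii {M3 M4 r k : ℕ} (hM3 : 64 ≤ M3) (hM4 : 64 * M3 ≤ M4) (hr : M4 ≤ r)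
    (hr' : M3 * (4 * k + 16) ≤ r) :
    1 ≤ r / M4 ∧ 32 * (r / M4) ≤ r / M3 ∧ 64 * (r / M3) ≤ r ∧ 64 * 64 ≤ r ∧
      4 * k + 16 ≤ r / M3 := by
  obtain ⟨h1, h2, h3, h4⟩ := Pool.Agent.W808.KZ.TSTA.radii hM3 hM4 hr
  refine ⟨h1, h2, h3, h4, ?_⟩
  rw [Nat.le_div_iff_mul_le (by omega)]
  linarith [Nat.mul_comm M3 (4 * k + 16)]

/-- the bad part of both steps -/
theorem badp (hDEC : S_DEC) (hIND : S_IND) {a N r k n M ρ l : ℕ} (ha : a < 2) (hk : 2 ≤ k)
    (hN : k + 16 ≤ N) (hrk : 2 * k + 4 ≤ r)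
    (hl : 1 ≤ l) (hlρ : 32 * l ≤ ρ) (hρ : 64 * ρ ≤ r) (hn : n = prd N k * r)
    (hM : M = 4 * n) {δ : ℝ}
    (hB : PC n M (fun F => Bad a N r ρ l (prd N k) n M F ∨ BZ N r ρ n F) ≤ δ)
    (A : Finset Edg → Prop) (f : Finset Edg → Finset Edg)
    (hA : ∀ F : Finset Edg, F ⊆ CE n M → A F → Gy n k (per n (f F)))
    (hf : ∀ F : Finset Edg, F ⊆ CE n M → f F ⊆ CE n M)
    (hbox : ∀ F : Finset Edg, F ⊆ CE n M → ∀ e ∈ boxE (N * r / 2), red n e ∈ f F ↔ red n e ∈ F) :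
    PC n M (fun F => A F ∧ (Bad a N r ρ l (prd N k) n M F ∨ BZ N r ρ n F)) ≤
      δ * uY k (N * r / 2) := by
  have hok : H974.Ok (fun _ : Edg => (1 / 2 : ℝ)) := okq (by norm_num) (by norm_num)
  have hr : 4 ≤ r := by omega
  have hn20 : n = 4 * (N * r) + 16 * (k * r) := by rw [hn]; unfold prd; ring
  have hNr : 4 * (k + 16) ≤ N * r := by
    have := Nat.mul_le_mul hN hr
    linarith
  have h1 : PC n M (fun F => A F ∧ (Bad a N r ρ l (prd N k) n M F ∨ BZ N r ρ n F)) ≤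
      PC n M (fun F => SEy k (N * r / 2 : ℕ) (per n F) ∧
        (Bad a N r ρ l (prd N k) n M F ∨ BZ N r ρ n F)) := by
    refine Pr_mono hok ?_
    rintro F hF ⟨h1, h2⟩
    refine ⟨?_, h2⟩
    exact hDEC n M k (N * r / 2) (by omega) (by omega) (by omega) (by omega) (f F) F (hf F hF) hF
      (hbox F hF) (hA F hF h1)
  have h2 := hIND a N r k ρ l ha hk hN hrk hl hlρ hρ n M hn hM
  have h3 : 0 ≤ uY k (N * r / 2) := Pr_nonneg hok _ _
  calc _ ≤ _ := h1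
    _ ≤ _ := h2
    _ ≤ uY k (N * r / 2) * δ := mul_le_mul_of_nonneg_left hB h3
    _ = _ := mul_comm _ _

end TSTA

/-- **step A** -/
theorem t_STA : Pool.Agent.H160R2.MU.S_PRB → S_MA1 → S_EXA1 → Pool.Agent.W808.HU.S_TRP →
    S_BADZ → S_DEC → S_IND → S_STA := by
  intro hPRB hMA hEXA hTRP hBADZ hDEC hIND N k c hk hN hC δ hδ
  obtain ⟨M3, M4, hM3, hM4, hB⟩ := hBADZ N k hk hN δ hδ
  have hprd : prd N k = 4 * (N + 4 * k) := rfl
  obtain ⟨κ, hκ, r0, hT⟩ := hTRP (prd N k) M4 (by omega) (by omega)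
  refine ⟨1 / κ, by positivity, max r0 (max M4 (M3 * (4 * k + 16))), ?_⟩
  intro r hr n M hn hM
  have hr1 : r0 ≤ r := le_trans (le_max_left _ _) hr
  have hr2 : M4 ≤ r := le_trans (le_trans (le_max_left _ _) (le_max_right _ _)) hr
  have hr3 : M3 * (4 * k + 16) ≤ r := le_trans (le_trans (le_max_right _ _) (le_max_right _ _)) hr
  obtain ⟨hl, hlρ, hρ, hrb, hk4⟩ := TSTA.radii hM3 hM4 hr2 hr3
  have hrk : 2 * k + 4 ≤ r := by omega
  have htrap : κ ≤ PC n M (PTr 1 n M (r / M4)) := by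
    have h1 := hT 1 r (by norm_num) hr1
    rw [← hn, ← hM] at h1
    exact h1
  refine Pool.Agent.W808.KZ.TSTA.comb hPRB n M (ExA1 N r k c n M)
    (fun F => EZ N r k c n (per n (FA N r k c n M F)))
    (fun F => Bad 1 N r (r / M3) (r / M4) (prd N k) n M F ∨ BZ N r (r / M3) n F)
    (PTr 1 n M (r / M4))
    (fun F => EZ N r k c n (per n (FB N r k c n M F))) κ _ hκ ?_ ?_ ?_ htrap
  · exact TSTA.badp hDEC hIND (by norm_num) hk hN hrk hl hlρ hρ hn hM
      (hB 1 r (by norm_num) hr2 n M hn hM) _ (FA N r k c n M) (fun F _ h => h.1)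
      (fun F _ => TSTA.FA_sub) (fun F hF => TSTA.FA_box (by omega) (by omega) hn hF)
  · intro F G hF hG
    exact (hEXA N r k c hk hN hrk hC n M hn hM F G hF hG).1
  · intro F G hF hG h1 h2 h3
    exact hMA N r k (r / M3) (r / M4) c hk hN hC hl hlρ hρ (by omega) n M hn hM F G hF hG
      (fun h => h2 (Or.inl h)) h3 h1

end Pool.Agent.W808.KY
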