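import Pool.Agent.W808.KY.T_STA

/-!
# The dislocated plane with `2 k + 1` legs: re-randomising the outside (step B)
-/

set_option autoImplicit false

namespace Pool.Agent.W808.KY
open H974 H906.Cyl
open H12S (Dir hbE segD rimE H4 Crs Nr sqE)
open Pool.Agent.H160R2.ML (nm)
open Pool.Agent.H160R2.MU (Cel csq cpos prd shf BxS Bxs EP inSq PC Bad Cc)
open Pool.Agent.W808.HU (PTr labC)
open Pool.Agent.W801.OU (zp nrm Dg LZ RZ Cor bxz Zn)
open Pool.Agent.W808.KU (AdmS TubeS CrrS)
open Pool.Agent.W808.KZ (vp fp nrp BZ mrg)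

namespace TSTB

/-- union bound -/
theorem PC_exists_le {n M : ℕ} (J : Finset (Finset ℕ)) (A : Finset ℕ → Finset Edg → Prop) :
    PC n M (fun F => ∃ j ∈ J, A j F) ≤ ∑ j ∈ J, PC n M (A j) := by
  have hok : H974.Ok (fun _ : Edg => (1 / 2 : ℝ)) := okq (by norm_num) (by norm_num)
  induction J using Finset.induction_on with
  | empty =>
    have h0 : PC n M (fun F => ∃ j ∈ (∅ : Finset (Finset ℕ)), A j F) = 0 := by
      unfold PC Pr
      rw [Ex_congr (g := fun _ => 0) (fun F _ => ind_not_of (by simp)), Ex_const]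
    rw [h0]
    simp
  | insert a J ha ih =>
    rw [Finset.sum_insert ha]
    refine le_trans ?_ (add_le_add_right ih _)
    refine le_trans (Pr_mono hok ?_) (Pr_or_le hok _ _ _)
    rintro F _ ⟨j, hj, hA⟩
    rcases Finset.mem_insert.mp hj with h | h
    · left
      rw [← h]
      exact hA
    · right
      exact ⟨j, h, hA⟩

end TSTB

/-- **step B** -/
theorem t_STB : Pool.Agent.H160R2.MU.S_PRB → S_MB1 → S_EXB1 → Pool.Agent.W808.HU.S_TRP →
    S_BADZ → S_DEC → S_IND → S_STB := by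
  intro hPRB hMB hEXB hTRP hBADZ hDEC hIND N k c hk hN hC δ hδ
  have hok : H974.Ok (fun _ : Edg => (1 / 2 : ℝ)) := okq (by norm_num) (by norm_num)
  set J : Finset (Finset ℕ) := (Finset.range (2 * k + 1)).powerset with hJ
  have hJc : (0 : ℝ) < J.card := by
    have : 0 < J.card := Finset.card_pos.2 ⟨∅, Finset.empty_mem_powerset _⟩
    exact_mod_cast this
  obtain ⟨M3, M4, hM3, hM4, hB⟩ := hBADZ N k hk hN (δ / J.card) (div_pos hδ hJc)
  have hprd : prd N k = 4 * (N + 4 * k) := rfl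
  obtain ⟨κ, hκ, r0, hT⟩ := hTRP (prd N k) M4 (by omega) (by omega)
  refine ⟨J.card * (1 / κ), by positivity, max r0 (max M4 (M3 * (4 * k + 16))), ?_⟩
  intro r hr n M hn hM
  have hr1 : r0 ≤ r := le_trans (le_max_left _ _) hr
  have hr2 : M4 ≤ r := le_trans (le_trans (le_max_left _ _) (le_max_right _ _)) hr
  have hr3 : M3 * (4 * k + 16) ≤ r := le_trans (le_trans (le_max_right _ _) (le_max_right _ _)) hr
  obtain ⟨hl, hlρ, hρ, hrb, hk4⟩ := TSTA.radii hM3 hM4 hr2 hr3
  have hrk : 2 * k + 4 ≤ r := by omega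
  have htrap : κ ≤ PC n M (PTr 0 n M (r / M4)) := by
    have h1 := hT 0 r (by norm_num) hr1
    rw [← hn, ← hM] at h1
    exact h1
  have hS : ∀ S ∈ J, PC n M (fun F => EZS S N r k c n (per n (FB N r k c n M F))) ≤
      δ / J.card * uY k (N * r / 2) + 1 / κ * PC n M (fun F => Ony n k M (per n F)) := by
    intro S _
    refine Pool.Agent.W808.KZ.TSTA.comb hPRB n M (ExB1 S N r k (r / M3) c n M)
      (fun F => EZS S N r k c n (per n (FB N r k c n M F)))
      (fun F => Bad 0 N r (r / M3) (r / M4) (prd N k) n M F ∨ BZ N r (r / M3) n F)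
      (PTr 0 n M (r / M4))
      (fun F => Ony n k M (per n F)) κ _ hκ ?_ ?_ ?_ htrap
    · exact TSTA.badp hDEC hIND (by norm_num) hk hN hrk hl hlρ hρ hn hM
        (hB 0 r (by norm_num) hr2 n M hn hM) _ (FB N r k c n M) (fun F _ h => h.1)
        (fun F _ => TSTA.FB_sub) (fun F hF => TSTA.FB_box (by omega) (by omega) hn hF)
    · intro F G hF hG
      exact (hEXB S N r k (r / M3) c hk hN (by omega) hρ hC n M hn hM F G hF hG).1
    · intro F G hF hG h1 h2 h3
      exact hMB S N r k (r / M3) (r / M4) c hk hN hC hl hlρ hρ (by omega) n M hn hM F G hF hG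
        (fun h => h2 (Or.inl h)) (fun h => h2 (Or.inr h)) h3 h1
  have hle : PC n M (fun F => EZ N r k c n (per n (FB N r k c n M F))) ≤
      PC n M (fun F => ∃ S ∈ J, EZS S N r k c n (per n (FB N r k c n M F))) := by
    refine Pr_mono hok ?_
    rintro F hF ⟨h1, S, h2, h3⟩
    refine ⟨S, ?_, h1, h2, h3⟩
    rw [hJ, Finset.mem_powerset]
    intro i hi
    exact Finset.mem_range.2 (h2.2.1 i hi)
  refine hle.trans ((TSTB.PC_exists_le J _).trans ((Finset.sum_le_sum hS).trans ?_))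
  rw [Finset.sum_const, nsmul_eq_mul, mul_add, ← mul_assoc, ← mul_assoc,
    mul_div_cancel₀ _ hJc.ne']

end Pool.Agent.W808.KY
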