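import Pool.Agent.W808.KY.T_XCH

/-!
# The tips are connected through sides, away from the strip: `S_TCH`
-/

set_option autoImplicit false

namespace Pool.Agent.W808.KY
open H974 H906.Cyl
open H12S (Dir hbE segD rimE H4 Crs Nr sqE)
open Pool.Agent.H160R2.ML (nm)
open Pool.Agent.H160R2.MU (Cel csq cpos prd shf BxS Bxs EP inSq PC Bad Cc)
open Pool.Agent.W808.HU (PTr labC)
open Pool.Agent.W801.OU (zp nrm Dg LZ RZ Cor bxz Zn)
open Pool.Agent.W808.KU (AdmS TubeS CrrS S_k4 S_k5)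
open Pool.Agent.W808.KZ (vp fp nrp BZ mrg)
open Pool.Agent.W658.KZ (Exi)

namespace TTCH
open TXCH

section
variable {N r k ρ : ℕ} {c : Fin k → Cel} {n : ℕ} {φ : ℤ × ℤ → Prop}

/-- coordinates of the corners -/
theorem cor_pos {Z : Set ℤ} {κ : ℤ} {e : Edg} {x : ℤ × ℤ} (h : Cor Z κ e x) :
    e.1 + e.2.1 - 1 ≤ x.1 ∧ x.1 ≤ e.1 + e.2.1 + 1 ∧ dco e ≤ x.2 ∧ x.2 ≤ dco e + 1 := by
  have hn : ∀ d j t : ℤ, j - 1 ≤ (nrm Z d j t).1 ∧ (nrm Z d j t).1 ≤ j ∧ (nrm Z d j t).2 = t := by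
    intro d j t
    by_cases h' : d < 0 ∧ j ∈ Z
    · rw [nrm_zip h'.1 h'.2]
      refine ⟨le_refl _, ?_, rfl⟩
      show j - 1 ≤ j
      omega
    · unfold nrm
      rw [if_neg h']
      refine ⟨?_, le_refl _, rfl⟩
      show j - 1 ≤ j
      omega
  obtain ⟨-, y, h | h⟩ := h
  · cases h with
    | rise _ =>
      obtain ⟨h1, h2, h3⟩ := hn (dco e) (e.1 + e.2.1) (dco e)
      omega
    | fall _ =>
      obtain ⟨h1, h2, h3⟩ := hn (dco e) (e.1 + e.2.1) (dco e + 1)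
      omega
  · cases h with
    | rise _ =>
      obtain ⟨h1, h2, h3⟩ := hn (dco e) (e.1 + e.2.1 + 1) (dco e + 1)
      omega
    | fall _ =>
      obtain ⟨h1, h2, h3⟩ := hn (dco e) (e.1 + e.2.1 + 1) (dco e)
      omega

/-- the numbers of step B -/
structure GeT (N r k ρ n : ℕ) : Prop extends Geo N r k n where
  hk2 : 2 ≤ k
  hρ : 4 * k + 4 ≤ ρ
  hρ2 : 16 ≤ ρ
  hrρ : 64 * ρ ≤ r
  hA : (18 : ℤ) * r ≤ (N : ℤ) * r
  hn3 : (n : ℤ) ≥ 4 * ((N : ℤ) * r) + 32 * r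

theorem dco_bd (e : Edg) : e.1 - e.2.1 - 1 ≤ dco e ∧ dco e ≤ e.1 - e.2.1 := by
  obtain ⟨x, y, b⟩ := e
  cases b
  · rw [dco_false]; simp only; omega
  · rw [dco_true]; simp only; omega

theorem in_sq {z : ℤ × ℤ} {e : Edg} (h : e ∈ sqE r z) :
    r * z.1 ≤ e.1 ∧ e.1 ≤ r * z.1 + r ∧ r * z.2 ≤ e.2.1 ∧ e.2.1 ≤ r * z.2 + r := by
  obtain ⟨x, y, b⟩ := e
  unfold sqE at h
  cases b
  · rw [mem_RE_false] at h
    simp only
    refine ⟨h.1, h.2.1, h.2.2.1, by linarith [h.2.2.2]⟩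
  · rw [mem_RE_true] at h
    simp only
    refine ⟨h.1, by linarith [h.2.1], h.2.2.1, h.2.2.2⟩

theorem notYb1 (g : GeT N r k ρ n) (h5 : S_k5) (hN : k + 4 ≤ N) (hc : AdmS N k c) {e : Edg}
    {s : ℤ} (h1 : -2 ≤ e.1 + e.2.1 - 2 * (s * n)) (h2 : e.1 + e.2.1 - 2 * (s * n) ≤ k + 1)
    (h3 : dco e ≤ 0) : e ∉ Yb N r k ρ c n := by
  rintro ⟨hin, ⟨e', he1, he2, he3, he4⟩, hex⟩
  have gk := g.hk
  have gn := g.hn2
  have gr : (64 : ℤ) * ρ ≤ r := by exact_mod_cast g.hrρ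
  have gρ : (4 : ℤ) * k + 4 ≤ ρ := by exact_mod_cast g.hρ
  have gρ2 : (16 : ℤ) ≤ ρ := by exact_mod_cast g.hρ2
  have gA := g.hA
  have gn3 := g.hn3
  have hd := dco_bd e
  rcases hin with hin | hin
  · rw [EB, ← EB, mem_EB g.hN g.hr g.hn] at hin
    obtain ⟨m, hm⟩ := hin
    have hms : m = s := by
      by_contra hne
      have h4 : 2 * (s * n) - 2 * (m * n) ≥ 2 * (n : ℤ) ∨
          2 * (s * n) - 2 * (m * n) ≤ -(2 * (n : ℤ)) := by
        have hn0 := g.toGeo.n0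
        rcases lt_or_gt_of_ne hne with h | h
        · left; nlinarith
        · right; nlinarith
      unfold dia at hm
      generalize (N : ℤ) * r = A at *
      generalize s * (n : ℤ) = B at *
      generalize m * (n : ℤ) = C at *
      omega
    subst hms
    apply he1
    rw [mem_EB g.hN g.hr g.hn]
    refine ⟨m, ?_⟩
    have hd' := dco_bd e'
    have hx : ¬ (|e.1 + (N : ℤ) * r - n * m| ≤ 5 * ρ ∧ |e.2.1 - (N : ℤ) * r - n * m| ≤ 5 * ρ) :=
      fun h => hex ⟨m, h⟩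
    rw [mul_comm (n : ℤ) m] at hx
    rw [abs_le] at he3 he4
    rw [abs_le, abs_le] at hx
    unfold dia at hm ⊢
    generalize (N : ℤ) * r = A at *
    generalize m * (n : ℤ) = B at *
    omega
  · obtain ⟨z, hz, hez⟩ := hin
    obtain ⟨a1, a2, a3, a4⟩ := in_sq hez
    have h6 := h5 N k c g.hk2 hN hc z hz s
    simp only [shf] at h6
    have hr0 : (0 : ℤ) < r := by omega
    have hn' : (n : ℤ) = prd N k * r := by rw [g.hn]; push_cast; rfl
    have e1 : (r : ℤ) * z.1 = r * (z.1 - s * prd N k) + s * n := by rw [hn']; ring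
    have e2 : (r : ℤ) * z.2 = r * (z.2 - s * prd N k) + s * n := by rw [hn']; ring
    rw [e1] at a1 a2
    rw [e2] at a3 a4
    have e3 : (r : ℤ) * ((z.1 - s * prd N k) - (z.2 - s * prd N k)) =
      r * (z.1 - s * prd N k) - r * (z.2 - s * prd N k) := by ring
    have e4 : (r : ℤ) * ((z.1 - s * prd N k) + (z.2 - s * prd N k)) =
      r * (z.1 - s * prd N k) + r * (z.2 - s * prd N k) := by ring
    rcases h6 with h6 | h6 | h6
    · have h7 := mul_le_mul_of_nonneg_left h6 hr0.le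
      rw [e3, mul_comm (r : ℤ) (N : ℤ)] at h7
      generalize (N : ℤ) * r = A at *
      generalize s * (n : ℤ) = B at *
      generalize (r : ℤ) * (z.1 - s * prd N k) = u at *
      generalize (r : ℤ) * (z.2 - s * prd N k) = v at *
      omega
    · have h7 := mul_le_mul_of_nonneg_left h6 hr0.le
      rw [e4] at h7
      generalize (N : ℤ) * r = A at *
      generalize s * (n : ℤ) = B at *
      generalize (r : ℤ) * (z.1 - s * prd N k) = u at *
      generalize (r : ℤ) * (z.2 - s * prd N k) = v at *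
      omega
    · have h7 := mul_le_mul_of_nonneg_left h6 hr0.le
      rw [e4] at h7
      generalize (N : ℤ) * r = A at *
      generalize s * (n : ℤ) = B at *
      generalize (r : ℤ) * (z.1 - s * prd N k) = u at *
      generalize (r : ℤ) * (z.2 - s * prd N k) = v at *
      omega

theorem notYb2 (g : GeT N r k ρ n) (h4 : S_k4) (hN : k + 4 ≤ N) (hc : AdmS N k c) {e : Edg}
    (h3 : dco e ≤ -(2 * (n : ℤ))) : e ∉ Yb N r k ρ c n := by
  rintro ⟨hin, -, -⟩
  have gr : (64 : ℤ) * ρ ≤ r := by exact_mod_cast g.hrρ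
  have gρ2 : (16 : ℤ) ≤ ρ := by exact_mod_cast g.hρ2
  have gA := g.hA
  have gn := g.hn2
  have gn3 := g.hn3
  have hd := dco_bd e
  rcases hin with hin | hin
  · rw [EB, ← EB, mem_EB g.hN g.hr g.hn] at hin
    obtain ⟨m, hm⟩ := hin
    unfold dia at hm
    generalize (N : ℤ) * r = A at *
    generalize m * (n : ℤ) = C at *
    omega
  · obtain ⟨z, hz, hez⟩ := hin
    obtain ⟨a1, a2, a3, a4⟩ := in_sq hez
    have h6 := (h4 N k c g.hk2 hN hc _ rfl).2.2.2 z (Or.inr hz)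
    have hr0 : (0 : ℤ) < r := by omega
    have hn' : (n : ℤ) = prd N k * r := by rw [g.hn]; push_cast; rfl
    rw [abs_le] at h6
    have h7 := mul_le_mul_of_nonneg_left h6.1 hr0.le
    have e1 : (r : ℤ) * (-((prd N k : ℤ) + 4 * N)) = -(n : ℤ) - 4 * (N * r) := by rw [hn']; ring
    have e2 : (r : ℤ) * (z.1 - z.2) = r * z.1 - r * z.2 := by ring
    rw [e1, e2] at h7
    generalize (N : ℤ) * r = A at *
    generalize (r : ℤ) * z.1 = u at *
    generalize (r : ℤ) * z.2 = v at *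
    omega

/-- points which are not corners of squares of the strip -/
def Fr (N r k ρ : ℕ) (c : Fin k → Cel) (n : ℕ) (x : ℤ × ℤ) : Prop :=
  ∀ e ∈ Yb N r k ρ c n, ¬ Cor (Zn n) 0 e x ∧ ¬ Cor (Zn n) 1 e x

theorem fr1 (g : GeT N r k ρ n) (h5 : S_k5) (hN : k + 4 ≤ N) (hc : AdmS N k c) (s j t : ℤ)
    (h1 : -1 ≤ j) (h2 : j ≤ k) (h3 : t ≤ 0) : Fr N r k ρ c n (2 * (s * n) + j, t) := by
  intro e he
  have key : ∀ κ : ℤ, ¬ Cor (Zn n) κ e (2 * (s * n) + j, t) := by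
    intro κ hc'
    obtain ⟨a1, a2, a3, a4⟩ := cor_pos hc'
    simp only at a1 a2 a3 a4
    exact notYb1 g h5 hN hc (s := s) (by omega) (by omega) (by omega) he
  exact ⟨key 0, key 1⟩

theorem fr2 (g : GeT N r k ρ n) (h4 : S_k4) (hN : k + 4 ≤ N) (hc : AdmS N k c) (j t : ℤ)
    (h3 : t ≤ -(2 * (n : ℤ))) : Fr N r k ρ c n (j, t) := by
  intro e he
  have key : ∀ κ : ℤ, ¬ Cor (Zn n) κ e (j, t) := by
    intro κ hc'
    obtain ⟨a1, a2, a3, a4⟩ := cor_pos hc'
    simp only at a1 a2 a3 a4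
    exact notYb2 g h4 hN hc (by omega) he
  exact ⟨key 0, key 1⟩

/-! ## sides -/

theorem zn_mul (s : ℤ) : 2 * (s * (n : ℤ)) ∈ Zn n := by
  rw [zn_iff]
  exact ⟨s, by ring⟩

theorem emod_tip (s i : ℤ) (h0 : 0 ≤ i) (hi : i < 2 * n) :
    (2 * (s * (n : ℤ)) + i) % ((2 * n : ℕ) : ℤ) = i := by
  rw [show 2 * (s * (n : ℤ)) + i = i + ((2 * n : ℕ) : ℤ) * s by push_cast; ring,
    Int.add_mul_emod_self_left]
  exact Int.emod_eq_of_lt h0 (by push_cast; exact hi)

theorem hn_of {s d : ℤ} (h : d ≠ -1) : edz s d ∈ Hn n k ∧ edz s d ∉ En n := by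
  constructor
  · intro h'
    rw [edz_dco] at h'
    exact h h'.1
  · intro h'
    unfold En at h'
    rw [Set.mem_ofPred_eq, edz_dco] at h'
    exact h h'.1

theorem hn_tip {s i d : ℤ} (h0 : 0 < i) (hk : (k : ℤ) ≤ i) (hi : i < 2 * n) :
    edz (2 * (s * n) + i) d ∈ Hn n k ∧ edz (2 * (s * n) + i) d ∉ En n := by
  constructor
  · intro h'
    rw [edz_col, emod_tip s i h0.le hi] at h'
    omega
  · intro h'
    unfold En at h'
    rw [Set.mem_ofPred_eq, edz_col, emod_tip s i h0.le hi] at h'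
    omega

theorem sd_bot {s d : ℤ} (hz : edz s d ∉ zp (Zn n)) (h : edz s d ∈ Hn n k ∧ edz s d ∉ En n) :
    Sidy n k (nrm (Zn n) d s d) (nrm (Zn n) d (s + 1) d) := by
  have := Sidy.bot (edz s d) hz h.1 h.2
  rwa [edz_col, edz_dco] at this

theorem sd_top {s d : ℤ} (hz : edz s d ∉ zp (Zn n)) (h : edz s d ∈ Hn n k ∧ edz s d ∉ En n) :
    Sidy n k (nrm (Zn n) d s (d + 1)) (nrm (Zn n) d (s + 1) (d + 1)) := by
  have := Sidy.top (edz s d) hz h.1 h.2
  rwa [edz_col, edz_dco] at this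

theorem sd_lft {s d : ℤ} (hz : edz s d ∉ zp (Zn n)) (h : edz s d ∈ Hn n k ∧ edz s d ∉ En n) :
    Sidy n k (nrm (Zn n) d s d) (nrm (Zn n) d s (d + 1)) := by
  have := Sidy.lft (edz s d) hz h.1 h.2
  rwa [edz_col, edz_dco] at this

theorem sd_rgt {s d : ℤ} (hz : edz s d ∉ zp (Zn n)) (h : edz s d ∈ Hn n k ∧ edz s d ∉ En n) :
    Sidy n k (nrm (Zn n) d (s + 1) d) (nrm (Zn n) d (s + 1) (d + 1)) := by
  have := Sidy.rgt (edz s d) hz h.1 h.2
  rwa [edz_col, edz_dco] at this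

/-- the hypothesis on `φ` -/
def HyT (N r k ρ : ℕ) (c : Fin k → Cel) (n : ℕ) (φ : ℤ × ℤ → Prop) : Prop :=
  ∀ x y, Sidy n k x y → Fr N r k ρ c n x → Fr N r k ρ c n y → (φ x ↔ φ y)

theorem rowA (g : GeT N r k ρ n) (h5 : S_k5) (hN : k + 4 ≤ N) (hc : AdmS N k c)
    (H : HyT N r k ρ c n φ) (s : ℤ) (j : ℕ) (hj : j ≤ k + 1) :
    φ (2 * (s * n) + ((j : ℤ) - 1), 0) ↔ φ (2 * (s * n) - 1, 0) := by
  induction j with
  | zero => simp [sub_eq_add_neg]
  | succ j ih =>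
    rw [← ih (by omega)]
    have h1 : Sidy n k (2 * (s * n) + ((j : ℤ) - 1), 0) (2 * (s * n) + ((j : ℤ) - 1) + 1, 0) := by
      have := sd_bot (n := n) (k := k) (s := 2 * (s * n) + ((j : ℤ) - 1)) (d := 0) (by
        rw [zp_iff]; rintro ⟨h, _⟩; omega) (hn_of (by norm_num))
      rwa [nrm_pos le_rfl, nrm_pos le_rfl] at this
    have h2 := H _ _ h1 (fr1 g h5 hN hc s _ 0 (by omega) (by omega) le_rfl) (by
      rw [add_assoc]
      exact fr1 g h5 hN hc s _ 0 (by omega) (by omega) le_rfl)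
    rw [h2]
    push_cast
    rw [show (2 * (s * (n : ℤ)) + ((j : ℤ) - 1) + 1) = 2 * (s * n) + ((j : ℤ) + 1 - 1) by ring]

theorem rowB0 (g : GeT N r k ρ n) (h5 : S_k5) (hN : k + 4 ≤ N) (hc : AdmS N k c)
    (H : HyT N r k ρ c n φ) (s : ℤ) :
    φ (2 * (s * n) + k, -1) ↔ φ (2 * (s * n) - 1, 0) := by
  have hk2 : (2 : ℤ) ≤ k := by exact_mod_cast g.hk2
  have hn2 := g.hn2
  have hk := g.hk
  have hkn : (k : ℤ) + 1 < 2 * n := by
    generalize (N : ℤ) * r = A at *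
    omega
  have h1 : Sidy n k (2 * (s * n) + k, -1) (2 * (s * n) + k, 0) := by
    have h2 : 2 * (s * (n : ℤ)) + k ∉ Zn n := zn_add (zn_mul s) (by omega) (by omega)
    have := sd_lft (n := n) (k := k) (s := 2 * (s * n) + k) (d := -1) (by
      rw [zp_iff, add_assoc]
      exact fun h => zn_add (zn_mul s) (by omega) hkn h.2) (hn_tip (by omega) le_rfl (by omega))
    rwa [nrm_not h2, nrm_not h2] at this
  have h3 := H _ _ h1 (fr1 g h5 hN hc s _ _ (by omega) le_rfl (by norm_num))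
    (fr1 g h5 hN hc s _ _ (by omega) le_rfl le_rfl)
  have h4 := rowA g h5 hN hc H s (k + 1) le_rfl
  rw [h3, ← h4]
  push_cast
  rw [add_sub_cancel_right]

theorem rowB (g : GeT N r k ρ n) (h5 : S_k5) (hN : k + 4 ≤ N) (hc : AdmS N k c)
    (H : HyT N r k ρ c n φ) (s : ℤ) (j : ℕ) (hj : j + 1 ≤ k) :
    φ (2 * (s * n) + ((k : ℤ) - j), -1) ↔ φ (2 * (s * n) - 1, 0) := by
  have hn2 := g.hn2
  have hk := g.hk
  have hkn : (k : ℤ) + 1 < 2 * n := by
    generalize (N : ℤ) * r = A at *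
    omega
  induction j with
  | zero =>
    rw [← rowB0 g h5 hN hc H s]
    simp
  | succ j ih =>
    refine Iff.trans ?_ (ih (by omega))
    push_cast
    have h2 : 2 * (s * (n : ℤ)) + ((k : ℤ) - (j + 1)) ∉ Zn n :=
      zn_add (zn_mul s) (by omega) (by omega)
    have h2' : 2 * (s * (n : ℤ)) + ((k : ℤ) - (j + 1)) + 1 ∉ Zn n := by
      rw [add_assoc]
      exact zn_add (zn_mul s) (by omega) (by omega)
    have h1 : Sidy n k (2 * (s * n) + ((k : ℤ) - (j + 1)), -1)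
        (2 * (s * n) + ((k : ℤ) - (j + 1)) + 1, -1) := by
      have := sd_top (n := n) (k := k) (s := 2 * (s * n) + ((k : ℤ) - (j + 1))) (d := -2) (by
        rw [zp_iff]
        exact fun h => h2' h.2) (hn_of (by norm_num))
      rw [nrm_not h2, nrm_not h2'] at this
      exact this
    have h3 := H _ _ h1 (fr1 g h5 hN hc s _ _ (by omega) (by omega) (by norm_num)) (by
      rw [add_assoc]
      exact fr1 g h5 hN hc s _ _ (by omega) (by omega) (by norm_num))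
    rw [h3, show 2 * (s * (n : ℤ)) + ((k : ℤ) - (j + 1)) + 1 = 2 * (s * n) + ((k : ℤ) - j) by ring]

/-- down the zipper -/
theorem colA (g : GeT N r k ρ n) (h5 : S_k5) (hN : k + 4 ≤ N) (hc : AdmS N k c)
    (H : HyT N r k ρ c n φ) (s : ℤ) (j : ℕ) :
    φ (2 * (s * n) - 1, -(j : ℤ)) ↔ φ (2 * (s * n) - 1, 0) := by
  have hn2 := g.hn2
  have hk := g.hk
  have hkn : (k : ℤ) + 2 < n := by
    have hk2 : (2 : ℤ) ≤ k := by exact_mod_cast g.hk2
    generalize (N : ℤ) * r = A at *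
    omega
  induction j with
  | zero => simp
  | succ j ih =>
    refine Iff.trans ?_ ih
    push_cast
    have e0 : 2 * (s * (n : ℤ)) - 2 = 2 * ((s - 1) * n) + (2 * n - 2) := by ring
    have e1 : 2 * (s * (n : ℤ)) - 2 + 1 = 2 * (s * n) - 1 := by ring
    have h2 : 2 * (s * (n : ℤ)) - 2 + 1 ∉ Zn n := by
      intro h
      have := zn_add h (by norm_num : (0 : ℤ) < 1) (by omega)
      apply this
      rw [show 2 * (s * (n : ℤ)) - 2 + 1 + 1 = 2 * (s * n) by ring]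
      exact zn_mul s
    have h1 : Sidy n k (2 * (s * n) - 1, -((j : ℤ) + 1)) (2 * (s * n) - 1, -(j : ℤ)) := by
      have := sd_rgt (n := n) (k := k) (s := 2 * (s * n) - 2) (d := -((j : ℤ) + 1)) (by
        rw [zp_iff]
        exact fun h => h2 h.2) (by
        rw [e0]
        exact hn_tip (by omega) (by omega) (by omega))
      rw [nrm_not h2, nrm_not h2, e1, show -((j : ℤ) + 1) + 1 = -j by ring] at this
      exact this
    have e2 : 2 * (s * (n : ℤ)) - 1 = 2 * (s * n) + (-1) := by ring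
    refine H _ _ h1 ?_ ?_
    · rw [e2]
      exact fr1 g h5 hN hc s _ _ le_rfl (by omega) (by omega)
    · rw [e2]
      exact fr1 g h5 hN hc s _ _ le_rfl (by omega) (by omega)

open Classical in
/-- along a low row -/
theorem rowC (g : GeT N r k ρ n) (h4 : S_k4) (hN : k + 4 ≤ N) (hc : AdmS N k c)
    (H : HyT N r k ρ c n φ) {t : ℤ} (ht : t ≤ -(2 * (n : ℤ))) {a b : ℤ} (ha : a ∉ Zn n)
    (hb : b ∉ Zn n) : φ (a, t) ↔ φ (b, t) := by
  have hn0 := g.toGeo.n0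
  have ht0 : t < 0 := by omega
  have key := int_const (P := fun j => if j ∈ Zn n then φ (j - 1, t) else φ (j, t)) (fun j => by
    by_cases h1 : j ∈ Zn n
    · have h2 : j + 1 ∉ Zn n := zn_add h1 (by norm_num) (by omega)
      rw [if_pos h1, if_neg h2]
      have := sd_bot (n := n) (k := k) (s := j) (d := t) (by
        rw [zp_iff]
        exact fun h => h2 h.2) (hn_of (by omega))
      rw [nrm_zip ht0 h1, nrm_not h2] at this
      exact H _ _ this (fr2 g h4 hN hc _ _ ht) (fr2 g h4 hN hc _ _ ht)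
    · by_cases h2 : j + 1 ∈ Zn n
      · rw [if_neg h1, if_pos h2, add_sub_cancel_right]
      · rw [if_neg h1, if_neg h2]
        have := sd_bot (n := n) (k := k) (s := j) (d := t) (by
          rw [zp_iff]
          exact fun h => h2 h.2) (hn_of (by omega))
        rw [nrm_not h1, nrm_not h2] at this
        exact H _ _ this (fr2 g h4 hN hc _ _ ht) (fr2 g h4 hN hc _ _ ht)) a b
  rwa [if_neg ha, if_neg hb] at key

theorem tips (g : GeT N r k ρ n) (h4 : S_k4) (h5 : S_k5) (hN : k + 4 ≤ N) (hc : AdmS N k c)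
    (H : HyT N r k ρ c n φ) (s s' : ℤ) :
    φ (2 * (s * n) - 1, 0) ↔ φ (2 * (s' * n) - 1, 0) := by
  have hn0 := g.toGeo.n0
  have hz : ∀ s : ℤ, 2 * (s * (n : ℤ)) - 1 ∉ Zn n := by
    intro s h
    have := zn_add h (by norm_num : (0 : ℤ) < 1) (by omega)
    apply this
    rw [sub_add_cancel]
    exact zn_mul s
  rw [← colA g h5 hN hc H s (2 * n), ← colA g h5 hN hc H s' (2 * n)]
  exact rowC g h4 hN hc H (by push_cast; omega) (hz s) (hz s')

theorem sector (g : GeT N r k ρ n) (h5 : S_k5) (hN : k + 4 ≤ N) (hc : AdmS N k c)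
    (H : HyT N r k ρ c n φ) (s : ℤ) (i : ℕ) (hi : i < 2 * k + 1) :
    φ (scy n k s i) ↔ φ (2 * (s * n) - 1, 0) := by
  unfold scy
  by_cases h : i ≤ k + 1
  · rw [if_pos h, ← rowA g h5 hN hc H s i h,
      show 2 * (n : ℤ) * s + i - 1 = 2 * (s * n) + ((i : ℤ) - 1) by ring]
  · rw [if_neg h, ← rowB g h5 hN hc H s (i - (k + 2)) (by omega)]
    rw [show (2 * (n : ℤ) * s + (2 * k + 2 - i)) =
      2 * (s * n) + ((k : ℤ) - ((i - (k + 2) : ℕ) : ℤ)) by
        rw [Nat.cast_sub (by omega)]; push_cast; ring]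

end

end TTCH

open TTCH TXCH in
theorem t_TCH (h4 : S_k4) (h5 : S_k5) : S_TCH := by
  intro N r k ρ c hk hN hρ hρ2 hr hc n hn φ H s s' i i' hi hi'
  have g : GeT N r k ρ n := by
    have hr' : (64 : ℤ) * ρ ≤ r := by exact_mod_cast hr
    have hρ' : 4 * (k : ℤ) + 4 ≤ ρ := by exact_mod_cast hρ
    have hN' : (k : ℤ) + 16 ≤ N := by exact_mod_cast hN
    have hk' : (2 : ℤ) ≤ k := by exact_mod_cast hk
    have hn' : (n : ℤ) = 4 * (N * r + 4 * (k * r)) := by
      rw [hn]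
      unfold prd
      push_cast
      ring
    refine ⟨⟨by omega, by omega, by omega, hn, ?_, ?_⟩, hk, hρ, hρ2, hr, ?_, ?_⟩
    · nlinarith
    · rw [hn']
      nlinarith
    · nlinarith
    · rw [hn']
      nlinarith
  have hN4 : k + 4 ≤ N := by omega
  rw [sector g h5 hN4 hc H s i hi, sector g h5 hN4 hc H s' i' hi']
  exact tips g h4 h5 hN4 hc H s s'

end Pool.Agent.W808.KY
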