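import Pool.Agent.W808.KY.Stm2

/-!
# The squares outside the boxes are connected through their sides: `S_XCH`
-/

set_option autoImplicit false

namespace Pool.Agent.W808.KY
open H974 H906.Cyl
open H12S (Dir hbE segD rimE H4 Crs Nr sqE)
open Pool.Agent.H160R2.ML (nm)
open Pool.Agent.H160R2.MU (Cel csq cpos prd shf BxS Bxs EP inSq PC Bad Cc)
open Pool.Agent.W808.HU (PTr labC)
open Pool.Agent.W801.OU (zp nrm Dg LZ RZ Cor bxz Zn)
open Pool.Agent.W808.KU (AdmS TubeS CrrS)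
open Pool.Agent.W808.KZ (vp fp nrp BZ mrg)
open Pool.Agent.W658.KZ (Exi)

namespace TXCH

/-! ## geometry of the boxes -/

/-- the box of radius `R` in the coordinates `(s, d)` of the squares -/
def dia (R σ d : ℤ) : Prop :=
  σ + d ≤ 2 * R - 1 ∧ σ - d ≤ 2 * R ∧ d - σ ≤ 2 * R ∧ -σ - d ≤ 2 * R + 1

theorem cell (r N X : ℤ) (hr : 0 < r) (hN : 0 < N) (h1 : -(N * r) ≤ X) (h2 : X ≤ N * r) :
    ∃ q : ℤ, -N ≤ q ∧ q < N ∧ r * q ≤ X ∧ X ≤ r * q + r ∧ (X < N * r → X < r * q + r) := by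
  rcases lt_or_eq_of_le h2 with h | h
  · refine ⟨X / r, ?_, ?_, ?_, ?_, ?_⟩
    · exact (Int.le_ediv_iff_mul_le hr).2 (by linarith)
    · exact (Int.ediv_lt_iff_lt_mul hr).2 h
    · have := Int.mul_ediv_add_emod X r
      have := Int.emod_nonneg X hr.ne'
      linarith
    · have := Int.mul_ediv_add_emod X r
      have := Int.emod_lt_of_pos X hr
      linarith
    · intro _
      have := Int.mul_ediv_add_emod X r
      have := Int.emod_lt_of_pos X hr
      linarith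
  · refine ⟨N - 1, by linarith, by linarith, by nlinarith, by nlinarith, fun h' => by linarith⟩

theorem dco_true (x y : ℤ) : dco (x, y, true) = x - y := rfl
theorem dco_false (x y : ℤ) : dco (x, y, false) = x - y - 1 := rfl

theorem mem_EB {N r k n : ℕ} (hN : 1 ≤ N) (hr : 1 ≤ r) (hn : n = prd N k * r) (e : Edg) :
    e ∈ EB N r k ↔ ∃ m : ℤ, dia ((N : ℤ) * r) (e.1 + e.2.1 - 2 * (m * n)) (dco e) := by
  have hr0 : (0 : ℤ) < r := by exact_mod_cast hr
  have hN0 : (0 : ℤ) < N := by exact_mod_cast hN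
  have hn' : (n : ℤ) = prd N k * r := by rw [hn]; push_cast; rfl
  obtain ⟨x, y, b⟩ := e
  constructor
  · rintro ⟨z, ⟨m, hz1, hz2, hz3, hz4⟩, he⟩
    refine ⟨m, ?_⟩
    simp only [shf] at hz1 hz2 hz3 hz4
    have a1 := mul_le_mul_of_nonneg_left hz1 hr0.le
    have a2 := mul_le_mul_of_nonneg_left (Int.add_one_le_iff.2 hz2) hr0.le
    have a3 := mul_le_mul_of_nonneg_left hz3 hr0.le
    have a4 := mul_le_mul_of_nonneg_left (Int.add_one_le_iff.2 hz4) hr0.le
    have e1 : (r : ℤ) * z.1 = r * (z.1 - m * prd N k) + m * n := by rw [hn']; ring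
    have e2 : (r : ℤ) * z.2 = r * (z.2 - m * prd N k) + m * n := by rw [hn']; ring
    have b1 : (r : ℤ) * (z.1 - m * prd N k) ≥ -((N : ℤ) * r) := by linarith
    have b2 : (r : ℤ) * (z.1 - m * prd N k) + r ≤ (N : ℤ) * r := by linarith
    have b3 : (r : ℤ) * (z.2 - m * prd N k) ≥ -((N : ℤ) * r) := by linarith
    have b4 : (r : ℤ) * (z.2 - m * prd N k) + r ≤ (N : ℤ) * r := by linarith
    unfold sqE at he
    unfold dia
    cases b
    · rw [mem_RE_false, e1, e2] at he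
      rw [dco_false]
      simp only
      generalize (r : ℤ) * (z.1 - m * prd N k) = u at *
      generalize (r : ℤ) * (z.2 - m * prd N k) = v at *
      generalize (N : ℤ) * r = A at *
      generalize m * (n : ℤ) = B at *
      omega
    · rw [mem_RE_true, e1, e2] at he
      rw [dco_true]
      simp only
      generalize (r : ℤ) * (z.1 - m * prd N k) = u at *
      generalize (r : ℤ) * (z.2 - m * prd N k) = v at *
      generalize (N : ℤ) * r = A at *
      generalize m * (n : ℤ) = B at *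
      omega
  · rintro ⟨m, hm⟩
    unfold dia at hm
    have hb : -((N : ℤ) * r) ≤ x - m * n ∧ x - m * n ≤ (N : ℤ) * r ∧ -((N : ℤ) * r) ≤ y - m * n ∧
        y - m * n ≤ (N : ℤ) * r ∧ (b = true → x - m * n < (N : ℤ) * r) ∧
        (b = false → y - m * n < (N : ℤ) * r) := by
      generalize (N : ℤ) * r = A at *
      generalize m * (n : ℤ) = B at *
      cases b
      · rw [dco_false] at hm
        simp only at hm
        refine ⟨by omega, by omega, by omega, by omega, by simp, fun _ => by omega⟩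
      · rw [dco_true] at hm
        simp only at hm
        refine ⟨by omega, by omega, by omega, by omega, fun _ => by omega, by simp⟩
    obtain ⟨h1, h2, h3, h4, h5, h6⟩ := hb
    obtain ⟨q1, a1, a2, a3, a4, a5⟩ := cell r N (x - m * n) hr0 hN0 h1 h2
    obtain ⟨q2, b1, b2, b3, b4, b5⟩ := cell r N (y - m * n) hr0 hN0 h3 h4
    refine ⟨(q1 + m * prd N k, q2 + m * prd N k), ⟨m, ?_⟩, ?_⟩
    · refine ⟨?_, ?_, ?_, ?_⟩ <;> simp only [shf] <;> linarith
    · unfold sqE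
      have e1 : (r : ℤ) * (q1 + m * prd N k) = r * q1 + m * n := by rw [hn']; ring
      have e2 : (r : ℤ) * (q2 + m * prd N k) = r * q2 + m * n := by rw [hn']; ring
      cases b
      · rw [mem_RE_false]
        simp only [e1, e2]
        have := b5 (h6 rfl)
        refine ⟨by linarith, by linarith, by linarith, by linarith⟩
      · rw [mem_RE_true]
        simp only [e1, e2]
        have := a5 (h5 rfl)
        refine ⟨by linarith, by linarith, by linarith, by linarith⟩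

/-! ## the squares in the coordinates `(s, d)` -/

theorem edz_col (s d : ℤ) : (edz s d).1 + (edz s d).2.1 = s := by
  unfold edz
  split_ifs <;> simp only <;> omega

theorem edz_dco (s d : ℤ) : dco (edz s d) = d := by
  unfold edz
  by_cases h : (s + d) % 2 = 0
  · rw [if_pos h, dco_true]; omega
  · rw [if_neg h, dco_false]; omega

theorem edz_eq (e : Edg) : edz (e.1 + e.2.1) (dco e) = e := by
  obtain ⟨x, y, b⟩ := e
  cases b
  · rw [dco_false]
    simp only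
    unfold edz
    rw [if_neg (by omega)]
    simp only [Prod.mk.injEq, and_true]
    omega
  · rw [dco_true]
    simp only
    unfold edz
    rw [if_pos (by omega)]
    simp only [Prod.mk.injEq, and_true]
    omega

/-! ## good corners -/

theorem cor_top {Z : Set ℤ} {κ : ℤ} (hκ : κ = 0 ∨ κ = 1) {e : Edg} (he : e ∉ zp Z) :
    Cor Z κ e (nrm Z (dco e) (e.1 + e.2.1) (dco e + 1)) ∨
      Cor Z κ e (nrm Z (dco e) (e.1 + e.2.1 + 1) (dco e + 1)) := by
  by_cases h : (e.1 + e.2.1 + dco e) % 2 = κ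
  · exact Or.inr ⟨he, _, Or.inr (Dg.rise h)⟩
  · exact Or.inl ⟨he, _, Or.inl (Dg.fall (by omega))⟩

theorem cor_bot {Z : Set ℤ} {κ : ℤ} (hκ : κ = 0 ∨ κ = 1) {e : Edg} (he : e ∉ zp Z) :
    Cor Z κ e (nrm Z (dco e) (e.1 + e.2.1) (dco e)) ∨
      Cor Z κ e (nrm Z (dco e) (e.1 + e.2.1 + 1) (dco e)) := by
  by_cases h : (e.1 + e.2.1 + dco e) % 2 = κ
  · exact Or.inl ⟨he, _, Or.inl (Dg.rise h)⟩
  · exact Or.inr ⟨he, _, Or.inr (Dg.fall (by omega))⟩

theorem cor_lft {Z : Set ℤ} {κ : ℤ} (hκ : κ = 0 ∨ κ = 1) {e : Edg} (he : e ∉ zp Z) :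
    Cor Z κ e (nrm Z (dco e) (e.1 + e.2.1) (dco e)) ∨
      Cor Z κ e (nrm Z (dco e) (e.1 + e.2.1) (dco e + 1)) := by
  by_cases h : (e.1 + e.2.1 + dco e) % 2 = κ
  · exact Or.inl ⟨he, _, Or.inl (Dg.rise h)⟩
  · exact Or.inr ⟨he, _, Or.inl (Dg.fall (by omega))⟩

theorem cor_rgt {Z : Set ℤ} {κ : ℤ} (hκ : κ = 0 ∨ κ = 1) {e : Edg} (he : e ∉ zp Z) :
    Cor Z κ e (nrm Z (dco e) (e.1 + e.2.1 + 1) (dco e)) ∨
      Cor Z κ e (nrm Z (dco e) (e.1 + e.2.1 + 1) (dco e + 1)) := by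
  by_cases h : (e.1 + e.2.1 + dco e) % 2 = κ
  · exact Or.inr ⟨he, _, Or.inr (Dg.rise h)⟩
  · exact Or.inl ⟨he, _, Or.inr (Dg.fall (by omega))⟩

/-- the two ends of a diagonal -/
theorem cor_dg {Z : Set ℤ} {κ : ℤ} {e : Edg} {x y : ℤ × ℤ} (hx : Cor Z κ e x) (hy : Cor Z κ e y) :
    x = y ∨ Dg Z κ e x y ∨ Dg Z κ e y x := by
  obtain ⟨_, a, ha⟩ := hx
  obtain ⟨_, b, hb⟩ := hy
  by_cases h : (e.1 + e.2.1 + dco e) % 2 = κ
  · have key : ∀ u v, Dg Z κ e u v → u = nrm Z (dco e) (e.1 + e.2.1) (dco e) ∧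
        v = nrm Z (dco e) (e.1 + e.2.1 + 1) (dco e + 1) := by
      intro u v huv
      cases huv with
      | rise _ => exact ⟨rfl, rfl⟩
      | fall h' => omega
    have hd : Dg Z κ e (nrm Z (dco e) (e.1 + e.2.1) (dco e))
      (nrm Z (dco e) (e.1 + e.2.1 + 1) (dco e + 1)) := Dg.rise h
    rcases ha with ha | ha <;> rcases hb with hb | hb
    · left; rw [(key _ _ ha).1, (key _ _ hb).1]
    · right; left; rw [(key _ _ ha).1, (key _ _ hb).2]; exact hd
    · right; right; rw [(key _ _ ha).2, (key _ _ hb).1]; exact hd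
    · left; rw [(key _ _ ha).2, (key _ _ hb).2]
  · have key : ∀ u v, Dg Z κ e u v → u = nrm Z (dco e) (e.1 + e.2.1) (dco e + 1) ∧
        v = nrm Z (dco e) (e.1 + e.2.1 + 1) (dco e) ∧ (e.1 + e.2.1 + dco e) % 2 = 1 - κ := by
      intro u v huv
      cases huv with
      | rise h' => exact absurd h' h
      | fall h' => exact ⟨rfl, rfl, h'⟩
    have hκ : (e.1 + e.2.1 + dco e) % 2 = 1 - κ := by
      rcases ha with ha | ha
      · exact (key _ _ ha).2.2
      · exact (key _ _ ha).2.2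
    have hd : Dg Z κ e (nrm Z (dco e) (e.1 + e.2.1) (dco e + 1))
      (nrm Z (dco e) (e.1 + e.2.1 + 1) (dco e)) := Dg.fall hκ
    rcases ha with ha | ha <;> rcases hb with hb | hb
    · left; rw [(key _ _ ha).1, (key _ _ hb).1]
    · right; left; rw [(key _ _ ha).1, (key _ _ hb).2.1]; exact hd
    · right; right; rw [(key _ _ ha).2.1, (key _ _ hb).1]; exact hd
    · left; rw [(key _ _ ha).2.1, (key _ _ hb).2.1]

/-- good corners: class `1` in the closed region, class `0` in the tubes -/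
def Gd (N r k : ℕ) (c : Fin k → Cel) (n : ℕ) (e : Edg) (x : ℤ × ℤ) : Prop :=
  e ∉ EB N r k ∧ ((e ∉ ET N r k c ∧ Cor (Zn n) 1 e x) ∨ (e ∈ ET N r k c ∧ Cor (Zn n) 0 e x))

section
variable {N r k : ℕ} {c : Fin k → Cel} {n : ℕ} {φ : ℤ × ℤ → Prop}

theorem gd_mem {e : Edg} {x : ℤ × ℤ} (h : Gd N r k c n e x) : XE N r k c n x ∨ XT N r k c n x := by
  obtain ⟨h0, h1 | h1⟩ := h
  · exact Or.inl ⟨e, h0, h1.1, h1.2⟩
  · exact Or.inr ⟨e, h0, h1.1, h1.2⟩

theorem gd_side {e : Edg} (he : e ∉ EB N r k) {p q : ℤ × ℤ}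
    (h : ∀ κ : ℤ, (κ = 0 ∨ κ = 1) → Cor (Zn n) κ e p ∨ Cor (Zn n) κ e q) :
    Gd N r k c n e p ∨ Gd N r k c n e q := by
  by_cases ht : e ∈ ET N r k c
  · rcases h 0 (Or.inl rfl) with h1 | h1
    · exact Or.inl ⟨he, Or.inr ⟨ht, h1⟩⟩
    · exact Or.inr ⟨he, Or.inr ⟨ht, h1⟩⟩
  · rcases h 1 (Or.inr rfl) with h1 | h1
    · exact Or.inl ⟨he, Or.inl ⟨ht, h1⟩⟩
    · exact Or.inr ⟨he, Or.inl ⟨ht, h1⟩⟩

/-- the hypotheses on `φ` -/
structure Hy (N r k : ℕ) (c : Fin k → Cel) (n : ℕ) (φ : ℤ × ℤ → Prop) : Prop where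
  h1 : ∀ x y, RZ (Zn n) {e | e ∉ EB N r k ∧ e ∉ ET N r k c} ∅ x y → (φ x ↔ φ y)
  h2 : ∀ x y, RZ (Zn n) {e | e ∉ EB N r k ∧ e ∈ ET N r k c} Set.univ x y → (φ x ↔ φ y)
  h3 : ∀ x y, (XE N r k c n x ∨ XT N r k c n x) → (XE N r k c n y ∨ XT N r k c n y) →
    Sidy n k x y → (φ x ↔ φ y)

theorem gd_eq (H : Hy N r k c n φ) {e : Edg} {x y : ℤ × ℤ} (hx : Gd N r k c n e x)
    (hy : Gd N r k c n e y) : φ x ↔ φ y := by
  obtain ⟨h0, h1 | h1⟩ := hx
  · obtain ⟨_, h2 | h2⟩ := hy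
    · rcases cor_dg h1.2 h2.2 with h | h | h
      · rw [h]
      · exact H.h1 _ _ (Relation.EqvGen.rel _ _ ⟨e, ⟨h0, h1.1⟩, h1.2.1, Or.inr ⟨by simp, h⟩⟩)
      · exact (H.h1 _ _ (Relation.EqvGen.rel _ _
          ⟨e, ⟨h0, h1.1⟩, h1.2.1, Or.inr ⟨by simp, h⟩⟩)).symm
    · exact absurd h2.1 h1.1
  · obtain ⟨_, h2 | h2⟩ := hy
    · exact absurd h1.1 h2.1
    · rcases cor_dg h1.2 h2.2 with h | h | h
      · rw [h]
      · exact H.h2 _ _ (Relation.EqvGen.rel _ _ ⟨e, ⟨h0, h1.1⟩, h1.2.1, Or.inl ⟨trivial, h⟩⟩)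
      · exact (H.h2 _ _ (Relation.EqvGen.rel _ _
          ⟨e, ⟨h0, h1.1⟩, h1.2.1, Or.inl ⟨trivial, h⟩⟩)).symm

/-- the value of a square -/
def V (N r k : ℕ) (c : Fin k → Cel) (n : ℕ) (φ : ℤ × ℤ → Prop) (e : Edg) : Prop :=
  ∃ x, Gd N r k c n e x ∧ φ x

theorem V_iff (H : Hy N r k c n φ) {e : Edg} {x : ℤ × ℤ} (hx : Gd N r k c n e x) :
    V N r k c n φ e ↔ φ x := by
  constructor
  · rintro ⟨y, hy, hφ⟩
    exact (gd_eq H hx hy).2 hφ
  · intro h
    exact ⟨x, hx, h⟩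

/-- squares with a common side -/
theorem V_side (H : Hy N r k c n φ) {e e' : Edg} {p q : ℤ × ℤ}
    (he : Gd N r k c n e p ∨ Gd N r k c n e q) (he' : Gd N r k c n e' p ∨ Gd N r k c n e' q)
    (hs : Sidy n k p q) : V N r k c n φ e ↔ V N r k c n φ e' := by
  rcases he with h | h <;> rcases he' with h' | h'
  · rw [V_iff H h, V_iff H h']
  · rw [V_iff H h, V_iff H h']
    exact H.h3 _ _ (gd_mem h) (gd_mem h') hs
  · rw [V_iff H h, V_iff H h']
    exact (H.h3 _ _ (gd_mem h') (gd_mem h) hs).symm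
  · rw [V_iff H h, V_iff H h']

end

/-! ## zippers -/

theorem zn_iff {n : ℕ} {j : ℤ} : j ∈ Zn n ↔ (2 * (n : ℤ)) ∣ j := by
  unfold Zn
  rw [Set.mem_ofPred_eq]
  push_cast
  exact (Int.dvd_iff_emod_eq_zero).symm

theorem zn_add {n : ℕ} {j i : ℤ} (hj : j ∈ Zn n) (h0 : 0 < i) (hi : i < 2 * n) : j + i ∉ Zn n := by
  rw [zn_iff] at hj ⊢
  intro h
  have h1 : (2 * (n : ℤ)) ∣ i := by
    have := dvd_sub h hj
    rwa [show j + i - j = i by ring] at this
  have := Int.le_of_dvd h0 h1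
  omega

theorem zn_self {n : ℕ} {i : ℤ} (h0 : 0 < i) (hi : i < 2 * n) : i ∉ Zn n := by
  have h := zn_add (n := n) (j := 0) (i := i) (by rw [zn_iff]; exact dvd_zero _) h0 hi
  rwa [zero_add] at h

theorem zp_iff {Z : Set ℤ} (s d : ℤ) : edz s d ∈ zp Z ↔ d < 0 ∧ s + 1 ∈ Z := by
  unfold zp
  rw [Set.mem_ofPred_eq, edz_col, edz_dco]

theorem nrm_pos {Z : Set ℤ} {d : ℤ} (hd : 0 ≤ d) (j t : ℤ) : nrm Z d j t = (j, t) := by
  unfold nrm
  rw [if_neg (by omega)]

theorem nrm_not {Z : Set ℤ} {d j : ℤ} (hj : j ∉ Z) (t : ℤ) : nrm Z d j t = (j, t) := by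
  unfold nrm
  rw [if_neg (fun h => hj h.2)]

theorem nrm_zip {Z : Set ℤ} {d j : ℤ} (hd : d < 0) (hj : j ∈ Z) (t : ℤ) :
    nrm Z d j t = (j - 1, t) := by
  unfold nrm
  rw [if_pos ⟨hd, hj⟩]

/-- the numbers -/
structure Geo (N r k n : ℕ) : Prop where
  hN : 1 ≤ N
  hr : 1 ≤ r
  hk1 : 1 ≤ k
  hn : n = prd N k * r
  hk : (k : ℤ) + 1 ≤ (N : ℤ) * r
  hn2 : 2 * ((N : ℤ) * r) + 2 ≤ n

section
variable {N r k : ℕ} {c : Fin k → Cel} {n : ℕ} {φ : ℤ × ℤ → Prop}

theorem Geo.n0 (g : Geo N r k n) : (2 : ℤ) < n := by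
  have h1 := g.hk
  have h2 := g.hn2
  generalize (N : ℤ) * r = A at *
  omega

theorem Geo.mem (g : Geo N r k n) (s d : ℤ) : edz s d ∈ EB N r k ↔
    ∃ m : ℤ, dia ((N : ℤ) * r) (s - 2 * (m * n)) d := by
  rw [mem_EB g.hN g.hr g.hn, edz_col, edz_dco]

theorem Geo.up (g : Geo N r k n) {s d : ℤ} (h : edz s d ∉ EB N r k) (hd : 0 ≤ d) :
    edz s (d + 1) ∉ EB N r k := by
  rw [g.mem] at h ⊢
  rintro ⟨m, hm⟩
  refine h ⟨m, ?_⟩
  unfold dia at *
  generalize (N : ℤ) * r = A at *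
  generalize m * (n : ℤ) = B at *
  omega

theorem Geo.down (g : Geo N r k n) {s d : ℤ} (h : edz s d ∉ EB N r k) (hd : d < 0) :
    edz s (d - 1) ∉ EB N r k := by
  rw [g.mem] at h ⊢
  rintro ⟨m, hm⟩
  refine h ⟨m, ?_⟩
  unfold dia at *
  generalize (N : ℤ) * r = A at *
  generalize m * (n : ℤ) = B at *
  omega

theorem Geo.top (g : Geo N r k n) {s d : ℤ} (hd : 2 * ((N : ℤ) * r) ≤ d) :
    edz s d ∉ EB N r k := by
  rw [g.mem]
  rintro ⟨m, hm⟩
  unfold dia at *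
  generalize (N : ℤ) * r = A at *
  generalize m * (n : ℤ) = B at *
  omega

theorem Geo.bot (g : Geo N r k n) {s d : ℤ} (hd : d ≤ -1 - 2 * ((N : ℤ) * r)) :
    edz s d ∉ EB N r k := by
  rw [g.mem]
  rintro ⟨m, hm⟩
  unfold dia at *
  generalize (N : ℤ) * r = A at *
  generalize m * (n : ℤ) = B at *
  omega

theorem Geo.col (g : Geo N r k n) (d : ℤ) : edz n d ∉ EB N r k := by
  rw [g.mem]
  rintro ⟨m, hm⟩
  have h2 := g.hn2
  have h3 : (n : ℤ) ≤ n - 2 * (m * n) ∨ n - 2 * (m * n) ≤ -(n : ℤ) := by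
    rcases le_or_gt m 0 with h | h
    · left
      nlinarith
    · right
      nlinarith
  unfold dia at *
  generalize (N : ℤ) * r = A at *
  generalize m * (n : ℤ) = B at *
  omega

theorem Geo.hole (g : Geo N r k n) {e : Edg} (h : e ∉ EB N r k) : e ∈ Hn n k ∧ e ∉ En n := by
  have h2 := g.hn2
  have h3 := g.hk
  have key : ¬ (dco e = -1 ∧ (e.1 + e.2.1) % (2 * n : ℕ) < k) := by
    rintro ⟨h4, h5⟩
    apply h
    rw [mem_EB g.hN g.hr g.hn]
    refine ⟨(e.1 + e.2.1) / (2 * n : ℕ), ?_⟩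
    have h6 := Int.mul_ediv_add_emod (e.1 + e.2.1) (2 * n : ℕ)
    have h7 := Int.emod_nonneg (e.1 + e.2.1) (show ((2 * n : ℕ) : ℤ) ≠ 0 by
      have := g.n0; push_cast; omega)
    have h8 : ((2 * n : ℕ) : ℤ) * ((e.1 + e.2.1) / (2 * n : ℕ)) =
        2 * ((e.1 + e.2.1) / (2 * n : ℕ) * n) := by push_cast; ring
    rw [h8] at h6
    generalize (e.1 + e.2.1) % ((2 * n : ℕ) : ℤ) = R at *
    generalize (e.1 + e.2.1) / ((2 * n : ℕ) : ℤ) * (n : ℤ) = B at *
    rw [h4]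
    unfold dia
    generalize (N : ℤ) * r = A at *
    omega
  constructor
  · intro h4
    exact key ⟨h4.1, h4.2.2⟩
  · intro h4
    refine key ⟨h4.1, ?_⟩
    rw [h4.2]
    exact_mod_cast g.hk1

/-! ## neighbours -/

theorem side_rgt (g : Geo N r k n) {e : Edg} (hz : e ∉ zp (Zn n)) (he : e ∉ EB N r k) :
    Sidy n k (nrm (Zn n) (dco e) (e.1 + e.2.1 + 1) (dco e))
      (nrm (Zn n) (dco e) (e.1 + e.2.1 + 1) (dco e + 1)) :=
  Sidy.rgt e hz (g.hole he).1 (g.hole he).2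

theorem side_top (g : Geo N r k n) {e : Edg} (hz : e ∉ zp (Zn n)) (he : e ∉ EB N r k) :
    Sidy n k (nrm (Zn n) (dco e) (e.1 + e.2.1) (dco e + 1))
        (nrm (Zn n) (dco e) (e.1 + e.2.1 + 1) (dco e + 1)) :=
  Sidy.top e hz (g.hole he).1 (g.hole he).2

theorem VH (g : Geo N r k n) (H : Hy N r k c n φ) {s d : ℤ} (z1 : edz s d ∉ zp (Zn n))
    (z2 : edz (s + 1) d ∉ zp (Zn n)) (b1 : edz s d ∉ EB N r k) (b2 : edz (s + 1) d ∉ EB N r k) :
    V N r k c n φ (edz s d) ↔ V N r k c n φ (edz (s + 1) d) := by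
  have h1 := gd_side (c := c) (n := n) b1 (fun κ hκ => cor_rgt (κ := κ) hκ z1)
  have h2 := gd_side (c := c) (n := n) b2 (fun κ hκ => cor_lft (κ := κ) hκ z2)
  have h3 := side_rgt g z1 b1
  rw [edz_col, edz_dco] at h1 h2 h3
  exact V_side H h1 h2 h3

theorem VZ (g : Geo N r k n) (H : Hy N r k c n φ) {s d : ℤ} (hd : d < 0) (hs : s + 1 ∈ Zn n)
    (b1 : edz (s - 1) d ∉ EB N r k) (b2 : edz (s + 1) d ∉ EB N r k) :
    V N r k c n φ (edz (s - 1) d) ↔ V N r k c n φ (edz (s + 1) d) := by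
  have hn0 := g.n0
  have hs0 : s ∉ Zn n := by
    intro h
    exact zn_add h (by norm_num : (0 : ℤ) < 1) (by omega) hs
  have hs2 : s + 1 + 1 ∉ Zn n := zn_add hs (by norm_num) (by omega)
  have z1 : edz (s - 1) d ∉ zp (Zn n) := by
    rw [zp_iff]
    rintro ⟨_, h⟩
    rw [sub_add_cancel] at h
    exact hs0 h
  have z2 : edz (s + 1) d ∉ zp (Zn n) := by
    rw [zp_iff]
    rintro ⟨_, h⟩
    exact hs2 h
  have h1 := gd_side (c := c) (n := n) b1 (fun κ hκ => cor_rgt (κ := κ) hκ z1)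
  have h2 := gd_side (c := c) (n := n) b2 (fun κ hκ => cor_lft (κ := κ) hκ z2)
  have h3 := side_rgt g z1 b1
  rw [edz_col, edz_dco] at h1 h2 h3
  rw [sub_add_cancel, nrm_not hs0, nrm_not hs0] at h1 h3
  rw [nrm_zip hd hs, nrm_zip hd hs, add_sub_cancel_right] at h2
  exact V_side H h1 h2 h3

theorem VV (g : Geo N r k n) (H : Hy N r k c n φ) {s d : ℤ} (z1 : edz s d ∉ zp (Zn n))
    (z2 : edz s (d + 1) ∉ zp (Zn n)) (b1 : edz s d ∉ EB N r k) (b2 : edz s (d + 1) ∉ EB N r k) :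
    V N r k c n φ (edz s d) ↔ V N r k c n φ (edz s (d + 1)) := by
  have h1 := gd_side (c := c) (n := n) b1 (fun κ hκ => cor_top (κ := κ) hκ z1)
  have h2 := gd_side (c := c) (n := n) b2 (fun κ hκ => cor_bot (κ := κ) hκ z2)
  have h3 := side_top g z1 b1
  rw [edz_col, edz_dco] at h1 h2 h3
  have e1 : ∀ j t : ℤ, (j = s ∨ j = s + 1) → nrm (Zn n) (d + 1) j t = nrm (Zn n) d j t := by
    intro j t hj
    rcases lt_trichotomy d (-1) with h | h | h
    · by_cases hj' : j ∈ Zn n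
      · rw [nrm_zip (by omega) hj', nrm_zip (by omega) hj']
      · rw [nrm_not hj', nrm_not hj']
    · subst h
      have hh := (g.hole b1).2
      unfold En at hh
      rw [Set.mem_ofPred_eq, edz_col, edz_dco] at hh
      rw [zp_iff] at z1
      have hj' : j ∉ Zn n := by
        rcases hj with rfl | rfl
        · intro h'
          exact hh ⟨rfl, h'⟩
        · intro h'
          exact z1 ⟨by norm_num, h'⟩
      rw [nrm_not hj', nrm_not hj']
    · rw [nrm_pos (by omega), nrm_pos (by omega)]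
  rw [e1 s _ (Or.inl rfl), e1 (s + 1) _ (Or.inr rfl)] at h2
  exact V_side H h1 h2 h3

/-! ## chains -/

theorem int_const {P : ℤ → Prop} (h : ∀ d, P d ↔ P (d + 1)) (d d' : ℤ) : P d ↔ P d' := by
  have key : ∀ (j : ℕ) (d : ℤ), P d ↔ P (d + j) := by
    intro j
    induction j with
    | zero => intro d; simp
    | succ j ih =>
      intro d
      rw [ih d, h (d + j)]
      push_cast
      rw [add_assoc]
  rcases le_total d d' with h' | h'
  · have := key (d' - d).toNat d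
    rw [Int.toNat_of_nonneg (by omega)] at this
    rwa [show d + (d' - d) = d' by ring] at this
  · have := key (d - d').toNat d'
    rw [Int.toNat_of_nonneg (by omega)] at this
    rw [show d' + (d - d') = d by ring] at this
    exact this.symm

theorem V_col (g : Geo N r k n) (H : Hy N r k c n φ) (d d' : ℤ) :
    V N r k c n φ (edz n d) ↔ V N r k c n φ (edz n d') := by
  have hn0 := g.n0
  have hz : ∀ d, edz (n : ℤ) d ∉ zp (Zn n) := by
    intro d
    rw [zp_iff]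
    rintro ⟨_, h⟩
    exact zn_self (by omega) (by omega) h
  exact int_const (P := fun d => V N r k c n φ (edz n d))
    (fun d => VV g H (hz d) (hz (d + 1)) (g.col d) (g.col (d + 1))) d d'

theorem V_top (g : Geo N r k n) (H : Hy N r k c n φ) {d : ℤ} (hd : 2 * ((N : ℤ) * r) ≤ d)
    (s s' : ℤ) : V N r k c n φ (edz s d) ↔ V N r k c n φ (edz s' d) := by
  have hd0 : 0 ≤ d := by
    have := g.hk
    generalize (N : ℤ) * r = A at *
    omega
  have hz : ∀ s, edz s d ∉ zp (Zn n) := by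
    intro s
    rw [zp_iff]
    rintro ⟨h, _⟩
    omega
  exact int_const (P := fun s => V N r k c n φ (edz s d))
    (fun s => VH g H (hz s) (hz (s + 1)) (g.top hd) (g.top hd)) s s'

open Classical in
theorem V_bot (g : Geo N r k n) (H : Hy N r k c n φ) {d : ℤ} (hd : d ≤ -1 - 2 * ((N : ℤ) * r))
    {s s' : ℤ} (hs : s + 1 ∉ Zn n) (hs' : s' + 1 ∉ Zn n) :
    V N r k c n φ (edz s d) ↔ V N r k c n φ (edz s' d) := by
  have hn0 := g.n0
  have hd0 : d < 0 := by
    have := g.hk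
    generalize (N : ℤ) * r = A at *
    omega
  have key := int_const (P := fun s => if s + 1 ∈ Zn n then V N r k c n φ (edz (s - 1) d)
    else V N r k c n φ (edz s d)) (fun s => by
      by_cases h1 : s + 1 ∈ Zn n
      · have h2 : s + 1 + 1 ∉ Zn n := zn_add h1 (by norm_num) (by omega)
        rw [if_pos h1, if_neg h2]
        exact VZ g H hd0 h1 (g.bot hd) (g.bot hd)
      · by_cases h2 : s + 1 + 1 ∈ Zn n
        · rw [if_neg h1, if_pos h2, add_sub_cancel_right]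
        · rw [if_neg h1, if_neg h2]
          refine VH g H ?_ ?_ (g.bot hd) (g.bot hd)
          · rw [zp_iff]
            exact fun h => h1 h.2
          · rw [zp_iff]
            exact fun h => h2 h.2) s s'
  rwa [if_neg hs, if_neg hs'] at key

theorem V_up (g : Geo N r k n) (H : Hy N r k c n φ) {s d : ℤ} (hd : 0 ≤ d)
    (hb : edz s d ∉ EB N r k) (j : ℕ) :
    edz s (d + j) ∉ EB N r k ∧ (V N r k c n φ (edz s d) ↔ V N r k c n φ (edz s (d + j))) := by
  induction j with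
  | zero => simpa using hb
  | succ j ih =>
    obtain ⟨h1, h2⟩ := ih
    have h3 := g.up h1 (by omega)
    have hz : ∀ d, 0 ≤ d → edz s d ∉ zp (Zn n) := by
      intro d hd
      rw [zp_iff]
      rintro ⟨h, _⟩
      omega
    have h4 := VV g H (hz _ (by omega : 0 ≤ d + j)) (hz _ (by omega)) h1 h3
    push_cast
    rw [← add_assoc]
    exact ⟨h3, h2.trans h4⟩

theorem V_down (g : Geo N r k n) (H : Hy N r k c n φ) {s d : ℤ} (hd : d < 0) (hs : s + 1 ∉ Zn n)
    (hb : edz s d ∉ EB N r k) (j : ℕ) :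
    edz s (d - j) ∉ EB N r k ∧ (V N r k c n φ (edz s d) ↔ V N r k c n φ (edz s (d - j))) := by
  induction j with
  | zero => simpa using hb
  | succ j ih =>
    obtain ⟨h1, h2⟩ := ih
    have h3 := g.down h1 (by omega)
    have hz : ∀ d, edz s d ∉ zp (Zn n) := by
      intro d
      rw [zp_iff]
      exact fun h => hs h.2
    have h1' : edz s (d - j - 1 + 1) ∉ EB N r k := by rwa [sub_add_cancel]
    have h4 := VV g H (hz _) (hz _) h3 h1'
    rw [sub_add_cancel] at h4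
    push_cast
    rw [← sub_sub]
    exact ⟨h3, h2.trans h4.symm⟩

theorem V_all (g : Geo N r k n) (H : Hy N r k c n φ) {e : Edg} (hz : e ∉ zp (Zn n))
    (hb : e ∉ EB N r k) : V N r k c n φ e ↔ V N r k c n φ (edz n 0) := by
  have hn0 := g.n0
  obtain ⟨s, d, rfl⟩ : ∃ s d, e = edz s d := ⟨_, _, (edz_eq e).symm⟩
  obtain ⟨T, hT⟩ : ∃ T : ℕ, (T : ℤ) = 2 * ((N : ℤ) * r) := ⟨2 * (N * r), by push_cast; ring⟩
  rcases le_or_gt 0 d with hd | hd
  · rw [(V_up g H hd hb T).2, V_top g H (by omega) s n]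
    exact V_col g H _ _
  · have hs : s + 1 ∉ Zn n := by
      rw [zp_iff] at hz
      exact fun h => hz ⟨hd, h⟩
    rw [(V_down g H hd hs hb T).2, V_bot g H (d := d - T) (s := s) (s' := n) (by omega) hs
      (zn_self (by omega) (by omega))]
    exact V_col g H _ _

end

end TXCH

open TXCH in
theorem t_XCH : S_XCH := by
  intro N r k c hk hN hr _ n hn φ h1 h2 h3 x y hx hy
  have H : Hy N r k c n φ := ⟨h1, h2, h3⟩
  have g : Geo N r k n := by
    have hr' : (2 * (k : ℤ) + 4) ≤ r := by exact_mod_cast hr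
    have hN' : (k : ℤ) + 16 ≤ N := by exact_mod_cast hN
    have hk' : (2 : ℤ) ≤ k := by exact_mod_cast hk
    have hn' : (n : ℤ) = 4 * (N * r + 4 * (k * r)) := by
      rw [hn]
      unfold prd
      push_cast
      ring
    refine ⟨by omega, by omega, by omega, hn, ?_, ?_⟩
    · nlinarith
    · rw [hn']
      nlinarith
  have key : ∀ x, (XE N r k c n x ∨ XT N r k c n x) → (φ x ↔ V N r k c n φ (edz n 0)) := by
    rintro x (⟨e, e1, e2, e3⟩ | ⟨e, e1, e2, e3⟩)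
    · have hg : Gd N r k c n e x := ⟨e1, Or.inl ⟨e2, e3⟩⟩
      rw [← V_iff H hg]
      exact V_all g H e3.1 e1
    · have hg : Gd N r k c n e x := ⟨e1, Or.inr ⟨e2, e3⟩⟩
      rw [← V_iff H hg]
      exact V_all g H e3.1 e1
  rw [key x hx, key y hy]

end Pool.Agent.W808.KY
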