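import Pool.Agent.W808.KY.Stm
import Pool.Agent.W808.KZ.T_ZP

/-!
# Task ZP: crossings around the points where the zippers leave the boxes
-/

set_option autoImplicit false

namespace Pool.Agent.W808.KY
open H974 H906.Cyl
open H12S (Dir hbE segD rimE H4 Crs Nr sqE)
open Pool.Agent.H160R2.ML (nm)
open Pool.Agent.H160R2.MU (Cel csq cpos prd shf BxS Bxs EP inSq PC Bad Cc)
open Pool.Agent.W808.HU (PTr labC)
open Pool.Agent.W801.OU (zp nrm Dg LZ RZ Cor bxz Zn)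
open Pool.Agent.W808.KU (AdmS TubeS CrrS)
open Pool.Agent.W808.KZ (vp fp nrp BZ mrg ZCr)

open Pool.Agent.W808.KZ.TZP in
theorem t_ZP : Pool.Agent.W808.KZ.S_ZC → S_ZP := by
  classical
  intro hZC N ν hN hν δ hδ
  obtain ⟨K, hK, h⟩ := hZC δ hδ
  refine ⟨64 * K, fun ρ r hρ hr n M hn hM => ?_⟩
  -- numbers
  set b : ℕ := r / 2 with hb
  have hKρ : 1 * ρ ≤ K * ρ := Nat.mul_le_mul_right ρ hK
  have hr' : 64 * (K * ρ) ≤ r := by rw [← mul_assoc]; exact hr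
  have hab : K * (16 * ρ) ≤ b := by
    have : K * (16 * ρ) = 16 * (K * ρ) := by ring
    omega
  have hNr : 16 * r ≤ N * r := Nat.mul_le_mul_right r hN
  have hn' : 4 * (N * r) ≤ n := by
    rw [hn, ← mul_assoc]
    exact Nat.mul_le_mul_right r hν
  have hb2 : 2 * b ≤ r := by omega
  have h16 : 16 * ρ < b := by omega
  set t0 : ℤ := -(2 * N * r) with ht0
  have ht0' : t0 = -(2 * ((N * r : ℕ) : ℤ)) := by rw [ht0]; push_cast; ring
  set B : Set Edg := {e | |e.1 + e.2.1| ≤ 2 * b ∧ |dco e - t0| ≤ 2 * b} with hB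
  set S : Finset Edg := ((Finset.Icc (-(2 * b : ℤ)) (2 * b)) ×ˢ
    (Finset.Icc (t0 - 2 * b) (t0 + 2 * b))).image (fun p => edz p.1 p.2) with hS
  have hBS : ∀ e ∈ B, e ∈ S := by
    rintro e ⟨h1, h2⟩
    rw [abs_le] at h1 h2
    rw [hS, Finset.mem_image]
    refine ⟨(e.1 + e.2.1, dco e), ?_, edz_of e⟩
    rw [Finset.mem_product, Finset.mem_Icc, Finset.mem_Icc]
    simp only
    omega
  have hSB : ∀ e ∈ S, e ∈ B := by
    intro e he
    rw [hS, Finset.mem_image] at he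
    obtain ⟨⟨s, d⟩, hp, hpe⟩ := he
    rw [Finset.mem_product, Finset.mem_Icc, Finset.mem_Icc] at hp
    simp only at hp hpe
    have h1 : e.1 + e.2.1 = s ∧ dco e = d := by
      have := edz_of e
      rw [← hpe] at this ⊢
      exact edz_inj this
    rw [hB]
    simp only [Set.mem_ofPred_eq]
    rw [abs_le, abs_le, h1.1, h1.2]
    omega
  have hmain := h (16 * ρ) b t0 (by omega) hab (by omega) S B hBS (fun e he => he)
  have hred := Pr_red (n := n) (q := 1 / 2) (S := CE n M) (B := S)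
    (by
      intro e he e' he' hee
      have h1 := hSB e he
      have h2 := hSB e' he'
      exact red_inj (b := 2 * b) (by omega) h1.1 h2.1 hee)
    (by
      intro e he
      obtain ⟨e', he', rfl⟩ := Finset.mem_image.1 he
      have h1 := (hSB e' he').2
      rw [abs_le] at h1
      exact red_mem (by omega) (by omega) (by omega))
    (fun F => ZCr {0} B (↑F : Set Edg) t0 ((16 * ρ : ℕ) : ℤ) (b : ℤ))
  rw [← hred] at hmain
  refine le_trans ?_ hmain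
  unfold PC
  apply Pr_mono (okq (q := 1/2) (by norm_num) (by norm_num))
  rintro F - ⟨x, y, hx1, hx2, hy, hxy⟩
  have hbz : ((b : ℕ) : ℤ) = (r : ℤ) / 2 := by rw [hb]; push_cast; rfl
  rw [← hbz, ← ht0] at hy
  rw [← ht0] at hx2
  -- the near points
  set D : ℤ × ℤ → Prop := fun p => |p.1| < b ∧ |p.2 - t0| < b with hD
  have hDx : D x := by
    refine ⟨lt_of_le_of_lt hx1 ?_, lt_of_le_of_lt hx2 ?_⟩ <;> omega
  have hDy : ¬ D y := by
    rintro ⟨h1, h2⟩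
    rcases hy with h3 | h3 <;> omega
  have hex := (exit (D := D) hxy).1 hDx
  have hlk : ∀ u v : ℤ × ℤ, (LZ (Zn n) {e | |e.1 + e.2.1| ≤ r ∧ |dco e + 2 * N * r| ≤ r} (per n F) u v
      ∧ (D u ∨ D v)) → LZ {0} B (↑(S.filter (fun e => red n e ∈ F)) : Set Edg) u v := by
    rintro u v ⟨⟨e, -, hez, he⟩, hDD⟩
    have hbd : (e.1 + e.2.1 - 1 ≤ u.1 ∧ u.1 ≤ e.1 + e.2.1 + 1 ∧ dco e ≤ u.2 ∧ u.2 ≤ dco e + 1) ∧
        (e.1 + e.2.1 - 1 ≤ v.1 ∧ v.1 ≤ e.1 + e.2.1 + 1 ∧ dco e ≤ v.2 ∧ v.2 ≤ dco e + 1) := by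
      rcases he with ⟨-, he⟩ | ⟨-, he⟩
      · exact dg_bd he
      · exact dg_bd he
    have hnear : |e.1 + e.2.1| ≤ b ∧ |dco e - t0| ≤ b := by
      rw [abs_le, abs_le]
      rcases hDD with ⟨h1, h2⟩ | ⟨h1, h2⟩ <;> rw [abs_lt] at h1 h2 <;> omega
    have heB : e ∈ B := by
      refine ⟨le_trans hnear.1 ?_, le_trans hnear.2 ?_⟩ <;> omega
    have z1 : e.1 + e.2.1 ∈ Zn n ↔ e.1 + e.2.1 ∈ ({0} : Set ℤ) :=
      zn_zero (lt_of_le_of_lt hnear.1 (by omega))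
    have z2 : e.1 + e.2.1 + 1 ∈ Zn n ↔ e.1 + e.2.1 + 1 ∈ ({0} : Set ℤ) := by
      refine zn_zero ?_
      have := hnear.1
      rw [abs_le] at this
      rw [abs_lt]
      omega
    refine ⟨e, heB, fun hz => hez ⟨hz.1, z2.2 hz.2⟩, ?_⟩
    have hmem : e ∈ (↑(S.filter (fun e => red n e ∈ F)) : Set Edg) ↔ e ∈ per n F := by
      rw [Finset.mem_coe, Finset.mem_filter]
      exact ⟨fun h => h.2, fun h => ⟨hBS e heB, h⟩⟩
    rcases he with ⟨h1, h2⟩ | ⟨h1, h2⟩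
    · exact Or.inl ⟨hmem.2 h1, dg_eq z1 z2 h2⟩
    · exact Or.inr ⟨fun h3 => h1 (hmem.1 h3), dg_eq z1 z2 h2⟩
  have hpush : ((16 * ρ : ℕ) : ℤ) = 16 * (ρ : ℤ) := by push_cast; rfl
  rcases hex with ⟨h1, -⟩ | ⟨z, hz, hxz⟩
  · exact absurd h1 hDy
  · refine ⟨x, z, ?_, ?_, ?_, mono hlk hxz⟩
    · rw [hpush]; exact hx1
    · rw [hpush]; exact hx2
    · by_contra hcon
      push Not at hcon
      exact hz hcon

end Pool.Agent.W808.KY
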