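import Pool.Agent.W808.KU.T_k1
import Pool.Agent.W808.KU.T_k2
import Pool.Agent.W808.KU.T_k3
import Pool.Agent.W808.KU.T_k4
import Pool.Agent.W808.KU.T_k5
import Pool.Agent.H160R2.MU.T_PRB
import Pool.Agent.H160R2.MU.T_TRAP
import Pool.Agent.W808.HU.T_TRP
import Pool.Agent.W808.KZ.T_ZC
import Pool.Agent.W808.KZ.T_BADK
import Pool.Agent.W801.OW.T_WW
import Pool.Agent.W801.OW.T_WC
import Pool.Agent.W801.OW.T_ISY
import Pool.Agent.W801.OW.T_WY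
import Pool.Agent.W801.OW.T_ONY
import Pool.Agent.W808.KY.T_ADJ
import Pool.Agent.W808.KY.T_BADZ
import Pool.Agent.W808.KY.T_COC
import Pool.Agent.W808.KY.T_DEC
import Pool.Agent.W808.KY.T_DET
import Pool.Agent.W808.KY.T_DETP
import Pool.Agent.W808.KY.T_EXA1
import Pool.Agent.W808.KY.T_EXB1
import Pool.Agent.W808.KY.T_FRB
import Pool.Agent.W808.KY.T_IND
import Pool.Agent.W808.KY.T_LAND
import Pool.Agent.W808.KY.T_MA1
import Pool.Agent.W808.KY.T_MB1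
import Pool.Agent.W808.KY.T_MON
import Pool.Agent.W808.KY.T_NC
import Pool.Agent.W808.KY.T_RCR
import Pool.Agent.W808.KY.T_SEPA1
import Pool.Agent.W808.KY.T_SEPB1
import Pool.Agent.W808.KY.T_STA
import Pool.Agent.W808.KY.T_STB
import Pool.Agent.W808.KY.T_STR
import Pool.Agent.W808.KY.T_TCH
import Pool.Agent.W808.KY.T_UY
import Pool.Agent.W808.KY.T_XCH
import Pool.Agent.W808.KY.T_ZP

/-!
# The dislocated plane with `2 k + 1` legs: assembly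
-/

set_option autoImplicit false

namespace Pool.Agent.W808.KY
open Pool.Agent.H160R2
open Pool.Agent.W801

theorem a_k3 : KU.S_k3 := KU.t_k3 KU.t_k2
theorem a_k4 : KU.S_k4 := KU.t_k4 KU.t_k1 KU.t_k2
theorem a_WY : OW.S_WY := OW.t_WY (OW.t_WC OW.t_WW) OW.t_ISY
theorem a_WP : OW.S_WP := OW.t_WP a_WY
theorem a_W1 : S_W1 := OW.t_W1 a_WP
theorem a_W2 : S_W2 := OW.t_W2 a_WP
theorem a_W4 : S_W4 := OW.t_W4 a_WP
theorem a_ONE : S_ONE := OW.t_ONE (OW.t_ONY OW.t_ISY a_WY)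
theorem a_NA : S_NA := t_NA t_COC
theorem a_DETP : S_DETP := t_DETP (t_DET a_W2 KU.t_k1 KU.t_k2 a_k3 a_k4 KU.t_k5)
theorem a_EXA1 : S_EXA1 := t_EXA1 a_k4
theorem a_EXB1 : S_EXB1 := t_EXB1 a_k4
theorem a_SEPA1 : S_SEPA1 := t_SEPA1 KU.t_k1 KU.t_k2 a_k3 a_k4 KU.t_k5
theorem a_MA1 : S_MA1 := t_MA1 a_W2 a_NA t_COC KU.t_k2 a_k3 a_k4 KU.t_k5 t_XCH a_EXA1 a_SEPA1
theorem a_STR : S_STR := t_STR KU.t_k5
theorem a_FRB : S_FRB := t_FRB a_k4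
theorem a_SEPB1 : S_SEPB1 := t_SEPB1 a_k4 KU.t_k5 a_FRB
theorem a_TCH : S_TCH := t_TCH a_k4 KU.t_k5
theorem a_MB1 : S_MB1 :=
  t_MB1 a_W2 a_NA t_COC KU.t_k1 KU.t_k2 a_k3 a_k4 KU.t_k5 a_TCH a_STR a_FRB a_EXB1 a_SEPB1
theorem a_TRP : HU.S_TRP := HU.t_TRP MU.t_TRAP
theorem a_BADZ : S_BADZ := t_BADZ KZ.t_BADK (t_ZP KZ.t_ZC)
theorem a_STA : S_STA := t_STA MU.t_PRB a_MA1 a_EXA1 a_TRP a_BADZ t_DEC t_IND
theorem a_STB : S_STB := t_STB MU.t_PRB a_MB1 a_EXB1 a_TRP a_BADZ t_DEC t_IND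
theorem a_LAND : S_LAND := t_LAND t_ADJ (t_NC a_W4) KZ.t_ZC
theorem a_RCR : S_RCR := t_RCR a_LAND a_DETP a_STA a_STB a_ONE

/-- **upper bound for the `2 k + 1` arm event of the dislocated plane** -/
theorem a_UY : S_UY := t_UY a_RCR t_MON

end Pool.Agent.W808.KY
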