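import Pool.Agent.W808.KY.Defs

/-!
# The dislocated plane with `l = 2 k + 1` legs: the steps
(every step is a `Prop`; the file `T_X.lean` proves `t_X` from its hypotheses)
-/

set_option autoImplicit false

namespace Pool.Agent.W808.KY
open H974 H906.Cyl
open H12S (Dir hbE segD rimE H4 Crs Nr sqE)
open Pool.Agent.H160R2.ML (nm)
open Pool.Agent.H160R2.MU (Cel csq cpos prd shf BxS Bxs EP inSq PC Bad Cc)
open Pool.Agent.W808.HU (PTr labC)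
open Pool.Agent.W801.OU (zp nrm Dg LZ RZ Cor bxz Zn)
open Pool.Agent.W808.KU (AdmS TubeS CrrS)
open Pool.Agent.W808.KZ (vp fp nrp BZ mrg ZCr)

/-! ## words (periodic configurations of a band, all the other edges are closed) -/

/-- pairwise not connected sectors are connected to other tips -/
def S_W1 : Prop := ∀ (n M k : ℕ), 1 ≤ k → 2 * k + 2 ≤ n → ∀ F : Finset Edg, F ⊆ CE n M →
  (∀ c : ℕ, c < 2 * k + 1 → Sep n k (per n F) c) → Gy n k (per n F)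

/-- `k` non adjacent sectors are enough -/
def S_W2 : Prop := ∀ (n M k : ℕ), 1 ≤ k → 2 * k + 2 ≤ n → ∀ F : Finset Edg, F ⊆ CE n M →
  ∀ S : Finset ℕ, NAd k S → (∀ c ∈ S, Outy n k (per n F) c ∧ Sep n k (per n F) c) → Gy n k (per n F)

/-- there are always `k + 1` pairwise not connected sectors -/
def S_W4 : Prop := ∀ (n M k : ℕ), 1 ≤ k → 2 * k + 2 ≤ n → ∀ F : Finset Edg, F ⊆ CE n M →
  ∃ T : Finset ℕ, T.card = k + 1 ∧ (∀ c ∈ T, c < 2 * k + 1) ∧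
    ∀ c ∈ T, ∀ d ∈ T, c ≠ d → ¬ RY n k (per n F) (scy n k 0 c) (scy n k 0 d)

/-- **the law** (from the exact law of `Pool.Agent.W801.OL` with `(p, r) = (k + 1, k)`) -/
def S_ONE : Prop := ∀ k : ℕ, 1 ≤ k → ∃ C : ℝ, 0 < C ∧ ∀ (n M : ℕ), 2 * k + 2 ≤ n →
  PC n M (fun F => Ony n k M (per n F)) ≤ C * (n : ℝ) ^ (-((k : ℝ) * (k + 1) / 3))

/-! ## deterministic steps -/

/-- parity: two adjacent sectors have adjacent touching points at the boundary of the box -/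
def S_ADJ : Prop := ∀ (R k : ℕ) (G : Set Edg), 1 ≤ k → 2 * k + 2 ≤ R →
  (∀ c d : ℕ, c < 2 * k + 1 → d < 2 * k + 1 → c ≠ d → ¬ RB k R G (scy 0 k 0 c) (scy 0 k 0 d)) →
  ∀ c d : ℕ, c < 2 * k + 1 → d = (c + 1) % (2 * k + 1) → ∃ (x y : ℤ × ℤ) (e e' : Edg),
    e ∉ bxz R ∧ e' ∈ bxz R ∧ RB k R G (scy 0 k 0 c) x ∧ RB k R G (scy 0 k 0 d) y ∧
    ((Cor {0} 0 e x ∧ Cor {0} 1 e y) ∨ (Cor {0} 1 e x ∧ Cor {0} 0 e y)) ∧
    ((Cor {0} 0 e' x ∧ Cor {0} 1 e' y) ∨ (Cor {0} 1 e' x ∧ Cor {0} 0 e' y))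

/-- at least `k` sectors do not touch the outside in class `1` -/
def S_NC : Prop := ∀ (R k : ℕ) (G : Set Edg), 1 ≤ k → 2 * k + 2 ≤ R → ∃ S : Finset ℕ, k ≤ S.card ∧
  (∀ c ∈ S, c < 2 * k + 1) ∧ ∀ c ∈ S, ∀ (x : ℤ × ℤ) (e : Edg), e ∉ bxz R → Cor {0} 1 e x →
  ¬ RB k R G (scy 0 k 0 c) x

def S_DET : Prop := ∀ (N r k : ℕ) (c : Fin k → Cel), 2 ≤ k → k + 16 ≤ N → 2 * k + 4 ≤ r → AdmS N k c →
  ∀ (n M : ℕ), n = prd N k * r → M = 4 * n → ∀ F : Finset Edg, F ⊆ CE n M →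
  LandY N r k c (per n F) → EZ N r k c n (per n (FA N r k c n M F))

def S_DETP : Prop := ∀ (N r k : ℕ) (c : Fin k → Cel), 2 ≤ k → k + 16 ≤ N → 2 * k + 4 ≤ r → AdmS N k c →
  ∀ (n M : ℕ), n = prd N k * r → M = 4 * n →
  Pr (fun _ => (1 / 2 : ℝ)) (boxE (N * r)) (fun F => LandY N r k c (↑F : Set Edg)) ≤
    PC n M (fun F => EZ N r k c n (per n (FA N r k c n M F)))

/-- the leg event implies the event of a smaller box -/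
def S_DEC : Prop := ∀ (n M k R : ℕ), 1 ≤ k → 2 * k + 2 ≤ R → 4 * R ≤ n → 2 * R ≤ M →
  ∀ (B F : Finset Edg), B ⊆ CE n M → F ⊆ CE n M → (∀ e ∈ boxE R, red n e ∈ B ↔ red n e ∈ F) →
  Gy n k (per n B) → SEy k R (per n F)

/-! ## bad events -/

/-- step A: different clusters are far from each other at the boundary of the tubes -/
def S_SEPA : Prop := ∀ (N r k ρ l : ℕ) (c : Fin k → Cel), 2 ≤ k → k + 16 ≤ N → AdmS N k c → 1 ≤ l →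
  32 * l ≤ ρ → 64 * ρ ≤ r → 4 * k + 4 ≤ ρ → ∀ (n M : ℕ), n = prd N k * r → M = 4 * n →
  ∀ F : Finset Edg, F ⊆ CE n M → ¬ Bad 1 N r ρ l (prd N k) n M F → ∀ x x' u u' : ℤ × ℤ,
  XA N r k c n x → XA N r k c n x' →
  RY n k (per n (FA N r k c n M F)) x u → RY n k (per n (FA N r k c n M F)) x' u' →
  DeA N r k c n u → DeA N r k c n u' → nrp l u u' → RY n k (per n (FA N r k c n M F)) x x'

/-- step B: different clusters are far from each other at the boundary of boxes and tubes -/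
def S_SEPB : Prop := ∀ (N r k ρ l : ℕ) (c : Fin k → Cel), 2 ≤ k → k + 16 ≤ N → AdmS N k c → 1 ≤ l →
  32 * l ≤ ρ → 64 * ρ ≤ r → 4 * k + 4 ≤ ρ → ∀ (n M : ℕ), n = prd N k * r → M = 4 * n →
  ∀ F : Finset Edg, F ⊆ CE n M → ¬ Bad 0 N r ρ l (prd N k) n M F → ¬ BZ N r ρ n F →
  ∀ x x' u u' : ℤ × ℤ,
  XB N r k c n x → XB N r k c n x' → RW N r k c n (per n F) x u → RW N r k c n (per n F) x' u' →
  DeB N r k c n u → DeB N r k c n u' → (nrp l u u' ∨ (bigZ N r ρ n u ∧ bigZ N r ρ n u')) →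
  RW N r k c n (per n F) x x'

/-- the bad event at the zipper has small probability -/
def S_ZP : Prop := ∀ N ν : ℕ, 16 ≤ N → 4 * N ≤ ν → ∀ δ : ℝ, 0 < δ → ∃ K : ℕ, ∀ (ρ r : ℕ), 1 ≤ ρ →
  K * ρ ≤ r → ∀ (n M : ℕ), n = ν * r → M = 4 * n → PC n M (BZ N r ρ n) ≤ δ

def S_BADZ : Prop := ∀ N k : ℕ, 2 ≤ k → k + 16 ≤ N → ∀ δ : ℝ, 0 < δ → ∃ M3 M4 : ℕ, 64 ≤ M3 ∧
  64 * M3 ≤ M4 ∧ ∀ (c r : ℕ), c < 2 → M4 ≤ r → ∀ (n M : ℕ), n = prd N k * r → M = 4 * n →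
  PC n M (fun F => Bad c N r (r / M3) (r / M4) (prd N k) n M F ∨ BZ N r (r / M3) n F) ≤ δ

/-- independence -/
def S_IND : Prop := ∀ (c N r k ρ l : ℕ), c < 2 → 2 ≤ k → k + 16 ≤ N → 2 * k + 4 ≤ r → 1 ≤ l →
  32 * l ≤ ρ → 64 * ρ ≤ r → ∀ (n M : ℕ), n = prd N k * r → M = 4 * n →
  PC n M (fun F => SEy k (N * r / 2 : ℕ) (per n F) ∧
      (Bad c N r ρ l (prd N k) n M F ∨ BZ N r ρ n F))
    ≤ uY k (N * r / 2) * PC n M (fun F => Bad c N r ρ l (prd N k) n M F ∨ BZ N r ρ n F)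

/-! ## re-randomisation -/

/-- step A, deterministic part -/
def S_MA : Prop := ∀ (N r k ρ l : ℕ) (c : Fin k → Cel), 2 ≤ k → k + 16 ≤ N → AdmS N k c → 1 ≤ l →
  32 * l ≤ ρ → 64 * ρ ≤ r → 4 * k + 4 ≤ ρ → ∀ (n M : ℕ), n = prd N k * r → M = 4 * n →
  ∀ F G : Finset Edg, F ⊆ CE n M → G ⊆ CE n M → ¬ Bad 1 N r ρ l (prd N k) n M F → PTr 1 n M l G →
  EZ N r k c n (per n (FA N r k c n M F)) →
  EZ N r k c n (per n (FB N r k c n M (mrg (ExA N r k c n M F) F G)))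

/-- step A, stability of the explored set -/
def S_EXA : Prop := ∀ (N r k : ℕ) (c : Fin k → Cel), 2 ≤ k → k + 16 ≤ N → 2 * k + 4 ≤ r → AdmS N k c →
  ∀ (n M : ℕ), n = prd N k * r → M = 4 * n → ∀ F G : Finset Edg, F ⊆ CE n M → G ⊆ CE n M →
  ExA N r k c n M (mrg (ExA N r k c n M F) F G) = ExA N r k c n M F

/-- step B, deterministic part -/
def S_MB : Prop := ∀ (N r k ρ l : ℕ) (c : Fin k → Cel), 2 ≤ k → k + 16 ≤ N → AdmS N k c → 1 ≤ l →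
  32 * l ≤ ρ → 64 * ρ ≤ r → 4 * k + 4 ≤ ρ → ∀ (n M : ℕ), n = prd N k * r → M = 4 * n →
  ∀ F G : Finset Edg, F ⊆ CE n M → G ⊆ CE n M → ¬ Bad 0 N r ρ l (prd N k) n M F →
  ¬ BZ N r ρ n F → PTr 0 n M l G → EZ N r k c n (per n (FB N r k c n M F)) →
  Ony n k M (per n (mrg (ExB N r k c n M F) F G))

/-- step B, stability of the explored set -/
def S_EXB : Prop := ∀ (N r k : ℕ) (c : Fin k → Cel), 2 ≤ k → k + 16 ≤ N → 2 * k + 4 ≤ r → AdmS N k c →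
  ∀ (n M : ℕ), n = prd N k * r → M = 4 * n → ∀ F G : Finset Edg, F ⊆ CE n M → G ⊆ CE n M →
  ExB N r k c n M (mrg (ExB N r k c n M F) F G) = ExB N r k c n M F

/-! ## the steps -/

def S_STA : Prop := ∀ (N k : ℕ) (c : Fin k → Cel), 2 ≤ k → k + 16 ≤ N → AdmS N k c →
  ∀ δ : ℝ, 0 < δ → ∃ K : ℝ, 0 < K ∧ ∃ r0 : ℕ, ∀ r : ℕ, r0 ≤ r → ∀ (n M : ℕ), n = prd N k * r →
  M = 4 * n → PC n M (fun F => EZ N r k c n (per n (FA N r k c n M F))) ≤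
    δ * uY k (N * r / 2) + K * PC n M (fun F => EZ N r k c n (per n (FB N r k c n M F)))

def S_STB : Prop := ∀ (N k : ℕ) (c : Fin k → Cel), 2 ≤ k → k + 16 ≤ N → AdmS N k c →
  ∀ δ : ℝ, 0 < δ → ∃ K : ℝ, 0 < K ∧ ∃ r0 : ℕ, ∀ r : ℕ, r0 ≤ r → ∀ (n M : ℕ), n = prd N k * r →
  M = 4 * n → PC n M (fun F => EZ N r k c n (per n (FB N r k c n M F))) ≤
    δ * uY k (N * r / 2) + K * PC n M (fun F => Ony n k M (per n F))

/-- landing -/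
def S_LAND : Prop := ∀ k : ℕ, 2 ≤ k → ∀ δ : ℝ, 0 < δ → ∃ N : ℕ, k + 16 ≤ N ∧
  ∃ Cs : Finset (Fin k → Cel), (∀ c ∈ Cs, AdmS N k c) ∧ ∃ r0 : ℕ, ∀ r : ℕ, r0 ≤ r →
  uY k (N * r) ≤ δ * uY k (N * r / 2) + ∑ c ∈ Cs,
    Pr (fun _ => (1 / 2 : ℝ)) (boxE (N * r)) (fun F => LandY N r k c (↑F : Set Edg))

/-- the recursion -/
def S_RCR : Prop := ∀ k : ℕ, 2 ≤ k → ∀ δ : ℝ, 0 < δ → ∃ N : ℕ, k + 16 ≤ N ∧ ∃ K : ℝ, 0 < K ∧
  ∃ r0 : ℕ, ∀ r : ℕ, r0 ≤ r →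
  uY k (N * r) ≤ δ * uY k (N * r / 2) + K * (r : ℝ) ^ (-((k : ℝ) * (k + 1) / 3))

/-- monotonicity -/
def S_MON : Prop := ∀ k R R' : ℕ, 1 ≤ k → 2 * k + 2 ≤ R → R ≤ R' → uY k R' ≤ uY k R

/-- **upper bound for the `2 k + 1` arm event of the dislocated plane** -/
def S_UY : Prop := ∀ k : ℕ, 2 ≤ k → ∃ C : ℝ, 0 < C ∧ ∀ R : ℕ, 1 ≤ R →
  uY k R ≤ C * (R : ℝ) ^ (-((k : ℝ) * (k + 1) / 3))

end Pool.Agent.W808.KY
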