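import Pool.Agent.W801.OU.Stm
import Pool.Agent.W808.KU.Stm
import Pool.Agent.W808.KZ.Stm

/-!
# The dislocated plane with `l = 2 k + 1` legs: definitions

Coordinates and relations of `Pool.Agent.W801.OU` (points `(j, t)`, squares `(s, d)` with
`s = e.1 + e.2.1`, `d = dco e`).  One zipper of thickness `1` (as for three legs), and at every tip:
the squares `(i, -1)`, `1 ≤ i < k`, are removed and the square `(0, -1)` is open, i.e. the points
`(-1, 0)` and `(1, -1)` are linked.  Sectors of the tip `0`, in cyclic order: `(c - 1, 0)` for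
`c ≤ k + 1`, `(2 k + 2 - c, -1)` for `k + 2 ≤ c ≤ 2 k`.
-/

set_option autoImplicit false

namespace Pool.Agent.W808.KY
open H974 H906.Cyl
open H12S (Dir hbE segD rimE H4 Crs Nr sqE)
open Pool.Agent.H160R2.ML (nm)
open Pool.Agent.H160R2.MU (Cel csq cpos prd shf BxS Bxs EP inSq PC Bad Cc)
open Pool.Agent.W808.HU (PTr labC)
open Pool.Agent.W801.OU (zp nrm Dg LZ RZ Cor bxz Zn)
open Pool.Agent.W808.KU (AdmS TubeS CrrS)
open Pool.Agent.W808.KZ (vp fp nrp BZ mrg)

/-! ## the lattice -/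

/-- the squares outside the holes of the cylinder -/
def Hn (n k : ℕ) : Set Edg := {e | ¬ (dco e = -1 ∧ 1 ≤ (e.1 + e.2.1) % (2 * n : ℕ) ∧
  (e.1 + e.2.1) % (2 * n : ℕ) < k)}

/-- the open squares next to the holes of the cylinder -/
def En (n : ℕ) : Set Edg := {e | dco e = -1 ∧ (e.1 + e.2.1) % (2 * n : ℕ) = 0}

/-- the squares outside the hole of the plane -/
def H0 (k : ℕ) : Set Edg := {e | ¬ (dco e = -1 ∧ 1 ≤ e.1 + e.2.1 ∧ e.1 + e.2.1 < k)}

/-- the open square next to the hole of the plane -/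
def E0 : Set Edg := {e | dco e = -1 ∧ e.1 + e.2.1 = 0}

/-- the sectors of the tip `s` -/
def scy (n k : ℕ) (s : ℤ) (c : ℕ) : ℤ × ℤ :=
  if c ≤ k + 1 then (2 * n * s + c - 1, 0) else (2 * n * s + (2 * k + 2 - c), -1)

/-- connection in the box of radius `R` of the plane -/
def RB (k : ℕ) (R : ℤ) (G : Set Edg) : ℤ × ℤ → ℤ × ℤ → Prop := RZ {0} (bxz R ∩ H0 k) (G ∪ E0)

/-- connection in the universal cover of the cylinder -/
def RY (n k : ℕ) (G : Set Edg) : ℤ × ℤ → ℤ × ℤ → Prop := RZ (Zn n) (Hn n k) (G ∪ En n)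

/-! ## the plane -/

/-- the sectors are pairwise not connected in the box and connected to its boundary -/
def SEy (k : ℕ) (R : ℤ) (G : Set Edg) : Prop :=
  (∀ c d : ℕ, c < 2 * k + 1 → d < 2 * k + 1 → c ≠ d → ¬ RB k R G (scy 0 k 0 c) (scy 0 k 0 d)) ∧
  (∀ c : ℕ, c < 2 * k + 1 → ∃ x : ℤ × ℤ, RB k R G (scy 0 k 0 c) x ∧
    ∃ e ∉ bxz R, Cor {0} 0 e x ∨ Cor {0} 1 e x)

/-- its probability -/
noncomputable def uY (k R : ℕ) : ℝ :=
  Pr (fun _ => (1 / 2 : ℝ)) (boxE R) (fun F => SEy k R (↑F : Set Edg))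

/-! ## the cylinder -/

/-- the sector `c` of the tip `0` is connected to another tip -/
def Outy (n k : ℕ) (G : Set Edg) (c : ℕ) : Prop :=
  ∃ s : ℤ, s ≠ 0 ∧ ∃ d : ℕ, d < 2 * k + 1 ∧ RY n k G (scy n k 0 c) (scy n k s d)

/-- the sector `c` is not connected to another sector of the tip `0` -/
def Sep (n k : ℕ) (G : Set Edg) (c : ℕ) : Prop :=
  ∀ d : ℕ, d < 2 * k + 1 → d ≠ c → ¬ RY n k G (scy n k 0 c) (scy n k 0 d)

/-- the leg event -/
def Gy (n k : ℕ) (G : Set Edg) : Prop :=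
  ∀ c : ℕ, c < 2 * k + 1 → Sep n k G c ∧ Outy n k G c

/-- `k` sectors, no two of them adjacent -/
def NAd (k : ℕ) (S : Finset ℕ) : Prop :=
  S.card = k ∧ (∀ c ∈ S, c < 2 * k + 1) ∧ ∀ c ∈ S, (c + 1) % (2 * k + 1) ∉ S

/-- the cluster of the sector `c` stays in the band -/
def Shy (n k M : ℕ) (G : Set Edg) (c : ℕ) : Prop :=
  ∀ x : ℤ × ℤ, RY n k G (scy n k 0 c) x → |x.2| < M

/-- `k` clusters are enough -/
def Ony (n k M : ℕ) (G : Set Edg) : Prop :=
  ∃ S : Finset ℕ, NAd k S ∧ ∀ c ∈ S, Outy n k G c ∧ Sep n k G c ∧ Shy n k M G c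

/-! ## configurations: `n = prd N k * r`, `M = 4 n` -/

/-- squares of the boxes -/
abbrev EB (N r k : ℕ) : Set Edg := EP r (Bxs N k)

/-- squares of the tubes -/
abbrev ET (N r k : ℕ) (c : Fin k → Cel) : Set Edg := EP r (CrrS N k c)

open Classical in
/-- boxes random, tubes open, the rest closed -/
noncomputable def FA (N r k : ℕ) (c : Fin k → Cel) (n M : ℕ) (F : Finset Edg) : Finset Edg :=
  (CE n M).filter (fun e => (e ∈ EB N r k ∧ e ∈ F) ∨ (e ∉ EB N r k ∧ e ∈ ET N r k c))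

open Classical in
/-- boxes and tubes random, the rest closed -/
noncomputable def FB (N r k : ℕ) (c : Fin k → Cel) (n M : ℕ) (F : Finset Edg) : Finset Edg :=
  (CE n M).filter (fun e => (e ∈ EB N r k ∨ e ∈ ET N r k c) ∧ e ∈ F)

/-- a vertex of the box of radius `N r` in the coarse square of the cell `C` -/
def atC (N r : ℕ) (C : Cel) (v : Vtx) : Prop := inSq r (csq N C) v ∧ nm v = (N * r : ℕ)

/-- landing: `k` non adjacent sectors touch the cells in class `0`; at the cell `a` the clusters of class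
`0` do not contain another sector, do not touch another cell and do not touch the outside in class `1` -/
def LandY (N r k : ℕ) (c : Fin k → Cel) (G : Set Edg) : Prop :=
  ∃ π : Fin k → ℕ, Function.Injective π ∧ (∀ a, π a < 2 * k + 1) ∧
    (∀ a b, (π a + 1) % (2 * k + 1) ≠ π b) ∧
    (∀ a, ∃ v : Vtx, atC N r (c a) v ∧ RB k (N * r : ℕ) G (scy 0 k 0 (π a)) (vp v)) ∧
    (∀ a (v : Vtx), atC N r (c a) v →
      (∀ d : ℕ, d < 2 * k + 1 → d ≠ π a → ¬ RB k (N * r : ℕ) G (scy 0 k 0 d) (vp v)) ∧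
      (∀ b (w : Vtx), b ≠ a → atC N r (c b) w → ¬ RB k (N * r : ℕ) G (vp w) (vp v)) ∧
      (∀ (x : ℤ × ℤ) (e : Edg), e ∉ bxz (N * r : ℕ) → Cor {0} 1 e x → ¬ RB k (N * r : ℕ) G x (vp v)))

/-- the points of class `1` of the closed region -/
def XE (N r k : ℕ) (c : Fin k → Cel) (n : ℕ) (x : ℤ × ℤ) : Prop :=
  ∃ e : Edg, e ∉ EB N r k ∧ e ∉ ET N r k c ∧ Cor (Zn n) 1 e x

/-- the event of the steps: leg event, and `k` non adjacent sectors are not connected to the closed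
region -/
def EZ (N r k : ℕ) (c : Fin k → Cel) (n : ℕ) (G : Set Edg) : Prop :=
  Gy n k G ∧ ∃ S : Finset ℕ, NAd k S ∧ ∀ i ∈ S, ∀ x : ℤ × ℤ, XE N r k c n x →
    ¬ RY n k G (scy n k 0 i) x

/-! ## step A: the exploration of class `1` around the tubes -/

/-- marked points: sectors, class `1` of the closed region, class `0` of the tubes -/
def XA (N r k : ℕ) (c : Fin k → Cel) (n : ℕ) (x : ℤ × ℤ) : Prop :=
  (∃ (s : ℤ) (i : ℕ), i < 2 * k + 1 ∧ x = scy n k s i) ∨ XE N r k c n x ∨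
    ∃ e : Edg, e ∉ EB N r k ∧ e ∈ ET N r k c ∧ Cor (Zn n) 0 e x

/-- points of class `1` of the tubes -/
def DeA (N r k : ℕ) (c : Fin k → Cel) (n : ℕ) (u : ℤ × ℤ) : Prop :=
  ∃ e : Edg, e ∉ EB N r k ∧ e ∈ ET N r k c ∧ Cor (Zn n) 1 e u

/-- the clusters of the marked points -/
def KA (N r k : ℕ) (c : Fin k → Cel) (n M : ℕ) (F : Finset Edg) (x : ℤ × ℤ) : Prop :=
  ∃ y, XA N r k c n y ∧ RY n k (per n (FA N r k c n M F)) y x

open Classical in
/-- the explored squares -/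
noncomputable def ExA (N r k : ℕ) (c : Fin k → Cel) (n M : ℕ) (F : Finset Edg) : Finset Edg :=
  (CE n M).filter (fun e => e ∈ EB N r k ∧
    ∃ x, KA N r k c n M F x ∧ (Cor (Zn n) 0 e x ∨ Cor (Zn n) 1 e x))

/-! ## step B: the exploration of the clusters in the boxes and the tubes -/

/-- the wired points: class `1` of the closed region, and all the points far from boxes and tubes -/
def XW (N r k : ℕ) (c : Fin k → Cel) (n : ℕ) (x : ℤ × ℤ) : Prop := XE N r k c n x ∨ (2 * n : ℤ) ≤ |x.2|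

/-- connection in the boxes and the tubes, with the wired points -/
def RW (N r k : ℕ) (c : Fin k → Cel) (n : ℕ) (G : Set Edg) : ℤ × ℤ → ℤ × ℤ → Prop :=
  Relation.EqvGen (fun x y => (XW N r k c n x ∧ XW N r k c n y) ∨
    LZ (Zn n) ((EB N r k ∪ ET N r k c) ∩ Hn n k) (G ∪ En n) x y)

/-- marked points: sectors and wired points -/
def XB (N r k : ℕ) (c : Fin k → Cel) (n : ℕ) (x : ℤ × ℤ) : Prop :=
  (∃ (s : ℤ) (i : ℕ), i < 2 * k + 1 ∧ x = scy n k s i) ∨ XW N r k c n x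

/-- points of class `0` of the closed region -/
def DeB (N r k : ℕ) (c : Fin k → Cel) (n : ℕ) (u : ℤ × ℤ) : Prop :=
  ∃ e : Edg, e ∉ EB N r k ∧ e ∉ ET N r k c ∧ Cor (Zn n) 0 e u

/-- points far from boxes and tubes or near the points where the zippers leave the boxes -/
def bigZ (N r ρ n : ℕ) (u : ℤ × ℤ) : Prop :=
  (2 * n - 8 * r : ℤ) ≤ |u.2| ∨ ∃ s : ℤ, |u.1 - 2 * n * s| ≤ 8 * ρ ∧ |u.2 + 2 * N * r| ≤ 8 * ρ

/-- the clusters of the marked points -/
def KB (N r k : ℕ) (c : Fin k → Cel) (n : ℕ) (F : Finset Edg) (x : ℤ × ℤ) : Prop :=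
  ∃ y, XB N r k c n y ∧ RW N r k c n (per n F) y x

open Classical in
/-- the explored squares -/
noncomputable def ExB (N r k : ℕ) (c : Fin k → Cel) (n M : ℕ) (F : Finset Edg) : Finset Edg :=
  (CE n M).filter (fun e => (e ∈ EB N r k ∨ e ∈ ET N r k c) ∧
    ∃ x, KB N r k c n F x ∧ (Cor (Zn n) 0 e x ∨ Cor (Zn n) 1 e x))

end Pool.Agent.W808.KY
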