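import Pool.Agent.W808.KY.Stm2
import Pool.Agent.W808.KZ.Per

/-!
# Translations by periods, `2 k + 1` legs (helper959)

`Per.te`, `Per.tp` of `Pool.Agent.W808.KZ`.  Invariance of `Hn`, `En`, `RY (per ..)`, of the boxes and
tubes together, `XE`.
-/

set_option autoImplicit false

namespace Pool.Agent.W808.KY
open H974 H906.Cyl
open H12S (Dir hbE segD rimE H4 Crs Nr sqE)
open Pool.Agent.H160R2.ML (nm)
open Pool.Agent.H160R2.MU (Cel csq cpos prd shf BxS Bxs EP inSq PC Bad Cc)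
open Pool.Agent.W808.HU (PTr labC)
open Pool.Agent.W801.OU (zp nrm Dg LZ RZ Cor bxz Zn)
open Pool.Agent.W808.KU (AdmS TubeS CrrS)
open Pool.Agent.W808.KZ (vp fp nrp BZ mrg)
open Pool.Agent.W808.KZ.Per (te tp)

namespace PerY

theorem emod_te (n : ℕ) (a q : ℤ) : (a + 2 * n * q) % (2 * n : ℕ) = a % (2 * n : ℕ) := by
  have h : a + 2 * n * q = a + ((2 * n : ℕ) : ℤ) * q := by push_cast; ring
  rw [h, Int.add_mul_emod_self_left]

theorem Hn_te (n k : ℕ) (q : ℤ) (e : Edg) : te n q e ∈ Hn n k ↔ e ∈ Hn n k := by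
  show ¬ (dco (te n q e) = -1 ∧ 1 ≤ ((te n q e).1 + (te n q e).2.1) % (2 * n : ℕ) ∧
      ((te n q e).1 + (te n q e).2.1) % (2 * n : ℕ) < k) ↔
    ¬ (dco e = -1 ∧ 1 ≤ (e.1 + e.2.1) % (2 * n : ℕ) ∧ (e.1 + e.2.1) % (2 * n : ℕ) < k)
  rw [KZ.Per.dco_te, KZ.Per.sum_te, emod_te]

theorem En_te (n : ℕ) (q : ℤ) (e : Edg) : te n q e ∈ En n ↔ e ∈ En n := by
  show (dco (te n q e) = -1 ∧ ((te n q e).1 + (te n q e).2.1) % (2 * n : ℕ) = 0) ↔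
    (dco e = -1 ∧ (e.1 + e.2.1) % (2 * n : ℕ) = 0)
  rw [KZ.Per.dco_te, KZ.Per.sum_te, emod_te]

theorem perE_te {n : ℕ} (hn : 0 < n) (F : Finset Edg) (q : ℤ) (e : Edg) :
    te n q e ∈ per n F ∪ En n ↔ e ∈ per n F ∪ En n :=
  or_congr (KZ.Per.per_te hn F q e) (En_te n q e)

theorem RY_tp {n k : ℕ} (hn : 0 < n) (F : Finset Edg) {x y : ℤ × ℤ} (q : ℤ)
    (h : RY n k (per n F) x y) : RY n k (per n F) (tp n q x) (tp n q y) :=
  KZ.Per.RZ_tp (Hn_te n k) (perE_te hn F) q h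

theorem RY_tp_iff {n k : ℕ} (hn : 0 < n) (F : Finset Edg) {x y : ℤ × ℤ} (q : ℤ) :
    RY n k (per n F) (tp n q x) (tp n q y) ↔ RY n k (per n F) x y := by
  refine ⟨fun h => ?_, RY_tp hn F q⟩
  have h2 := RY_tp hn F (-q) h
  rw [KZ.Per.tp_tp, KZ.Per.tp_tp, neg_add_cancel, KZ.Per.tp_zero, KZ.Per.tp_zero] at h2
  exact h2

theorem tp_scy (n k : ℕ) (q s : ℤ) (c : ℕ) : tp n q (scy n k s c) = scy n k (s + q) c := by
  unfold tp scy
  split_ifs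
  · exact Prod.ext (by simp only; ring) rfl
  · exact Prod.ext (by simp only; ring) rfl

theorem EP_union (r : ℕ) (P Q : Set (ℤ × ℤ)) (e : Edg) :
    e ∈ EP r (P ∪ Q) ↔ e ∈ EP r P ∨ e ∈ EP r Q := by
  constructor
  · rintro ⟨z, hz | hz, he⟩
    · exact Or.inl ⟨z, hz, he⟩
    · exact Or.inr ⟨z, hz, he⟩
  · rintro (⟨z, hz, he⟩ | ⟨z, hz, he⟩)
    · exact ⟨z, Or.inl hz, he⟩
    · exact ⟨z, Or.inr hz, he⟩

section geo

variable {N r k : ℕ} {c : Fin k → Cel} {n : ℕ}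

/-- boxes and tubes together are periodic -/
theorem EU_te (h4 : KU.S_k4) (hk : 2 ≤ k) (hN : k + 4 ≤ N) (hC : AdmS N k c)
    (hn : n = prd N k * r) (q : ℤ) (e : Edg) :
    (te n q e ∈ EB N r k ∨ te n q e ∈ ET N r k c) ↔ (e ∈ EB N r k ∨ e ∈ ET N r k c) := by
  have h := KZ.Per.EP_te (N := N) (k := k) (r := r) hn (P := Bxs N k ∪ CrrS N k c)
    ((h4 N k c hk hN hC _ rfl).2.2.1) q e
  rw [EP_union, EP_union] at h
  exact h

theorem nEU_te (h4 : KU.S_k4) (hk : 2 ≤ k) (hN : k + 4 ≤ N) (hC : AdmS N k c)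
    (hn : n = prd N k * r) (q : ℤ) (e : Edg) :
    (te n q e ∉ EB N r k ∧ te n q e ∉ ET N r k c) ↔ (e ∉ EB N r k ∧ e ∉ ET N r k c) := by
  have h := EU_te h4 hk hN hC hn q e
  tauto

theorem XE_tp (h4 : KU.S_k4) (hk : 2 ≤ k) (hN : k + 4 ≤ N) (hC : AdmS N k c)
    (hn : n = prd N k * r) (q : ℤ) {x : ℤ × ℤ} (h : XE N r k c n x) :
    XE N r k c n (tp n q x) := by
  obtain ⟨e, h1, h2, h5⟩ := h
  obtain ⟨h1', h2'⟩ := (nEU_te h4 hk hN hC hn q e).2 ⟨h1, h2⟩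
  exact ⟨te n q e, h1', h2', KZ.Per.Cor_te1 q h5⟩

end geo

end PerY

end Pool.Agent.W808.KY
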