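import Pool.Agent.W808.KY.Stm
import Pool.Agent.W658.KZ.Stm

/-!
# The dislocated plane with `l = 2 k + 1` legs: the steps A and B
(analogue of `Pool.Agent.W658.KZ.Stm`; these statements replace `S_SEPA`, `S_SEPB`, `S_MA`, `S_EXA`,
`S_MB`, `S_EXB` of `KY/Stm.lean`)
-/

set_option autoImplicit false

namespace Pool.Agent.W808.KY
open H974 H906.Cyl
open H12S (Dir hbE segD rimE H4 Crs Nr sqE)
open Pool.Agent.H160R2.ML (nm)
open Pool.Agent.H160R2.MU (Cel csq cpos prd shf BxS Bxs EP inSq PC Bad Cc)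
open Pool.Agent.W808.HU (PTr labC)
open Pool.Agent.W801.OU (zp nrm Dg LZ RZ Cor bxz Zn)
open Pool.Agent.W808.KU (AdmS TubeS CrrS)
open Pool.Agent.W808.KZ (vp fp nrp BZ mrg)
open Pool.Agent.W658.KZ (Exi)

/-! ## planarity -/

/-- the sides of the squares which are not removed and not forced (adjacent points) -/
inductive Sidy (n k : ℕ) : ℤ × ℤ → ℤ × ℤ → Prop
  | bot (e : Edg) : e ∉ zp (Zn n) → e ∈ Hn n k → e ∉ En n →
      Sidy n k (nrm (Zn n) (dco e) (e.1 + e.2.1) (dco e))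
        (nrm (Zn n) (dco e) (e.1 + e.2.1 + 1) (dco e))
  | top (e : Edg) : e ∉ zp (Zn n) → e ∈ Hn n k → e ∉ En n →
      Sidy n k (nrm (Zn n) (dco e) (e.1 + e.2.1) (dco e + 1))
        (nrm (Zn n) (dco e) (e.1 + e.2.1 + 1) (dco e + 1))
  | lft (e : Edg) : e ∉ zp (Zn n) → e ∈ Hn n k → e ∉ En n →
      Sidy n k (nrm (Zn n) (dco e) (e.1 + e.2.1) (dco e))
        (nrm (Zn n) (dco e) (e.1 + e.2.1) (dco e + 1))
  | rgt (e : Edg) : e ∉ zp (Zn n) → e ∈ Hn n k → e ∉ En n →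
      Sidy n k (nrm (Zn n) (dco e) (e.1 + e.2.1 + 1) (dco e))
        (nrm (Zn n) (dco e) (e.1 + e.2.1 + 1) (dco e + 1))

/-- the cocycle lemma: a symmetric relation which is invariant under connections and holds for no pair
of consecutive sectors of the same tip is a coboundary on the sides -/
def S_COC : Prop := ∀ (n k : ℕ) (G : Set Edg) (Rel : ℤ × ℤ → ℤ × ℤ → Prop), 1 ≤ k → 2 * k + 2 ≤ n →
  (∀ x y, Rel x y → Rel y x) → (∀ x x' y, RY n k G x x' → Rel x y → Rel x' y) →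
  (∀ (s : ℤ) (c : ℕ), c < 2 * k + 1 → ¬ Rel (scy n k s c) (scy n k s ((c + 1) % (2 * k + 1)))) →
  ∃ φ : ℤ × ℤ → Prop, (∀ x y, RY n k G x y → (φ x ↔ φ y)) ∧
    (∀ x y, Sidy n k x y → (Rel x y ↔ ¬ (φ x ↔ φ y)))

/-- adjacent points are in different clusters -/
def S_NA : Prop := ∀ (n k : ℕ) (F : Finset Edg), 1 ≤ k → 2 * k + 2 ≤ n → Gy n k (per n F) →
  ∀ x y : ℤ × ℤ, Sidy n k x y → ¬ RY n k (per n F) x y

/-- the points of class `0` of the tubes -/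
def XT (N r k : ℕ) (c : Fin k → Cel) (n : ℕ) (x : ℤ × ℤ) : Prop :=
  ∃ e : Edg, e ∉ EB N r k ∧ e ∈ ET N r k c ∧ Cor (Zn n) 0 e x

/-- the squares outside the boxes are connected through their sides: a function which is constant along
the class `1` diagonals of the closed region, along the class `0` diagonals of the tubes, and for
adjacent such points, is constant on all these points -/
def S_XCH : Prop := ∀ (N r k : ℕ) (c : Fin k → Cel), 2 ≤ k → k + 16 ≤ N → 2 * k + 4 ≤ r →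
  AdmS N k c → ∀ n : ℕ, n = prd N k * r → ∀ φ : ℤ × ℤ → Prop,
  (∀ x y, RZ (Zn n) {e | e ∉ EB N r k ∧ e ∉ ET N r k c} ∅ x y → (φ x ↔ φ y)) →
  (∀ x y, RZ (Zn n) {e | e ∉ EB N r k ∧ e ∈ ET N r k c} Set.univ x y → (φ x ↔ φ y)) →
  (∀ x y, (XE N r k c n x ∨ XT N r k c n x) → (XE N r k c n y ∨ XT N r k c n y) → Sidy n k x y →
    (φ x ↔ φ y)) →
  ∀ x y, (XE N r k c n x ∨ XT N r k c n x) → (XE N r k c n y ∨ XT N r k c n y) → (φ x ↔ φ y)

/-! ## step A -/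

/-- the clusters of the closed region -/
def KA1 (N r k : ℕ) (c : Fin k → Cel) (n M : ℕ) (F : Finset Edg) (x : ℤ × ℤ) : Prop :=
  ∃ y, XE N r k c n y ∧ RY n k (per n (FA N r k c n M F)) y x

open Classical in
/-- the explored squares -/
noncomputable def ExA1 (N r k : ℕ) (c : Fin k → Cel) (n M : ℕ) (F : Finset Edg) : Finset Edg :=
  (CE n M).filter (fun e => e ∈ EB N r k ∧
    ∃ x, KA1 N r k c n M F x ∧ (Cor (Zn n) 0 e x ∨ Cor (Zn n) 1 e x))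

/-- stability -/
def S_EXA1 : Prop := ∀ (N r k : ℕ) (c : Fin k → Cel), 2 ≤ k → k + 16 ≤ N → 2 * k + 4 ≤ r →
  AdmS N k c → ∀ (n M : ℕ), n = prd N k * r → M = 4 * n → ∀ F G : Finset Edg, F ⊆ CE n M →
  G ⊆ CE n M →
  ExA1 N r k c n M (mrg (ExA1 N r k c n M F) F G) = ExA1 N r k c n M F ∧
  (∀ x, KA1 N r k c n M (mrg (ExA1 N r k c n M F) F G) x ↔ KA1 N r k c n M F x) ∧
  (∀ x y, KA1 N r k c n M F x →
    (RY n k (per n (FA N r k c n M (mrg (ExA1 N r k c n M F) F G))) x y ↔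
      RY n k (per n (FA N r k c n M F)) x y))

/-- different clusters of the closed region are far from each other at the boundary of the tubes -/
def S_SEPA1 : Prop := ∀ (N r k ρ l : ℕ) (c : Fin k → Cel), 2 ≤ k → k + 16 ≤ N → AdmS N k c →
  1 ≤ l → 32 * l ≤ ρ → 64 * ρ ≤ r → 4 * k + 4 ≤ ρ → ∀ (n M : ℕ), n = prd N k * r → M = 4 * n →
  ∀ F : Finset Edg, F ⊆ CE n M → ¬ Bad 1 N r ρ l (prd N k) n M F → ∀ x x' u u' : ℤ × ℤ,
  XE N r k c n x → XE N r k c n x' →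
  RY n k (per n (FA N r k c n M F)) x u → RY n k (per n (FA N r k c n M F)) x' u' →
  DeA N r k c n u → DeA N r k c n u' → nrp l u u' → RY n k (per n (FA N r k c n M F)) x x'

/-- step A, deterministic part -/
def S_MA1 : Prop := ∀ (N r k ρ l : ℕ) (c : Fin k → Cel), 2 ≤ k → k + 16 ≤ N → AdmS N k c → 1 ≤ l →
  32 * l ≤ ρ → 64 * ρ ≤ r → 4 * k + 4 ≤ ρ → ∀ (n M : ℕ), n = prd N k * r → M = 4 * n →
  ∀ F G : Finset Edg, F ⊆ CE n M → G ⊆ CE n M → ¬ Bad 1 N r ρ l (prd N k) n M F → PTr 1 n M l G →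
  EZ N r k c n (per n (FA N r k c n M F)) →
  EZ N r k c n (per n (FB N r k c n M (mrg (ExA1 N r k c n M F) F G)))

/-! ## step B -/

/-- squares near the closed region -/
def NrD (N r k ρ : ℕ) (c : Fin k → Cel) (e : Edg) : Prop :=
  ∃ e' : Edg, e' ∉ EB N r k ∧ e' ∉ ET N r k c ∧ |e.1 - e'.1| ≤ 2 * ρ ∧ |e.2.1 - e'.2.1| ≤ 2 * ρ

/-- the strip -/
def Yb (N r k ρ : ℕ) (c : Fin k → Cel) (n : ℕ) : Set Edg :=
  {e | (e ∈ EB N r k ∨ e ∈ ET N r k c) ∧ NrD N r k ρ c e ∧ ¬ Exi N r ρ n e}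

/-- the local clusters of class `0` in the strip (of the vertices which touch a square of the boxes or
of the tubes outside the strip) -/
def KL (N r k ρ : ℕ) (c : Fin k → Cel) (n : ℕ) (F : Finset Edg) (v : Vtx) : Prop :=
  ∃ (w : Vtx) (e : Edg), (e ∈ EB N r k ∨ e ∈ ET N r k c) ∧ e ∉ Yb N r k ρ c n ∧
    (src e = w ∨ tgt e = w) ∧ Reach (per n F ∩ Yb N r k ρ c n) w v

/-- vertices of the closed region -/
def DvB (N r k : ℕ) (c : Fin k → Cel) (v : Vtx) : Prop :=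
  ∃ e : Edg, e ∉ EB N r k ∧ e ∉ ET N r k c ∧ (src e = v ∨ tgt e = v)

/-- the clusters of the sectors of `S` -/
def KB1 (S : Finset ℕ) (N r k : ℕ) (c : Fin k → Cel) (n M : ℕ) (F : Finset Edg) (x : ℤ × ℤ) : Prop :=
  ∃ (s : ℤ) (i : ℕ), i ∈ S ∧ RY n k (per n (FB N r k c n M F)) (scy n k s i) x

open Classical in
/-- the explored squares -/
noncomputable def ExB1 (S : Finset ℕ) (N r k ρ : ℕ) (c : Fin k → Cel) (n M : ℕ) (F : Finset Edg) :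
    Finset Edg :=
  (CE n M).filter (fun e => (e ∈ EB N r k ∨ e ∈ ET N r k c) ∧
    ((∃ x, KB1 S N r k c n M F x ∧ (Cor (Zn n) 0 e x ∨ Cor (Zn n) 1 e x)) ∨
      (e ∈ Yb N r k ρ c n ∧ (KL N r k ρ c n F (src e) ∨ KL N r k ρ c n F (tgt e)))))

/-- the leg event, and the sectors of `S` are not connected to the closed region -/
def EZS (S : Finset ℕ) (N r k : ℕ) (c : Fin k → Cel) (n : ℕ) (G : Set Edg) : Prop :=
  Gy n k G ∧ NAd k S ∧ ∀ i ∈ S, ∀ x : ℤ × ℤ, XE N r k c n x → ¬ RY n k G (scy n k 0 i) x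

/-- stability -/
def S_EXB1 : Prop := ∀ (S : Finset ℕ) (N r k ρ : ℕ) (c : Fin k → Cel), 2 ≤ k → k + 16 ≤ N →
  4 * k + 4 ≤ ρ → 64 * ρ ≤ r → AdmS N k c → ∀ (n M : ℕ), n = prd N k * r → M = 4 * n →
  ∀ F G : Finset Edg, F ⊆ CE n M → G ⊆ CE n M →
  ExB1 S N r k ρ c n M (mrg (ExB1 S N r k ρ c n M F) F G) = ExB1 S N r k ρ c n M F ∧
  (∀ v, KL N r k ρ c n (mrg (ExB1 S N r k ρ c n M F) F G) v ↔ KL N r k ρ c n F v) ∧
  (∀ (s : ℤ) (i : ℕ) (x : ℤ × ℤ), i ∈ S →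
    (RY n k (per n (FB N r k c n M (mrg (ExB1 S N r k ρ c n M F) F G))) (scy n k s i) x ↔
      RY n k (per n (FB N r k c n M F)) (scy n k s i) x))

/-- the strip is far from the zippers (and from holes) -/
def S_STR : Prop := ∀ (N r k ρ : ℕ) (c : Fin k → Cel), 2 ≤ k → k + 16 ≤ N → 4 * k + 4 ≤ ρ →
  16 ≤ ρ → 64 * ρ ≤ r → AdmS N k c → ∀ n : ℕ, n = prd N k * r → ∀ e ∈ Yb N r k ρ c n, ∀ s : ℤ,
  (ρ : ℤ) ≤ |e.1 + e.2.1 - 2 * n * s| ∨ (ρ : ℤ) ≤ dco e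

/-- the tips are connected through sides, away from the strip (along the zippers) -/
def S_TCH : Prop := ∀ (N r k ρ : ℕ) (c : Fin k → Cel), 2 ≤ k → k + 16 ≤ N → 4 * k + 4 ≤ ρ →
  16 ≤ ρ → 64 * ρ ≤ r → AdmS N k c → ∀ n : ℕ, n = prd N k * r → ∀ φ : ℤ × ℤ → Prop,
  (∀ x y, Sidy n k x y → (∀ e ∈ Yb N r k ρ c n, ¬ Cor (Zn n) 0 e x ∧ ¬ Cor (Zn n) 1 e x) →
    (∀ e ∈ Yb N r k ρ c n, ¬ Cor (Zn n) 0 e y ∧ ¬ Cor (Zn n) 1 e y) → (φ x ↔ φ y)) →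
  ∀ (s s' : ℤ) (i i' : ℕ), i < 2 * k + 1 → i' < 2 * k + 1 →
    (φ (scy n k s i) ↔ φ (scy n k s' i'))

/-- the clusters of the sectors which avoid the closed region stay away from the points where the zippers
leave the boxes -/
def S_FRB : Prop := ∀ (i N r k ρ : ℕ) (c : Fin k → Cel), i < 2 * k + 1 → 2 ≤ k → k + 16 ≤ N →
  AdmS N k c → 4 * k + 4 ≤ ρ → 16 ≤ ρ → 64 * ρ ≤ r → ∀ (n M : ℕ), n = prd N k * r → M = 4 * n →
  ∀ F : Finset Edg, F ⊆ CE n M → ¬ BZ N r ρ n F →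
  (∀ x : ℤ × ℤ, XE N r k c n x → ¬ RY n k (per n (FB N r k c n M F)) (scy n k 0 i) x) →
  ∀ (s s' : ℤ) (x : ℤ × ℤ), RY n k (per n (FB N r k c n M F)) (scy n k s i) x →
  (16 * ρ : ℤ) < |x.1 - 2 * n * s'| ∨ (16 * ρ : ℤ) < |x.2 + 2 * N * r|

/-- separation: the cluster of a sector which avoids the closed region and the local clusters of class
`0` of the strip -/
def S_SEPB1 : Prop := ∀ (i N r k ρ l : ℕ) (c : Fin k → Cel), i < 2 * k + 1 → 2 ≤ k → k + 16 ≤ N →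
  AdmS N k c → 1 ≤ l → 32 * l ≤ ρ → 64 * ρ ≤ r → 4 * k + 4 ≤ ρ → ∀ (n M : ℕ), n = prd N k * r →
  M = 4 * n → ∀ F : Finset Edg, F ⊆ CE n M → ¬ Bad 0 N r ρ l (prd N k) n M F → ¬ BZ N r ρ n F →
  (∀ x : ℤ × ℤ, XE N r k c n x → ¬ RY n k (per n (FB N r k c n M F)) (scy n k 0 i) x) →
  ∀ (s : ℤ) (u v : Vtx), RY n k (per n (FB N r k c n M F)) (scy n k s i) (vp u) →
  DvB N r k c u → DvB N r k c v → KL N r k ρ c n F v → Nr (4 * l) u v →
  RY n k (per n (FB N r k c n M F)) (vp u) (vp v)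

/-- step B, deterministic part -/
def S_MB1 : Prop := ∀ (S : Finset ℕ) (N r k ρ l : ℕ) (c : Fin k → Cel), 2 ≤ k → k + 16 ≤ N →
  AdmS N k c → 1 ≤ l → 32 * l ≤ ρ → 64 * ρ ≤ r → 4 * k + 4 ≤ ρ → ∀ (n M : ℕ), n = prd N k * r →
  M = 4 * n → ∀ F G : Finset Edg, F ⊆ CE n M → G ⊆ CE n M → ¬ Bad 0 N r ρ l (prd N k) n M F →
  ¬ BZ N r ρ n F → PTr 0 n M l G → EZS S N r k c n (per n (FB N r k c n M F)) →
  Ony n k M (per n (mrg (ExB1 S N r k ρ c n M F) F G))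

end Pool.Agent.W808.KY
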