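import Pool.Agent.W808.KY.Stm
import Pool.Agent.W808.KZ.T_LAND

/-! LAND, part 1: honest connections of class `0` in the box of the dislocated plane with a hole
(helper212; adapted from the files `KZ/T_LAND*.lean` of helper352 and `KU/T_LAND.lean` of helper991). -/

set_option autoImplicit false

namespace Pool.Agent.W808.KY
open H974 H906.Cyl
open H12S (Dir hbE segD rimE H4 Crs Nr sqE)
open Pool.Agent.H160R2.ML (nm)
open Pool.Agent.H160R2.MU (Cel csq cpos prd shf BxS Bxs EP inSq PC Bad Cc)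
open Pool.Agent.W801.OU (zp nrm Dg LZ RZ Cor bxz Zn)
open Pool.Agent.W808.KU (AdmS)
open Pool.Agent.W808.KZ (vp fp ZCr)

namespace TLAND
open Pool.Agent.H160R2.MU.TLAND (nm_le nm_eq tc ediv_near sg cl cl_lt onS inSq_cl side_of ctr Pin
  pin_edge hbE_ends rim_of pin_of seg_of not_pin_of same_side of_inSq inSq_near inSq_same cpos_inj
  BadL)
open Pool.Agent.W808.KZ.TLAND (dco_f dco_t pc pc_zero pc_one sh sh0 Gc mem_Gc Hon hon_of exit_c
  rz_of_reach exit_z eqv_iff eqv_mono rz_mono cor_par touch Tch ZB rz_congr mem_box_iff not_half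
  corner_pos)

/-- the sectors are near the origin -/
def Tip (k : ℕ) (y : ℤ × ℤ) : Prop := (-1 ≤ y.1 ∧ y.1 ≤ k) ∧ -1 ≤ y.2 ∧ y.2 ≤ 0

theorem tip_scy {k i : ℕ} (hi : i < 2 * k + 1) : Tip k (scy 0 k 0 i) := by
  unfold Tip scy
  simp only [mul_zero, zero_add]
  split_ifs <;> dsimp only <;> omega

/-- exit of a region away from the zipper -/
theorem exit_y {k : ℕ} {R : ℤ} {G S : Set Edg} {P : Vtx → Prop}
    (hP : ∀ v, P v → (vp v).2 ≤ 0 → (vp v).1 < -1 ∨ 1 < (vp v).1)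
    (hS : ∀ e : Edg, nm (src e) ≤ R → nm (tgt e) ≤ R → (P (src e) ∨ P (tgt e)) → e ∈ S)
    (hE : ∀ e ∈ S, e ∉ E0)
    {u : Vtx} {y : ℤ × ℤ} (h : RB k R G (vp u) y) (hu : P u) (hy : ∀ v, y = vp v → ¬ P v) :
    ∃ z, ¬ P z ∧ Reach (G ∩ S) u z := by
  obtain ⟨z, hz, hr, -⟩ := exit_c (c := 0) (Or.inl rfl) (κ := id) (P := P) (S := S)
    (B := bxz R ∩ H0 k) (G := G ∪ E0) (u := u) (y := y)
    (by intro v hv; rw [pc_zero]; exact hP v hv)
    (by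
      intro e _ h1 h2
      rw [sh0] at h1
      exact Or.inr ⟨rfl, rfl, hS e h1.1.1 h1.1.2 h2⟩)
    (by rw [pc_zero]; exact h) hu (by intro v hv; exact hy v (by rw [hv, pc_zero]))
  refine ⟨z, hz, hr.mono ?_⟩
  rintro e ⟨h1, h2⟩
  have h3 := (mem_Gc.1 h1).2 rfl
  rw [sh0] at h3
  exact ⟨h3.resolve_right (hE e h2), h2⟩

/-- honest paths -/
theorem rb_of_reach {k : ℕ} {R : ℤ} {G S : Set Edg}
    (hS : ∀ e ∈ S, e ∈ bxz R ∧ e ∈ H0 k ∧ Hon e) {u w : Vtx} (h : Reach (G ∩ S) u w) :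
    RB k R G (vp u) (vp w) := by
  have h1 : Reach (Gc 0 (G ∪ E0) ∩ S) u w := by
    refine h.mono ?_
    rintro e ⟨h1, h2⟩
    refine ⟨mem_Gc.2 ⟨fun _ => rfl, fun _ => ?_⟩, h2⟩
    rw [sh0]
    exact Or.inl h1
  have h2 := rz_of_reach (c := 0) (Or.inl rfl) (B := bxz R ∩ H0 k) (G := G ∪ E0) (S := S)
    (fun e he => by
      rw [sh0]
      exact ⟨⟨(hS e he).1, (hS e he).2.1⟩, (hS e he).2.2⟩) h1
  rw [pc_zero, pc_zero] at h2
  exact h2

theorem pin_far {d : Dir} {R x : ℤ} {b : ℕ} (hx : |x| + 2 * b + 8 ≤ R) {v : Vtx}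
    (h : Pin d R x b v) : (vp v).2 ≤ 0 → (vp v).1 < -1 ∨ 1 < (vp v).1 := by
  have hx1 := le_abs_self x
  have hx2 := neg_abs_le x
  obtain ⟨-, h4, h5⟩ := h
  rw [abs_lt] at h4 h5
  unfold vp
  cases d <;> simp only [ctr] at h4 h5 <;> dsimp only <;> omega

theorem hbE_hon {k : ℕ} {d : Dir} {R x : ℤ} {b : ℕ} (hx : |x| + 2 * b + 2 * k + 8 ≤ R) {e : Edg}
    (he : e ∈ hbE d (ctr d R x).1 (ctr d R x).2 b) : e ∈ bxz R ∧ e ∈ H0 k ∧ Hon e ∧ e ∉ E0 := by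
  have h1 := hbE_ends (b := b) (by omega) e he
  have hx1 := le_abs_self x
  have hx2 := neg_abs_le x
  have key : (k : ℤ) + 2 ≤ e.1 + e.2.1 ∨ e.1 + e.2.1 + 2 ≤ 0 ∨ 0 ≤ dco e := by
    obtain ⟨p, q, _ | _⟩ := e
    · rw [dco_f]
      cases d <;> simp only [ctr, hbE, mem_RE_false] at he <;> dsimp only <;> omega
    · rw [dco_t]
      cases d <;> simp only [ctr, hbE, mem_RE_true] at he <;> dsimp only <;> omega
  refine ⟨⟨h1.1.2, h1.2.2⟩, ?_, ?_, ?_⟩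
  · rintro ⟨h2, h3, h4⟩
    omega
  · rintro ⟨h2, h3⟩
    omega
  · rintro ⟨h2, h3⟩
    omega

/-- key lemma: two different clusters of the box near a boundary point -/
theorem two_y {k : ℕ} {R x : ℤ} {d : Dir} {a b : ℕ} {G : Set Edg} (hab : a < b)
    (hx : |x| + 2 * b + 2 * k + 8 ≤ R) {u u' : Vtx} {y y' : ℤ × ℤ}
    (hu : nm u = R) (hud : onS d R u) (hux : |tc d u - x| ≤ a)
    (hu' : nm u' = R) (hud' : onS d R u') (hux' : |tc d u' - x| ≤ a)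
    (h : RB k R G (vp u) y) (hy : ∀ v, y = vp v → ¬ Pin d R x b v)
    (h' : RB k R G (vp u') y') (hy' : ∀ v, y' = vp v → ¬ Pin d R x b v)
    (hne : ¬ RB k R G (vp u) (vp u')) :
    H4 d (ctr d R x).1 (ctr d R x).2 a b G := by
  have hx0 := abs_nonneg x
  have hex : ∀ (u : Vtx) (y : ℤ × ℤ), nm u = R → onS d R u → |tc d u - x| ≤ a →
      RB k R G (vp u) y → (∀ v, y = vp v → ¬ Pin d R x b v) →
      ∃ z ∈ rimE d (ctr d R x).1 (ctr d R x).2 b,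
        Reach (G ∩ ↑(hbE d (ctr d R x).1 (ctr d R x).2 b)) u z := by
    intro u y hu hud hux h hy
    have hPu := pin_of hab hu hud hux
    obtain ⟨z, hz, hr⟩ := exit_y (S := (↑(hbE d (ctr d R x).1 (ctr d R x).2 b) : Set Edg))
      (P := Pin d R x b) (fun v hv => pin_far (by omega) hv)
      (fun e h1 h2 h3 => pin_edge (by omega) (by omega) e h1 h2 h3)
      (fun e he => (hbE_hon hx (Finset.mem_coe.1 he)).2.2.2) h hPu hy
    refine ⟨z, rim_of (by omega) hz ?_, hr⟩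
    rcases Relation.ReflTransGen.cases_tail hr with rfl | ⟨y, -, e, ⟨-, he⟩, hyz⟩
    · exact absurd hPu hz
    · exact ⟨e, Finset.mem_coe.1 he, by tauto⟩
  refine ⟨u, seg_of hud hux, u', seg_of hud' hux', hex u y hu hud hux h hy,
    hex u' y' hu' hud' hux' h' hy', fun hr => hne ?_⟩
  refine rb_of_reach (fun e he => ?_) hr
  have h1 := hbE_hon hx (Finset.mem_coe.1 he)
  exact ⟨h1.1, h1.2.1, h1.2.2.1⟩

theorem tip_npin {k : ℕ} {d : Dir} {R x : ℤ} {b : ℕ} {y : ℤ × ℤ} (hy : Tip k y)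
    (hk : (k : ℤ) + 1 + b < R) : ∀ v, y = vp v → ¬ Pin d R x b v := by
  rintro v rfl
  refine not_pin_of (k := k + 1) ?_ hk
  unfold Tip vp at hy
  dsimp only at hy
  rw [nm_le]
  omega

/-- the zipper -/
theorem zfar_y {k R ρ : ℕ} {G : Set Edg} (hρ : 256 * ρ ≤ R) (hρ1 : 1 ≤ ρ) (hk : 64 * k ≤ R)
    (hZ : ¬ ZCr {0} (ZB R) G (-(2 * R : ℤ)) (16 * ρ : ℕ) (R / 8 : ℕ)) {x y : ℤ × ℤ}
    (h : RB k R G x y) (hy : Tip k y) : ¬ (|x.1| ≤ 16 * ρ ∧ |x.2 + 2 * R| ≤ 16 * ρ) := by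
  rintro ⟨h1, h2⟩
  have hb : ((R / 8 : ℕ) : ℤ) * 8 ≤ R ∧ (R : ℤ) < ((R / 8 : ℕ) : ℤ) * 8 + 8 := by omega
  obtain ⟨z, hz, hr⟩ := exit_z (B' := ZB R)
    (P := fun z => |z.1| < (R / 8 : ℕ) ∧ |z.2 + 2 * R| < (R / 8 : ℕ)) (by
      intro g hg _ c x y hd hP
      obtain ⟨u, hu, hu2⟩ : ∃ u, (u = x ∨ u = y) ∧ (|u.1| < ((R / 8 : ℕ) : ℤ) ∧
          |u.2 + 2 * R| < ((R / 8 : ℕ) : ℤ)) := by
        rcases hP with hP | hP
        · exact ⟨x, Or.inl rfl, hP⟩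
        · exact ⟨y, Or.inr rfl, hP⟩
      have h3 := corner_pos hd hu
      rw [abs_lt, abs_lt] at hu2
      refine ⟨hg.1, ?_, ?_⟩
      · rw [abs_le]; omega
      · rw [abs_le]; omega) h ⟨by omega, by omega⟩ (by
      rintro ⟨-, h3⟩
      rw [abs_lt] at h3
      unfold Tip at hy
      omega)
  have hr' : RZ {0} (ZB R) G x z := by
    refine (rz_congr ?_).1 hr
    rintro e ⟨-, -, he⟩
    rw [abs_le] at he
    constructor
    · rintro (h3 | ⟨h3, -⟩)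
      · exact h3
      · omega
    · exact fun h3 => Or.inl h3
  refine hZ ⟨x, z, ?_, ?_, ?_, hr'⟩
  · push_cast; exact h1
  · rw [sub_neg_eq_add]
    push_cast
    exact h2
  · rw [sub_neg_eq_add]
    by_contra h3
    exact hz ⟨by omega, by omega⟩

theorem sgt (R : ℤ) : sg true R = R := rfl
theorem sgf (R : ℤ) : sg false R = -R := rfl

theorem corner_y {k R ρ : ℕ} {G : Set Edg} (hρ : 256 * ρ ≤ R) (hρ1 : 1 ≤ ρ) (hk : 64 * k ≤ R)
    (hC : ¬ ∃ s1 s2 : Bool, Crs (sg s1 R) (sg s2 R) (4 * ρ) (R / 4) G)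
    {d : Dir} {v : Vtx} {y : ℤ × ℤ} (hv : nm v = R) (hvd : onS d R v)
    (h : RB k R G (vp v) y) (hy : Tip k y)
    (hfar : ¬ (|(vp v).1| ≤ 16 * ρ ∧ |(vp v).2 + 2 * R| ≤ 16 * ρ)) : |tc d v| + 4 * ρ < R := by
  by_contra hcon
  rw [not_lt] at hcon
  have hv' := (nm_eq hv).1
  rw [abs_le, abs_le] at hfar
  unfold vp at hfar
  dsimp only at hfar
  obtain ⟨s1, s2, h0, h1, h2⟩ : ∃ s1 s2 : Bool, (s1 = true ∨ s2 = false) ∧
      |v.1 - sg s1 R| ≤ 4 * ρ ∧ |v.2 - sg s2 R| ≤ 4 * ρ := by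
    rcases abs_cases (tc d v) with ⟨ha, -⟩ | ⟨ha, -⟩ <;> rw [ha] at hcon <;> cases d <;>
      simp only [onS, tc] at hvd hcon
    · exact ⟨true, false, Or.inl rfl, by rw [sgt, abs_le]; omega, by rw [sgf, abs_le]; omega⟩
    · exact ⟨true, true, Or.inl rfl, by rw [sgt, abs_le]; omega, by rw [sgt, abs_le]; omega⟩
    · exfalso; omega
    · exact ⟨true, true, Or.inl rfl, by rw [sgt, abs_le]; omega, by rw [sgt, abs_le]; omega⟩
    · exact ⟨false, false, Or.inr rfl, by rw [sgf, abs_le]; omega, by rw [sgf, abs_le]; omega⟩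
    · exfalso; omega
    · exact ⟨false, false, Or.inr rfl, by rw [sgf, abs_le]; omega, by rw [sgf, abs_le]; omega⟩
    · exact ⟨true, false, Or.inl rfl, by rw [sgt, abs_le]; omega, by rw [sgf, abs_le]; omega⟩
  apply hC
  have hsg : (sg s1 (R : ℤ) = R ∧ sg s2 (R : ℤ) = R) ∨ (sg s1 (R : ℤ) = R ∧ sg s2 (R : ℤ) = -R) ∨
      (sg s1 (R : ℤ) = -R ∧ sg s2 (R : ℤ) = -R) := by
    cases s1 <;> cases s2 <;> simp [sg] at h0 ⊢
  have hR8 : (((R / 4 : ℕ) : ℤ)) * 4 ≤ R ∧ (R : ℤ) < ((R / 4 : ℕ) : ℤ) * 4 + 4 := by omega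
  obtain ⟨z, hz, hr⟩ := exit_y (k := k) (R := R) (G := G) (y := y)
    (P := fun v => |v.1 - sg s1 R| < (R / 4 : ℕ) ∧ |v.2 - sg s2 R| < (R / 4 : ℕ))
    (S := {e | e ∉ E0}) (u := v)
    (by
      rintro w ⟨h3, h4⟩
      rw [abs_lt] at h3 h4
      unfold vp
      dsimp only
      omega) (by
      rintro e - - h4 ⟨h5, h6⟩
      obtain ⟨p, q, _ | _⟩ := e <;>
        simp only [src, tgt, Bool.false_eq_true, if_false, if_true, dco_f, dco_t] at h4 h5 h6 <;>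
        simp only [abs_lt] at h4 <;> omega) (fun e he => he) h ⟨by omega, by omega⟩ (by
      rintro w hw ⟨h3, h4⟩
      rw [abs_lt] at h3 h4
      subst hw
      unfold Tip vp at hy
      dsimp only at hy
      omega)
  refine ⟨s1, s2, v, z, ?_, ?_, hr.mono Set.inter_subset_left⟩
  · rw [abs_le] at h1 h2
    unfold inR
    push_cast
    omega
  · rw [abs_lt, abs_lt] at hz
    omega

/-- different clusters land far from each other -/
theorem far_y {k R ρ l : ℕ} {G : Set Edg} (hl : 1 ≤ l) (hlρ : 64 * l ≤ ρ)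
    (hρ : 64 * ρ ≤ R) (hk : 64 * k ≤ R) (hkρ : k ≤ l) {d : Dir}
    (hB : ¬ ∃ (d : Dir) (i : ℤ), |(l : ℤ) * i| + ρ ≤ R ∧
      H4 d (ctr d R (l * i)).1 (ctr d R (l * i)).2 (8 * l) ρ G) {u v : Vtx} {w w' : ℤ × ℤ}
    (hu : nm u = R) (hud : onS d R u) (ht : |tc d u| + 4 * ρ < R) (hv : nm v = R)
    (hw : Tip k w) (hw' : Tip k w') (h : RB k R G (vp u) w)
    (h' : RB k R G (vp v) w') (hne : ¬ RB k R G (vp u) (vp v)) :
    ¬ (|u.1 - v.1| ≤ l ∧ |u.2 - v.2| ≤ l) := by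
  rintro ⟨h1, h2⟩
  obtain ⟨hvd, hvt⟩ := same_side (l := l) (ρ := ρ) hu hud ht (by omega) (by omega) hv h1 h2
  obtain ⟨e1, e2⟩ := ediv_near (t := tc d u) hl
  rw [abs_le] at hvt
  have ht2 := abs_lt.1 (by omega : |tc d u| < R - 4 * ρ)
  have hx : |(l : ℤ) * (tc d u / l)| + 2 * ρ + 2 * k + 8 ≤ R := by
    have : |(l : ℤ) * (tc d u / l)| ≤ R - 2 * ρ - 2 * k - 8 := by rw [abs_le]; omega
    omega
  refine hB ⟨d, tc d u / l, by omega, ?_⟩
  refine two_y (k := k) (y := w) (y' := w') (by omega) hx hu hud ?_ hv hvd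
    ?_ h (tip_npin hw (by omega)) h' (tip_npin hw' (by omega)) hne
  · rw [abs_le]; push_cast; omega
  · rw [abs_le]; push_cast; omega

/-- near a landing point every cluster reaching far is the landing cluster -/
theorem near_y {k R r l : ℕ} {G : Set Edg} (hr : 1 ≤ r) (hrl : 64 * r ≤ l)
    (hl : 64 * l ≤ R) (hk : 64 * k ≤ R) (hkr : k ≤ r) {d : Dir}
    (hB : ¬ ∃ (d : Dir) (i : ℤ), |(r : ℤ) * i| + (l / 4 : ℕ) ≤ R ∧
      H4 d (ctr d R (r * i)).1 (ctr d R (r * i)).2 (8 * r) (l / 4) G) {y u : Vtx} {w w' : ℤ × ℤ}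
    (hy : nm y = R) (hyd : onS d R y) (ht : |tc d y| + l < R) (hu : nm u = R)
    (hud : onS d R u) (hut : |tc d u - tc d y| ≤ r) (hw' : Tip k w')
    (h : RB k R G (vp y) w') (hw : ∀ v, w = vp v → ¬ (|v.1 - y.1| ≤ (l / 2 : ℕ) ∧
      |v.2 - y.2| ≤ (l / 2 : ℕ))) (h' : RB k R G (vp u) w) :
    RB k R G (vp u) (vp y) := by
  by_contra hne
  obtain ⟨e1, e2⟩ := ediv_near (t := tc d y) hr
  rw [abs_le] at hut
  have ht2 := abs_lt.1 (by omega : |tc d y| < R - l)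
  have hl4 : ((l / 4 : ℕ) : ℤ) * 4 ≤ l ∧ (l : ℤ) < ((l / 4 : ℕ) : ℤ) * 4 + 4 := by omega
  have hl2 : ((l / 2 : ℕ) : ℤ) * 2 ≤ l ∧ (l : ℤ) < ((l / 2 : ℕ) : ℤ) * 2 + 2 := by omega
  have hx : |(r : ℤ) * (tc d y / r)| + 2 * (l / 4 : ℕ) + 2 * k + 8 ≤ R := by
    have : |(r : ℤ) * (tc d y / r)| ≤ R - 2 * (l / 4 : ℕ) - 2 * k - 8 := by rw [abs_le]; omega
    omega
  refine hB ⟨d, tc d y / r, by omega, ?_⟩
  refine two_y (k := k) (y := w) (y' := w') (by omega) hx hu hud ?_ hy hyd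
    ?_ h' ?_ h (tip_npin hw' (by omega)) hne
  · rw [abs_le]; push_cast; omega
  · rw [abs_le]; push_cast; omega
  · rintro v hv ⟨-, h3, h4⟩
    apply hw v hv
    rw [abs_lt] at h3 h4
    rw [abs_le, abs_le]
    cases d <;> simp only [ctr, onS, tc] at * <;> omega

/-- a corner of class `1` away from the zipper is not a vertex -/
theorem out_par {x : ℤ × ℤ} {e : Edg} (h : Cor {0} 1 e x) {v : Vtx} (hx : x = vp v)
    (hf : (vp v).2 ≤ 0 → (vp v).1 < -1 ∨ 1 < (vp v).1) : False := by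
  subst hx
  have hh : Hon e := by
    obtain ⟨-, y, h1 | h1⟩ := h
    · exact hon_of h1 (Or.inl rfl) hf
    · exact hon_of h1 (Or.inr rfl) hf
  have h2 := cor_par (Or.inr rfl) hh h
  unfold vp at h2
  dsimp only at h2
  omega

end TLAND

end Pool.Agent.W808.KY
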