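import Pool.Agent.W808.KY.T_LAND1

/-! LAND, part 2: the deterministic part (helper212). -/

set_option autoImplicit false

namespace Pool.Agent.W808.KY
open H974 H906.Cyl
open H12S (Dir hbE segD rimE H4 Crs Nr sqE)
open Pool.Agent.H160R2.ML (nm)
open Pool.Agent.H160R2.MU (Cel csq cpos prd shf BxS Bxs EP inSq PC Bad Cc)
open Pool.Agent.W801.OU (zp nrm Dg LZ RZ Cor bxz Zn)
open Pool.Agent.W808.KU (AdmS)
open Pool.Agent.W808.KZ (vp fp ZCr)

namespace TLAND
open Pool.Agent.H160R2.MU.TLAND (nm_le nm_eq tc ediv_near sg cl cl_lt onS inSq_cl side_of ctr Pin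
  pin_edge hbE_ends rim_of pin_of seg_of not_pin_of same_side of_inSq inSq_near inSq_same cpos_inj
  BadL)
open Pool.Agent.W808.KZ.TLAND (dco_f dco_t pc pc_zero pc_one sh sh0 Gc mem_Gc Hon hon_of exit_c
  rz_of_reach exit_z eqv_iff eqv_mono rz_mono cor_par touch Tch ZB rz_congr mem_box_iff not_half
  corner_pos)

theorem rb_symm {k : ℕ} {R : ℤ} {G : Set Edg} {x y : ℤ × ℤ} (h : RB k R G x y) : RB k R G y x :=
  Relation.EqvGen.symm _ _ h

theorem rb_trans {k : ℕ} {R : ℤ} {G : Set Edg} {x y z : ℤ × ℤ} (h : RB k R G x y)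
    (h' : RB k R G y z) : RB k R G x z :=
  Relation.EqvGen.trans _ _ _ h h'

/-- a point near a landing point is away from the zipper -/
theorem side_far {R l : ℤ} {d : Dir} {y v : Vtx} (hy : nm y = R) (hyd : onS d R y)
    (ht : |tc d y| + 2 * l + 8 < R) (h1 : |v.1 - y.1| ≤ l) (h2 : |v.2 - y.2| ≤ l) :
    (vp v).2 ≤ 0 → (vp v).1 < -1 ∨ 1 < (vp v).1 := by
  have hy' := (nm_eq hy).1
  have ht2 := abs_lt.1 (show |tc d y| < R - 2 * l - 8 by omega)
  clear ht
  rw [abs_le] at h1 h2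
  unfold vp
  dsimp only
  cases d <;> simp only [onS, tc] at * <;> omega

theorem det_y (hADJ : S_ADJ) (hNC : S_NC) {N r l ρ k : ℕ} {G : Set Edg} (hk : 2 ≤ k)
    (hkr : k ≤ r) (hr : 1 ≤ r) (hrl : 64 * r ≤ l) (hlρ : 64 * l ≤ ρ) (hρ : 256 * ρ ≤ N * r)
    (hkR : 64 * k ≤ N * r) (hB : ¬ BadL r l ρ (N * r) G)
    (hZ : ¬ ZCr {0} (ZB (N * r)) G (-(2 * (N * r : ℕ) : ℤ)) (16 * ρ : ℕ) (N * r / 8 : ℕ))
    (hS : SEy k (N * r : ℕ) G) : ∃ c : Fin k → Cel, AdmS N k c ∧ LandY N r k c G := by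
  obtain ⟨hS1, -⟩ := hS
  have hB1 : ¬ ∃ s1 s2 : Bool, Crs (sg s1 (N * r : ℕ)) (sg s2 (N * r : ℕ)) (4 * ρ) (N * r / 4) G :=
    fun h => hB (Or.inl h)
  have hB2 := fun h => hB (Or.inr (Or.inl h))
  have hB3 := fun h => hB (Or.inr (Or.inr h))
  obtain ⟨S, hSc, hSk, hSn⟩ := hNC (N * r) k G (by omega) (by omega)
  obtain ⟨T, hTS, hTc⟩ := Finset.exists_subset_card_eq hSc
  set τ : Fin k → ℕ := fun a => T.orderEmbOfFin hTc a with hτ
  have hτm : ∀ a, τ a ∈ S := fun a => hTS (Finset.orderEmbOfFin_mem T hTc a)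
  have hτi : Function.Injective τ := fun a b h => (T.orderEmbOfFin hTc).injective h
  have hτk : ∀ a, τ a < 2 * k + 1 := fun a => hSk _ (hτm a)
  have hτa : ∀ a b, (τ a + 1) % (2 * k + 1) ≠ τ b := by
    intro a b hab
    obtain ⟨x, y, e, e', he, -, hx, hy, h1, -⟩ := hADJ (N * r) k G (by omega) (by omega) hS1
      (τ a) ((τ a + 1) % (2 * k + 1)) (hτk a) rfl
    rcases h1 with ⟨-, h1⟩ | ⟨h1, -⟩
    · rw [hab] at hy
      exact hSn _ (hτm b) y e he h1 hy
    · exact hSn _ (hτm a) x e he h1 hx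
  have hy0 : ∀ a : Fin k, ∃ (y : Vtx) (d : Dir), nm y = ((N * r : ℕ) : ℤ) ∧
      onS d (N * r : ℕ) y ∧ |tc d y| + 4 * ρ < (N * r : ℕ) ∧
      RB k (N * r : ℕ) G (scy 0 k 0 (τ a)) (vp y) := by
    intro a
    obtain ⟨x, y, e, e', he, he', hx, hy, h1, h2⟩ := hADJ (N * r) k G (by omega) (by omega) hS1
      (τ a) ((τ a + 1) % (2 * k + 1)) (hτk a) rfl
    have h3 := zfar_y hρ (by omega) hkR hZ (rb_symm hx) (tip_scy (hτk a))
    rcases touch (by omega) he he' h1 h2 (by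
      rintro ⟨h4, h5⟩
      exact h3 ⟨by omega, by omega⟩) with ⟨v, p, hxv, -, -, -, hnm, -, -⟩ |
      ⟨v, p, -, -, -, h4, -, -, -⟩
    · subst hxv
      obtain ⟨d, hd⟩ := side_of hnm
      exact ⟨v, d, hnm, hd, corner_y hρ (by omega) hkR hB1 hnm hd (rb_symm hx)
        (tip_scy (hτk a)) h3, hx⟩
    · exact absurd hx (hSn _ (hτm a) x e he h4)
  choose y d hy hd ht hc using hy0
  have hne : ∀ a b : Fin k, a ≠ b → ¬ RB k (N * r : ℕ) G (vp (y a)) (vp (y b)) := by
    intro a b hab h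
    refine hS1 (τ a) (τ b) (hτk a) (hτk b) (fun e => hab (hτi e)) ?_
    exact rb_trans (rb_trans (hc a) h) (rb_symm (hc b))
  have hsep : ∀ a b : Fin k, a ≠ b →
      ¬ (|(y a).1 - (y b).1| ≤ l ∧ |(y a).2 - (y b).2| ≤ l) := by
    intro a b hab
    exact far_y (by omega) hlρ (by omega) hkR (by omega) hB2 (hy a)
      (hd a) (ht a) (hy b) (tip_scy (hτk a)) (tip_scy (hτk b)) (rb_symm (hc a)) (rb_symm (hc b))
      (hne a b hab)
  have hin : ∀ a : Fin k, inSq r (csq N (cl (d a) (tc (d a) (y a) / r))) (y a) := fun a =>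
    inSq_cl hr (hd a)
  have hcoarse : ∀ a b : Fin k, a ≠ b →
      2 ≤ |(csq N (cl (d a) (tc (d a) (y a) / r))).1 - (csq N (cl (d b) (tc (d b) (y b) / r))).1| ∨
      2 ≤ |(csq N (cl (d a) (tc (d a) (y a) / r))).2 -
        (csq N (cl (d b) (tc (d b) (y b) / r))).2| := by
    intro a b hab
    by_contra hcon
    rw [not_or, not_le, not_le] at hcon
    have h1 := inSq_near (hin a) (hin b) (by omega) (by omega)
    exact hsep a b hab ⟨by omega, by omega⟩
  have hr0 : (0 : ℤ) < r := by exact_mod_cast hr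
  have hx : ∀ a : Fin k, -(N : ℤ) + 6 ≤ tc (d a) (y a) / r ∧ tc (d a) (y a) / r + 7 ≤ N := by
    intro a
    have h3 := abs_lt.1 (show |tc (d a) (y a)| < ((N * r : ℕ) : ℤ) - 4 * ρ by
      have := ht a
      omega)
    push_cast at h3
    have h4 : 64 * 64 * r ≤ ρ := by omega
    have h4' : (64 * 64 * r : ℤ) ≤ ρ := by exact_mod_cast h4
    refine ⟨?_, ?_⟩
    · rw [Int.le_ediv_iff_mul_le hr0]
      linarith [h3.1]
    · have h5 : tc (d a) (y a) / r < N - 6 := by
        rw [Int.ediv_lt_iff_lt_mul hr0]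
        linarith [h3.2]
      omega
  have hrange : ∀ a : Fin k, (cl (d a) (tc (d a) (y a) / r)).1 < 4 ∧
      -(N : ℤ) ≤ (cl (d a) (tc (d a) (y a) / r)).2 ∧
      (cl (d a) (tc (d a) (y a) / r)).2 < N := by
    intro a
    obtain ⟨h1, h2⟩ := cl_lt (d a) (tc (d a) (y a) / r)
    have h3 := hx a
    refine ⟨h1, ?_, ?_⟩
    · rw [h2]; omega
    · rw [h2]; omega
  have hadm : ∀ a : Fin k, (cl (d a) (tc (d a) (y a) / r)).1 < 4 ∧
      -(N : ℤ) + 6 ≤ (cl (d a) (tc (d a) (y a) / r)).2 ∧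
      (cl (d a) (tc (d a) (y a) / r)).2 + 7 ≤ N := by
    intro a
    obtain ⟨h1, h2⟩ := cl_lt (d a) (tc (d a) (y a) / r)
    have h3 := hx a
    refine ⟨h1, ?_, ?_⟩
    · rw [h2]; omega
    · rw [h2]; omega
  set C : Fin k → Cel := fun a => cl (d a) (tc (d a) (y a) / r) with hC
  set f : Fin k → ℤ := fun a => cpos N (C a) with hf
  have hinj : Function.Injective f := by
    intro a b hab
    by_contra hne'
    have h1 : C a = C b := cpos_inj (hrange a) (hrange b) hab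
    have h2 := hcoarse a b hne'
    have h3 : csq N (cl (d a) (tc (d a) (y a) / r)) = csq N (cl (d b) (tc (d b) (y b) / r)) :=
      congrArg (csq N) h1
    rw [h3, sub_self, sub_self] at h2
    simp at h2
  have hst : StrictMono (f ∘ Tuple.sort f) :=
    (Tuple.monotone_sort f).strictMono_of_injective (hinj.comp (Tuple.sort f).injective)
  have hσ : Function.Injective (Tuple.sort f) := (Tuple.sort f).injective
  have hl2 : ((l / 2 : ℕ) : ℤ) * 2 ≤ l ∧ (l : ℤ) < ((l / 2 : ℕ) : ℤ) * 2 + 2 := by omega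
  -- a cluster of the cell `a` which reaches far is the cluster of `y a`
  have hnear : ∀ (a : Fin k) (u : Vtx) (w : ℤ × ℤ), inSq r (csq N (C a)) u →
      nm u = ((N * r : ℕ) : ℤ) → (∀ v, w = vp v → ¬ (|v.1 - (y a).1| ≤ (l / 2 : ℕ) ∧
        |v.2 - (y a).2| ≤ (l / 2 : ℕ))) → RB k (N * r : ℕ) G (vp u) w →
      RB k (N * r : ℕ) G (vp u) (vp (y a)) := by
    intro a u w hu hnu hw h
    obtain ⟨hu1, hu2⟩ := of_inSq hr hnu hu
    refine near_y (l := l) (w := w) (w' := scy 0 k 0 (τ a)) hr hrl (by omega) hkR hkr hB3 (hy a)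
      (hd a) ?_ hnu hu1 hu2 (tip_scy (hτk a)) (rb_symm (hc a)) hw h
    have := ht a
    omega
  -- the tip is far
  have htip : ∀ (a : Fin k) (w : ℤ × ℤ), Tip k w → ∀ v, w = vp v →
      ¬ (|v.1 - (y a).1| ≤ (l / 2 : ℕ) ∧ |v.2 - (y a).2| ≤ (l / 2 : ℕ)) := by
    rintro a w hw v rfl ⟨h1, h2⟩
    have h3 := (nm_eq (hy a)).2
    unfold Tip vp at hw
    dsimp only at hw
    rw [abs_le] at h1 h2
    omega
  refine ⟨fun a => C (Tuple.sort f a), ⟨fun a => hadm _, fun a b hab => hst hab, fun a b hab =>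
    hcoarse _ _ (fun e => hab (hσ e))⟩, fun a => τ (Tuple.sort f a), fun a b hab => hσ (hτi hab),
    fun a => hτk _, fun a b => hτa _ _, fun a => ⟨y (Tuple.sort f a), ⟨hin _, hy _⟩, hc _⟩, ?_⟩
  rintro a v ⟨hv, hnv⟩
  replace hv : inSq r (csq N (C (Tuple.sort f a))) v := hv
  refine ⟨?_, ?_, ?_⟩
  · -- another sector
    intro e he hea h
    have h1 := hnear _ v _ hv hnv (htip _ _ (tip_scy he)) (rb_symm h)
    refine hS1 e (τ (Tuple.sort f a)) he (hτk _) hea ?_
    exact rb_trans (rb_trans h h1) (rb_symm (hc _))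
  · -- another cell
    rintro b w hba ⟨hw, hnw⟩ h
    replace hw : inSq r (csq N (C (Tuple.sort f b))) w := hw
    have hab' : Tuple.sort f a ≠ Tuple.sort f b := fun e => hba (hσ e).symm
    generalize Tuple.sort f a = a' at *
    generalize Tuple.sort f b = b' at *
    have hsa := inSq_same hv (hin a')
    have hsb := inSq_same hw (hin b')
    have hs := hsep a' b' hab'
    have h1 : RB k (N * r : ℕ) G (vp v) (vp (y a')) := by
      refine hnear a' v (vp w) hv hnv ?_ (rb_symm h)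
      rintro w' hw' ⟨h3, h4⟩
      have hww : w = w' := by
        unfold vp at hw'
        rw [Prod.mk.injEq] at hw'
        apply Prod.ext <;> omega
      subst hww
      apply hs
      rw [abs_le] at h3 h4 hsb ⊢
      rw [abs_le] at hsb ⊢
      omega
    have h2 : RB k (N * r : ℕ) G (vp w) (vp (y b')) := by
      refine hnear b' w (vp v) hw hnw ?_ h
      rintro v' hv' ⟨h3, h4⟩
      have hvv : v = v' := by
        unfold vp at hv'
        rw [Prod.mk.injEq] at hv'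
        apply Prod.ext <;> omega
      subst hvv
      apply hs
      rw [abs_le] at h3 h4 hsa ⊢
      rw [abs_le] at hsa ⊢
      omega
    exact hne a' b' hab' (rb_trans (rb_symm h1) (rb_trans (rb_symm h) h2))
  · -- the outside in class `1`
    intro x e he hx h
    have h1 : RB k (N * r : ℕ) G (vp v) (vp (y (Tuple.sort f a))) := by
      refine hnear _ v x hv hnv ?_ (rb_symm h)
      rintro v' hv' ⟨h3, h4⟩
      refine out_par hx hv' (side_far (hy (Tuple.sort f a)) (hd _) (l := (l / 2 : ℕ)) ?_ h3 h4)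
      have := ht (Tuple.sort f a)
      omega
    refine hSn _ (hτm (Tuple.sort f a)) x e he hx ?_
    exact rb_trans (rb_trans (hc _) (rb_symm h1)) (rb_symm h)

end TLAND

end Pool.Agent.W808.KY
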