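import Pool.Agent.W808.KY.T_LAND2

/-! LAND, part 3: monotonicity, locality, probabilities (helper212). -/

set_option autoImplicit false

namespace Pool.Agent.W808.KY
open H974 H906.Cyl
open H12S (Dir hbE segD rimE H4 Crs Nr sqE)
open Pool.Agent.H160R2.ML (nm)
open Pool.Agent.H160R2.MU (Cel csq cpos prd shf BxS Bxs EP inSq PC Bad Cc)
open Pool.Agent.W801.OU (zp nrm Dg LZ RZ Cor bxz Zn)
open Pool.Agent.W808.KU (AdmS)
open Pool.Agent.W808.KZ (vp fp ZCr)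

namespace TLAND
open Pool.Agent.H160R2.MU.TLAND (nm_le nm_eq tc ediv_near sg ctr BadL bad_mono ok2 h4_sum)
open Pool.Agent.W808.KZ.TLAND (dco_f dco_t eqv_iff eqv_mono rz_mono ZB rz_congr mem_box_iff
  not_half bxz_mono)
open H12S (Win win_half H4_bound win_arm_of win_blk)
open H12S.EP2 (pr_biUnion choose_M)

/-! ### monotonicity and locality -/

theorem sey_mono {k : ℕ} {R R' : ℤ} (hR : R ≤ R') {G : Set Edg} (h : SEy k R' G) :
    SEy k R G := by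
  refine ⟨fun c d hc hd hcd hr => h.1 c d hc hd hcd
    (rz_mono (Set.inter_subset_inter_left _ (bxz_mono hR)) hr), fun c hc => ?_⟩
  obtain ⟨x, hx, e, he, hxe⟩ := h.2 c hc
  by_contra hA
  have hA' : ∀ y : ℤ × ℤ, RB k R G (scy 0 k 0 c) y → ∀ e : Edg, e ∉ bxz R →
      ¬ (Cor {0} 0 e y ∨ Cor {0} 1 e y) := fun y hy e he h1 => hA ⟨y, hy, e, he, h1⟩
  have key : ∀ a b : ℤ × ℤ, LZ {0} (bxz R' ∩ H0 k) (G ∪ E0) a b →
      (RB k R G (scy 0 k 0 c) a ↔ RB k R G (scy 0 k 0 c) b) := by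
    rintro a b ⟨g, ⟨hg1, hgH⟩, hg2, hg3⟩
    by_cases hgR : g ∈ bxz R
    · have hl : RB k R G a b := Relation.EqvGen.rel _ _ ⟨g, ⟨hgR, hgH⟩, hg2, hg3⟩
      exact ⟨fun h1 => Relation.EqvGen.trans _ _ _ h1 hl,
        fun h1 => Relation.EqvGen.trans _ _ _ h1 (Relation.EqvGen.symm _ _ hl)⟩
    · have hca : Cor {0} 0 g a ∨ Cor {0} 1 g a := by
        rcases hg3 with ⟨-, h1⟩ | ⟨-, h1⟩
        · exact Or.inl ⟨hg2, b, Or.inl h1⟩
        · exact Or.inr ⟨hg2, b, Or.inl h1⟩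
      have hcb : Cor {0} 0 g b ∨ Cor {0} 1 g b := by
        rcases hg3 with ⟨-, h1⟩ | ⟨-, h1⟩
        · exact Or.inl ⟨hg2, a, Or.inr h1⟩
        · exact Or.inr ⟨hg2, a, Or.inr h1⟩
      exact ⟨fun h1 => absurd hca (hA' a h1 g hgR), fun h1 => absurd hcb (hA' b h1 g hgR)⟩
  have h1 := (eqv_iff _ key hx).1 (Relation.EqvGen.refl _)
  exact hA' x h1 e (fun h2 => he (bxz_mono hR h2)) hxe

theorem sey_local {k R : ℕ} (F : Finset Edg) :
    SEy k (R : ℤ) (↑F : Set Edg) ↔ SEy k (R : ℤ) (↑(F ∩ boxE R) : Set Edg) := by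
  have h : ∀ e ∈ bxz (R : ℤ) ∩ H0 k, (e ∈ (↑F : Set Edg) ∪ E0 ↔
      e ∈ (↑(F ∩ boxE R) : Set Edg) ∪ E0) := by
    rintro e ⟨he, -⟩
    rw [Set.mem_union, Set.mem_union, Finset.mem_coe, Finset.mem_coe, Finset.mem_inter]
    have := mem_box_iff.2 he
    tauto
  have h2 : ∀ x y : ℤ × ℤ, RB k (R : ℤ) (↑F : Set Edg) x y ↔
      RB k (R : ℤ) (↑(F ∩ boxE R) : Set Edg) x y := fun x y => rz_congr h
  unfold SEy
  simp only [h2]

theorem zcr_local {R : ℕ} (hR : 64 ≤ R) {t a b : ℤ} {G G' : Set Edg}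
    (h : ∀ e : Edg, e ∉ boxE (R / 2) → e ∈ boxE R → (e ∈ G ↔ e ∈ G')) :
    ZCr {0} (ZB R) G t a b ↔ ZCr {0} (ZB R) G' t a b := by
  have h2 : ∀ x y : ℤ × ℤ, RZ {0} (ZB R) G x y ↔ RZ {0} (ZB R) G' x y := by
    intro x y
    apply rz_congr
    rintro e ⟨he1, he2, he3⟩
    refine h e (not_half (b := (R : ℤ) - 2 * (R / 8 : ℕ) - 2) ?_ (by omega)) (mem_box_iff.2 he1)
    rw [abs_le] at he2 he3
    have h5 := neg_abs_le e.1
    have h6 := le_abs_self e.2.1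
    obtain ⟨p, q, _ | _⟩ := e
    · rw [dco_f] at he3
      dsimp only at he2 h5 h6 ⊢
      omega
    · rw [dco_t] at he3
      dsimp only at he2 h5 h6 ⊢
      omega
  unfold ZCr
  simp only [h2]

/-- the bad event -/
def BadY (r l ρ R : ℕ) (G : Set Edg) : Prop :=
  BadL r l ρ R G ∨ ZCr {0} (ZB R) G (-(2 * R : ℤ)) (16 * ρ : ℕ) (R / 8 : ℕ)

theorem prob_y (hZC : KZ.S_ZC) (k : ℕ) (δ : ℝ) (hδ : 0 < δ) : ∃ N A B : ℕ, k + 16 ≤ N ∧
    64 ≤ A ∧ 64 ≤ B ∧ 256 * (B * A) ≤ N ∧ 64 * k ≤ N ∧ ∀ r : ℕ, 1 ≤ r →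
    Pr (fun _ => (1 / 2 : ℝ)) (boxE (N * r))
      (fun F => BadY r (A * r) (B * (A * r)) (N * r) (↑F : Set Edg)) ≤ δ := by
  obtain ⟨κ, hκ, hw⟩ := win_half
  obtain ⟨C1, c1, hC1, hc1, harm⟩ := win_arm_of
    (by intro q κ n h m hm hmn c1 c2 S; exact win_blk h hm hmn c1 c2 S) κ hκ
  obtain ⟨C2, c2, hC2, hc2, hH4⟩ := H4_bound κ hκ
  have hδ3 : 0 < δ / 4 := by positivity
  obtain ⟨K, hK, hZ⟩ := hZC (δ / 4) hδ3
  obtain ⟨M1, hM1, hM1'⟩ := choose_M 1 0 C1 4 (by positivity) le_rfl hC1.le (by norm_num) hc1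
    hδ3 (32 * K + k + 64)
  obtain ⟨B, hB, hB'⟩ := choose_M (8 * (4 * M1)) 4 C2 8 (by positivity) (by positivity) hC2.le
    (by norm_num) hc2 hδ3 64
  obtain ⟨M3, hM3, hM3'⟩ := choose_M (32 * (4 * M1 * B)) 4 C2 8 (by positivity) (by positivity)
    hC2.le (by norm_num) hc2 hδ3 16
  have e64 : 64 * 64 ≤ B * (4 * M3) := Nat.mul_le_mul hB (by omega)
  have eN : 4 * M1 * B * (4 * M3) = (4 * M1) * (B * (4 * M3)) := by ring
  have eN2 : (4 * (k + 64)) * (B * (4 * M3)) ≤ 4 * M1 * B * (4 * M3) := by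
    rw [eN]
    exact Nat.mul_le_mul_right _ (by omega)
  refine ⟨4 * M1 * B * (4 * M3), 4 * M3, B, by nlinarith, by omega, hB, by nlinarith,
    by nlinarith, ?_⟩
  intro r hr
  set N := 4 * M1 * B * (4 * M3) with hN
  have hl1 : 1 ≤ 4 * M3 * r := Nat.mul_pos (by omega) (by omega)
  have hpos : 1 ≤ B * (4 * M3 * r) := Nat.mul_pos (by omega) hl1
  -- corners
  have s1 : Pr (fun _ => (1 / 2 : ℝ)) (boxE (N * r)) (fun F => ∃ s1 s2 : Bool,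
      Crs (sg s1 (N * r : ℕ)) (sg s2 (N * r : ℕ)) (4 * (B * (4 * M3 * r))) (N * r / 4)
        (↑F : Set Edg)) ≤ δ / 4 := by
    have hR4 : N * r / 4 = M1 * (B * (4 * M3 * r)) := by
      rw [hN, show 4 * M1 * B * (4 * M3) * r = 4 * (M1 * (B * (4 * M3 * r))) by ring]
      omega
    have h1 : Pr (fun _ => (1 / 2 : ℝ)) (boxE (N * r)) (fun F => ∃ s1 s2 : Bool,
        Crs (sg s1 (N * r : ℕ)) (sg s2 (N * r : ℕ)) (4 * (B * (4 * M3 * r))) (N * r / 4)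
        (↑F : Set Edg)) ≤ Pr (fun _ => (1 / 2 : ℝ)) (boxE (N * r)) (fun F =>
          ∃ p ∈ (Finset.univ : Finset (Bool × Bool)),
          Crs (sg p.1 (N * r : ℕ)) (sg p.2 (N * r : ℕ)) (4 * (B * (4 * M3 * r))) (N * r / 4)
            (↑F : Set Edg)) := by
      refine Pr_mono ok2 fun F _ hF => ?_
      obtain ⟨a, b, h⟩ := hF
      exact ⟨(a, b), Finset.mem_univ _, h⟩
    refine h1.trans ((pr_biUnion (by norm_num) (by norm_num) _ _ _).trans ?_)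
    have h2 : ∀ p ∈ (Finset.univ : Finset (Bool × Bool)), Pr (fun _ => (1 / 2 : ℝ)) (boxE (N * r))
        (fun F => Crs (sg p.1 (N * r : ℕ)) (sg p.2 (N * r : ℕ)) (4 * (B * (4 * M3 * r)))
          (N * r / 4) (↑F : Set Edg)) ≤ C1 * (4 / (M1 : ℝ)) ^ c1 := by
      intro p _
      refine ((harm (1 / 2) (N * r / 4) (hw _) (4 * (B * (4 * M3 * r))) (N * r / 4) (by omega) ?_
        le_rfl (sg p.1 (N * r : ℕ)) (sg p.2 (N * r : ℕ)) (boxE (N * r))).1).trans_eq ?_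
      · rw [hR4]
        exact Nat.mul_le_mul_right _ (by omega)
      · rw [hR4]
        have hp' : (0 : ℝ) < (B * (4 * M3 * r) : ℕ) := by exact_mod_cast hpos
        have hm' : (0 : ℝ) < M1 := by exact_mod_cast (by omega : 0 < M1)
        congr 2
        rw [Nat.cast_mul 4, Nat.cast_mul M1]
        generalize ((B * (4 * M3 * r) : ℕ) : ℝ) = t at hp'
        field_simp
        norm_num
    refine (Finset.sum_le_sum h2).trans ?_
    rw [Finset.sum_const, nsmul_eq_mul]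
    refine le_trans (le_of_eq ?_) hM1'
    have hm' : (0 : ℝ) < M1 := by exact_mod_cast (by omega : 0 < M1)
    have hcard : ((Finset.univ : Finset (Bool × Bool)).card : ℝ) = 4 := by norm_num
    rw [hcard, Real.rpow_add (by positivity), Real.rpow_one]
    field_simp
    ring
  -- the zipper
  have s0 : Pr (fun _ => (1 / 2 : ℝ)) (boxE (N * r)) (fun F =>
      ZCr {0} (ZB (N * r)) (↑F : Set Edg) (-(2 * (N * r : ℕ) : ℤ))
        (16 * (B * (4 * M3 * r)) : ℕ) (N * r / 8 : ℕ)) ≤ δ / 4 := by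
    have hR : N * r = 4 * (M1 * (B * (4 * M3 * r))) := by rw [hN]; ring
    have hK1 : 32 * (K * (B * (4 * M3 * r))) ≤ M1 * (B * (4 * M3 * r)) := by
      calc 32 * (K * (B * (4 * M3 * r))) = (32 * K) * (B * (4 * M3 * r)) := by ring
        _ ≤ M1 * (B * (4 * M3 * r)) := Nat.mul_le_mul_right _ (by omega)
    refine hZ (16 * (B * (4 * M3 * r))) (N * r / 8) (-(2 * (N * r : ℕ) : ℤ)) (by omega) ?_
      (by omega) (boxE (N * r)) (ZB (N * r)) (fun e he => mem_box_iff.2 he.1) (fun e he => he.2)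
    have e1 : K * (16 * (B * (4 * M3 * r))) = 16 * (K * (B * (4 * M3 * r))) := by ring
    rw [e1, hR]
    omega
  -- centres, first scale
  have s2 := h4_sum hC2 hc2 hw hH4 (s := 4 * M3 * r) (K := 4 * M1 * B) (m := B) (R := N * r)
    hl1 (le_of_eq (by rw [hN]; ring)) (by omega)
  have s3 := h4_sum hC2 hc2 hw hH4 (s := r) (K := N) (m := M3) (R := N * r)
    hr le_rfl (by omega)
  have e4 : 4 * M3 * r / 4 = M3 * r := by
    rw [show 4 * M3 * r = 4 * (M3 * r) by ring]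
    omega
  have s2' : (8 * ((4 * M1 * B : ℕ) : ℝ) + 4) * (C2 * (8 / (B : ℝ)) ^ (1 + c2)) ≤ δ / 4 := by
    refine le_trans (le_of_eq ?_) hB'
    push_cast
    ring
  have s3' : (8 * ((N : ℕ) : ℝ) + 4) * (C2 * (8 / (M3 : ℝ)) ^ (1 + c2)) ≤ δ / 4 := by
    refine le_trans (le_of_eq ?_) hM3'
    rw [hN]
    push_cast
    ring
  unfold BadY BadL
  rw [e4]
  refine (Pr_or_le ok2 _ _ _).trans ?_
  have s5 := Pr_or_le ok2 (boxE (N * r)) (fun F => ∃ s1 s2 : Bool,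
      Crs (sg s1 (N * r : ℕ)) (sg s2 (N * r : ℕ)) (4 * (B * (4 * M3 * r))) (N * r / 4)
        (↑F : Set Edg))
      (fun F => (∃ (d : Dir) (i : ℤ),
      |((4 * M3 * r : ℕ) : ℤ) * i| + (B * (4 * M3 * r) : ℕ) ≤ (N * r : ℕ) ∧
      H4 d (ctr d (N * r : ℕ) ((4 * M3 * r : ℕ) * i)).1 (ctr d (N * r : ℕ) ((4 * M3 * r : ℕ) * i)).2
        (8 * (4 * M3 * r)) (B * (4 * M3 * r)) (↑F : Set Edg)) ∨ (∃ (d : Dir) (i : ℤ),
      |(r : ℤ) * i| + (M3 * r : ℕ) ≤ (N * r : ℕ) ∧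
      H4 d (ctr d (N * r : ℕ) (r * i)).1 (ctr d (N * r : ℕ) (r * i)).2 (8 * r) (M3 * r)
        (↑F : Set Edg)))
  have s4 := Pr_or_le ok2 (boxE (N * r)) (fun F => ∃ (d : Dir) (i : ℤ),
      |((4 * M3 * r : ℕ) : ℤ) * i| + (B * (4 * M3 * r) : ℕ) ≤ (N * r : ℕ) ∧
      H4 d (ctr d (N * r : ℕ) ((4 * M3 * r : ℕ) * i)).1 (ctr d (N * r : ℕ) ((4 * M3 * r : ℕ) * i)).2
        (8 * (4 * M3 * r)) (B * (4 * M3 * r)) (↑F : Set Edg))
      (fun F => ∃ (d : Dir) (i : ℤ),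
      |(r : ℤ) * i| + (M3 * r : ℕ) ≤ (N * r : ℕ) ∧
      H4 d (ctr d (N * r : ℕ) (r * i)).1 (ctr d (N * r : ℕ) (r * i)).2 (8 * r) (M3 * r)
        (↑F : Set Edg))
  linarith

end TLAND

end Pool.Agent.W808.KY
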