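import Pool.Agent.W808.KY.T_EXB1
import Pool.Agent.W808.KY.Per
import Pool.Agent.W956.KZR.TMB1

/-!
# Step B, deterministic part, `2 k + 1` legs (helper956)
-/

set_option autoImplicit false

namespace Pool.Agent.W808.KY
open H974 H906.Cyl
open H12S (Dir hbE segD rimE H4 Crs Nr sqE)
open Pool.Agent.H160R2.ML (nm)
open Pool.Agent.H160R2.MU (Cel csq cpos prd shf BxS Bxs EP inSq PC Bad Cc)
open Pool.Agent.W808.HU (PTr labC)
open Pool.Agent.W801.OU (zp nrm Dg LZ RZ Cor bxz Zn)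
open Pool.Agent.W808.KU (AdmS TubeS CrrS)
open Pool.Agent.W808.KZ (vp fp nrp BZ mrg)
open Pool.Agent.W658.KZ (Exi)
open Relation (EqvGen)

namespace TMB1

open Pool.Agent.W808.KZ.TSEPB (Aw Sz aw_Sz dg_std dg0 dg1 vp_even vp_inj link_vp dg_near mem_Sz
  src_dco Far eqv_isol mem_Zn eqv_closed)
open Pool.Agent.W808.KZ.TEXA (mem_mrg cor01)
open Pool.Agent.W658.KZ.MB (Sz_zp cor0 cor0_aw not_cor1 cor_near ends_near dg_det cor1_two ex1
  at_Sz face_cases reach_symm)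
open Pool.Agent.W658.KZ.MB.Far (mono aw')
open Pool.Agent.W239.KZR (tv src_te tgt_te)
open TEXB1 (mem_FB mem_ExB1 Yb_te1 KL_tv KB1_tp touch_B1)

/-! ## links without orientation -/

/-- symmetric links -/
def SL (n k : ℕ) (H : Set Edg) (e : Edg) (x y : ℤ × ℤ) : Prop :=
  e ∈ Hn n k ∧ e ∉ zp (Zn n) ∧ ((e ∈ H ∪ En n ∧ (Dg (Zn n) 0 e x y ∨ Dg (Zn n) 0 e y x)) ∨
    (e ∉ H ∪ En n ∧ (Dg (Zn n) 1 e x y ∨ Dg (Zn n) 1 e y x)))

theorem SL.sy {n k : ℕ} {H : Set Edg} {e : Edg} {x y : ℤ × ℤ} (h : SL n k H e x y) :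
    SL n k H e y x := ⟨h.1, h.2.1, h.2.2.imp (fun h => ⟨h.1, h.2.symm⟩) (fun h => ⟨h.1, h.2.symm⟩)⟩

theorem SL.rc {n k : ℕ} {H : Set Edg} {e : Edg} {x y : ℤ × ℤ} (h : SL n k H e x y) :
    RY n k H x y := by
  obtain ⟨hH, hz, ⟨h1, h2 | h2⟩ | ⟨h1, h2 | h2⟩⟩ := h
  · exact EqvGen.rel _ _ ⟨e, hH, hz, Or.inl ⟨h1, h2⟩⟩
  · exact EqvGen.symm _ _ (EqvGen.rel _ _ ⟨e, hH, hz, Or.inl ⟨h1, h2⟩⟩)
  · exact EqvGen.rel _ _ ⟨e, hH, hz, Or.inr ⟨h1, h2⟩⟩
  · exact EqvGen.symm _ _ (EqvGen.rel _ _ ⟨e, hH, hz, Or.inr ⟨h1, h2⟩⟩)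

theorem SL.cor {n k : ℕ} {H : Set Edg} {e : Edg} {x y : ℤ × ℤ} (h : SL n k H e x y) :
    Cor (Zn n) 0 e x ∨ Cor (Zn n) 1 e x := by
  obtain ⟨-, hz, ⟨-, h2⟩ | ⟨-, h2⟩⟩ := h
  · exact Or.inl ⟨hz, y, h2⟩
  · exact Or.inr ⟨hz, y, h2⟩

/-- a property which is preserved by symmetric links -/
theorem rc_inv {n k : ℕ} {H : Set Edg} {P : ℤ × ℤ → Prop}
    (h : ∀ e x y, SL n k H e x y → P x → P y) {x y : ℤ × ℤ} (hxy : RY n k H x y) (hx : P x) :
    P y := by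
  refine (eqv_closed (Q := P) ?_ hxy).1 hx
  rintro a b ⟨e, hH, hz, hab⟩
  have h1 : SL n k H e a b :=
    ⟨hH, hz, hab.imp (fun h => ⟨h.1, Or.inl h.2⟩) (fun h => ⟨h.1, Or.inl h.2⟩)⟩
  exact ⟨h e a b h1, h e b a h1.sy⟩

/-- a point with no link is alone -/
theorem rc_isol {n k : ℕ} {H : Set Edg} {x y : ℤ × ℤ} (hxy : RY n k H x y)
    (h : ∀ e z, ¬ SL n k H e y z) : x = y := by
  refine eqv_isol (T := LZ (Zn n) (Hn n k) (H ∪ En n)) (fun z => ⟨?_, ?_⟩) hxy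
  · rintro ⟨e, hH, hz, hab⟩
    exact h e z ⟨hH, hz, hab.imp (fun h => ⟨h.1, Or.inl h.2⟩) (fun h => ⟨h.1, Or.inl h.2⟩)⟩
  · rintro ⟨e, hH, hz, hab⟩
    exact h e z ⟨hH, hz, hab.imp (fun h => ⟨h.1, Or.inr h.2⟩) (fun h => ⟨h.1, Or.inr h.2⟩)⟩

/-- squares away from holes and forced squares -/
theorem far_HE {n k : ℕ} {e : Edg} (hk : 1 ≤ k)
    (h : dco e = -1 → ∀ s : ℤ, (k : ℤ) < |e.1 + e.2.1 - 2 * n * s|) : e ∈ Hn n k ∧ e ∉ En n := by
  have key : (e.1 + e.2.1) % ((2 * n : ℕ) : ℤ) =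
      e.1 + e.2.1 - 2 * n * ((e.1 + e.2.1) / ((2 * n : ℕ) : ℤ)) := by
    have := Int.emod_add_mul_ediv (e.1 + e.2.1) ((2 * n : ℕ) : ℤ)
    push_cast at this ⊢
    linarith
  constructor
  · rintro ⟨h1, h2, h3⟩
    have h4 := h h1 ((e.1 + e.2.1) / ((2 * n : ℕ) : ℤ))
    rw [← key, lt_abs] at h4
    omega
  · rintro ⟨h1, h2⟩
    have h4 := h h1 ((e.1 + e.2.1) / ((2 * n : ℕ) : ℤ))
    rw [← key, h2] at h4
    simp only [abs_zero] at h4
    omega

/-- squares at a vertex far from the zippers -/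
theorem at_HE {n k : ℕ} {e : Edg} {v : Vtx} (hk : 1 ≤ k) (hv : Far n (k + 3) (vp v))
    (he : src e = v ∨ tgt e = v) : e ∈ Sz n ∧ e ∈ Hn n k ∧ e ∉ En n := by
  have h1 := ends_near e
  refine ⟨at_Sz (aw' hv (by omega)) he, far_HE hk ?_⟩
  intro hd s
  rcases hv with h | h
  · exfalso
    rcases he with rfl | rfl
    · omega
    · omega
  · have h2 := h s
    rw [le_abs] at h2
    rw [lt_abs]
    rcases he with rfl | rfl
    · omega
    · omega

/-- links at a vertex far from the zippers -/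
theorem SL.vert {n k : ℕ} {H : Set Edg} {e : Edg} {v : Vtx} {y : ℤ × ℤ} (hk : 1 ≤ k)
    (h : SL n k H e (vp v) y) (hv : Far n (k + 3) (vp v)) : e ∈ Sz n ∧ e ∈ H ∧
      ∃ w : Vtx, y = vp w ∧ ((src e = v ∧ tgt e = w) ∨ (src e = w ∧ tgt e = v)) := by
  obtain ⟨-, hz, h⟩ := h
  have h1 := link_vp (G := H ∪ En n) (y := y) hz (aw' hv (by omega))
  have hH : ∀ {P : Prop}, e ∈ H ∪ En n → (src e = v ∨ tgt e = v) → e ∈ H := by
    intro _ h2 h3
    rcases h2 with h2 | h2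
    · exact h2
    · exact absurd h2 (at_HE hk hv h3).2.2
  rcases h with ⟨a, b | b⟩ | ⟨a, b | b⟩
  · obtain ⟨c1, c2, c3, c4⟩ := h1.1 (Or.inl ⟨a, b⟩)
    exact ⟨c1, hH (P := True) c2 (Or.inl c3), _, c4, Or.inl ⟨c3, rfl⟩⟩
  · obtain ⟨c1, c2, c3, c4⟩ := h1.2 (Or.inl ⟨a, b⟩)
    exact ⟨c1, hH (P := True) c2 (Or.inr c3), _, c4, Or.inr ⟨rfl, c3⟩⟩
  · obtain ⟨c1, c2, c3, c4⟩ := h1.1 (Or.inr ⟨a, b⟩)
    exact ⟨c1, hH (P := True) c2 (Or.inl c3), _, c4, Or.inl ⟨c3, rfl⟩⟩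
  · obtain ⟨c1, c2, c3, c4⟩ := h1.2 (Or.inr ⟨a, b⟩)
    exact ⟨c1, hH (P := True) c2 (Or.inr c3), _, c4, Or.inr ⟨rfl, c3⟩⟩

/-- the two classes of corners are adjacent -/
theorem side {n k : ℕ} {e : Edg} {x y : ℤ × ℤ} (hH : e ∈ Hn n k) (hE : e ∉ En n)
    (hx : Cor (Zn n) 0 e x) (hy : Cor (Zn n) 1 e y) : Sidy n k x y ∨ Sidy n k y x := by
  obtain ⟨hz, x', hx⟩ := hx
  obtain ⟨-, y', hy⟩ := hy
  have key : ∀ a b a' b' : ℤ × ℤ, Dg (Zn n) 0 e a b → Dg (Zn n) 1 e a' b' →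
      (Sidy n k a a' ∨ Sidy n k a' a) ∧ (Sidy n k a b' ∨ Sidy n k b' a) ∧
      (Sidy n k b a' ∨ Sidy n k a' b) ∧ (Sidy n k b b' ∨ Sidy n k b' b) := by
    intro a b a' b' h1 h2
    cases h1 with
    | rise p1 =>
      cases h2 with
      | rise p2 => omega
      | fall p2 =>
        exact ⟨Or.inl (Sidy.lft e hz hH hE), Or.inl (Sidy.bot e hz hH hE),
          Or.inr (Sidy.top e hz hH hE), Or.inr (Sidy.rgt e hz hH hE)⟩
    | fall p1 =>
      cases h2 with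
      | rise p2 =>
        exact ⟨Or.inr (Sidy.lft e hz hH hE), Or.inl (Sidy.top e hz hH hE),
          Or.inr (Sidy.bot e hz hH hE), Or.inl (Sidy.rgt e hz hH hE)⟩
      | fall p2 => omega
  rcases hx with hx | hx <;> rcases hy with hy | hy
  · exact (key _ _ _ _ hx hy).1
  · exact (key _ _ _ _ hx hy).2.1
  · exact (key _ _ _ _ hx hy).2.2.1
  · exact (key _ _ _ _ hx hy).2.2.2

theorem scy_near {n k : ℕ} {s : ℤ} {i : ℕ} (hi : i < 2 * k + 1) (hk : 1 ≤ k) :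
    |(scy n k s i).1 - 2 * n * s| ≤ k + 1 ∧ ((scy n k s i).2 = 0 ∨ (scy n k s i).2 = -1) := by
  unfold scy
  split_ifs with h
  · refine ⟨?_, Or.inl rfl⟩
    rw [abs_le]
    simp only
    omega
  · refine ⟨?_, Or.inr rfl⟩
    rw [abs_le]
    simp only
    omega

theorem scy_not_far {n k : ℕ} {s : ℤ} {i : ℕ} (hi : i < 2 * k + 1) (hk : 1 ≤ k) :
    ¬ Far n (k + 3) (scy n k s i) := by
  have h1 := scy_near (n := n) (s := s) hi hk
  rintro (h | h)
  · omega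
  · have h2 := h s
    omega

/-! ## the data -/

/-- the data of step B -/
structure Cx (S : Finset ℕ) (N r k ρ l : ℕ) (c : Fin k → Cel) (n M : ℕ) (F G : Finset Edg) :
    Prop where
  hk : 2 ≤ k
  hN : k + 16 ≤ N
  hC : AdmS N k c
  hl : 1 ≤ l
  h1 : 32 * l ≤ ρ
  h2 : 64 * ρ ≤ r
  h3 : 4 * k + 4 ≤ ρ
  hn : n = prd N k * r
  hM : M = 4 * n
  hF : F ⊆ CE n M
  hS : ∀ i ∈ S, i < 2 * k + 1
  hXE : ∀ i ∈ S, ∀ x : ℤ × ℤ, XE N r k c n x → ¬ RY n k (per n (FB N r k c n M F)) (scy n k 0 i) x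
  hPT : PTr 0 n M l G
  k4 : KU.S_k4
  coc : S_COC
  tch : S_TCH
  exb : ∀ (s : ℤ) (i : ℕ) (x : ℤ × ℤ), i ∈ S →
    (RY n k (per n (FB N r k c n M (mrg (ExB1 S N r k ρ c n M F) F ∅))) (scy n k s i) x ↔
      RY n k (per n (FB N r k c n M F)) (scy n k s i) x)
  str : ∀ e ∈ Yb N r k ρ c n, ∀ s : ℤ, (ρ : ℤ) ≤ |e.1 + e.2.1 - 2 * n * s| ∨ (ρ : ℤ) ≤ dco e
  frb : ∀ i ∈ S, ∀ (s s' : ℤ) (x : ℤ × ℤ), RY n k (per n (FB N r k c n M F)) (scy n k s i) x →
    (16 * ρ : ℤ) < |x.1 - 2 * n * s'| ∨ (16 * ρ : ℤ) < |x.2 + 2 * N * r|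
  sep : ∀ i ∈ S, ∀ (s : ℤ) (u v : Vtx), RY n k (per n (FB N r k c n M F)) (scy n k s i) (vp u) →
    DvB N r k c u → DvB N r k c v → KL N r k ρ c n F v → Nr (4 * l) u v →
    RY n k (per n (FB N r k c n M F)) (vp u) (vp v)

section
variable {S : Finset ℕ} {N r k ρ l : ℕ} {c : Fin k → Cel} {n M : ℕ} {F G : Finset Edg}

theorem Cx.num (h : Cx S N r k ρ l c n M F G) : (1 : ℤ) ≤ l ∧ (32 : ℤ) * l ≤ ρ ∧
    (64 : ℤ) * ρ ≤ r ∧ (18 : ℤ) * r ≤ N * r ∧ (2 : ℤ) * r ≤ k * r ∧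
    (n : ℤ) = 4 * (N * r) + 16 * (k * r) ∧ (M : ℤ) = 4 * n ∧ (4 : ℤ) * k + 4 ≤ ρ ∧ (2 : ℤ) ≤ k := by
  have a1 := h.h1
  have a2 := h.h2
  have a3 := h.h3
  have a4 := h.hl
  have a5 := h.hM
  have a6 := h.hk
  have a7 : (18 : ℤ) ≤ N := by
    have := h.hN
    omega
  have a8 : (2 : ℤ) ≤ k := by omega
  refine ⟨by omega, by omega, by omega, mul_le_mul_of_nonneg_right a7 (by positivity),
    mul_le_mul_of_nonneg_right a8 (by positivity), ?_, by omega, by omega, a8⟩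
  rw [h.hn]
  unfold prd
  push_cast
  ring

theorem Cx.n0 (h : Cx S N r k ρ l c n M F G) : 0 < n := by
  have := h.num
  omega

theorem Cx.hN4 (h : Cx S N r k ρ l c n M F G) : k + 4 ≤ N := by
  have := h.hN
  omega

/-- squares of boxes and tube are in the band -/
theorem Cx.rext (h : Cx S N r k ρ l c n M F G) {e : Edg}
    (he : e ∈ EB N r k ∨ e ∈ ET N r k c) : |dco e| ≤ n + 4 * (N * r) + r + 1 := by
  have he' : e ∈ EP r (Bxs N k ∪ CrrS N k c) := by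
    rw [PerY.EP_union]
    exact he
  obtain ⟨z, hz, h1, h2⟩ := Pool.Agent.H160R2.MU.TSEPB.EP_loc he' (Or.inl ⟨rfl, rfl⟩)
  have h3 := (h.k4 N k c h.hk h.hN4 h.hC _ rfl).2.2.2 z hz
  have h4 := Pool.Agent.H160R2.MU.TSEPB.ext_sq (ν := prd N k + 4 * N)
    (by push_cast; exact h3) h1
  have h5 := src_dco e
  have e1 : (((prd N k + 4 * N) * r : ℕ) : ℤ) = n + 4 * (N * r) := by
    rw [h.hn]
    push_cast
    ring
  rw [e1, abs_le] at h4
  rw [abs_le]
  omega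

theorem Cx.redCE (h : Cx S N r k ρ l c n M F G) {e : Edg}
    (he : e ∈ EB N r k ∨ e ∈ ET N r k c) : red n e ∈ CE n M := by
  have h1 := abs_le.1 (h.rext he)
  have h2 := h.num
  exact red_mem h.n0 (by omega) (by omega)

theorem Cx.redR (h : Cx S N r k ρ l c n M F G) {e : Edg} :
    (red n e ∈ EB N r k ∨ red n e ∈ ET N r k c) ↔ (e ∈ EB N r k ∨ e ∈ ET N r k c) := by
  rw [KZ.Per.red_eq_te]
  exact PerY.EU_te h.k4 h.hk h.hN4 h.hC h.hn _ e

theorem Cx.mem_G (h : Cx S N r k ρ l c n M F G) {e : Edg} : e ∈ per n (FB N r k c n M F) ↔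
    (e ∈ EB N r k ∨ e ∈ ET N r k c) ∧ e ∈ per n F := by
  show red n e ∈ FB N r k c n M F ↔ _ ∧ red n e ∈ F
  rw [mem_FB, h.redR]
  exact ⟨fun h => h.2, fun h' => ⟨h.hF h'.2, h'⟩⟩

theorem Cx.mem_G1 (h : Cx S N r k ρ l c n M F G) {e : Edg} :
    e ∈ per n (FB N r k c n M (mrg (ExB1 S N r k ρ c n M F) F ∅)) ↔
    (e ∈ EB N r k ∨ e ∈ ET N r k c) ∧ e ∈ per n F ∧ e ∈ per n (ExB1 S N r k ρ c n M F) := by
  show red n e ∈ FB N r k c n M (mrg (ExB1 S N r k ρ c n M F) F ∅) ↔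
    _ ∧ red n e ∈ F ∧ red n e ∈ ExB1 S N r k ρ c n M F
  rw [mem_FB, h.redR, mem_mrg]
  constructor
  · rintro ⟨h1, h2, h3 | h3⟩
    · exact ⟨h2, h3⟩
    · exact absurd h3.1 (Finset.notMem_empty _)
  · rintro ⟨h1, h2, h3⟩
    exact ⟨h.hF h2, h1, Or.inl ⟨h2, h3⟩⟩

theorem mem_Gp {X : Finset Edg} {e : Edg} : e ∈ per n (mrg X F G) ↔
    (e ∈ per n F ∧ e ∈ per n X) ∨ (e ∈ per n G ∧ e ∉ per n X) := mem_mrg

/-- squares of the closed region are far from the tips -/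
theorem Cx.dtip (h : Cx S N r k ρ l c n M F G) {e : Edg} (he : e ∉ EB N r k) (s : ℤ)
    (h1 : |e.1 + e.2.1 - 2 * n * s| ≤ k + 3) (h2 : |dco e| ≤ 3) : False := by
  obtain ⟨n1, n2, n3, n4, n5, n6, n7, n8, n9⟩ := h.num
  have hr1 : 1 ≤ r := by omega
  have h3 := Pool.Agent.H160R2.MU.TSEPB.far_box hr1 he (Or.inl rfl) s
  rw [← h.hn] at h3
  have e0 : (src e).1 = e.1 := rfl
  have e0' : (src e).2 = e.2.1 := rfl
  rw [e0, e0'] at h3
  have hd : dco e = e.1 - e.2.1 ∨ dco e = e.1 - e.2.1 - 1 := by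
    obtain ⟨x, y, b⟩ := e
    cases b <;> simp [dco]
  obtain ⟨T, hT⟩ : ∃ T : ℤ, T = s * n := ⟨_, rfl⟩
  have e1 : (2 : ℤ) * n * s = 2 * T := by rw [hT]; ring
  rw [e1, abs_le] at h1
  rw [← hT] at h3
  rw [abs_le] at h2
  simp only [le_abs] at h3
  omega

/-- squares of the closed region are not holes and not forced -/
theorem Cx.dHE (h : Cx S N r k ρ l c n M F G) {e : Edg} (he : e ∉ EB N r k) :
    e ∈ Hn n k ∧ e ∉ En n := by
  obtain ⟨n1, n2, n3, n4, n5, n6, n7, n8, n9⟩ := h.num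
  refine far_HE (by omega) ?_
  intro hd s
  by_contra hcon
  push Not at hcon
  exact h.dtip he s (by omega) (by rw [hd]; norm_num)

/-! ## explored squares -/

theorem Cx.x1 (h : Cx S N r k ρ l c n M F G) {e : Edg} (he : e ∈ EB N r k ∨ e ∈ ET N r k c)
    {z : ℤ × ℤ} (hz : KB1 S N r k c n M F z) (hc : Cor (Zn n) 0 e z ∨ Cor (Zn n) 1 e z) :
    e ∈ per n (ExB1 S N r k ρ c n M F) :=
  touch_B1 ρ h.n0 (h.redCE he) (h.redR.2 he) hz hc

theorem Cx.x2 (h : Cx S N r k ρ l c n M F G) {e : Edg} (he : e ∈ per n (ExB1 S N r k ρ c n M F)) :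
    (∃ z, KB1 S N r k c n M F z ∧ (Cor (Zn n) 0 e z ∨ Cor (Zn n) 1 e z)) ∨
      KL N r k ρ c n F (src e) ∨ KL N r k ρ c n F (tgt e) := by
  have he' : red n e ∈ ExB1 S N r k ρ c n M F := he
  rw [mem_ExB1] at he'
  obtain ⟨q, hq⟩ : ∃ q : ℤ, e = KZ.Per.te n q (red n e) := by
    refine ⟨(e.1 + e.2.1) / (2 * n), ?_⟩
    rw [KZ.Per.red_eq_te, KZ.Per.te_te, add_neg_cancel, KZ.Per.te_zero]
  obtain ⟨-, -, ⟨x, hx, hcx⟩ | ⟨-, hK⟩⟩ := he'
  · left
    refine ⟨KZ.Per.tp n q x, KB1_tp h.n0 F q hx, ?_⟩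
    rw [hq]
    exact hcx.imp (KZ.Per.Cor_te1 q) (KZ.Per.Cor_te1 q)
  · right
    rw [hq, src_te, tgt_te]
    exact hK.imp (KL_tv h.k4 h.hk h.hN4 h.hC h.hn h.n0 F q)
      (KL_tv h.k4 h.hk h.hN4 h.hC h.hn h.n0 F q)

theorem Cx.x3 (h : Cx S N r k ρ l c n M F G) {e : Edg} (hY : e ∈ Yb N r k ρ c n)
    (hK : KL N r k ρ c n F (src e) ∨ KL N r k ρ c n F (tgt e)) :
    e ∈ per n (ExB1 S N r k ρ c n M F) := by
  show red n e ∈ ExB1 S N r k ρ c n M F
  rw [mem_ExB1]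
  refine ⟨h.redCE hY.1, h.redR.2 hY.1, Or.inr ⟨?_, ?_⟩⟩
  · rw [KZ.Per.red_eq_te]
    exact Yb_te1 h.k4 h.hk h.hN4 h.hC h.hn _ hY
  · rw [KZ.Per.red_eq_te, src_te, tgt_te]
    exact hK.imp (KL_tv h.k4 h.hk h.hN4 h.hC h.hn h.n0 F _)
      (KL_tv h.k4 h.hk h.hN4 h.hC h.hn h.n0 F _)

theorem Cx.x4 (h : Cx S N r k ρ l c n M F G) {e : Edg} (he : e ∈ per n (ExB1 S N r k ρ c n M F)) :
    e ∈ EB N r k ∨ e ∈ ET N r k c := by
  have he' : red n e ∈ ExB1 S N r k ρ c n M F := he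
  rw [mem_ExB1] at he'
  exact h.redR.1 he'.2.1

/-! ## the clusters of the sectors -/

theorem Cx.kxe (h : Cx S N r k ρ l c n M F G) {z : ℤ × ℤ} (hz : KB1 S N r k c n M F z) :
    ¬ XE N r k c n z := by
  obtain ⟨s, i, hi, hs⟩ := hz
  intro hX
  have h1 := PerY.RY_tp h.n0 (FB N r k c n M F) (-s) hs
  rw [PerY.tp_scy, add_neg_cancel] at h1
  exact h.hXE i hi _ (PerY.XE_tp h.k4 h.hk h.hN4 h.hC h.hn (-s) hX) h1

theorem k_rc {z w : ℤ × ℤ} (hz : KB1 S N r k c n M F z)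
    (h : RY n k (per n (FB N r k c n M F)) z w) : KB1 S N r k c n M F w := by
  obtain ⟨s, i, hi, hs⟩ := hz
  exact ⟨s, i, hi, EqvGen.trans _ _ _ hs h⟩

theorem Cx.k_rc1 (h : Cx S N r k ρ l c n M F G) {z w : ℤ × ℤ} (hz : KB1 S N r k c n M F z)
    (hzw : RY n k (per n (FB N r k c n M (mrg (ExB1 S N r k ρ c n M F) F ∅))) z w) :
    KB1 S N r k c n M F w := by
  obtain ⟨s, i, hi, hs⟩ := hz
  exact ⟨s, i, hi, (h.exb s i w hi).1 (EqvGen.trans _ _ _ ((h.exb s i z hi).2 hs) hzw)⟩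

/-- squares which are linked to the clusters are in boxes and tube -/
theorem Cx.linkR (h : Cx S N r k ρ l c n M F G) {e : Edg} {z w : ℤ × ℤ}
    (hz : KB1 S N r k c n M F z) (hl : SL n k (per n (FB N r k c n M F)) e z w) :
    e ∈ EB N r k ∨ e ∈ ET N r k c := by
  by_contra hcon
  push Not at hcon
  have hfG : e ∉ per n (FB N r k c n M F) ∪ En n := by
    rintro (h1 | h1)
    · rw [h.mem_G] at h1
      rcases h1.1 with h1 | h1
      · exact hcon.1 h1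
      · exact hcon.2 h1
    · exact (h.dHE hcon.1).2 h1
  obtain ⟨-, hzf, ⟨a, -⟩ | ⟨-, b⟩⟩ := hl
  · exact hfG a
  · exact h.kxe hz ⟨e, hcon.1, hcon.2, hzf, w, b⟩

/-- a square of the closed region near a point of a cluster: the point is a corner of a square of the
strip -/
theorem Cx.near (h : Cx S N r k ρ l c n M F G) {z : ℤ × ℤ} (hz : KB1 S N r k c n M F z) {e : Edg}
    (he : e ∉ EB N r k) (he' : e ∉ ET N r k c) (h1 : |e.1 + e.2.1 - z.1| ≤ 2)
    (h2 : |dco e - z.2| ≤ 2) : ∃ f ∈ Yb N r k ρ c n, Cor (Zn n) 0 f z ∨ Cor (Zn n) 1 f z := by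
  obtain ⟨n1, n2, n3, n4, n5, n6, n7, n8, n9⟩ := h.num
  have hz0 := hz
  obtain ⟨s, i, hi, hs⟩ := hz
  have hd : dco e = e.1 - e.2.1 ∨ dco e = e.1 - e.2.1 - 1 := by
    obtain ⟨x, y, b⟩ := e
    cases b <;> simp [dco]
  rw [abs_le] at h1 h2
  by_cases hiso : ∀ f w, ¬ SL n k (per n (FB N r k c n M F)) f z w
  · exfalso
    have hzs := rc_isol hs hiso
    have h3 := scy_near (n := n) (s := s) (h.hS i hi) (by omega)
    rw [hzs] at h3
    obtain ⟨h3, h4⟩ := h3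
    rw [abs_le] at h3
    exact h.dtip he s (by rw [abs_le]; omega) (by rw [abs_le]; omega)
  · push Not at hiso
    obtain ⟨f, w, hfw⟩ := hiso
    have hfR := h.linkR hz0 hfw
    have hcor := hfw.cor
    have hnear : (z.2 = dco f ∨ z.2 = dco f + 1) ∧ f.1 + f.2.1 - 1 ≤ z.1 ∧
        z.1 ≤ f.1 + f.2.1 + 1 := by
      rcases hcor with h | h
      · exact cor_near h
      · exact cor_near h
    have hdf : dco f = f.1 - f.2.1 ∨ dco f = f.1 - f.2.1 - 1 := by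
      obtain ⟨x, y, b⟩ := f
      cases b <;> simp [dco]
    refine ⟨f, ⟨hfR, ⟨e, he, he', ?_, ?_⟩, ?_⟩, hcor⟩
    · rw [abs_le]; omega
    · rw [abs_le]; omega
    · rintro ⟨s', hs1, hs2⟩
      have h3 := h.frb i hi s s' z hs
      have e1 : (2 : ℤ) * n * s' = 2 * (n * s') := by ring
      have e2 : (2 : ℤ) * N * r = 2 * (N * r) := by ring
      rw [e1, e2] at h3
      obtain ⟨T, hT⟩ : ∃ T : ℤ, T = n * s' := ⟨_, rfl⟩
      rw [← hT] at h3 hs1 hs2
      rw [abs_le] at hs1 hs2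
      rw [lt_abs, lt_abs] at h3
      omega

/-- corners of the squares of the strip are far from the zippers -/
theorem Cx.far_Y (h : Cx S N r k ρ l c n M F G) {f : Edg} (hf : f ∈ Yb N r k ρ c n) {z : ℤ × ℤ}
    (h1 : |f.1 + f.2.1 - z.1| ≤ 1) (h2 : |dco f - z.2| ≤ 1) : Far n (ρ - 1) z := by
  by_contra hcon
  unfold Far at hcon
  push Not at hcon
  obtain ⟨h3, s, h4⟩ := hcon
  have h5 := h.str f hf s
  rw [abs_lt] at h4
  rw [abs_le] at h1 h2
  rw [le_abs] at h5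
  omega

theorem Cx.far_cor (h : Cx S N r k ρ l c n M F G) {f : Edg} (hf : f ∈ Yb N r k ρ c n) {z : ℤ × ℤ}
    (hc : Cor (Zn n) 0 f z ∨ Cor (Zn n) 1 f z) : Far n (ρ - 1) z := by
  have h1 : (z.2 = dco f ∨ z.2 = dco f + 1) ∧ f.1 + f.2.1 - 1 ≤ z.1 ∧ z.1 ≤ f.1 + f.2.1 + 1 := by
    rcases hc with h | h
    · exact cor_near h
    · exact cor_near h
  exact h.far_Y hf (by rw [abs_le]; omega) (by rw [abs_le]; omega)

theorem Cx.far_end (h : Cx S N r k ρ l c n M F G) {f : Edg} (hf : f ∈ Yb N r k ρ c n) {v : Vtx}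
    (hv : src f = v ∨ tgt f = v) : Far n (ρ - 1) (vp v) := by
  have h1 := ends_near f
  rcases hv with rfl | rfl
  · exact h.far_Y hf (by rw [abs_le]; omega) (by rw [abs_le]; omega)
  · exact h.far_Y hf (by rw [abs_le]; omega) (by rw [abs_le]; omega)

theorem far_le {n : ℕ} {D D' : ℤ} {u : ℤ × ℤ} (h : Far n D u) (h1 : D' ≤ D) : Far n D' u :=
  mono h (by simp; omega) (by simp; omega)

/-- vertices of the clusters in the closed region are far from the zippers -/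
theorem Cx.far_D (h : Cx S N r k ρ l c n M F G) {v : Vtx} (hv : KB1 S N r k c n M F (vp v))
    (hD : DvB N r k c v) : Far n (ρ - 1) (vp v) ∧ |(vp v).2| ≤ n + 4 * (N * r) + r + 2 := by
  obtain ⟨e, h1, h2, h3⟩ := hD
  have h4 := ends_near e
  obtain ⟨f, hf, hc⟩ : ∃ f ∈ Yb N r k ρ c n, Cor (Zn n) 0 f (vp v) ∨ Cor (Zn n) 1 f (vp v) := by
    rcases h3 with rfl | rfl
    · exact h.near hv h1 h2 (by rw [abs_le]; omega) (by rw [abs_le]; omega)
    · exact h.near hv h1 h2 (by rw [abs_le]; omega) (by rw [abs_le]; omega)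
  refine ⟨h.far_cor hf hc, ?_⟩
  have h5 := abs_le.1 (h.rext hf.1)
  have h6 : ((vp v).2 = dco f ∨ (vp v).2 = dco f + 1) := by
    rcases hc with h | h
    · exact (cor_near h).1
    · exact (cor_near h).1
  rw [abs_le]
  omega

/-! ## local clusters -/

theorem kl_reach {v w : Vtx} (h : KL N r k ρ c n F v)
    (hvw : Reach (per n F ∩ Yb N r k ρ c n) v w) : KL N r k ρ c n F w := by
  obtain ⟨a, e, h1, h2, h3, h4⟩ := h
  exact ⟨a, e, h1, h2, h3, h4.trans hvw⟩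

/-- the cluster of a vertex of the strip which is not connected to the rest -/
theorem Cx.loc (h : Cx S N r k ρ l c n M F G) {H : Set Edg}
    (hH : ∀ e ∈ H, (e ∈ EB N r k ∨ e ∈ ET N r k c) ∧ e ∈ per n F) {v : Vtx}
    (hv : Far n (k + 3) (vp v)) (hK : ¬ KL N r k ρ c n F v) {z : ℤ × ℤ}
    (hz : RY n k H (vp v) z) : ∃ w : Vtx, z = vp w ∧ Reach (per n F ∩ Yb N r k ρ c n) v w ∧
      Far n (k + 3) (vp w) ∧ (w = v ∨ ∃ f ∈ Yb N r k ρ c n, src f = w ∨ tgt f = w) := by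
  obtain ⟨n1, n2, n3, n4, n5, n6, n7, n8, n9⟩ := h.num
  refine rc_inv (P := fun z => ∃ w : Vtx, z = vp w ∧ Reach (per n F ∩ Yb N r k ρ c n) v w ∧
    Far n (k + 3) (vp w) ∧ (w = v ∨ ∃ f ∈ Yb N r k ρ c n, src f = w ∨ tgt f = w)) ?_ hz
    ⟨v, rfl, Relation.ReflTransGen.refl, hv, Or.inl rfl⟩
  rintro e x y hxy ⟨w, rfl, hw, hAw, -⟩
  obtain ⟨hS, heH, w', rfl, hww⟩ := hxy.vert (by omega) hAw
  obtain ⟨hR, heF⟩ := hH e heH
  have heY : e ∈ Yb N r k ρ c n := by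
    by_contra hY
    exact hK ⟨w, e, hR, hY, hww.imp (fun h => h.1) (fun h => h.2), reach_symm hw⟩
  have hew : src e = w' ∨ tgt e = w' := hww.symm.imp (fun h => h.1) (fun h => h.2)
  exact ⟨w', rfl, hw.tail ⟨e, ⟨heF, heY⟩, hww⟩, far_le (h.far_end heY hew) (by omega),
    Or.inr ⟨e, heY, hew⟩⟩

/-- a vertex of the clusters in the closed region is marked in the strip -/
theorem Cx.klk (h : Cx S N r k ρ l c n M F G) {v : Vtx} (hv : KB1 S N r k c n M F (vp v))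
    (hD : DvB N r k c v) : KL N r k ρ c n F v := by
  obtain ⟨n1, n2, n3, n4, n5, n6, n7, n8, n9⟩ := h.num
  by_contra hK
  have hA : Far n (k + 3) (vp v) := far_le (h.far_D hv hD).1 (by omega)
  obtain ⟨s, i, hi, hs⟩ := hv
  obtain ⟨w, hw, -, hAw, -⟩ := h.loc (H := per n (FB N r k c n M F)) (fun e he => h.mem_G.1 he)
    hA hK (EqvGen.symm _ _ hs)
  rw [← hw] at hAw
  exact scy_not_far (h.hS i hi) (by omega) hAw

/-- an anchor: a vertex `u` of the cluster of the sector `i` in the closed region and a face `x` of the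
closed region next to it -/
def Anc (i N r k : ℕ) (c : Fin k → Cel) (n M : ℕ) (F : Finset Edg) (u : Vtx) (x : ℤ × ℤ) : Prop :=
  RY n k (per n (FB N r k c n M F)) (scy n k 0 i) (vp u) ∧ ∃ e : Edg, e ∉ EB N r k ∧
    e ∉ ET N r k c ∧ (src e = u ∨ tgt e = u) ∧ Cor (Zn n) 0 e (vp u) ∧ Cor (Zn n) 1 e x

theorem Anc.kb {i : ℕ} (hi : i ∈ S) {u : Vtx} {x : ℤ × ℤ} (ha : Anc i N r k c n M F u x) :
    KB1 S N r k c n M F (vp u) := ⟨0, i, hi, ha.1⟩

theorem Anc.xe {i : ℕ} {u : Vtx} {x : ℤ × ℤ} (ha : Anc i N r k c n M F u x) : XE N r k c n x := by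
  obtain ⟨-, e, h1, h2, -, -, h3⟩ := ha
  exact ⟨e, h1, h2, h3⟩

theorem Anc.dvb {i : ℕ} {u : Vtx} {x : ℤ × ℤ} (ha : Anc i N r k c n M F u x) :
    DvB N r k c u := by
  obtain ⟨-, e, h1, h2, h3, -, -⟩ := ha
  exact ⟨e, h1, h2, h3⟩

/-- **planarity**: turning around a vertex -/
theorem Cx.turn (h : Cx S N r k ρ l c n M F G) {i : ℕ} (hi : i ∈ S) {u : Vtx} {x : ℤ × ℤ}
    (ha : Anc i N r k c n M F u x) {v : Vtx} (hvA : Far n (k + 3) (vp v))
    (hvK : ¬ KB1 S N r k c n M F (vp v)) (hvL : ¬ KL N r k ρ c n F v)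
    {g : Edg} (hg : src g = v ∨ tgt g = v) {a b : ℤ × ℤ}
    (hab : Dg (Zn n) 1 g a b ∨ Dg (Zn n) 1 g b a)
    (hax : RY n k (per n (FB N r k c n M (mrg (ExB1 S N r k ρ c n M F) F ∅))) a x) :
    RY n k (per n (FB N r k c n M (mrg (ExB1 S N r k ρ c n M F) F ∅))) b x := by
  obtain ⟨n1, n2, n3, n4, n5, n6, n7, n8, n9⟩ := h.num
  obtain ⟨hgS, hgH, hgE⟩ := at_HE (by omega) hvA hg
  set G1 := per n (FB N r k c n M (mrg (ExB1 S N r k ρ c n M F) F ∅)) with hG1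
  by_cases hg1 : g ∈ G1
  · exfalso
    obtain ⟨hR, hgF, hgX⟩ := h.mem_G1.1 hg1
    have hgY : g ∈ Yb N r k ρ c n := by
      by_contra hY
      exact hvL ⟨v, g, hR, hY, hg, Relation.ReflTransGen.refl⟩
    have hst : Reach (per n F ∩ Yb N r k ρ c n) (src g) (tgt g) :=
      Relation.ReflTransGen.single ⟨g, ⟨hgF, hgY⟩, Or.inl ⟨rfl, rfl⟩⟩
    have hgG : RY n k (per n (FB N r k c n M F)) (vp (src g)) (vp (tgt g)) :=
      SL.rc (e := g) ⟨hgH, Sz_zp hgS,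
        Or.inl ⟨Or.inl (h.mem_G.2 ⟨hR, hgF⟩), Or.inl ((dg0 hgS).2 ⟨rfl, rfl⟩)⟩⟩
    have hxK : ¬ KB1 S N r k c n M F x := fun hk => h.kxe hk ha.xe
    obtain ⟨z, hz, hcz⟩ : ∃ z, KB1 S N r k c n M F z ∧ (Cor (Zn n) 0 g z ∨ Cor (Zn n) 1 g z) := by
      rcases h.x2 hgX with h1 | h1 | h1
      · exact h1
      · exfalso
        rcases hg with rfl | rfl
        · exact hvL h1
        · exact hvL (kl_reach h1 hst)
      · exfalso
        rcases hg with rfl | rfl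
        · exact hvL (kl_reach h1 (reach_symm hst))
        · exact hvL h1
    have hzb : z = b := by
      rcases hcz with hcz | hcz
      · exfalso
        rcases (cor0 hgS).1 hcz with rfl | rfl
        · rcases hg with rfl | rfl
          · exact hvK hz
          · exact hvK (k_rc hz hgG)
        · rcases hg with rfl | rfl
          · exact hvK (k_rc hz (EqvGen.symm _ _ hgG))
          · exact hvK hz
      · rcases cor1_two hab hcz with rfl | rfl
        · exact absurd (h.k_rc1 hz hax) hxK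
        · rfl
    subst hzb
    have hbK := hz
    obtain ⟨s', i', hi', hs'⟩ := hz
    -- the cluster of `v`
    have hvv : ∀ p : ℤ × ℤ, RY n k G1 p (vp v) → ∃ w : Vtx, p = vp w ∧ Far n (k + 3) (vp w) ∧
        ∃ f ∈ Yb N r k ρ c n, src f = w ∨ tgt f = w := by
      intro p hp
      obtain ⟨w, h1, -, h3, h4⟩ := h.loc (H := G1)
        (fun e he => ⟨(h.mem_G1.1 he).1, (h.mem_G1.1 he).2.1⟩) hvA hvL (EqvGen.symm _ _ hp)
      rcases h4 with rfl | h4
      · exact ⟨w, h1, h3, g, hgY, hg⟩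
      · exact ⟨w, h1, h3, h4⟩
    have nK : ∀ p, KB1 S N r k c n M F p → ¬ RY n k G1 p (vp v) ∧ ¬ RY n k G1 p x :=
      fun p hp => ⟨fun h1 => hvK (h.k_rc1 hp h1), fun h1 => hxK (h.k_rc1 hp h1)⟩
    have nX : ∀ p, XE N r k c n p → ¬ RY n k G1 p (vp v) := by
      rintro p ⟨e, -, -, hp⟩ h1
      obtain ⟨w, rfl, hw, -⟩ := hvv p h1
      exact not_cor1 (aw' hw (by omega)) hp
    have nS : ∀ (s : ℤ) (j : ℕ), j < 2 * k + 1 → ¬ RY n k G1 (scy n k s j) (vp v) := by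
      intro s j hj h1
      obtain ⟨w, h2, h3, -⟩ := hvv _ h1
      rw [← h2] at h3
      exact scy_not_far hj (by omega) h3
    obtain ⟨φ, hφ1, hφ2⟩ := h.coc n k G1
      (fun p q => (RY n k G1 p (vp v) ∧ RY n k G1 q x) ∨ (RY n k G1 p x ∧ RY n k G1 q (vp v)))
      (by omega) (by omega)
      (by
        rintro p q (⟨h1, h2⟩ | ⟨h1, h2⟩)
        · exact Or.inr ⟨h2, h1⟩
        · exact Or.inl ⟨h2, h1⟩)
      (by
        rintro p p' q hpp (⟨h1, h2⟩ | ⟨h1, h2⟩)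
        · exact Or.inl ⟨EqvGen.trans _ _ _ (EqvGen.symm _ _ hpp) h1, h2⟩
        · exact Or.inr ⟨EqvGen.trans _ _ _ (EqvGen.symm _ _ hpp) h1, h2⟩)
      (by
        rintro s j hj (⟨h1, -⟩ | ⟨-, h1⟩)
        · exact nS s j hj h1
        · exact nS s _ (Nat.mod_lt _ (by omega)) h1)
    have hsd : ∀ p q : ℤ × ℤ, (Sidy n k p q ∨ Sidy n k q p) →
        ¬ ((RY n k G1 p (vp v) ∧ RY n k G1 q x) ∨ (RY n k G1 p x ∧ RY n k G1 q (vp v))) →
        (φ p ↔ φ q) := by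
      rintro p q (hs | hs) hn
      · by_contra hne
        exact hn ((hφ2 p q hs).2 hne)
      · by_contra hne
        have := (hφ2 q p hs).2 (fun h => hne h.symm)
        rcases this with ⟨h1, h2⟩ | ⟨h1, h2⟩
        · exact hn (Or.inr ⟨h2, h1⟩)
        · exact hn (Or.inl ⟨h2, h1⟩)
    have hcv : Cor (Zn n) 0 g (vp v) := by
      rw [cor0 hgS]
      rcases hg with rfl | rfl
      · exact Or.inl rfl
      · exact Or.inr rfl
    have hca : Cor (Zn n) 1 g a := ⟨Sz_zp hgS, z, hab⟩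
    have hcb : Cor (Zn n) 1 g z := ⟨Sz_zp hgS, a, hab.symm⟩
    -- `v` and `a`
    have f1 : ¬ (φ (vp v) ↔ φ a) := by
      rcases side hgH hgE hcv hca with hs | hs
      · exact (hφ2 _ _ hs).1 (Or.inl ⟨EqvGen.refl _, hax⟩)
      · intro hiff
        exact (hφ2 _ _ hs).1 (Or.inr ⟨hax, EqvGen.refl _⟩) hiff.symm
    have f2 : φ a ↔ φ x := hφ1 _ _ hax
    have f3 : φ (vp v) ↔ φ z := by
      refine hsd _ _ (side hgH hgE hcv hcb) ?_
      rintro (⟨-, h1⟩ | ⟨h1, -⟩)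
      · exact (nK z hbK).2 h1
      · exact nX x ha.xe (EqvGen.symm _ _ h1)
    have f4 : φ (scy n k s' i') ↔ φ z := hφ1 _ _ ((h.exb s' i' z hi').2 hs')
    -- the tips
    have f5 : φ (scy n k s' i') ↔ φ (scy n k 0 i) := by
      refine h.tch N r k ρ c h.hk h.hN h.h3 (by omega) h.h2 h.hC n h.hn φ ?_ s' 0 i' i
        (h.hS i' hi') (h.hS i hi)
      intro p q hs hp hq
      refine hsd p q (Or.inl hs) ?_
      rintro (⟨h1, -⟩ | ⟨-, h1⟩)
      · obtain ⟨w, rfl, hw, f, hf, hfw⟩ := hvv p h1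
        refine (hp f hf).1 ?_
        rw [cor0 (at_Sz (aw' hw (by omega)) hfw)]
        rcases hfw with rfl | rfl
        · exact Or.inl rfl
        · exact Or.inr rfl
      · obtain ⟨w, rfl, hw, f, hf, hfw⟩ := hvv q h1
        refine (hq f hf).1 ?_
        rw [cor0 (at_Sz (aw' hw (by omega)) hfw)]
        rcases hfw with rfl | rfl
        · exact Or.inl rfl
        · exact Or.inr rfl
    have f6 : φ (scy n k 0 i) ↔ φ (vp u) := hφ1 _ _ ((h.exb 0 i _ hi).2 ha.1)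
    have huK : KB1 S N r k c n M F (vp u) := ha.kb hi
    obtain ⟨-, e0, he1, he2, -, he3, he4⟩ := ha
    obtain ⟨heH, heE⟩ := h.dHE he1
    have f7 : φ (vp u) ↔ φ x := by
      refine hsd _ _ (side heH heE he3 he4) ?_
      rintro (⟨h1, -⟩ | ⟨h1, -⟩)
      · exact (nK _ huK).1 h1
      · exact (nK _ huK).2 h1
    exact f1 (f3.trans (f4.symm.trans (f5.trans (f6.trans (f7.trans f2.symm)))))
  · have hba : RY n k G1 b a :=
      SL.rc (e := g) ⟨hgH, Sz_zp hgS, Or.inr ⟨fun h => h.elim hg1 hgE, hab.symm⟩⟩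
    exact EqvGen.trans _ _ _ hba hax

/-- all the faces around a vertex -/
theorem Cx.faces (h : Cx S N r k ρ l c n M F G) {i : ℕ} (hi : i ∈ S) {u : Vtx} {x : ℤ × ℤ}
    (ha : Anc i N r k c n M F u x) {v : Vtx} (hvA : Far n (k + 3) (vp v))
    (hvK : ¬ KB1 S N r k c n M F (vp v)) (hvL : ¬ KL N r k ρ c n F v)
    {f : Edg} (hf : src f = v ∨ tgt f = v) {y : ℤ × ℤ} (hy : Cor (Zn n) 1 f y)
    (hyx : RY n k (per n (FB N r k c n M (mrg (ExB1 S N r k ρ c n M F) F ∅))) y x) (g : Edg)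
    (hg : src g = v ∨ tgt g = v) (w : ℤ × ℤ) (hw : Cor (Zn n) 1 g w) :
    RY n k (per n (FB N r k c n M (mrg (ExB1 S N r k ρ c n M F) F ∅))) w x := by
  obtain ⟨n1, n2, n3, n4, n5, n6, n7, n8, n9⟩ := h.num
  have hvA' : Aw n (vp v) := aw' hvA (by omega)
  obtain ⟨p, q⟩ := v
  set T : ℤ × ℤ → Prop :=
    fun y => RY n k (per n (FB N r k c n M (mrg (ExB1 S N r k ρ c n M F) F ∅))) y x with hT
  have tn : ∀ (g : Edg), (src g = (p, q) ∨ tgt g = (p, q)) → ∀ a b : ℤ × ℤ,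
      Dg (Zn n) 1 g a b → (T a ↔ T b) := fun g hg a b hab =>
    ⟨h.turn hi ha hvA hvK hvL hg (Or.inl hab), h.turn hi ha hvA hvK hvL hg (Or.inr hab)⟩
  have t0 : T (p + q, p - q + 1) ↔ T (p + q + 1, p - q) := by
    have hgv : src ((p, q, true) : Edg) = (p, q) ∨ tgt ((p, q, true) : Edg) = (p, q) := Or.inl rfl
    refine tn _ hgv _ _ ?_
    rw [dg_std (at_Sz hvA' hgv)]
    have hd : dco ((p, q, true) : Edg) = p - q := by simp [dco]
    rw [hd]
    right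
    refine ⟨by simp only; omega, rfl, rfl⟩
  have t1 : T (p + q - 1, p - q) ↔ T (p + q, p - q + 1) := by
    have hgv : src ((p, q - 1, false) : Edg) = (p, q) ∨ tgt ((p, q - 1, false) : Edg) = (p, q) := by
      right
      show (p, q - 1 + 1) = (p, q)
      rw [sub_add_cancel]
    refine tn _ hgv _ _ ?_
    rw [dg_std (at_Sz hvA' hgv)]
    have hd : dco ((p, q - 1, false) : Edg) = p - q := by simp [dco]; ring
    rw [hd]
    left
    refine ⟨by simp only; omega, ?_, ?_⟩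
    · exact Prod.ext (by simp only; ring) (by simp only)
    · exact Prod.ext (by simp only; ring) (by simp only)
  have t2 : T (p + q - 1, p - q) ↔ T (p + q, p - q - 1) := by
    have hgv : src ((p - 1, q, true) : Edg) = (p, q) ∨ tgt ((p - 1, q, true) : Edg) = (p, q) := by
      right
      show (p - 1 + 1, q) = (p, q)
      rw [sub_add_cancel]
    refine tn _ hgv _ _ ?_
    rw [dg_std (at_Sz hvA' hgv)]
    have hd : dco ((p - 1, q, true) : Edg) = p - 1 - q := by simp [dco]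
    rw [hd]
    right
    refine ⟨by simp only; omega, ?_, ?_⟩
    · exact Prod.ext (by simp only; ring) (by simp only; ring)
    · exact Prod.ext (by simp only; ring) (by simp only; ring)
  have t3 : T (p + q, p - q - 1) ↔ T (p + q + 1, p - q) := by
    have hgv : src ((p, q, false) : Edg) = (p, q) ∨ tgt ((p, q, false) : Edg) = (p, q) := Or.inl rfl
    refine tn _ hgv _ _ ?_
    rw [dg_std (at_Sz hvA' hgv)]
    have hd : dco ((p, q, false) : Edg) = p - q - 1 := by simp [dco]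
    rw [hd]
    left
    refine ⟨by simp only; omega, rfl, ?_⟩
    exact Prod.ext (by simp only) (by simp only; ring)
  have hTy : T y := hyx
  have all : T (p + q + 1, p - q) ∧ T (p + q, p - q + 1) ∧ T (p + q - 1, p - q) ∧
      T (p + q, p - q - 1) := by
    rcases face_cases (at_Sz hvA' hf) hf hy with h1 | h1 | h1 | h1
    · simp only at h1
      rw [h1] at hTy
      tauto
    · simp only at h1
      rw [h1] at hTy
      tauto
    · simp only at h1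
      rw [h1] at hTy
      tauto
    · simp only at h1
      rw [h1] at hTy
      tauto
  show T w
  rcases face_cases (at_Sz hvA' hg) hg hw with h1 | h1 | h1 | h1
  · simp only at h1
    rw [h1]
    exact all.1
  · simp only at h1
    rw [h1]
    exact all.2.1
  · simp only at h1
    rw [h1]
    exact all.2.2.1
  · simp only at h1
    rw [h1]
    exact all.2.2.2

/-- exceptional points -/
def Exc (S : Finset ℕ) (i N r k ρ : ℕ) (c : Fin k → Cel) (n M : ℕ) (F G : Finset Edg)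
    (z : ℤ × ℤ) : Prop :=
  ∃ (v u : Vtx) (x : ℤ × ℤ), z = vp v ∧ ¬ KL N r k ρ c n F v ∧ ¬ KB1 S N r k c n M F (vp v) ∧
    Anc i N r k c n M F u x ∧ Reach (per n G) u v ∧
    ∀ g : Edg, (src g = v ∨ tgt g = v) → ∀ w : ℤ × ℤ, Cor (Zn n) 1 g w →
      RY n k (per n (FB N r k c n M (mrg (ExB1 S N r k ρ c n M F) F ∅))) w x

theorem Cx.far_anc (h : Cx S N r k ρ l c n M F G) {i : ℕ} (hi : i ∈ S) {u : Vtx} {x : ℤ × ℤ}
    (ha : Anc i N r k c n M F u x) {v : Vtx} (hv : Reach (per n G) u v) :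
    Nr (4 * l) u v ∧ Far n (k + 3) (vp v) ∧ |(vp v).2| ≤ n + 4 * (N * r) + r + 2 + 8 * l := by
  obtain ⟨n1, n2, n3, n4, n5, n6, n7, n8, n9⟩ := h.num
  obtain ⟨h1, h2⟩ := h.far_D (ha.kb hi) ha.dvb
  have h3 : Nr (4 * l) u v := by
    refine h.hPT u v ?_ ?_
    · have : (vp u).2 = u.1 - u.2 := rfl
      rw [← this]
      omega
    · exact hv
  have e1 : (vp v).1 - (vp u).1 = (v.1 - u.1) + (v.2 - u.2) := by
    show v.1 + v.2 - (u.1 + u.2) = _
    ring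
  have e2 : (vp v).2 - (vp u).2 = (v.1 - u.1) - (v.2 - u.2) := by
    show v.1 - v.2 - (u.1 - u.2) = _
    ring
  obtain ⟨h4, h5⟩ := h3
  rw [abs_le] at h4 h5
  refine ⟨⟨abs_le.2 h4, abs_le.2 h5⟩, ?_, ?_⟩
  · refine far_le (D := ρ - 1 - 8 * l) (mono h1 ?_ ?_) (by omega)
    · have : |(vp v).1 - (vp u).1| ≤ 8 * l := by
        rw [e1, abs_le]
        omega
      omega
    · have : |(vp v).2 - (vp u).2| ≤ 8 * l := by
        rw [e2, abs_le]
        omega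
      omega
  · rw [abs_le] at h2 ⊢
    omega

/-- the other end of an open square -/
theorem Cx.fin (h : Cx S N r k ρ l c n M F G) {i : ℕ} (hi : i ∈ S) {u : Vtx} {x : ℤ × ℤ}
    (ha : Anc i N r k c n M F u x)
    {v : Vtx} (hv : Reach (per n G) u v) {e : Edg} (he : src e = v ∨ tgt e = v)
    (hD : (e ∉ EB N r k ∧ e ∉ ET N r k c) ∨
      (e ∈ Yb N r k ρ c n ∧ e ∉ per n (ExB1 S N r k ρ c n M F)))
    {y : ℤ × ℤ} (hy : Cor (Zn n) 1 e y)
    (hyx : RY n k (per n (FB N r k c n M (mrg (ExB1 S N r k ρ c n M F) F ∅))) y x) :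
    RY n k (per n (FB N r k c n M F)) (scy n k 0 i) (vp v) ∨
      Exc S i N r k ρ c n M F G (vp v) := by
  obtain ⟨n1, n2, n3, n4, n5, n6, n7, n8, n9⟩ := h.num
  obtain ⟨hNr, hA, -⟩ := h.far_anc hi ha hv
  have hS := (at_HE (by omega) hA he).1
  have hkl : KL N r k ρ c n F v →
      RY n k (per n (FB N r k c n M F)) (scy n k 0 i) (vp v) := by
    intro hK
    rcases hD with hD | hD
    · exact EqvGen.trans _ _ _ ha.1 (h.sep i hi 0 u v ha.1 ha.dvb ⟨e, hD.1, hD.2, he⟩ hK hNr)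
    · exfalso
      apply hD.2
      apply h.x3 hD.1
      rcases he with rfl | rfl
      · exact Or.inl hK
      · exact Or.inr hK
  by_cases hvK : KB1 S N r k c n M F (vp v)
  · left
    rcases hD with hD | hD
    · exact hkl (h.klk hvK ⟨e, hD.1, hD.2, he⟩)
    · exfalso
      apply hD.2
      refine h.x1 hD.1.1 hvK (Or.inl ?_)
      rw [cor0 hS]
      rcases he with rfl | rfl
      · exact Or.inl rfl
      · exact Or.inr rfl
  · by_cases hvL : KL N r k ρ c n F v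
    · exact Or.inl (hkl hvL)
    · exact Or.inr ⟨v, u, x, rfl, hvL, hvK, ha, hv, h.faces hi ha hA hvK hvL he hy hyx⟩

/-- the states agree next to the clusters -/
theorem Cx.agree (h : Cx S N r k ρ l c n M F G) {e : Edg} {z : ℤ × ℤ}
    (hz : KB1 S N r k c n M F z) (hR : e ∈ EB N r k ∨ e ∈ ET N r k c)
    (hc : Cor (Zn n) 0 e z ∨ Cor (Zn n) 1 e z) :
    e ∈ per n (mrg (ExB1 S N r k ρ c n M F) F G) ∪ En n ↔
      e ∈ per n (FB N r k c n M F) ∪ En n := by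
  have hX := h.x1 hR hz hc
  refine or_congr ?_ Iff.rfl
  rw [mem_Gp, h.mem_G]
  tauto

/-- closure under the links of the new configuration -/
theorem Cx.clo (h : Cx S N r k ρ l c n M F G) {i : ℕ} (hi : i ∈ S) {e : Edg} {z z' : ℤ × ℤ}
    (hl : SL n k (per n (mrg (ExB1 S N r k ρ c n M F) F G)) e z z')
    (hz : RY n k (per n (FB N r k c n M F)) (scy n k 0 i) z ∨ Exc S i N r k ρ c n M F G z) :
    RY n k (per n (FB N r k c n M F)) (scy n k 0 i) z' ∨ Exc S i N r k ρ c n M F G z' := by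
  obtain ⟨n1, n2, n3, n4, n5, n6, n7, n8, n9⟩ := h.num
  rcases hz with hz | hz
  · have hK : KB1 S N r k c n M F z := ⟨0, i, hi, hz⟩
    by_cases hR : e ∈ EB N r k ∨ e ∈ ET N r k c
    · left
      have hag := h.agree hK hR hl.cor
      refine EqvGen.trans _ _ _ hz (SL.rc (e := e) ?_)
      obtain ⟨hH, hz0, hl⟩ := hl
      refine ⟨hH, hz0, ?_⟩
      rw [hag] at hl
      exact hl
    · have hD : e ∉ EB N r k ∧ e ∉ ET N r k c := by
        constructor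
        · exact fun h => hR (Or.inl h)
        · exact fun h => hR (Or.inr h)
      have hX : e ∉ per n (ExB1 S N r k ρ c n M F) := fun h' => hR (h.x4 h')
      have hl' := hl
      obtain ⟨-, hz0, ⟨he, hd⟩ | ⟨he, hd⟩⟩ := hl'
      · have hc0 : Cor (Zn n) 0 e z := ⟨hz0, z', hd⟩
        have hcn := cor_near hc0
        obtain ⟨f, hf, hcf⟩ := h.near hK hD.1 hD.2 (by rw [abs_le]; omega) (by rw [abs_le]; omega)
        have hA0 : Far n (k + 3) z := far_le (h.far_cor hf hcf) (by omega)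
        have hA : Aw n z := aw' hA0 (by omega)
        obtain ⟨hS, hu⟩ := cor0_aw hA hc0
        obtain ⟨u, rfl⟩ : ∃ u : Vtx, z = vp u := hu.elim (fun h => ⟨_, h⟩) (fun h => ⟨_, h⟩)
        obtain ⟨-, he0, w, rfl, hw⟩ := hl.vert (by omega) hA0
        have heG : e ∈ per n G := by
          rcases mem_Gp.1 he0 with h1 | h1
          · exact absurd h1.2 hX
          · exact h1.1
        obtain ⟨y, hy⟩ := ex1 hz0
        have ha : Anc i N r k c n M F u y :=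
          ⟨hz, e, hD.1, hD.2, hw.imp (fun h => h.1) (fun h => h.2), hc0, hy⟩
        exact h.fin hi ha (Relation.ReflTransGen.single ⟨e, heG, hw⟩)
          (hw.symm.imp (fun h => h.1) (fun h => h.2)) (Or.inl hD) hy (EqvGen.refl _)
      · exact absurd ⟨e, hD.1, hD.2, hz0, z', hd⟩ (h.kxe hK)
  · obtain ⟨v, u, x, rfl, hvL, hvK, ha, huv, hAF⟩ := hz
    obtain ⟨hNr, hA, -⟩ := h.far_anc hi ha huv
    obtain ⟨hS, he, w, rfl, hw⟩ := hl.vert (by omega) hA
    have hev : src e = v ∨ tgt e = v := hw.imp (fun h => h.1) (fun h => h.2)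
    have hew : src e = w ∨ tgt e = w := hw.symm.imp (fun h => h.1) (fun h => h.2)
    have hxK : ¬ KB1 S N r k c n M F x := fun hk => h.kxe hk ha.xe
    obtain ⟨y, hy⟩ := ex1 hl.2.1
    have key : (e ∉ EB N r k ∧ e ∉ ET N r k c) ∨
        (e ∈ Yb N r k ρ c n ∧ e ∉ per n (ExB1 S N r k ρ c n M F)) := by
      by_cases hR : e ∈ EB N r k ∨ e ∈ ET N r k c
      · right
        have heY : e ∈ Yb N r k ρ c n := by
          by_contra hY
          exact hvL ⟨v, e, hR, hY, hev, Relation.ReflTransGen.refl⟩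
        refine ⟨heY, fun hX => ?_⟩
        have heF : e ∈ per n F := by
          rcases mem_Gp.1 he with h1 | h1
          · exact h1.1
          · exact absurd hX h1.2
        have hst : Reach (per n F ∩ Yb N r k ρ c n) (src e) (tgt e) :=
          Relation.ReflTransGen.single ⟨e, ⟨heF, heY⟩, Or.inl ⟨rfl, rfl⟩⟩
        have hgG : RY n k (per n (FB N r k c n M F)) (vp (src e)) (vp (tgt e)) :=
          SL.rc (e := e) ⟨hl.1, Sz_zp hS,
            Or.inl ⟨Or.inl (h.mem_G.2 ⟨hR, heF⟩), Or.inl ((dg0 hS).2 ⟨rfl, rfl⟩)⟩⟩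
        rcases h.x2 hX with ⟨z, hz, hcz | hcz⟩ | h1 | h1
        · rcases (cor0 hS).1 hcz with rfl | rfl
          · rcases hev with rfl | rfl
            · exact hvK hz
            · exact hvK (k_rc hz hgG)
          · rcases hev with rfl | rfl
            · exact hvK (k_rc hz (EqvGen.symm _ _ hgG))
            · exact hvK hz
        · exact hxK (h.k_rc1 hz (hAF e hev z hcz))
        · rcases hev with rfl | rfl
          · exact hvL h1
          · exact hvL (kl_reach h1 hst)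
        · rcases hev with rfl | rfl
          · exact hvL (kl_reach h1 (reach_symm hst))
          · exact hvL h1
      · exact Or.inl ⟨fun h => hR (Or.inl h), fun h => hR (Or.inr h)⟩
    have heG : e ∈ per n G := by
      rcases mem_Gp.1 he with h1 | h1
      · exfalso
        rcases key with hk | hk
        · rcases h.x4 h1.2 with h2 | h2
          · exact hk.1 h2
          · exact hk.2 h2
        · exact hk.2 h1.2
      · exact h1.1
    exact h.fin hi ha (huv.tail ⟨e, heG, hw⟩) hew key hy (hAF e hev y hy)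

end

end TMB1

open TMB1 Pool.Agent.W658.KZ.MB in
theorem t_MB1 : S_W2 → S_NA → S_COC → KU.S_k1 → KU.S_k2 → KU.S_k3 → KU.S_k4 → KU.S_k5 → S_TCH →
    S_STR → S_FRB → S_EXB1 → S_SEPB1 → S_MB1 := by
  intro _ _ hCOC _ _ _ hk4 _ hTCH hSTR hFRB hEXB hSEP S N r k ρ l c hk hN hC hl h1 h2 h3 n M hn
    hM F G hF hG hBad hBZ hPT ⟨hG3, hS, hXE⟩
  have h : Cx S N r k ρ l c n M F G :=
    { hk := hk, hN := hN, hC := hC, hl := hl, h1 := h1, h2 := h2, h3 := h3, hn := hn, hM := hM,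
      hF := hF, hS := hS.2.1, hXE := hXE, hPT := hPT, k4 := hk4, coc := hCOC, tch := hTCH
      exb := fun s i x hi => (hEXB S N r k ρ c hk hN h3 h2 hC n M hn hM F ∅ hF
        (Finset.empty_subset _)).2.2 s i x hi
      str := fun e he s => hSTR N r k ρ c hk hN h3 (by omega) h2 hC n hn e he s
      frb := fun i hi s s' x hx => hFRB i N r k ρ c (hS.2.1 i hi) hk hN hC h3 (by omega) h2 n M hn
        hM F hF hBZ (hXE i hi) s s' x hx
      sep := fun i hi s u v hu hDu hDv hK hNr => hSEP i N r k ρ l c (hS.2.1 i hi) hk hN hC hl h1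
        h2 h3 n M hn hM F hF hBad hBZ (hXE i hi) s u v hu hDu hDv hK hNr }
  obtain ⟨n1, n2, n3, n4, n5, n6, n7, n8, n9⟩ := h.num
  refine ⟨S, hS, fun i hi => ?_⟩
  have hik := hS.2.1 i hi
  have inv : ∀ x, RY n k (per n (mrg (ExB1 S N r k ρ c n M F) F G)) (scy n k 0 i) x →
      RY n k (per n (FB N r k c n M F)) (scy n k 0 i) x ∨ Exc S i N r k ρ c n M F G x :=
    fun x hx => rc_inv (P := fun z => RY n k (per n (FB N r k c n M F)) (scy n k 0 i) z ∨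
      Exc S i N r k ρ c n M F G z) (fun _ _ _ hl hz => h.clo hi hl hz) hx
      (Or.inl (EqvGen.refl _))
  refine ⟨?_, ?_, ?_⟩
  · obtain ⟨s, hs, d, hd, hsd⟩ := (hG3 i hik).2
    refine ⟨s, hs, d, hd, ?_⟩
    have := rc_inv (P := fun z =>
      RY n k (per n (mrg (ExB1 S N r k ρ c n M F) F G)) (scy n k 0 i) z ∧
      RY n k (per n (FB N r k c n M F)) (scy n k 0 i) z) (x := scy n k 0 i) (y := scy n k s d)
      (H := per n (FB N r k c n M F)) ?_ hsd ⟨EqvGen.refl _, EqvGen.refl _⟩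
    · exact this.1
    · rintro e x y hl ⟨hx1, hx2⟩
      have hK : KB1 S N r k c n M F x := ⟨0, i, hi, hx2⟩
      have hR := h.linkR hK hl
      have hag := h.agree hK hR hl.cor
      refine ⟨EqvGen.trans _ _ _ hx1 (SL.rc (e := e) ?_), EqvGen.trans _ _ _ hx2 hl.rc⟩
      obtain ⟨hH, hz0, hl⟩ := hl
      refine ⟨hH, hz0, ?_⟩
      rw [← hag] at hl
      exact hl
  · intro d hd hdc hcon
    rcases inv _ hcon with h3 | ⟨v, u, x, hv, -, -, ha, huv, -⟩
    · exact (hG3 i hik).1 d hd hdc h3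
    · have hA := (h.far_anc hi ha huv).2.1
      rw [← hv] at hA
      exact scy_not_far hd (by omega) hA
  · intro x hx
    rcases inv _ hx with h3 | ⟨v, u, y, rfl, -, -, ha, huv, -⟩
    · by_cases hiso : ∀ f w, ¬ SL n k (per n (FB N r k c n M F)) f x w
      · rw [← rc_isol h3 hiso]
        have h4 := (scy_near (n := n) (s := 0) hik (by omega)).2
        rw [abs_lt]
        omega
      · push Not at hiso
        obtain ⟨f, w, hfw⟩ := hiso
        have hR := h.linkR ⟨0, i, hi, h3⟩ hfw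
        have h4 := abs_le.1 (h.rext hR)
        have h5 : x.2 = dco f ∨ x.2 = dco f + 1 := by
          rcases hfw.cor with h | h
          · exact (cor_near h).1
          · exact (cor_near h).1
        rw [abs_lt]
        omega
    · have h4 := (h.far_anc hi ha huv).2.2
      omega

end Pool.Agent.W808.KY
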